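import Pool.Agent.HBOne.BlaRay
import Pool.Agent.HBInd.AvgSum

/-!
# Circle averages of `log |f (conj z)| - log |f z| - 2 c Im z`

`D.rep` in the form `HasSum (KK 1 (z / a_i)) (log ‖f z‖ - m log ‖z‖ - A - b Re z + c Im z + Γ Im z)`, `Γ = ∑ Im a_i / |a_i|²`
(`KK 1 (z/a) = log |1 - z/a| + Re z Re (1/a) + Im z Im a/|a|²`). `hasSum_circleAverage` (`HBInd.AvgSum`, `p = 1`, `σ = 3/2`,
`D.sumSq`) at `z = ray r θ` and at `conj z`, `δ ∈ (0, 1)`, subtract (the averages of `m log ‖z‖`, `Re z` agree for the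
conjugate circles, that of `Im z` is `± Im z`; `log ‖f‖` is circle integrable). With
`KD 1 δ w = log max(|1 - w|, δ|w|) + Re w`, `Re (conj z / a) - Re (z / a) = - 2 Im z Im a/|a|²`:
`∑_i log (max (|z - conj a_i|) (δ |z|) / max (|z - a_i|) (δ |z|)) = avg_{conj z} log ‖f‖ - avg_z log ‖f‖ - 2 c Im z`.
Each term is `≤ (1/2) log (1 + 4 Im z Im a / max²) ≤ 2 r Im a / max (|z - a|, δ r)² ≤ C_δ r Im a / (r² + |a|²)`
(`|a| ≥ 2 r`: `|z - a| ≥ |a|/2`). So the sum is `≤ C_δ r S r` with `S r → 0` (`tendsto_sumIm`).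
-/

namespace HBOne

open HBInd HBInf Complex Filter Topology Set MeasureTheory
open scoped Real ComplexConjugate

variable {f : ℂ → ℂ}

private lemma blc_log_int (z : ℂ) (R : ℝ) : CircleIntegrable (fun u : ℂ => Real.log ‖u‖) z R :=
  MeromorphicOn.circleIntegrable_log_norm (f := fun u => u) (fun _ _ => by fun_prop)

private lemma blc_f_int (hf : Differentiable ℂ f) (z : ℂ) (R : ℝ) :
    CircleIntegrable (fun u : ℂ => Real.log ‖f u‖) z R :=
  MeromorphicOn.circleIntegrable_log_norm (f := f) (fun w _ => (hf.analyticAt w).meromorphicAt)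

/-- the average of `log ‖u‖` -/
private lemma blc_avg_log {z : ℂ} {R : ℝ} (hR : R ≠ 0) :
    Real.circleAverage (fun u : ℂ => Real.log ‖u‖) z R =
      Real.log R + Real.posLog (R⁻¹ * ‖z‖) := by
  have := circleAverage_log_norm_sub_const_eq_log_radius_add_posLog (a := 0) (c := z) hR
  simpa using this

private lemma blc_inv_re (a u : ℂ) :
    (1 / a * u).re = u.re * (1 / a).re + u.im * (a.im / ‖a‖ ^ 2) := by
  rw [Complex.mul_re, one_div, Complex.inv_im, Complex.inv_re, Complex.normSq_eq_norm_sq]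
  ring

private lemma blc_hasSum (hf : InClass 1 f) (D : OD f) {δ : ℝ} (hδ : δ ∈ Ioo (0 : ℝ) 1) {z : ℂ}
    (hz : z ≠ 0) :
    HasSum (fun i => KD 1 δ (1 / D.a i * z))
      (Real.circleAverage (fun z => Real.log ‖f z‖) z (δ * ‖z‖) -
        D.m * (Real.log (δ * ‖z‖) + Real.posLog ((δ * ‖z‖)⁻¹ * ‖z‖)) - D.A - D.b * z.re +
          (D.c + ∑' i, (D.a i).im / ‖D.a i‖ ^ 2) * z.im) := by
  have := D.cnt
  set Γ := ∑' i, (D.a i).im / ‖D.a i‖ ^ 2 with hΓ
  set κ : ℂ := ⟨-D.b, -(D.c + Γ)⟩ with hκ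
  have hκre : ∀ u : ℂ, ((1 : ℕ) : ℝ) * (κ * u).re = -(D.b * u.re) + (D.c + Γ) * u.im := by
    intro u
    rw [Complex.mul_re]
    simp only [hκ]
    push_cast
    ring
  have hF : ∀ u : ℂ, u ≠ 0 → (∀ i, 1 / D.a i * u ≠ 1) →
      HasSum (fun i => KK 1 (1 / D.a i * u))
        (Real.log ‖f u‖ - D.m * Real.log ‖u‖ - D.A + ((1 : ℕ) : ℝ) * (κ * u).re) := by
    intro u hu hne
    have h1 : ∀ i, u ≠ D.a i := by
      intro i hi
      apply hne i
      rw [hi]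
      exact one_div_mul_cancel (D.ne i)
    obtain ⟨h2, h3⟩ := D.rep u hu h1
    have h4 := h3.add (D.sumIm.hasSum.mul_left u.im)
    convert h4 using 1
    · funext i
      unfold KK
      rw [blc_inv_re, one_div_mul_eq_div]
      push_cast
      ring
    · rw [hκre]
      ring
  have h5 := hasSum_circleAverage (p := 1) le_rfl (σ := 3 / 2) (by norm_num) (by norm_num)
    D.sumSq hF hδ hz
  have hR : δ * ‖z‖ ≠ 0 := (mul_pos hδ.1 (norm_pos_iff.2 hz)).ne'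
  convert h5 using 1
  have i1 := blc_f_int hf.entire z (δ * ‖z‖)
  have i2 : CircleIntegrable (fun u : ℂ => (D.m : ℝ) * Real.log ‖u‖) z (δ * ‖z‖) :=
    (blc_log_int z (δ * ‖z‖)).const_smul (a := (D.m : ℝ))
  have i3 : CircleIntegrable (fun _ : ℂ => D.A) z (δ * ‖z‖) := circleIntegrable_const _ _ _
  have i4 : CircleIntegrable (fun u : ℂ => ((1 : ℕ) : ℝ) * (κ * u).re) z (δ * ‖z‖) :=
    avgsum_circleIntegrable_re 1 κ z _
  have e1 : Real.circleAverage (fun u : ℂ => Real.log ‖f u‖ - D.m * Real.log ‖u‖ - D.A +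
      ((1 : ℕ) : ℝ) * (κ * u).re) z (δ * ‖z‖) =
      Real.circleAverage (fun z => Real.log ‖f z‖) z (δ * ‖z‖) -
        Real.circleAverage (fun u : ℂ => (D.m : ℝ) * Real.log ‖u‖) z (δ * ‖z‖) -
          Real.circleAverage (fun _ : ℂ => D.A) z (δ * ‖z‖) +
            Real.circleAverage (fun u : ℂ => ((1 : ℕ) : ℝ) * (κ * u).re) z (δ * ‖z‖) := by
    have j1 := Real.circleAverage_fun_sub i1 i2
    have j2 := Real.circleAverage_fun_sub (i1.sub i2) i3
    have j3 := Real.circleAverage_fun_add ((i1.sub i2).sub i3) i4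
    simp only [Pi.sub_apply] at j2 j3
    rw [j3]
    congr 1
    rw [← j1]
    exact j2
  have e2 : Real.circleAverage (fun u : ℂ => (D.m : ℝ) * Real.log ‖u‖) z (δ * ‖z‖) =
      D.m * (Real.log (δ * ‖z‖) + Real.posLog ((δ * ‖z‖)⁻¹ * ‖z‖)) := by
    rw [← blc_avg_log hR]
    exact Real.circleAverage_fun_smul (a := (D.m : ℝ)) (f := fun u : ℂ => Real.log ‖u‖)
  rw [e1, e2, Real.circleAverage_const, avgsum_circleAverage_re, hκre]
  ring

private lemma blc_sq (z : ℂ) : ‖z‖ ^ 2 = z.re ^ 2 + z.im ^ 2 := by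
  rw [← Complex.normSq_eq_norm_sq, Complex.normSq_apply]
  ring

private lemma blc_lower {z a : ℂ} {r δ : ℝ} (hr : 0 < r) (hz : ‖z‖ = r) (hδ : δ ∈ Ioo (0 : ℝ) 1) :
    δ ^ 2 / 5 * (r ^ 2 + ‖a‖ ^ 2) ≤ (max ‖z - a‖ (δ * r)) ^ 2 := by
  have hδ1 : δ ^ 2 ≤ 1 := pow_le_one₀ hδ.1.le hδ.2.le
  rcases le_total ‖a‖ (2 * r) with h | h
  · have h1 : (δ * r) ^ 2 ≤ (max ‖z - a‖ (δ * r)) ^ 2 := by
      apply pow_le_pow_left₀ (mul_pos hδ.1 hr).le
      exact le_max_right _ _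
    have h2 : ‖a‖ ^ 2 ≤ (2 * r) ^ 2 := pow_le_pow_left₀ (norm_nonneg _) h 2
    have h3 : 0 < δ ^ 2 := pow_pos hδ.1 2
    nlinarith
  · have h1 : ‖a‖ / 2 ≤ ‖z - a‖ := by
      have h2 := norm_sub_norm_le a z
      rw [norm_sub_rev, hz] at h2
      linarith
    have h3 : (‖a‖ / 2) ^ 2 ≤ (max ‖z - a‖ (δ * r)) ^ 2 :=
      pow_le_pow_left₀ (by positivity) (h1.trans (le_max_left _ _)) 2
    have h4 : (2 * r) ^ 2 ≤ ‖a‖ ^ 2 := pow_le_pow_left₀ (by positivity) h 2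
    have h5 : δ ^ 2 / 5 * (r ^ 2 + ‖a‖ ^ 2) ≤ 1 / 5 * (r ^ 2 + ‖a‖ ^ 2) := by
      apply mul_le_mul_of_nonneg_right _ (by positivity)
      linarith
    nlinarith

/-- the estimate of one term -/
private lemma blc_term {z a : ℂ} {r δ : ℝ} (hr : 0 < r) (hz : ‖z‖ = r) (hδ : δ ∈ Ioo (0 : ℝ) 1)
    (hy : 0 ≤ z.im) (ha : a ≠ 0) (hs : 0 ≤ a.im) :
    Real.log (max ‖1 - 1 / a * conj z‖ (δ * ‖1 / a * conj z‖)) -
      Real.log (max ‖1 - 1 / a * z‖ (δ * ‖1 / a * z‖)) ≤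
        10 / δ ^ 2 * r * (a.im / (r ^ 2 + ‖a‖ ^ 2)) := by
  have han : 0 < ‖a‖ := norm_pos_iff.2 ha
  have hδr : 0 < δ * r := mul_pos hδ.1 hr
  have hk : ∀ w : ℂ, ‖w‖ = r → max ‖1 - 1 / a * w‖ (δ * ‖1 / a * w‖) =
      max ‖w - a‖ (δ * r) / ‖a‖ := by
    intro w hw
    have h1 : ‖1 - 1 / a * w‖ = ‖w - a‖ / ‖a‖ := by
      rw [← norm_div, ← norm_neg]
      congr 1
      field_simp
      ring
    have h2 : δ * ‖1 / a * w‖ = δ * r / ‖a‖ := by
      rw [norm_mul, norm_div, norm_one, hw]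
      ring
    rw [h1, h2, max_div_div_right han.le]
  rw [hk z hz, hk (conj z) (by rw [Complex.norm_conj, hz])]
  set M := max ‖z - a‖ (δ * r) with hM
  set M' := max ‖conj z - a‖ (δ * r) with hM'
  have hM0 : 0 < M := lt_of_lt_of_le hδr (le_max_right _ _)
  have hM0' : 0 < M' := lt_of_lt_of_le hδr (le_max_right _ _)
  rw [Real.log_div hM0'.ne' han.ne', Real.log_div hM0.ne' han.ne']
  have h3 : M' ^ 2 ≤ M ^ 2 + 4 * z.im * a.im := by
    have h4 : ‖conj z - a‖ ^ 2 = ‖z - a‖ ^ 2 + 4 * z.im * a.im := by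
      rw [blc_sq, blc_sq]
      simp only [Complex.sub_re, Complex.sub_im, Complex.conj_re, Complex.conj_im]
      ring
    have h5 : ‖z - a‖ ^ 2 ≤ M ^ 2 := pow_le_pow_left₀ (norm_nonneg _) (le_max_left _ _) 2
    have h6 : (δ * r) ^ 2 ≤ M ^ 2 := pow_le_pow_left₀ hδr.le (le_max_right _ _) 2
    have h7 : 0 ≤ 4 * z.im * a.im := by positivity
    rcases le_total ‖conj z - a‖ (δ * r) with h | h
    · rw [hM', max_eq_right h]
      linarith
    · rw [hM', max_eq_left h]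
      linarith
  have h8 : Real.log M' - Real.log M = 1 / 2 * Real.log (M' ^ 2 / M ^ 2) := by
    rw [Real.log_div (by positivity) (by positivity), Real.log_pow, Real.log_pow]
    push_cast
    ring
  have h9 : Real.log (M' ^ 2 / M ^ 2) ≤ 4 * z.im * a.im / M ^ 2 := by
    have h10 := Real.log_le_sub_one_of_pos (x := M' ^ 2 / M ^ 2) (by positivity)
    refine h10.trans ?_
    rw [div_sub_one (by positivity)]
    apply div_le_div_of_nonneg_right _ (by positivity)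
    linarith
  have h11 := blc_lower (a := a) hr hz hδ
  rw [← hM] at h11
  have hzi : z.im ≤ r := by
    rw [← hz]
    exact (le_abs_self _).trans (Complex.abs_im_le_norm z)
  have h12 : 0 < δ ^ 2 / 5 * (r ^ 2 + ‖a‖ ^ 2) := by
    have := hδ.1
    positivity
  calc Real.log M' - Real.log ‖a‖ - (Real.log M - Real.log ‖a‖) = Real.log M' - Real.log M := by ring
    _ = 1 / 2 * Real.log (M' ^ 2 / M ^ 2) := h8
    _ ≤ 1 / 2 * (4 * z.im * a.im / M ^ 2) := by gcongr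
    _ ≤ 1 / 2 * (4 * r * a.im / (δ ^ 2 / 5 * (r ^ 2 + ‖a‖ ^ 2))) := by gcongr
    _ = 10 / δ ^ 2 * r * (a.im / (r ^ 2 + ‖a‖ ^ 2)) := by
        have := hδ.1
        field_simp
        ring

theorem circ_avg (hf : InClass 1 f) (D : OD f) {θ : ℝ} (hθ : θ ∈ Ioo 0 π) {δ : ℝ}
    (hδ : δ ∈ Ioo (0 : ℝ) 1) {ε : ℝ} (hε : 0 < ε) : ∀ᶠ r : ℝ in atTop,
      Real.circleAverage (fun z => Real.log ‖f z‖) (ray r (-θ)) (δ * r) -
        Real.circleAverage (fun z => Real.log ‖f z‖) (ray r θ) (δ * r) -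
          2 * D.c * (r * Real.sin θ) ≤ ε * r := by
  have hδ0 := hδ.1
  have ht := (tendsto_sumIm D).eventually (ge_mem_nhds (show (0 : ℝ) < ε * δ ^ 2 / 10 by positivity))
  filter_upwards [ht, eventually_gt_atTop 0] with r hr hr0
  set z : ℂ := ray r θ with hz
  have hzn : ‖z‖ = r := by
    rw [hz, norm_ray hr0.le]
  have hz0 : z ≠ 0 := by
    rw [← norm_pos_iff, hzn]
    exact hr0
  have hzc : ray r (-θ) = conj z := by rw [hz, conj_ray]
  have hzc0 : conj z ≠ 0 := by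
    rw [← norm_pos_iff, Complex.norm_conj, hzn]
    exact hr0
  have hzim : z.im = r * Real.sin θ := by rw [hz, ray_im]
  have hzim0 : 0 < z.im := by
    rw [hzim]
    exact mul_pos hr0 (Real.sin_pos_of_mem_Ioo hθ)
  have h1 := blc_hasSum hf D hδ hz0
  have h2 := blc_hasSum hf D hδ hzc0
  rw [hzn] at h1
  rw [Complex.norm_conj, hzn] at h2
  have h3 := (h2.sub h1).add (D.sumIm.hasSum.mul_left (2 * z.im))
  have h4 : Summable fun i => 10 / δ ^ 2 * r * ((D.a i).im / (r ^ 2 + ‖D.a i‖ ^ 2)) := by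
    apply Summable.mul_left
    refine Summable.of_nonneg_of_le (fun i => ?_) (fun i => ?_) D.sumIm
    · exact div_nonneg (D.im i) (by positivity)
    · have := norm_pos_iff.2 (D.ne i)
      apply div_le_div_of_nonneg_left (D.im i) (by positivity)
      nlinarith
  have h5 := hasSum_le (fun i => ?_) h3 h4.hasSum
  · rw [tsum_mul_left] at h5
    have h6 : 10 / δ ^ 2 * r * ∑' i, (D.a i).im / (r ^ 2 + ‖D.a i‖ ^ 2) ≤ ε * r := by
      calc 10 / δ ^ 2 * r * ∑' i, (D.a i).im / (r ^ 2 + ‖D.a i‖ ^ 2)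
          ≤ 10 / δ ^ 2 * r * (ε * δ ^ 2 / 10) := by gcongr
        _ = ε * r := by field_simp
    refine le_trans (le_of_eq ?_) (h5.trans h6)
    rw [hzc, ← hzim, Complex.conj_re, Complex.conj_im]
    ring
  · refine le_trans (le_of_eq ?_) (blc_term (a := D.a i) hr0 hzn hδ hzim0.le (D.ne i) (D.im i))
    unfold KD
    rw [blc_inv_re, blc_inv_re, Complex.conj_re, Complex.conj_im]
    push_cast
    ring

end HBOne
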