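import Pool.Agent.HBOne.OneMono

/-!
# Averages over rays of `log |f (conj z)| - log |f z| - 2 c Im z`

Let `S R = ∑ Im a_i / (R² + |a_i|²)`, `S R → 0` as `R → ∞` (`D.sumIm`, `tendsto_tsum_of_dominated_convergence`).

`ray_term`: `a ≠ 0`, `Im a ≥ 0`, `θ ∈ (0, π)`, `z = ray r θ`: `b r = log (|z - conj a| / |z - a|) =
(1/2) log (1 + 4 r sin θ Im a / |z - a|²)` satisfies `∫⁻_{[R, 2R]} b ≤ C_θ Im a R² / (R² + |a|²)`. Proof. Let `κ = sin θ / 2`.
* If `|a| ≤ R/2` or `|a| ≥ 4R` then `|z - a| ≥ (R + |a|)/4` or so, and `b ≤ 2 r Im a / |z - a|²`, integrate.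
* If `R/2 < |a| < 4R` and `Im a ≤ κR`: `|z - a| ≥ Im z - Im a ≥ κ R`, the same.
* If `R/2 < |a| < 4R` and `Im a > κR`: `|z - a| ≥ |r - s|`, `s = Re (a e^{-iθ})`, `|z - conj a| ≤ 6R`, so
  `b ≤ log (6 R / |r - s|) ≤ 2 (6 R / |r - s|)^{1/2}`, whose integral is at most `48 R`.
`ray_avg`: sum over `i` (`lintegral_tsum`, `bla`; for a.e. `r` the point is not a zero, the zeros are countable), and
`C_θ R² S R ≤ ε R²`.
-/

namespace HBOne

open HBInd HBInf Complex Filter Topology Set MeasureTheory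
open scoped Real ComplexConjugate

variable {f : ℂ → ℂ}

theorem tendsto_sumIm (D : OD f) :
    Tendsto (fun R : ℝ => ∑' i, (D.a i).im / (R ^ 2 + ‖D.a i‖ ^ 2)) atTop (𝓝 0) := by
  have h0 : (0 : ℝ) = ∑' _ : D.ι, (0 : ℝ) := by simp
  rw [h0]
  refine tendsto_tsum_of_dominated_convergence D.sumIm ?_ ?_
  · intro i
    have h1 : Tendsto (fun R : ℝ => R ^ 2 + ‖D.a i‖ ^ 2) atTop atTop :=
      tendsto_atTop_add_const_right _ _ (tendsto_pow_atTop two_ne_zero)
    exact h1.const_div_atTop _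
  · refine Eventually.of_forall fun R i => ?_
    have ha : 0 < ‖D.a i‖ ^ 2 := by
      have := norm_pos_iff.2 (D.ne i)
      positivity
    rw [Real.norm_of_nonneg (div_nonneg (D.im i) (by positivity))]
    exact div_le_div_of_nonneg_left (D.im i) ha (by nlinarith [sq_nonneg R])

/-! ### one term -/

private lemma blr_norm_sq (r θ : ℝ) (a : ℂ) :
    ‖ray r θ - conj a‖ ^ 2 = ‖ray r θ - a‖ ^ 2 + 4 * (r * Real.sin θ) * a.im := by
  rw [← Complex.normSq_eq_norm_sq, ← Complex.normSq_eq_norm_sq, Complex.normSq_apply,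
    Complex.normSq_apply]
  simp only [Complex.sub_re, Complex.sub_im, Complex.conj_re, Complex.conj_im, ray_re, ray_im]
  ring

private lemma blr_far {r θ : ℝ} {a : ℂ} {d R : ℝ} (hr : 0 ≤ r) (hr2 : r ≤ 2 * R)
    (hs : 0 ≤ Real.sin θ) (ha : 0 ≤ a.im) (hd : 0 < d) (hD : d ≤ ‖ray r θ - a‖) :
    Real.log (‖ray r θ - conj a‖ / ‖ray r θ - a‖) ≤ 4 * R * a.im / d ^ 2 := by
  have hDpos : 0 < ‖ray r θ - a‖ := lt_of_lt_of_le hd hD
  have h1 := blr_norm_sq r θ a
  have hs1 : Real.sin θ ≤ 1 := Real.sin_le_one θ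
  have hcpos : 0 < ‖ray r θ - conj a‖ := by
    have h2 : 0 < ‖ray r θ - conj a‖ ^ 2 := by
      rw [h1]
      have : 0 ≤ 4 * (r * Real.sin θ) * a.im := by positivity
      positivity
    refine lt_of_le_of_ne (norm_nonneg _) fun h => ?_
    rw [← h] at h2
    norm_num at h2
  have h3 : Real.log (‖ray r θ - conj a‖ / ‖ray r θ - a‖) =
      1 / 2 * Real.log (‖ray r θ - conj a‖ ^ 2 / ‖ray r θ - a‖ ^ 2) := by
    rw [← div_pow, Real.log_pow]
    push_cast
    ring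
  have h4 : ‖ray r θ - conj a‖ ^ 2 / ‖ray r θ - a‖ ^ 2 =
      1 + 4 * (r * Real.sin θ) * a.im / ‖ray r θ - a‖ ^ 2 := by
    rw [h1]
    field_simp
  have h5 : Real.log (1 + 4 * (r * Real.sin θ) * a.im / ‖ray r θ - a‖ ^ 2) ≤
      4 * (r * Real.sin θ) * a.im / ‖ray r θ - a‖ ^ 2 := by
    have h6 : 0 ≤ 4 * (r * Real.sin θ) * a.im / ‖ray r θ - a‖ ^ 2 := by positivity
    have := Real.log_le_sub_one_of_pos
      (show 0 < 1 + 4 * (r * Real.sin θ) * a.im / ‖ray r θ - a‖ ^ 2 by linarith)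
    linarith
  rw [h3, h4]
  have h6 : 4 * (r * Real.sin θ) * a.im / ‖ray r θ - a‖ ^ 2 ≤ 8 * R * a.im / d ^ 2 := by
    have hnum : 4 * (r * Real.sin θ) * a.im ≤ 8 * R * a.im := by
      have : r * Real.sin θ ≤ 2 * R := by nlinarith
      nlinarith
    have hR : 0 ≤ R := by linarith
    have hden : d ^ 2 ≤ ‖ray r θ - a‖ ^ 2 := pow_le_pow_left₀ hd.le hD 2
    exact div_le_div₀ (by positivity) hnum (by positivity) hden
  have h7 : 4 * R * a.im / d ^ 2 = 1 / 2 * (8 * R * a.im / d ^ 2) := by ring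
  rw [h7]
  linarith

private lemma blr_near {r θ : ℝ} {a : ℂ} {R : ℝ} (hR : 0 < R) (hr : R ≤ r) (hr2 : r ≤ 2 * R)
    (ha : ‖a‖ ≤ 4 * R) (hrs : r ≠ a.re * Real.cos θ + a.im * Real.sin θ) :
    Real.log (‖ray r θ - conj a‖ / ‖ray r θ - a‖) ≤
      2 * (6 * R) ^ (1 / 2 : ℝ) *
        |r - (a.re * Real.cos θ + a.im * Real.sin θ)| ^ (-(1 / 2) : ℝ) := by
  set s := a.re * Real.cos θ + a.im * Real.sin θ with hs
  have hrhs : 0 ≤ 2 * (6 * R) ^ (1 / 2 : ℝ) * |r - s| ^ (-(1 / 2) : ℝ) := by positivity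
  have hup : ‖ray r θ - conj a‖ ≤ 6 * R := by
    have h1 : ‖ray r θ‖ = r := by
      have h2 : ‖ray r θ‖ ^ 2 = r ^ 2 := by
        rw [← Complex.normSq_eq_norm_sq, Complex.normSq_apply, ray_re, ray_im]
        nlinarith [Real.sin_sq_add_cos_sq θ]
      exact (pow_left_inj₀ (norm_nonneg _) (by linarith) two_ne_zero).1 h2
    calc ‖ray r θ - conj a‖ ≤ ‖ray r θ‖ + ‖conj a‖ := norm_sub_le _ _
      _ ≤ 2 * R + 4 * R := by
          rw [h1, RCLike.norm_conj]
          linarith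
      _ = 6 * R := by ring
  have hlow : |r - s| ≤ ‖ray r θ - a‖ := by
    have h1 : (r - s) ^ 2 + (a.re * Real.sin θ - a.im * Real.cos θ) ^ 2 =
        ‖ray r θ - a‖ ^ 2 := by
      rw [← Complex.normSq_eq_norm_sq, Complex.normSq_apply]
      simp only [Complex.sub_re, Complex.sub_im, ray_re, ray_im, hs]
      have h2 := Real.sin_sq_add_cos_sq θ
      have h3 : Real.sin θ ^ 2 = 1 - Real.cos θ ^ 2 := by linarith
      ring_nf
      rw [h3]
      ring
    refine abs_le_of_sq_le_sq ?_ (norm_nonneg _)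
    rw [← h1]
    nlinarith [sq_nonneg (a.re * Real.sin θ - a.im * Real.cos θ)]
  rcases eq_or_lt_of_le (norm_nonneg (ray r θ - a)) with h0 | h0
  · rw [← h0, div_zero, Real.log_zero]
    exact hrhs
  rcases eq_or_lt_of_le (norm_nonneg (ray r θ - conj a)) with h1 | h1
  · rw [← h1, zero_div, Real.log_zero]
    exact hrhs
  have h2 : 0 < |r - s| := abs_pos.2 (sub_ne_zero.2 hrs)
  have h3 : Real.log (‖ray r θ - conj a‖ / ‖ray r θ - a‖) ≤ Real.log (6 * R / |r - s|) := by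
    refine Real.log_le_log (by positivity) ?_
    exact div_le_div₀ (by positivity) hup h2 hlow
  have h4 : Real.log (6 * R / |r - s|) ≤ (6 * R / |r - s|) ^ (1 / 2 : ℝ) / (1 / 2) :=
    Real.log_le_rpow_div (by positivity) (by norm_num)
  have h5 : (6 * R / |r - s|) ^ (1 / 2 : ℝ) =
      (6 * R) ^ (1 / 2 : ℝ) * |r - s| ^ (-(1 / 2) : ℝ) := by
    rw [Real.div_rpow (by positivity) h2.le, Real.rpow_neg h2.le]
    rfl
  rw [h5] at h4
  linarith

/-! ### the integral of `|r - s| ^ (-1/2)` -/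

private lemma blr_int_right (s : ℝ) {L : ℝ} (hL : 0 ≤ L) :
    ∫⁻ r in Icc s (s + L), ENNReal.ofReal (|r - s| ^ (-(1 / 2) : ℝ)) =
      ENNReal.ofReal (2 * L ^ (1 / 2 : ℝ)) := by
  have hint : IntervalIntegrable (fun r : ℝ => (r - s) ^ (-(1 / 2) : ℝ)) volume s (s + L) := by
    have := (intervalIntegral.intervalIntegrable_rpow' (a := 0) (b := L)
      (show (-1 : ℝ) < -(1 / 2) by norm_num)).comp_sub_right s
    simpa [add_comm] using this
  have hval : ∫ r in s..(s + L), (r - s) ^ (-(1 / 2) : ℝ) = 2 * L ^ (1 / 2 : ℝ) := by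
    rw [intervalIntegral.integral_comp_sub_right (fun x : ℝ => x ^ (-(1 / 2) : ℝ)) s,
      integral_rpow (Or.inl (by norm_num))]
    simp only [sub_self, add_sub_cancel_left]
    rw [show (-(1 / 2) + 1 : ℝ) = 1 / 2 by norm_num, Real.zero_rpow (by norm_num)]
    ring
  rw [restrict_Ioc_eq_restrict_Icc.symm]
  have hcongr : ∫⁻ r in Ioc s (s + L), ENNReal.ofReal (|r - s| ^ (-(1 / 2) : ℝ)) =
      ∫⁻ r in Ioc s (s + L), ENNReal.ofReal ((r - s) ^ (-(1 / 2) : ℝ)) := by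
    refine setLIntegral_congr_fun measurableSet_Ioc fun r hr => ?_
    rw [abs_of_pos (sub_pos.2 hr.1)]
  rw [hcongr, ← ofReal_integral_eq_lintegral_ofReal, ← intervalIntegral.integral_of_le
    (by linarith), hval]
  · exact (intervalIntegrable_iff_integrableOn_Ioc_of_le (by linarith)).1 hint
  · refine (ae_restrict_iff' measurableSet_Ioc).2 (Eventually.of_forall fun r hr => ?_)
    exact Real.rpow_nonneg (sub_pos.2 hr.1).le _

private lemma blr_int_left (s : ℝ) {L : ℝ} (hL : 0 ≤ L) :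
    ∫⁻ r in Icc (s - L) s, ENNReal.ofReal (|r - s| ^ (-(1 / 2) : ℝ)) =
      ENNReal.ofReal (2 * L ^ (1 / 2 : ℝ)) := by
  have hint : IntervalIntegrable (fun r : ℝ => (s - r) ^ (-(1 / 2) : ℝ)) volume (s - L) s := by
    have := (intervalIntegral.intervalIntegrable_rpow' (a := 0) (b := L)
      (show (-1 : ℝ) < -(1 / 2) by norm_num)).comp_sub_left s
    simpa using this.symm
  have hval : ∫ r in (s - L)..s, (s - r) ^ (-(1 / 2) : ℝ) = 2 * L ^ (1 / 2 : ℝ) := by
    rw [intervalIntegral.integral_comp_sub_left (fun x : ℝ => x ^ (-(1 / 2) : ℝ)) s,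
      integral_rpow (Or.inl (by norm_num))]
    simp only [sub_self, sub_sub_cancel]
    rw [show (-(1 / 2) + 1 : ℝ) = 1 / 2 by norm_num, Real.zero_rpow (by norm_num)]
    ring
  rw [← restrict_Ioc_eq_restrict_Icc]
  have hcongr : ∫⁻ r in Ioc (s - L) s, ENNReal.ofReal (|r - s| ^ (-(1 / 2) : ℝ)) =
      ∫⁻ r in Ioc (s - L) s, ENNReal.ofReal ((s - r) ^ (-(1 / 2) : ℝ)) := by
    refine setLIntegral_congr_fun measurableSet_Ioc fun r hr => ?_
    rw [abs_sub_comm, abs_of_nonneg (sub_nonneg.2 hr.2)]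
  rw [hcongr, ← ofReal_integral_eq_lintegral_ofReal, ← intervalIntegral.integral_of_le
    (by linarith), hval]
  · exact (intervalIntegrable_iff_integrableOn_Ioc_of_le (by linarith)).1 hint
  · refine (ae_restrict_iff' measurableSet_Ioc).2 (Eventually.of_forall fun r hr => ?_)
    exact Real.rpow_nonneg (sub_nonneg.2 hr.2) _

private lemma blr_int (s : ℝ) {L : ℝ} (hL : 0 ≤ L) {A : Set ℝ} (hA : ∀ r ∈ A, |r - s| ≤ L) :
    ∫⁻ r in A, ENNReal.ofReal (|r - s| ^ (-(1 / 2) : ℝ)) ≤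
      ENNReal.ofReal (4 * L ^ (1 / 2 : ℝ)) := by
  have hsub : A ⊆ Icc (s - L) s ∪ Icc s (s + L) := by
    intro r hr
    have h1 := abs_le.1 (hA r hr)
    rcases le_total r s with h | h
    · exact Or.inl ⟨by linarith, h⟩
    · exact Or.inr ⟨h, by linarith⟩
  calc ∫⁻ r in A, ENNReal.ofReal (|r - s| ^ (-(1 / 2) : ℝ))
      ≤ ∫⁻ r in Icc (s - L) s ∪ Icc s (s + L), ENNReal.ofReal (|r - s| ^ (-(1 / 2) : ℝ)) :=
        lintegral_mono_set hsub
    _ ≤ (∫⁻ r in Icc (s - L) s, ENNReal.ofReal (|r - s| ^ (-(1 / 2) : ℝ))) +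
        (∫⁻ r in Icc s (s + L), ENNReal.ofReal (|r - s| ^ (-(1 / 2) : ℝ))) :=
        lintegral_union_le _ _ _
    _ = ENNReal.ofReal (4 * L ^ (1 / 2 : ℝ)) := by
        rw [blr_int_left s hL, blr_int_right s hL, ← ENNReal.ofReal_add (by positivity)
          (by positivity)]
        congr 1
        ring

private lemma blr_const {R K : ℝ} (hK : 0 ≤ K) {F : ℝ → ℝ}
    (hF : ∀ r ∈ Icc R (2 * R), F r ≤ K) :
    ∫⁻ r in Icc R (2 * R), ENNReal.ofReal (F r) ≤ ENNReal.ofReal (K * R) := by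
  calc ∫⁻ r in Icc R (2 * R), ENNReal.ofReal (F r)
      ≤ ∫⁻ _ in Icc R (2 * R), ENNReal.ofReal K :=
        setLIntegral_mono' measurableSet_Icc fun r hr => ENNReal.ofReal_le_ofReal (hF r hr)
    _ = ENNReal.ofReal (K * R) := by
        rw [setLIntegral_const, Real.volume_Icc, ← ENNReal.ofReal_mul hK]
        congr 1
        ring

theorem ray_term {θ : ℝ} (hθ : θ ∈ Ioo 0 π) : ∃ C : ℝ, 0 < C ∧ ∀ (a : ℂ) (R : ℝ), a ≠ 0 →
    0 ≤ a.im → 0 < R →
    ∫⁻ r in Icc R (2 * R), ENNReal.ofReal (Real.log (‖ray r θ - conj a‖ / ‖ray r θ - a‖)) ≤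
      ENNReal.ofReal (C * (a.im * R ^ 2 / (R ^ 2 + ‖a‖ ^ 2))) := by
  have hs : 0 < Real.sin θ := Real.sin_pos_of_pos_of_lt_pi hθ.1 hθ.2
  have hs1 : Real.sin θ ≤ 1 := Real.sin_le_one θ
  set κ : ℝ := Real.sin θ / 2 with hκ
  have hκ0 : 0 < κ := by positivity
  set C : ℝ := 20 + 68 / κ ^ 2 + 816 / κ with hC
  have hC1 : 20 ≤ C := by
    have h1 : 0 < 68 / κ ^ 2 := by positivity
    have h2 : 0 < 816 / κ := by positivity
    linarith
  have hC2 : 68 / κ ^ 2 ≤ C := by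
    have h2 : 0 < 816 / κ := by positivity
    linarith
  have hC3 : 816 / κ ≤ C := by
    have h1 : 0 < 68 / κ ^ 2 := by positivity
    linarith
  refine ⟨C, by linarith, fun a R ha him hR => ?_⟩
  have hnorm : 0 < ‖a‖ := norm_pos_iff.2 ha
  have hrn : ∀ r : ℝ, 0 ≤ r → ‖ray r θ‖ = r := by
    intro r hr
    have h2 : ‖ray r θ‖ ^ 2 = r ^ 2 := by
      rw [← Complex.normSq_eq_norm_sq, Complex.normSq_apply, ray_re, ray_im]
      nlinarith [Real.sin_sq_add_cos_sq θ]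
    exact (pow_left_inj₀ (norm_nonneg _) hr two_ne_zero).1 h2
  have hden : 0 < R ^ 2 + ‖a‖ ^ 2 := by positivity
  rcases le_or_gt ‖a‖ (R / 2) with h1 | h1
  · -- small zeros
    have hF : ∀ r ∈ Icc R (2 * R), Real.log (‖ray r θ - conj a‖ / ‖ray r θ - a‖) ≤
        4 * R * a.im / (R / 2) ^ 2 := by
      intro r hr
      refine blr_far (by linarith [hr.1]) hr.2 hs.le him (by positivity) ?_
      have h2 := norm_sub_norm_le (ray r θ) a
      rw [hrn r (by linarith [hr.1])] at h2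
      linarith [hr.1]
    refine (blr_const (by positivity) hF).trans (ENNReal.ofReal_le_ofReal ?_)
    have h3 : ‖a‖ ^ 2 ≤ (R / 2) ^ 2 := pow_le_pow_left₀ hnorm.le h1 2
    have h4 : 4 * R * a.im / (R / 2) ^ 2 * R = 16 * a.im := by
      field_simp
      ring
    have h5 : 16 * a.im ≤ 20 * (a.im * R ^ 2 / (R ^ 2 + ‖a‖ ^ 2)) := by
      rw [mul_div_assoc', le_div_iff₀ hden]
      nlinarith
    rw [h4]
    refine h5.trans (mul_le_mul_of_nonneg_right hC1 (by positivity))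
  rcases le_or_gt (4 * R) ‖a‖ with h2 | h2
  · -- large zeros
    have hF : ∀ r ∈ Icc R (2 * R), Real.log (‖ray r θ - conj a‖ / ‖ray r θ - a‖) ≤
        4 * R * a.im / (‖a‖ / 2) ^ 2 := by
      intro r hr
      refine blr_far (by linarith [hr.1]) hr.2 hs.le him (by positivity) ?_
      have h2 := norm_sub_norm_le a (ray r θ)
      rw [hrn r (by linarith [hr.1]), norm_sub_rev] at h2
      linarith [hr.2]
    refine (blr_const (by positivity) hF).trans (ENNReal.ofReal_le_ofReal ?_)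
    have h3 : (4 * R) ^ 2 ≤ ‖a‖ ^ 2 := pow_le_pow_left₀ (by positivity) h2 2
    have h5 : 4 * R * a.im / (‖a‖ / 2) ^ 2 * R ≤ 20 * (a.im * R ^ 2 / (R ^ 2 + ‖a‖ ^ 2)) := by
      have e1 : 4 * R * a.im / (‖a‖ / 2) ^ 2 * R = 16 * (a.im * R ^ 2) / ‖a‖ ^ 2 := by
        field_simp
        ring
      rw [e1, mul_div_assoc', div_le_div_iff₀ (by positivity) hden]
      have h6 : 0 ≤ a.im * R ^ 2 := by positivity
      nlinarith
    refine h5.trans (mul_le_mul_of_nonneg_right hC1 (by positivity))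
  -- middle zeros
  have h3 : ‖a‖ ^ 2 ≤ (4 * R) ^ 2 := pow_le_pow_left₀ hnorm.le h2.le 2
  have hmid : a.im ≤ 17 * (a.im * R ^ 2 / (R ^ 2 + ‖a‖ ^ 2)) := by
    rw [mul_div_assoc', le_div_iff₀ hden]
    nlinarith
  rcases le_or_gt a.im (κ * R) with h4 | h4
  · have hF : ∀ r ∈ Icc R (2 * R), Real.log (‖ray r θ - conj a‖ / ‖ray r θ - a‖) ≤
        4 * R * a.im / (κ * R) ^ 2 := by
      intro r hr
      refine blr_far (by linarith [hr.1]) hr.2 hs.le him (by positivity) ?_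
      have h5 := Complex.abs_im_le_norm (ray r θ - a)
      rw [Complex.sub_im, ray_im] at h5
      have h6 : R * Real.sin θ ≤ r * Real.sin θ := mul_le_mul_of_nonneg_right hr.1 hs.le
      have h7 := le_abs_self (r * Real.sin θ - a.im)
      have h8 : κ * R = R * Real.sin θ / 2 := by
        rw [hκ]
        ring
      linarith
    refine (blr_const (by positivity) hF).trans (ENNReal.ofReal_le_ofReal ?_)
    have e1 : 4 * R * a.im / (κ * R) ^ 2 * R = 4 / κ ^ 2 * a.im := by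
      field_simp
    rw [e1]
    calc 4 / κ ^ 2 * a.im ≤ 4 / κ ^ 2 * (17 * (a.im * R ^ 2 / (R ^ 2 + ‖a‖ ^ 2))) :=
          mul_le_mul_of_nonneg_left hmid (by positivity)
      _ = 68 / κ ^ 2 * (a.im * R ^ 2 / (R ^ 2 + ‖a‖ ^ 2)) := by ring
      _ ≤ C * (a.im * R ^ 2 / (R ^ 2 + ‖a‖ ^ 2)) :=
          mul_le_mul_of_nonneg_right hC2 (by positivity)
  · set s := a.re * Real.cos θ + a.im * Real.sin θ with hsdef
    have hsabs : |s| ≤ ‖a‖ := by
      have h5 : s ^ 2 + (a.re * Real.sin θ - a.im * Real.cos θ) ^ 2 = ‖a‖ ^ 2 := by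
        rw [← Complex.normSq_eq_norm_sq, Complex.normSq_apply, hsdef]
        have h2 := Real.sin_sq_add_cos_sq θ
        have h3 : Real.sin θ ^ 2 = 1 - Real.cos θ ^ 2 := by linarith
        ring_nf
        rw [h3]
        ring
      refine abs_le_of_sq_le_sq ?_ hnorm.le
      nlinarith [sq_nonneg (a.re * Real.sin θ - a.im * Real.cos θ)]
    have hae : ∀ᵐ r ∂(volume.restrict (Icc R (2 * R))),
        ENNReal.ofReal (Real.log (‖ray r θ - conj a‖ / ‖ray r θ - a‖)) ≤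
        ENNReal.ofReal (2 * (6 * R) ^ (1 / 2 : ℝ)) *
          ENNReal.ofReal (|r - s| ^ (-(1 / 2) : ℝ)) := by
      have hne : ∀ᵐ r ∂(volume.restrict (Icc R (2 * R))), r ≠ s :=
        ae_restrict_of_ae (Measure.ae_ne volume s)
      have hmem : ∀ᵐ r ∂(volume.restrict (Icc R (2 * R))), r ∈ Icc R (2 * R) :=
        ae_restrict_mem measurableSet_Icc
      filter_upwards [hne, hmem] with r hr1 hr2
      rw [← ENNReal.ofReal_mul (by positivity)]
      exact ENNReal.ofReal_le_ofReal (blr_near hR hr2.1 hr2.2 h2.le hr1)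
    refine (lintegral_mono_ae hae).trans ?_
    rw [lintegral_const_mul' _ _ ENNReal.ofReal_ne_top]
    have hint := blr_int s (L := 6 * R) (by positivity) (A := Icc R (2 * R)) (by
      intro r hr
      have h5 := abs_sub r s
      have h6 : |r| = r := abs_of_nonneg (by linarith [hr.1])
      linarith [hr.2])
    refine (mul_le_mul_right hint _).trans ?_
    rw [← ENNReal.ofReal_mul (by positivity)]
    refine ENNReal.ofReal_le_ofReal ?_
    have e1 : (6 * R) ^ (1 / 2 : ℝ) * (6 * R) ^ (1 / 2 : ℝ) = 6 * R := by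
      rw [← Real.rpow_add (by positivity)]
      norm_num
    have e2 : 2 * (6 * R) ^ (1 / 2 : ℝ) * (4 * (6 * R) ^ (1 / 2 : ℝ)) = 48 * R := by
      calc 2 * (6 * R) ^ (1 / 2 : ℝ) * (4 * (6 * R) ^ (1 / 2 : ℝ)) =
          8 * ((6 * R) ^ (1 / 2 : ℝ) * (6 * R) ^ (1 / 2 : ℝ)) := by ring
        _ = 48 * R := by rw [e1]; ring
    rw [e2]
    have h5 : R ≤ a.im / κ := by
      rw [le_div_iff₀ hκ0]
      linarith
    calc 48 * R ≤ 48 * (a.im / κ) := by linarith
      _ = 48 / κ * a.im := by ring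
      _ ≤ 48 / κ * (17 * (a.im * R ^ 2 / (R ^ 2 + ‖a‖ ^ 2))) :=
          mul_le_mul_of_nonneg_left hmid (by positivity)
      _ = 816 / κ * (a.im * R ^ 2 / (R ^ 2 + ‖a‖ ^ 2)) := by ring
      _ ≤ C * (a.im * R ^ 2 / (R ^ 2 + ‖a‖ ^ 2)) :=
          mul_le_mul_of_nonneg_right hC3 (by positivity)

/-! ### the sum -/

private lemma blr_conj_ray (r θ : ℝ) : conj (ray r θ) = ray r (-θ) := by
  apply Complex.ext
  · rw [Complex.conj_re, ray_re, ray_re, Real.cos_neg]
  · rw [Complex.conj_im, ray_im, ray_im, Real.sin_neg]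
    ring

private lemma blr_term_nonneg {r θ : ℝ} {a : ℂ} (hr : 0 ≤ r) (hs : 0 ≤ Real.sin θ)
    (ha : 0 ≤ a.im) : 0 ≤ Real.log (‖ray r θ - conj a‖ / ‖ray r θ - a‖) := by
  rcases eq_or_lt_of_le (norm_nonneg (ray r θ - a)) with h0 | h0
  · rw [← h0, div_zero, Real.log_zero]
  · refine Real.log_nonneg ?_
    rw [one_le_div h0]
    refine le_of_sq_le_sq ?_ (norm_nonneg _)
    rw [blr_norm_sq]
    have : 0 ≤ 4 * (r * Real.sin θ) * a.im := by positivity
    linarith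

private lemma blr_meas (θ : ℝ) (a : ℂ) : Measurable fun r : ℝ =>
    ENNReal.ofReal (Real.log (‖ray r θ - conj a‖ / ‖ray r θ - a‖)) := by
  have h1 : Continuous fun r : ℝ => ray r θ := by
    unfold ray
    fun_prop
  refine ENNReal.measurable_ofReal.comp (Real.measurable_log.comp ?_)
  exact ((h1.sub continuous_const).norm.measurable).div ((h1.sub continuous_const).norm.measurable)

theorem ray_avg (hf : InClass 1 f) (D : OD f) {θ : ℝ} (hθ : θ ∈ Ioo 0 π) {ε : ℝ} (hε : 0 < ε) :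
    ∀ᶠ R : ℝ in atTop, ∫⁻ r in Icc R (2 * R), ENNReal.ofReal
      (Real.log ‖f (ray r (-θ))‖ - Real.log ‖f (ray r θ)‖ - 2 * D.c * (r * Real.sin θ)) ≤
        ENNReal.ofReal (ε * R ^ 2) := by
  have hs : 0 < Real.sin θ := Real.sin_pos_of_pos_of_lt_pi hθ.1 hθ.2
  obtain ⟨C, hC, hterm⟩ := ray_term hθ
  have hcnt : Countable D.ι := D.cnt
  have hS := tendsto_sumIm D
  have hev : ∀ᶠ R : ℝ in atTop, ∑' i, (D.a i).im / (R ^ 2 + ‖D.a i‖ ^ 2) < ε / C :=
    hS.eventually_lt_const (by positivity)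
  filter_upwards [hev, eventually_gt_atTop 0] with R hR1 hR
  -- almost every point is not a zero
  have hbad : (volume.restrict (Icc R (2 * R))) {r : ℝ | ∃ i, ray r θ = D.a i} = 0 := by
    have hc : {r : ℝ | ∃ i, ray r θ = D.a i}.Countable := by
      have h1 : {r : ℝ | ∃ i, ray r θ = D.a i} = ⋃ i, {r : ℝ | ray r θ = D.a i} := by
        ext r
        simp
      rw [h1]
      refine Set.countable_iUnion fun i => Set.Subsingleton.countable ?_
      intro r hr r' hr'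
      have h2 : (ray r θ).im = (ray r' θ).im := by
        rw [show ray r θ = D.a i from hr, show ray r' θ = D.a i from hr']
      rw [ray_im, ray_im] at h2
      exact mul_right_cancel₀ hs.ne' h2
    exact hc.measure_zero _
  have hae : ∀ᵐ r ∂(volume.restrict (Icc R (2 * R))), ENNReal.ofReal
      (Real.log ‖f (ray r (-θ))‖ - Real.log ‖f (ray r θ)‖ - 2 * D.c * (r * Real.sin θ)) ≤
      ∑' i, ENNReal.ofReal (Real.log (‖ray r θ - conj (D.a i)‖ / ‖ray r θ - D.a i‖)) := by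
    have h1 : ∀ᵐ r ∂(volume.restrict (Icc R (2 * R))), ¬ ∃ i, ray r θ = D.a i :=
      measure_eq_zero_iff_ae_notMem.1 hbad
    have hmem : ∀ᵐ r ∂(volume.restrict (Icc R (2 * R))), r ∈ Icc R (2 * R) :=
      ae_restrict_mem measurableSet_Icc
    filter_upwards [h1, hmem] with r hr1 hr2
    push Not at hr1
    have hrpos : 0 < r := lt_of_lt_of_le hR hr2.1
    have him : 0 < (ray r θ).im := by
      rw [ray_im]
      positivity
    have hz : ray r θ ≠ 0 := by
      intro h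
      rw [h] at him
      simp at him
    have hf0 : f (ray r θ) ≠ 0 := (D.rep _ hz hr1).1
    have hsum := bla hf D him hf0
    rw [blr_conj_ray, ray_im] at hsum
    rw [← hsum.tsum_eq, ENNReal.ofReal_tsum_of_nonneg
      (fun i => blr_term_nonneg hrpos.le hs.le (D.im i)) hsum.summable]
  refine (lintegral_mono_ae hae).trans ?_
  rw [lintegral_tsum fun i => (blr_meas θ (D.a i)).aemeasurable]
  have hsm : Summable fun i => C * ((D.a i).im * R ^ 2 / (R ^ 2 + ‖D.a i‖ ^ 2)) := by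
    have h1 : Summable fun i => C * R ^ 2 * ((D.a i).im / ‖D.a i‖ ^ 2) := D.sumIm.mul_left _
    refine h1.of_nonneg_of_le (fun i => ?_) fun i => ?_
    · have := D.im i
      positivity
    · have ha : 0 < ‖D.a i‖ ^ 2 := by
        have := norm_pos_iff.2 (D.ne i)
        positivity
      have h2 : (D.a i).im / (R ^ 2 + ‖D.a i‖ ^ 2) ≤ (D.a i).im / ‖D.a i‖ ^ 2 :=
        div_le_div_of_nonneg_left (D.im i) ha (by nlinarith [sq_nonneg R])
      have h3 : C * ((D.a i).im * R ^ 2 / (R ^ 2 + ‖D.a i‖ ^ 2)) =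
          C * R ^ 2 * ((D.a i).im / (R ^ 2 + ‖D.a i‖ ^ 2)) := by ring
      rw [h3]
      exact mul_le_mul_of_nonneg_left h2 (by positivity)
  refine (ENNReal.tsum_le_tsum fun i => hterm (D.a i) R (D.ne i) (D.im i) hR).trans ?_
  rw [← ENNReal.ofReal_tsum_of_nonneg (fun i => by
    have := D.im i
    positivity) hsm]
  refine ENNReal.ofReal_le_ofReal ?_
  have h4 : ∑' i, C * ((D.a i).im * R ^ 2 / (R ^ 2 + ‖D.a i‖ ^ 2)) =
      C * R ^ 2 * ∑' i, (D.a i).im / (R ^ 2 + ‖D.a i‖ ^ 2) := by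
    rw [← tsum_mul_left]
    refine tsum_congr fun i => ?_
    ring
  rw [h4]
  have h5 : C * R ^ 2 * ∑' i, (D.a i).im / (R ^ 2 + ‖D.a i‖ ^ 2) ≤ C * R ^ 2 * (ε / C) :=
    mul_le_mul_of_nonneg_left hR1.le (by positivity)
  have h6 : C * R ^ 2 * (ε / C) = ε * R ^ 2 := by
    field_simp
  linarith

end HBOne
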