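import Pool.Agent.HBInf.TrigE

/-!
# Extended valued indicators of order one: definitions
-/

namespace HBOne

open HBInd HBInf Complex Filter Topology Set MeasureTheory
open scoped Real ComplexConjugate

/-- the conditions on an extended valued indicator of order one, besides periodicity and `CondT 1`:
`h θ + 2 c sin θ ≤ h (-θ)` on `(0, π)`, with equality at `π/2` and at the interior points of `{h ≠ ∞}`;
if `h θ < ∞` for some `θ` in `(0, π/2)` then `h < ∞` on `(-θ, θ)`; if `h θ < ∞` for some `θ` in `(π/2, π)`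
then `h < ∞` on `(θ, 2π - θ)`; `h (-π/2) ≥ c` -/
structure CondOne (c : ℝ) (h : ℝ → EReal) : Prop where
  le : ∀ θ ∈ Ioo 0 π, h θ + ((2 * c * Real.sin θ : ℝ) : EReal) ≤ h (-θ)
  half : h (π / 2) + ((2 * c : ℝ) : EReal) = h (-(π / 2))
  eq : ∀ θ ∈ Ioo 0 π, {t | h t ≠ ⊤} ∈ 𝓝 θ →
    h θ + ((2 * c * Real.sin θ : ℝ) : EReal) = h (-θ)
  right : ∀ θ ∈ Ioo 0 (π / 2), h θ ≠ ⊤ → ∀ t ∈ Ioo (-θ) θ, h t ≠ ⊤
  left : ∀ θ ∈ Ioo (π / 2) π, h θ ≠ ⊤ → ∀ t ∈ Ioo θ (2 * π - θ), h t ≠ ⊤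
  ge : (c : EReal) ≤ h (-(π / 2))

/-- the data of a function of the class `E_1`: zeros `a i`, and for `z ≠ 0`, `z ≠ a i`,
`log |f z| = m log |z| + A + b Re z - c Im z + ∑ (log |1 - z / a i| + Re z Re (1 / a i))` -/
structure OD (f : ℂ → ℂ) where
  ι : Type
  cnt : Countable ι
  a : ι → ℂ
  m : ℕ
  A : ℝ
  b : ℝ
  c : ℝ
  ne : ∀ i, a i ≠ 0
  im : ∀ i, 0 ≤ (a i).im
  zero : ∀ i, f (a i) = 0
  sumIm : Summable fun i => (a i).im / ‖a i‖ ^ 2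
  sumSq : Summable fun i => ‖1 / a i‖ ^ (3 / 2 : ℝ)
  rep : ∀ z : ℂ, z ≠ 0 → (∀ i, z ≠ a i) → f z ≠ 0 ∧
    HasSum (fun i => Real.log ‖1 - z / a i‖ + z.re * (1 / a i).re)
      (Real.log ‖f z‖ - m * Real.log ‖z‖ - A - b * z.re + c * z.im)

end HBOne
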