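import Pool.Agent.HBInf.SlowPath
import Pool.Agent.HBInd.Drift

/-!
# Functions with slowly varying drift, uniform estimates

Model: `exists_drift` and its lemmas in `Pool.Agent.HBInd.Drift` (`drift_smooth`, ...). `x n = k_n e^{-n}`, `k_n` integers, defined
recursively by `k_n = ⌊e^n (b n - S_{n-1})⌋`, `S_n = ∑_{i ≤ n} x i`, so `b n - e^{-n} < S_n ≤ b n`, and
`|x n| ≤ |b n - b (n-1)| + 2 e^{-(n-1)} → 0` (`SlowFn` with `u = 1`), `|S_{⌊t⌋} - b t| → 0` (`SlowFn` with `u = t - ⌊t⌋`).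
`exists_genus_one` for the zeros `sgn (k_n) e^n` with multiplicity `|k_n|`. For `z = e^{t + iθ}`, `w_n = sgn (k_n) e^{t-n+iθ}`:
`e^{-t} log |F z| = ∑_n |x n| e^{n - t} (log |1 - w_n| + Re w_n)`; the terms `|x n| e^{n-t} Re w_n` with `n ≤ t` give
`S_{⌊t⌋} cos θ`. The rest:
* upper bound, all `θ`, all `t` (the values `θ` with `sin θ = 0` by continuity): for `n ≤ t`:
  `log |1 - w_n| ≤ log (1 + |w_n|) ≤ 1 + t - n`; for `n > t`: `log |1 - w| + Re w ≤ |w|² / 2`;
* lower bound, all `θ`, if `|t - n| ≥ 1/8` for all integers `n`: `|1 - w_n| ≥ |1 - e^{t-n}| ≥ 1/10`, so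
  `|log |1 - w_n|| ≤ C (1 + |t - n|)` for `n ≤ t` and `|log |1 - w_n| + Re w_n| ≤ C |w_n|²` for `n > t`.
The sums are `≤ C ∑_n |x n| (1 + |t - n|) e^{-|t - n|} → 0`.
-/

namespace HBOne

open HBInd HBInf Complex Filter Topology Set Bornology
open scoped Real ComplexConjugate

/-- for `|w| = |a|`, `log |1 - w| + Re w ≤ |w|² / 2` -/
lemma da_log_add_le {a θ : ℝ} (h : ‖1 - (a : ℂ) * Complex.exp ((θ : ℂ) * I)‖ ≠ 0) :
    Real.log ‖1 - (a : ℂ) * Complex.exp ((θ : ℂ) * I)‖ + a * Real.cos θ ≤ a ^ 2 / 2 := by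
  have h0 : 0 < ‖1 - (a : ℂ) * Complex.exp ((θ : ℂ) * I)‖ := lt_of_le_of_ne (norm_nonneg _) (Ne.symm h)
  have h1 := drift_norm_one_sub a θ
  have h2 : Real.log (‖1 - (a : ℂ) * Complex.exp ((θ : ℂ) * I)‖ ^ 2) ≤
      ‖1 - (a : ℂ) * Complex.exp ((θ : ℂ) * I)‖ ^ 2 - 1 :=
    Real.log_le_sub_one_of_pos (by positivity)
  rw [Real.log_pow, h1] at h2
  push_cast at h2
  linarith

/-- crude lower bound for the logarithm -/
lemma da_log_ge {a δ θ : ℝ} (hδ : 0 < δ) (h : δ ≤ |1 - abs a|) :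
    Real.log δ ≤ Real.log ‖1 - (a : ℂ) * Complex.exp ((θ : ℂ) * I)‖ := by
  apply Real.log_le_log hδ
  refine h.trans ?_
  have h1 : ‖(a : ℂ) * Complex.exp ((θ : ℂ) * I)‖ = |a| := by
    rw [norm_mul, Complex.norm_exp_ofReal_mul_I, mul_one, Complex.norm_real, Real.norm_eq_abs]
  have h2 := abs_norm_sub_norm_le (1 : ℂ) ((a : ℂ) * Complex.exp ((θ : ℂ) * I))
  rwa [norm_one, h1] at h2

lemma da_kernel {t : ℝ} (ht : 0 ≤ t) {C y : ℝ} (hC : 0 ≤ C) (n : ℕ) {A : ℝ}
    (hA : A ≤ C * (|y| * Real.exp (-|t - n| / 2))) :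
    A ≤ Real.exp (1 / 2) * C * (|y| * Real.exp (-|(⌊t⌋₊ : ℝ) - n| / 2)) := by
  refine hA.trans ?_
  have h1 := mul_le_mul_of_nonneg_left (drift_exp_kernel_le ht n)
    (show 0 ≤ C * |y| by positivity)
  calc C * (|y| * Real.exp (-|t - n| / 2)) = C * |y| * Real.exp (-|t - n| / 2) := by ring
    _ ≤ _ := h1
    _ = _ := by ring

/-- the part with `n ≤ t` -/
lemma da_low_term {y s θ t : ℝ} {n : ℕ} (hys : |y| * s = y) :
    |y| * Real.exp ((n : ℝ) - t) *
        (Real.log ‖1 - ((s * Real.exp (t - n) : ℝ) : ℂ) * Complex.exp ((θ : ℂ) * I)‖ +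
          s * Real.exp (t - n) * Real.cos θ) - y * Real.cos θ =
        |y| * Real.exp ((n : ℝ) - t) *
          Real.log ‖1 - ((s * Real.exp (t - n) : ℝ) : ℂ) * Complex.exp ((θ : ℂ) * I)‖ := by
  have hexp : Real.exp ((n : ℝ) - t) * Real.exp (t - n) = 1 := by
    rw [← Real.exp_add]; simp
  have : |y| * Real.exp ((n : ℝ) - t) * (s * Real.exp (t - n) * Real.cos θ) = y * Real.cos θ := by
    calc |y| * Real.exp ((n : ℝ) - t) * (s * Real.exp (t - n) * Real.cos θ) =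
        (|y| * s) * (Real.exp ((n : ℝ) - t) * Real.exp (t - n)) * Real.cos θ := by ring
      _ = y * Real.cos θ := by rw [hexp, hys, mul_one]
  rw [mul_add, this]; ring

lemma da_exp_aux {u L : ℝ} (hu : 0 ≤ u) (hL : 0 ≤ L) :
    Real.exp (-u / 2) * (1 + u + L) ≤ 2 + L := by
  have h5 : Real.exp (-u / 2) ≤ 1 := by
    rw [Real.exp_le_one_iff]; linarith
  have h6 : Real.exp (-u / 2) * (1 + u / 2) ≤ 1 := by
    have h7 := Real.add_one_le_exp (u / 2)
    have h8 : Real.exp (-u / 2) * Real.exp (u / 2) = 1 := by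
      rw [← Real.exp_add]; simp; ring
    calc _ ≤ Real.exp (-u / 2) * Real.exp (u / 2) :=
          mul_le_mul_of_nonneg_left (by linarith) (Real.exp_pos _).le
      _ = 1 := h8
  have h9 := Real.exp_pos (-u / 2)
  nlinarith

lemma da_floor_le {t : ℝ} (ht : 0 ≤ t) {n : ℕ} (hn : n ∈ Finset.range (⌊t⌋₊ + 1)) : (n : ℝ) ≤ t := by
  rw [Finset.mem_range] at hn
  have h1 := Nat.floor_le ht
  have h2 : (n : ℝ) ≤ ⌊t⌋₊ := by exact_mod_cast Nat.lt_succ_iff.mp hn
  linarith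

lemma da_floor_gt {t : ℝ} {n : ℕ} (hn : n ∉ Finset.range (⌊t⌋₊ + 1)) : t < (n : ℝ) := by
  rw [Finset.mem_range, not_lt] at hn
  have h2 := Nat.lt_floor_add_one t
  have h3 : ((⌊t⌋₊ + 1 : ℕ) : ℝ) ≤ n := by exact_mod_cast hn
  push_cast at h3
  linarith

lemma da_log_one_add_exp {u : ℝ} (hu : 0 ≤ u) : Real.log (1 + Real.exp u) ≤ 1 + u := by
  have : 1 + Real.exp u ≤ Real.exp (1 + u) := by
    rw [Real.exp_add]
    have h3 := Real.add_one_le_exp (1 : ℝ)
    have h4 := Real.one_le_exp hu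
    nlinarith
  calc Real.log (1 + Real.exp u) ≤ Real.log (Real.exp (1 + u)) :=
        Real.log_le_log (by positivity) this
    _ = _ := Real.log_exp _

/-- upper bound of one term -/
lemma da_term_upper {y s θ t : ℝ} {n : ℕ} (ht : 0 ≤ t) (hs : |s| = 1) (hys : |y| * s = y)
    (hne : ‖1 - ((s * Real.exp (t - n) : ℝ) : ℂ) * Complex.exp ((θ : ℂ) * I)‖ ≠ 0) :
    |y| * Real.exp ((n : ℝ) - t) *
        (Real.log ‖1 - ((s * Real.exp (t - n) : ℝ) : ℂ) * Complex.exp ((θ : ℂ) * I)‖ +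
          s * Real.exp (t - n) * Real.cos θ) -
        (if n ∈ Finset.range (⌊t⌋₊ + 1) then y * Real.cos θ else 0) ≤
      Real.exp (1 / 2) * 2 * (|y| * Real.exp (-|(⌊t⌋₊ : ℝ) - n| / 2)) := by
  have hab : |s * Real.exp (t - n)| = Real.exp (t - n) := by
    rw [abs_mul, hs, one_mul, abs_of_pos (Real.exp_pos _)]
  apply da_kernel ht (by norm_num)
  by_cases hn : n ∈ Finset.range (⌊t⌋₊ + 1)
  · rw [if_pos hn, da_low_term hys]
    have hu : 0 ≤ t - n := by linarith [da_floor_le ht hn]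
    have h1 : Real.log ‖1 - ((s * Real.exp (t - n) : ℝ) : ℂ) * Complex.exp ((θ : ℂ) * I)‖ ≤
        1 + (t - n) := by
      have h2 := drift_norm_le_add (s * Real.exp (t - n)) θ
      rw [hab] at h2
      have h3 : 0 < ‖1 - ((s * Real.exp (t - n) : ℝ) : ℂ) * Complex.exp ((θ : ℂ) * I)‖ :=
        lt_of_le_of_ne (norm_nonneg _) (Ne.symm hne)
      exact (Real.log_le_log h3 h2).trans (da_log_one_add_exp hu)
    have h3 : Real.exp ((n : ℝ) - t) = Real.exp (-|t - n| / 2) * Real.exp (-|t - n| / 2) := by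
      rw [← Real.exp_add, abs_of_nonneg hu]; congr 1; ring
    have h4 : Real.exp (-|t - n| / 2) * (1 + (t - n)) ≤ 2 := by
      have := da_exp_aux hu (le_refl 0)
      rw [abs_of_nonneg hu]
      simpa using this
    calc |y| * Real.exp ((n : ℝ) - t) *
          Real.log ‖1 - ((s * Real.exp (t - n) : ℝ) : ℂ) * Complex.exp ((θ : ℂ) * I)‖
        ≤ |y| * Real.exp ((n : ℝ) - t) * (1 + (t - n)) :=
          mul_le_mul_of_nonneg_left h1 (by positivity)
      _ = |y| * Real.exp (-|t - n| / 2) * (Real.exp (-|t - n| / 2) * (1 + (t - n))) := by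
          rw [h3]; ring
      _ ≤ |y| * Real.exp (-|t - n| / 2) * 2 :=
          mul_le_mul_of_nonneg_left h4 (by positivity)
      _ = _ := by ring
  · rw [if_neg hn, sub_zero]
    have hnt : t < (n : ℝ) := da_floor_gt hn
    have h2 := da_log_add_le hne
    have h3 : (s * Real.exp (t - n)) ^ 2 = Real.exp (t - n) * Real.exp (t - n) := by
      rw [← sq_abs, hab, sq]
    have h4 : Real.exp ((n : ℝ) - t) * Real.exp (t - n) = 1 := by
      rw [← Real.exp_add]; simp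
    have h5 : Real.exp (t - n) ≤ Real.exp (-|t - n| / 2) := by
      apply Real.exp_le_exp.mpr
      rw [abs_of_neg (by linarith)]; linarith
    calc _ ≤ |y| * Real.exp ((n : ℝ) - t) * ((s * Real.exp (t - n)) ^ 2 / 2) :=
          mul_le_mul_of_nonneg_left h2 (by positivity)
      _ = 1 / 2 * (|y| * (Real.exp ((n : ℝ) - t) * Real.exp (t - n) * Real.exp (t - n))) := by
          rw [h3]; ring
      _ = 1 / 2 * (|y| * Real.exp (t - n)) := by rw [h4, one_mul]
      _ ≤ 2 * (|y| * Real.exp (-|t - n| / 2)) := by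
          have h6 : |y| * Real.exp (t - n) ≤ |y| * Real.exp (-|t - n| / 2) :=
            mul_le_mul_of_nonneg_left h5 (abs_nonneg _)
          have h7 : 0 ≤ |y| * Real.exp (-|t - n| / 2) := by positivity
          linarith

lemma da_gap {t : ℝ} {n : ℕ} (h : 1 / 8 ≤ |t - n|) : 1 / 9 ≤ |1 - Real.exp (t - n)| := by
  rcases le_total 0 (t - (n : ℝ)) with h0 | h0
  · rw [abs_of_nonneg h0] at h
    have h1 := Real.add_one_le_exp (t - n)
    rw [abs_of_nonpos (by linarith)]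
    linarith
  · rw [abs_of_nonpos h0] at h
    have h1 := Real.add_one_le_exp (-(t - n))
    have h2 : Real.exp (t - n) * Real.exp (-(t - n)) = 1 := by
      rw [← Real.exp_add]; simp
    have h3 := Real.exp_pos (t - n)
    have h4 : Real.exp (t - n) ≤ 8 / 9 := by
      by_contra hc
      push Not at hc
      nlinarith
    rw [abs_of_nonneg (by linarith)]
    linarith

/-- lower bound of one term -/
lemma da_term_lower {y s θ t : ℝ} {n : ℕ} (ht : 0 ≤ t) (hs : |s| = 1) (hys : |y| * s = y)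
    (hgap : 1 / 8 ≤ |t - n|) :
    (if n ∈ Finset.range (⌊t⌋₊ + 1) then y * Real.cos θ else 0) -
    |y| * Real.exp ((n : ℝ) - t) *
        (Real.log ‖1 - ((s * Real.exp (t - n) : ℝ) : ℂ) * Complex.exp ((θ : ℂ) * I)‖ +
          s * Real.exp (t - n) * Real.cos θ) ≤
      Real.exp (1 / 2) * 40 * (|y| * Real.exp (-|(⌊t⌋₊ : ℝ) - n| / 2)) := by
  have hab : |s * Real.exp (t - n)| = Real.exp (t - n) := by
    rw [abs_mul, hs, one_mul, abs_of_pos (Real.exp_pos _)]
  have hg := da_gap hgap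
  have hlog : -8 ≤ Real.log ‖1 - ((s * Real.exp (t - n) : ℝ) : ℂ) * Complex.exp ((θ : ℂ) * I)‖ := by
    have h1 := da_log_ge (a := s * Real.exp (t - n)) (δ := 1 / 9) (θ := θ) (by norm_num) (by rwa [hab])
    have h2 : -8 ≤ Real.log (1 / 9) := by
      have := Real.one_sub_inv_le_log_of_pos (show (0 : ℝ) < 1 / 9 by norm_num)
      norm_num at this ⊢
      linarith
    linarith
  apply da_kernel ht (by norm_num)
  by_cases hn : n ∈ Finset.range (⌊t⌋₊ + 1)
  · rw [if_pos hn, ← neg_sub, da_low_term hys]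
    have hu : 0 ≤ t - n := by linarith [da_floor_le ht hn]
    have h3 : Real.exp ((n : ℝ) - t) ≤ Real.exp (-|t - n| / 2) := by
      apply Real.exp_le_exp.mpr
      rw [abs_of_nonneg hu]; linarith
    calc -(|y| * Real.exp ((n : ℝ) - t) *
          Real.log ‖1 - ((s * Real.exp (t - n) : ℝ) : ℂ) * Complex.exp ((θ : ℂ) * I)‖)
        = |y| * Real.exp ((n : ℝ) - t) *
          (-Real.log ‖1 - ((s * Real.exp (t - n) : ℝ) : ℂ) * Complex.exp ((θ : ℂ) * I)‖) := by ring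
      _ ≤ |y| * Real.exp ((n : ℝ) - t) * 8 :=
          mul_le_mul_of_nonneg_left (by linarith) (by positivity)
      _ ≤ |y| * Real.exp (-|t - n| / 2) * 8 := by gcongr
      _ ≤ _ := by
          have h7 : 0 ≤ |y| * Real.exp (-|t - n| / 2) := by positivity
          linarith
  · rw [if_neg hn, zero_sub]
    have hnt : t < (n : ℝ) := da_floor_gt hn
    have hE1 : Real.exp (t - n) ≤ 1 := by rw [Real.exp_le_one_iff]; linarith
    set a := s * Real.exp (t - n) with ha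
    have ha1 : |a| ≤ 1 := by rw [hab]; exact hE1
    have hre : ((a : ℂ) * Complex.exp ((θ : ℂ) * I)).re = a * Real.cos θ := by
      rw [Complex.re_ofReal_mul, Complex.exp_ofReal_mul_I_re]
    have hnorm : ‖(a : ℂ) * Complex.exp ((θ : ℂ) * I)‖ = |a| := by
      rw [norm_mul, Complex.norm_exp_ofReal_mul_I, mul_one, Complex.norm_real, Real.norm_eq_abs]
    have h2 : -(Real.log ‖1 - (a : ℂ) * Complex.exp ((θ : ℂ) * I)‖ + a * Real.cos θ) ≤ 40 * a ^ 2 := by
      rcases le_or_gt |a| (1 / 2) with h | h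
      · have h1 : ‖-((a : ℂ) * Complex.exp ((θ : ℂ) * I))‖ < 1 := by
          rw [norm_neg, hnorm]; linarith
        have h2 := Complex.norm_log_one_add_sub_self_le h1
        rw [norm_neg, hnorm] at h2
        have h3 : |a| ^ 2 * (1 - |a|)⁻¹ / 2 ≤ a ^ 2 := by
          have : (1 - |a|)⁻¹ ≤ 2 := by
            rw [inv_le_comm₀ (by linarith) (by norm_num)]; linarith
          rw [sq_abs]
          nlinarith [sq_nonneg a]
        have h4 := Complex.abs_re_le_norm (Complex.log (1 + -((a : ℂ) * Complex.exp ((θ : ℂ) * I))) -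
          -((a : ℂ) * Complex.exp ((θ : ℂ) * I)))
        rw [Complex.sub_re, Complex.log_re, Complex.neg_re, hre, ← sub_eq_add_neg, sub_neg_eq_add] at h4
        have h5 : |Real.log ‖1 - (a : ℂ) * Complex.exp ((θ : ℂ) * I)‖ + a * Real.cos θ| ≤ a ^ 2 := by
          calc _ ≤ _ := h4
            _ ≤ a ^ 2 := by
              rw [← sub_eq_add_neg] at h2
              exact h2.trans h3
        have h6 := neg_le_abs (Real.log ‖1 - (a : ℂ) * Complex.exp ((θ : ℂ) * I)‖ + a * Real.cos θ)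
        have h7 := sq_nonneg a
        linarith
      · have h3 : |a * Real.cos θ| ≤ 1 := by
          rw [abs_mul]
          have := Real.abs_cos_le_one θ
          nlinarith [abs_nonneg a, abs_nonneg (Real.cos θ)]
        have h4 : 1 / 4 ≤ a ^ 2 := by
          rw [← sq_abs]; nlinarith
        have h5 := neg_le_abs (a * Real.cos θ)
        linarith
    have h3 : a ^ 2 = Real.exp (t - n) * Real.exp (t - n) := by
      rw [← sq_abs, hab, sq]
    have h4 : Real.exp ((n : ℝ) - t) * Real.exp (t - n) = 1 := by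
      rw [← Real.exp_add]; simp
    have h5 : Real.exp (t - n) ≤ Real.exp (-|t - n| / 2) := by
      apply Real.exp_le_exp.mpr
      rw [abs_of_neg (by linarith)]; linarith
    calc -(|y| * Real.exp ((n : ℝ) - t) *
          (Real.log ‖1 - (a : ℂ) * Complex.exp ((θ : ℂ) * I)‖ + a * Real.cos θ))
        = |y| * Real.exp ((n : ℝ) - t) *
          (-(Real.log ‖1 - (a : ℂ) * Complex.exp ((θ : ℂ) * I)‖ + a * Real.cos θ)) := by ring
      _ ≤ |y| * Real.exp ((n : ℝ) - t) * (40 * a ^ 2) :=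
          mul_le_mul_of_nonneg_left h2 (by positivity)
      _ = 40 * (|y| * (Real.exp ((n : ℝ) - t) * Real.exp (t - n) * Real.exp (t - n))) := by
          rw [h3]; ring
      _ = 40 * (|y| * Real.exp (t - n)) := by rw [h4, one_mul]
      _ ≤ 40 * (|y| * Real.exp (-|t - n| / 2)) := by gcongr

/-- following a function by multiples of `e^{-n}` -/
lemma da_follow (b : ℝ → ℝ) : ∃ x : ℕ → ℝ, (∀ n : ℕ, ∃ k : ℤ, x n = k * Real.exp (-(n : ℝ))) ∧
    ∀ n : ℕ, |∑ i ∈ Finset.range (n + 1), x i - b n| ≤ Real.exp (-(n : ℝ)) := by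
  let S : ℕ → ℝ := fun n => Nat.rec 0
    (fun n S => S + (⌊(b n - S) / Real.exp (-(n : ℝ))⌋ : ℝ) * Real.exp (-(n : ℝ))) n
  have hS0 : S 0 = 0 := rfl
  have hSs : ∀ n, S (n + 1) = S n + (⌊(b n - S n) / Real.exp (-(n : ℝ))⌋ : ℝ) * Real.exp (-(n : ℝ)) :=
    fun n => rfl
  have hsum : ∀ n, ∑ i ∈ Finset.range n, (⌊(b i - S i) / Real.exp (-(i : ℝ))⌋ : ℝ) *
      Real.exp (-(i : ℝ)) = S n := by
    intro n
    induction n with
    | zero => simp [hS0]
    | succ n ih => rw [Finset.sum_range_succ, ih, hSs]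
  refine ⟨fun n => (⌊(b n - S n) / Real.exp (-(n : ℝ))⌋ : ℝ) * Real.exp (-(n : ℝ)),
    fun n => ⟨_, rfl⟩, fun n => ?_⟩
  rw [hsum (n + 1), hSs]
  have hE := Real.exp_pos (-(n : ℝ))
  have h1 := Int.floor_le ((b n - S n) / Real.exp (-(n : ℝ)))
  have h2 := Int.lt_floor_add_one ((b n - S n) / Real.exp (-(n : ℝ)))
  rw [le_div_iff₀ hE] at h1
  rw [div_lt_iff₀ hE, add_mul, one_mul] at h2
  rw [abs_le]
  constructor <;> linarith

lemma da_follow_slow {b : ℝ → ℝ} (hb : SlowFn b) : ∃ x : ℕ → ℝ,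
    (∀ n : ℕ, ∃ k : ℤ, x n = k * Real.exp (-(n : ℝ))) ∧ Tendsto x atTop (𝓝 0) ∧
    Tendsto (fun t : ℝ => ∑ i ∈ Finset.range (⌊t⌋₊ + 1), x i - b t) atTop (𝓝 0) := by
  obtain ⟨x, hk, hx⟩ := da_follow b
  obtain ⟨-, ω, hω, hb⟩ := hb
  have hE : Tendsto (fun n : ℕ => Real.exp (-(n : ℝ))) atTop (𝓝 0) :=
    Real.tendsto_exp_neg_atTop_nhds_zero.comp tendsto_natCast_atTop_atTop
  refine ⟨x, hk, ?_, ?_⟩
  · rw [← tendsto_add_atTop_iff_nat 1]
    have h1 : Tendsto (fun n : ℕ => Real.exp (-((n + 1 : ℕ) : ℝ)) + Real.exp (-(n : ℝ)) +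
        |ω ((n + 1 : ℕ) : ℝ)| * 4) atTop (𝓝 (0 + 0 + |0| * 4)) := by
      refine ((hE.comp (tendsto_add_atTop_nat 1)).add hE).add (Tendsto.mul_const _ ?_)
      exact (hω.comp (tendsto_natCast_atTop_atTop.comp (tendsto_add_atTop_nat 1))).abs
    rw [abs_zero, zero_mul, add_zero, add_zero] at h1
    refine squeeze_zero_norm (fun n => ?_) h1
    rw [Real.norm_eq_abs]
    have e1 : x (n + 1) = (∑ i ∈ Finset.range (n + 1 + 1), x i - b ((n + 1 : ℕ) : ℝ)) -
        (∑ i ∈ Finset.range (n + 1), x i - b (n : ℝ)) + (b ((n + 1 : ℕ) : ℝ) - b n) := by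
      rw [Finset.sum_range_succ x (n + 1)]; ring
    have h2 := hb ((n + 1 : ℕ) : ℝ) 1 (by positivity)
    have e2 : (((n + 1 : ℕ) : ℝ)) - 1 = n := by push_cast; ring
    rw [e2, abs_sub_comm] at h2
    have h3 := hx (n + 1)
    have h4 := hx n
    have h5 := le_abs_self (ω ((n + 1 : ℕ) : ℝ))
    have e4 : (1 + |(1 : ℝ)|) ^ 2 = 4 := by norm_num
    rw [e4] at h2
    rw [e1]
    calc _ ≤ |(∑ i ∈ Finset.range (n + 1 + 1), x i - b ((n + 1 : ℕ) : ℝ)) -
        (∑ i ∈ Finset.range (n + 1), x i - b (n : ℝ))| + |b ((n + 1 : ℕ) : ℝ) - b n| := abs_add_le _ _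
      _ ≤ |∑ i ∈ Finset.range (n + 1 + 1), x i - b ((n + 1 : ℕ) : ℝ)| +
        |∑ i ∈ Finset.range (n + 1), x i - b (n : ℝ)| + |b ((n + 1 : ℕ) : ℝ) - b n| := by
          gcongr
          exact abs_sub _ _
      _ ≤ _ := by linarith
  · have h1 : Tendsto (fun t : ℝ => Real.exp (-(⌊t⌋₊ : ℝ)) + |ω t| * 4) atTop (𝓝 (0 + |0| * 4)) := by
      refine (hE.comp (tendsto_nat_floor_atTop (α := ℝ))).add (Tendsto.mul_const _ ?_)
      exact hω.abs
    rw [abs_zero, zero_mul, add_zero] at h1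
    refine squeeze_zero_norm' ?_ h1
    filter_upwards [eventually_ge_atTop 0] with t ht
    rw [Real.norm_eq_abs]
    have h2 := hb t (t - ⌊t⌋₊) ht
    have e2 : t - (t - ⌊t⌋₊) = (⌊t⌋₊ : ℝ) := by ring
    have h3 := Nat.floor_le ht
    have h4 := Nat.lt_floor_add_one t
    rw [e2] at h2
    have h5 : |t - ⌊t⌋₊| ≤ 1 := by rw [abs_le]; constructor <;> linarith
    have h6 : (1 + |t - ⌊t⌋₊|) ^ 2 ≤ 4 := by nlinarith [abs_nonneg (t - ⌊t⌋₊)]
    have h7 : ω t * (1 + |t - ⌊t⌋₊|) ^ 2 ≤ |ω t| * 4 :=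
      (mul_le_mul_of_nonneg_right (le_abs_self _) (by positivity)).trans
        (mul_le_mul_of_nonneg_left h6 (abs_nonneg _))
    have h8 := hx ⌊t⌋₊
    calc |∑ i ∈ Finset.range (⌊t⌋₊ + 1), x i - b t| =
        |(∑ i ∈ Finset.range (⌊t⌋₊ + 1), x i - b (⌊t⌋₊ : ℝ)) + (b (⌊t⌋₊ : ℝ) - b t)| := by
          congr 1; ring
      _ ≤ _ := abs_add_le _ _
      _ ≤ _ := by linarith

theorem drift_all {b : ℝ → ℝ} (hb : SlowFn b) : ∃ F : ℂ → ℂ, Pre 1 F ∧
    (∀ z : ℂ, z.im ≠ 0 → F z ≠ 0) ∧ (∀ z : ℂ, ‖F (conj z)‖ = ‖F z‖) ∧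
    (∀ ε : ℝ, 0 < ε → ∀ᶠ t : ℝ in atTop, ∀ θ : ℝ, ‖F (ray (Real.exp t) θ)‖ ≤
      Real.exp (Real.exp t * (b t * Real.cos θ + ε))) ∧
    ∀ ε : ℝ, 0 < ε → ∀ᶠ t : ℝ in atTop, (∀ n : ℤ, 1 / 8 ≤ |t - n|) → ∀ θ : ℝ,
      Real.exp (Real.exp t * (b t * Real.cos θ - ε)) ≤ ‖F (ray (Real.exp t) θ)‖ := by
  obtain ⟨x, hint, hx, hxb⟩ := da_follow_slow hb
  choose k hk using hint
  obtain ⟨X, hX⟩ := drift_exists_bound hx
  have hX0 : 0 ≤ X := (abs_nonneg _).trans (hX 0)
  obtain ⟨s, hs1, hsx⟩ : ∃ s : ℕ → ℝ, (∀ n, |s n| = 1) ∧ ∀ n, |x n| * s n = x n := by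
    refine ⟨fun n => if 0 ≤ x n then 1 else -1, fun n => ?_, fun n => ?_⟩
    · dsimp only; split_ifs <;> simp
    · dsimp only
      split_ifs with h
      · rw [abs_of_nonneg h, mul_one]
      · rw [abs_of_neg (not_le.mp h)]; ring
  have hkx : ∀ n : ℕ, ((k n).natAbs : ℝ) = |x n| * Real.exp (n : ℝ) := by
    intro n
    rw [hk n, abs_mul, abs_of_pos (Real.exp_pos _), mul_assoc, ← Real.exp_add, neg_add_cancel,
      Real.exp_zero, mul_one, Nat.cast_natAbs, Int.cast_abs]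
  have hsumg : ∀ σ : ℝ, 1 < σ → Summable
      (fun i : (Σ n : ℕ, Fin (k n).natAbs) => Real.exp (-(σ * (i.1 : ℝ)))) := by
    intro σ hσ
    refine drift_summable_sig (g := fun n : ℕ => Real.exp (-(σ * (n : ℝ)))) (fun n => (Real.exp_pos _).le) ?_
    have h1 : Summable (fun n : ℕ => Real.exp ((n : ℝ) * (1 - σ))) :=
      Real.summable_exp_nat_mul_iff.mpr (by linarith)
    refine Summable.of_nonneg_of_le (fun n => by positivity) (fun n => ?_) (h1.mul_left X)
    rw [hkx n, mul_assoc, ← Real.exp_add, show (n : ℝ) + -(σ * (n : ℝ)) = (n : ℝ) * (1 - σ) by ring]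
    exact mul_le_mul_of_nonneg_right (hX n) (Real.exp_pos _).le
  have habs : ∀ n : ℕ, |s n * Real.exp (-(n : ℝ))| = Real.exp (-(n : ℝ)) := by
    intro n
    rw [abs_mul, hs1, one_mul, abs_of_pos (Real.exp_pos _)]
  have hpow : ∀ (σ : ℝ) (n : ℕ), |s n * Real.exp (-(n : ℝ))| ^ σ = Real.exp (-(σ * (n : ℝ))) := by
    intro σ n
    rw [habs, ← Real.exp_mul]; congr 1; ring
  have hc : Summable (fun i : (Σ n : ℕ, Fin (k n).natAbs) =>
      (s i.1 * Real.exp (-(i.1 : ℝ))) ^ 2) := by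
    refine (hsumg 2 (by norm_num)).congr fun i => ?_
    rw [← hpow 2 i.1, Real.rpow_two, sq_abs]
  obtain ⟨D, hD1, hD2, hD3, hD4, hD5⟩ := exists_genus_one hc
  -- the representation
  have hrep : ∀ t θ : ℝ, (∀ i : (Σ n : ℕ, Fin (k n).natAbs),
        ((s i.1 * Real.exp (-(i.1 : ℝ)) : ℝ) : ℂ) * ray (Real.exp t) θ ≠ 1) →
      D (ray (Real.exp t) θ) ≠ 0 ∧
      HasSum (fun n : ℕ => |x n| * Real.exp ((n : ℝ) - t) *
        (Real.log ‖1 - ((s n * Real.exp (t - n) : ℝ) : ℂ) * Complex.exp ((θ : ℂ) * I)‖ +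
          s n * Real.exp (t - n) * Real.cos θ) -
        (if n ∈ Finset.range (⌊t⌋₊ + 1) then x n * Real.cos θ else 0))
        (Real.exp (-t) * Real.log ‖D (ray (Real.exp t) θ)‖ -
          (∑ n ∈ Finset.range (⌊t⌋₊ + 1), x n) * Real.cos θ) := by
    intro t θ hne
    refine ⟨(hD4 _ hne).1, ?_⟩
    have h1 := (hD4 _ hne).2
    have h2 : HasSum (fun n : ℕ => ((k n).natAbs : ℝ) *
        (Real.log ‖1 - ((s n * Real.exp (-(n : ℝ)) : ℝ) : ℂ) * ray (Real.exp t) θ‖ +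
          s n * Real.exp (-(n : ℝ)) * (ray (Real.exp t) θ).re))
        (Real.log ‖D (ray (Real.exp t) θ)‖) := by
      refine h1.sigma fun n => ?_
      have := hasSum_fintype (fun _ : Fin (k n).natAbs =>
        Real.log ‖1 - ((s n * Real.exp (-(n : ℝ)) : ℝ) : ℂ) * ray (Real.exp t) θ‖ +
          s n * Real.exp (-(n : ℝ)) * (ray (Real.exp t) θ).re)
      rwa [Finset.sum_const, Finset.card_univ, Fintype.card_fin, nsmul_eq_mul] at this
    have h3 := h2.mul_left (Real.exp (-t))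
    have h4 : HasSum (fun n : ℕ => if n ∈ Finset.range (⌊t⌋₊ + 1) then x n * Real.cos θ else 0)
        ((∑ n ∈ Finset.range (⌊t⌋₊ + 1), x n) * Real.cos θ) := by
      rw [Finset.sum_mul]
      have := hasSum_sum_of_ne_finset_zero (L := SummationFilter.unconditional ℕ)
        (f := fun n : ℕ => if n ∈ Finset.range (⌊t⌋₊ + 1) then x n * Real.cos θ else 0)
        (s := Finset.range (⌊t⌋₊ + 1)) (fun n hn => if_neg hn)
      rwa [Finset.sum_congr rfl (fun n hn => if_pos hn)] at this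
    refine (h3.sub h4).congr_fun fun n => ?_
    congr 1
    have e1 : ((s n * Real.exp (-(n : ℝ)) : ℝ) : ℂ) * ray (Real.exp t) θ =
        ((s n * Real.exp (t - n) : ℝ) : ℂ) * Complex.exp ((θ : ℂ) * I) := by
      unfold ray
      rw [← mul_assoc]
      congr 1
      rw [← Complex.ofReal_mul, mul_assoc, ← Real.exp_add]
      congr 3; ring
    have e2 : s n * Real.exp (-(n : ℝ)) * (ray (Real.exp t) θ).re =
        s n * Real.exp (t - n) * Real.cos θ := by
      rw [ray_re, sub_eq_add_neg, Real.exp_add]; ring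
    rw [e1, e2, hkx n, sub_eq_add_neg (n : ℝ) t, Real.exp_add]
    ring
  have hcon : ∀ ε : ℝ, 0 < ε → ∀ C : ℝ, ∀ᶠ t : ℝ in atTop, 0 ≤ t ∧
      |∑ i ∈ Finset.range (⌊t⌋₊ + 1), x i - b t| < ε / 2 ∧ C * drift_smooth x ⌊t⌋₊ < ε / 2 := by
    intro ε hε C
    have h1 : Tendsto (fun t : ℝ => C * drift_smooth x ⌊t⌋₊) atTop (𝓝 0) := by
      have := ((drift_smooth_tendsto hx).comp (tendsto_nat_floor_atTop (α := ℝ))).const_mul C
      rwa [mul_zero] at this
    have h2 := hxb.abs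
    rw [abs_zero] at h2
    filter_upwards [eventually_ge_atTop 0, h1.eventually_lt_const (half_pos hε),
      h2.eventually_lt_const (half_pos hε)] with t h3 h4 h5
    exact ⟨h3, h5, h4⟩
  have hcos : ∀ t θ ε : ℝ, |∑ i ∈ Finset.range (⌊t⌋₊ + 1), x i - b t| < ε / 2 →
      |(∑ i ∈ Finset.range (⌊t⌋₊ + 1), x i) * Real.cos θ - b t * Real.cos θ| ≤ ε / 2 := by
    intro t θ ε h
    rw [← sub_mul, abs_mul]
    have h1 := Real.abs_cos_le_one θ
    have h2 := abs_nonneg (∑ i ∈ Finset.range (⌊t⌋₊ + 1), x i - b t)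
    nlinarith [abs_nonneg (Real.cos θ)]
  refine ⟨D, ⟨hD1, ?_, fun z hz => hD2 z hz.ne, fun z _ => ?_⟩, hD2, fun z => ?_, ?_, ?_⟩
  · intro σ hσ
    obtain ⟨σ', h1, h2, h3⟩ : ∃ σ' : ℝ, 1 < σ' ∧ σ' < σ ∧ σ' ≤ 2 := by
      refine ⟨min 2 ((1 + σ) / 2), lt_min (by norm_num) (by linarith), ?_, min_le_left _ _⟩
      exact (min_le_right _ _).trans_lt (by linarith)
    have h4 := hD5 σ' h1.le h3 ((hsumg σ' h1).congr fun i => (hpow σ' i.1).symm)
    have h5 := (tendsto_norm_cobounded_atTop (E := ℂ)).eventually (eventually_mul_rpow_le h2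
      (2 * ∑' i : (Σ n : ℕ, Fin (k n).natAbs), |s i.1 * Real.exp (-(i.1 : ℝ))| ^ σ'))
    filter_upwards [h5] with z hz
    exact (h4 z).trans (Real.exp_le_exp.mpr hz)
  · rw [hD3, Complex.norm_conj]
  · rw [hD3, Complex.norm_conj]
  · -- the upper bound
    intro ε hε
    filter_upwards [hcon ε hε (Real.exp (1 / 2) * 2)] with t ⟨ht, h1, h2⟩
    have hmain : ∀ θ : ℝ, Real.sin θ ≠ 0 → ‖D (ray (Real.exp t) θ)‖ ≤
        Real.exp (Real.exp t * (b t * Real.cos θ + ε)) := by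
      intro θ hθ
      have him : (ray (Real.exp t) θ).im ≠ 0 := by
        rw [ray_im]
        exact mul_ne_zero (Real.exp_pos _).ne' hθ
      have hne : ∀ i : (Σ n : ℕ, Fin (k n).natAbs),
          ((s i.1 * Real.exp (-(i.1 : ℝ)) : ℝ) : ℂ) * ray (Real.exp t) θ ≠ 1 := by
        intro i hi
        have h1 := congrArg Complex.im hi
        rw [Complex.im_ofReal_mul, Complex.one_im] at h1
        rcases mul_eq_zero.mp h1 with h2 | h2
        · rw [h2] at hi
          simp at hi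
        · exact him h2
      obtain ⟨h3, h4⟩ := hrep t θ hne
      have h5 := ((drift_smooth_hasSum hX ⌊t⌋₊).1).mul_left (Real.exp (1 / 2) * 2)
      have h6 := hasSum_le (fun n => da_term_upper (y := x n) (s := s n) (θ := θ) (t := t) (n := n) ht
        (hs1 n) (hsx n) (by
          intro h0
          have h7 := drift_sin_le_norm (s n * Real.exp (t - n)) θ
          rw [h0] at h7
          exact hθ (abs_nonpos_iff.mp h7))) h4 h5
      have h7 := abs_le.mp (hcos t θ ε h1)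
      have h8 : Real.exp (-t) * Real.log ‖D (ray (Real.exp t) θ)‖ ≤ b t * Real.cos θ + ε := by
        linarith [h7.2]
      have h9 : Real.log ‖D (ray (Real.exp t) θ)‖ ≤ Real.exp t * (b t * Real.cos θ + ε) := by
        have h10 := mul_le_mul_of_nonneg_left h8 (Real.exp_pos t).le
        rwa [← mul_assoc, ← Real.exp_add, add_neg_cancel, Real.exp_zero, one_mul] at h10
      rw [← Real.exp_log (norm_pos_iff.mpr h3)]
      exact Real.exp_le_exp.mpr h9
    intro θ
    have hcl : IsClosed {θ : ℝ | ‖D (ray (Real.exp t) θ)‖ ≤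
        Real.exp (Real.exp t * (b t * Real.cos θ + ε))} := by
      refine isClosed_le ?_ ?_
      · refine (hD1.continuous.comp ?_).norm
        unfold ray
        fun_prop
      · fun_prop
    have hdense : Dense {θ : ℝ | Real.sin θ ≠ 0} := by
      have : ({θ : ℝ | Real.sin θ ≠ 0}) = (Set.range fun n : ℤ => (n : ℝ) * π)ᶜ := by
        ext θ
        simp only [Set.mem_ofPred_eq, Set.mem_compl_iff, Set.mem_range, ne_eq]
        rw [Real.sin_eq_zero_iff]
      rw [this]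
      exact (Set.countable_range _).dense_compl ℝ
    exact hcl.closure_subset_iff.mpr (fun θ hθ => hmain θ hθ) (hdense θ)
  · -- the lower bound
    intro ε hε
    filter_upwards [hcon ε hε (Real.exp (1 / 2) * 40)] with t ⟨ht, h1, h2⟩ hgap θ
    have hgap' : ∀ n : ℕ, 1 / 8 ≤ |t - n| := fun n => by
      have := hgap n
      simpa using this
    have hne : ∀ i : (Σ n : ℕ, Fin (k n).natAbs),
        ((s i.1 * Real.exp (-(i.1 : ℝ)) : ℝ) : ℂ) * ray (Real.exp t) θ ≠ 1 := by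
      intro i hi
      have h3 := congrArg (fun z : ℂ => ‖z‖) hi
      simp only [norm_mul, Complex.norm_real, Real.norm_eq_abs, norm_one] at h3
      have h4 : ‖ray (Real.exp t) θ‖ = Real.exp t := by
        unfold ray
        rw [norm_mul, Complex.norm_exp_ofReal_mul_I, mul_one, Complex.norm_real, Real.norm_eq_abs,
          abs_of_pos (Real.exp_pos _)]
      rw [hs1, one_mul, abs_of_pos (Real.exp_pos _), h4, ← Real.exp_add, Real.exp_eq_one_iff] at h3
      have h5 := hgap' i.1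
      have h6 : t - (i.1 : ℝ) = 0 := by linarith
      rw [h6, abs_zero] at h5
      linarith
    obtain ⟨h3, h4⟩ := hrep t θ hne
    have h5 := ((drift_smooth_hasSum hX ⌊t⌋₊).1).mul_left (Real.exp (1 / 2) * 40)
    have h6 := hasSum_le (fun n => by
      have := da_term_lower (y := x n) (s := s n) (θ := θ) (t := t) (n := n) ht
        (hs1 n) (hsx n) (hgap' n)
      rw [neg_sub]
      exact this) h4.neg h5
    have h7 := abs_le.mp (hcos t θ ε h1)
    have h8 : b t * Real.cos θ - ε ≤ Real.exp (-t) * Real.log ‖D (ray (Real.exp t) θ)‖ := by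
      linarith [h7.1]
    have h9 : Real.exp t * (b t * Real.cos θ - ε) ≤ Real.log ‖D (ray (Real.exp t) θ)‖ := by
      have h10 := mul_le_mul_of_nonneg_left h8 (Real.exp_pos t).le
      rwa [← mul_assoc, ← Real.exp_add, add_neg_cancel, Real.exp_zero, one_mul] at h10
    rw [← Real.exp_log (norm_pos_iff.mpr h3)]
    exact Real.exp_le_exp.mpr h9

end HBOne
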