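import Mathlib

/-!
# Choice of the parameters of the peaks

For every `j` all the conditions on `lam j` hold for all sufficiently large numbers (`Filter.eventually_atTop`), so it
exists (`choose`); then put `N j = j + 1 + K * exp (4 lam j) * (1 + (M j - A j) + |A j|)`.
-/

namespace HBOne

open Filter Topology Set

/-- the parameters: the height of the peak `j` is `M j - A j`, its frequency `lam j`, the level `N j` -/
structure ExoPar (K : ℝ) (A M lam N : ℕ → ℝ) : Prop where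
  l1 : ∀ j, 1 ≤ lam j
  l2 : ∀ j, 1 ≤ Real.log (lam j) / 4 - Real.log 2
  p1 : ∀ j, (M j - A j) * Real.exp (-√(lam j)) ≤ (1 / 2) ^ j
  p2 : ∀ j, Real.exp 1 * (M j - A j) / (Real.log (lam j) / 4 - Real.log 2) ≤ (1 / 2) ^ j
  p3 : ∀ j, (M j - A j) * (1 - Real.exp (-(1 / (4 * lam j)))) ≤ (1 / 2) ^ j
  p4 : ∀ j, (M j - A j) * Real.exp (-lam j) ≤ (1 / 2) ^ j
  p5 : ∀ j : ℕ, (j : ℝ) + 1 + K * Real.exp (4 * lam j) * (1 + (M j - A j) + |A j|) ≤ N j

theorem epa_log : Tendsto (fun x : ℝ => Real.log x / 4 - Real.log 2) atTop atTop :=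
  tendsto_atTop_add_const_right _ _ (Real.tendsto_log_atTop.atTop_div_const (by norm_num))

theorem epa_ev (C : ℝ) {δ : ℝ} (hδ : 0 < δ) : ∀ᶠ x : ℝ in atTop, 1 ≤ x ∧
    1 ≤ Real.log x / 4 - Real.log 2 ∧ C * Real.exp (-√x) ≤ δ ∧
    Real.exp 1 * C / (Real.log x / 4 - Real.log 2) ≤ δ ∧
    C * (1 - Real.exp (-(1 / (4 * x)))) ≤ δ ∧ C * Real.exp (-x) ≤ δ := by
  have t1 : Tendsto (fun x : ℝ => C * Real.exp (-√x)) atTop (𝓝 (C * 0)) :=
    (Real.tendsto_exp_neg_atTop_nhds_zero.comp Real.tendsto_sqrt_atTop).const_mul C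
  have t2 : Tendsto (fun x : ℝ => Real.exp 1 * C / (Real.log x / 4 - Real.log 2)) atTop (𝓝 0) :=
    epa_log.const_div_atTop _
  have t3 : Tendsto (fun x : ℝ => C * (1 - Real.exp (-(1 / (4 * x))))) atTop
      (𝓝 (C * (1 - Real.exp (-0)))) := by
    have h1 : Tendsto (fun x : ℝ => 1 / (4 * x)) atTop (𝓝 0) :=
      (tendsto_id.const_mul_atTop (by norm_num : (0 : ℝ) < 4)).const_div_atTop 1
    exact ((Real.continuous_exp.tendsto _).comp h1.neg).const_sub 1 |>.const_mul C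
  have t4 : Tendsto (fun x : ℝ => C * Real.exp (-x)) atTop (𝓝 (C * 0)) :=
    Real.tendsto_exp_neg_atTop_nhds_zero.const_mul C
  rw [mul_zero] at t1 t4
  rw [neg_zero, Real.exp_zero, sub_self, mul_zero] at t3
  filter_upwards [eventually_ge_atTop 1, epa_log.eventually_ge_atTop 1,
    t1.eventually_le_const hδ, t2.eventually_le_const hδ, t3.eventually_le_const hδ,
    t4.eventually_le_const hδ] with x h1 h2 h3 h4 h5 h6
  exact ⟨h1, h2, h3, h4, h5, h6⟩

theorem exo_par (K : ℝ) {A M : ℕ → ℝ} (h : ∀ j, A j ≤ M j) :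
    ∃ lam N : ℕ → ℝ, ExoPar K A M lam N := by
  choose lam hl using fun j : ℕ => (epa_ev (M j - A j) (δ := (1 / 2) ^ j) (by positivity)).exists
  exact ⟨lam, fun j => (j : ℝ) + 1 + K * Real.exp (4 * lam j) * (1 + (M j - A j) + |A j|),
    fun j => (hl j).1, fun j => (hl j).2.1, fun j => (hl j).2.2.1, fun j => (hl j).2.2.2.1,
    fun j => (hl j).2.2.2.2.1, fun j => (hl j).2.2.2.2.2, fun j => le_rfl⟩

end HBOne
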