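import Pool.Agent.HBOne.RealPos
import Pool.Agent.HBOne.DriftAll
import Pool.Agent.HBInf.Moments
import Pool.Agent.HBInd.EvenOne

/-!
# Functions of order one with real zeros: density and drift

`one_base`: `f z = φ (z²) F z`, `φ` from `realize_pos`, `F` from `drift_all`; `(ray (e^t) θ)² = ray (e^{2t}) (2θ)` (`ray_sq` in
`Pool.Agent.HBInd.EvenOne`). `z ↦ φ (z²)`: order `≤ 1` (`‖φ w‖ ≤ exp (‖w‖^{σ/2})`), even in conjugation for `z ≠ 0` by the
third property (at `0` by continuity or trivially), no zeros off the real axis (`2θ` is not in `2πℤ` if `sin θ ≠ 0`); so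
`Pre 1`, and `Pre.mul`. Upper bound: product of the upper bounds (`ε/2`). Lower bound at `t`, with `1/4 ≤ |t - n|` for all
integers `n`, `ε ≤ 1/8`: from `realize_pos` at `2t` with `ε/4`: `t' ∈ [t, t + ε/8]`, then `|t' - n| ≥ 1/8`, the lower bound of
`drift_all` at `t'`, and `|b t' - b t| ≤ ε/4` for large `t` (`SlowFn`).

`vv_half`: `VV_eq`, `VV_add_int`. `ww_half`: `WW_eq` at `ψ = 0`.
-/

namespace HBOne

open HBInd HBInf Complex Filter Topology Set MeasureTheory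
open scoped Real ComplexConjugate

/-- the potential at `e^{t + iθ}`, divided by `e^t` -/
noncomputable def pot (r b : ℝ → ℝ) (t θ : ℝ) : ℝ :=
  (∫ u, kn 0 (1 / 2) u (2 * θ) * r (2 * t - u)) + b t * Real.cos θ

/-- polar coordinates -/
private lemma bas_polar {z : ℂ} (hz : z ≠ 0) : z = ray (Real.exp (Real.log ‖z‖)) (arg z) := by
  rw [Real.exp_log (norm_pos_iff.2 hz), ray, Complex.norm_mul_exp_arg_mul_I]

/-- the part with the density -/
private lemma bas_even {φ : ℂ → ℂ} (hφ : Pre (1 / 2) φ)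
    (h1 : ∀ t θ : ℝ, (∀ n : ℤ, θ ≠ n * (2 * π)) → φ (ray (Real.exp t) θ) ≠ 0)
    (h2 : ∀ t θ : ℝ, ‖φ (ray (Real.exp t) (-θ))‖ = ‖φ (ray (Real.exp t) θ)‖) :
    Pre 1 (fun z => φ (z ^ 2)) ∧ (∀ z : ℂ, z.im ≠ 0 → φ (z ^ 2) ≠ 0) ∧
      ∀ z : ℂ, ‖φ ((conj z) ^ 2)‖ = ‖φ (z ^ 2)‖ := by
  have h3 : ∀ z : ℂ, z.im ≠ 0 → φ (z ^ 2) ≠ 0 := by
    intro z hz
    have hz0 : z ≠ 0 := by
      rintro rfl
      simp at hz
    have e1 := bas_polar hz0
    have e2 : z ^ 2 = ray (Real.exp (2 * Real.log ‖z‖)) (2 * arg z) := by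
      rw [← ray_sq, ← e1]
    rw [e2]
    apply h1
    intro n hn
    apply hz
    have e3 : arg z = n * π := by linarith
    rw [e1, ray_im, e3, Real.sin_int_mul_pi, mul_zero]
  have h4 : ∀ z : ℂ, ‖φ ((conj z) ^ 2)‖ = ‖φ (z ^ 2)‖ := by
    intro z
    by_cases hz0 : z = 0
    · rw [hz0]
      simp
    have e1 := bas_polar hz0
    have e2 : z ^ 2 = ray (Real.exp (2 * Real.log ‖z‖)) (2 * arg z) := by
      rw [← ray_sq, ← e1]
    have e3 : (conj z) ^ 2 = ray (Real.exp (2 * Real.log ‖z‖)) (-(2 * arg z)) := by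
      rw [← map_pow, e2, conj_ray]
    rw [e3, e2]
    exact h2 _ _
  refine ⟨⟨?_, ?_, ?_, ?_⟩, h3, h4⟩
  · exact hφ.entire.comp (by fun_prop)
  · intro σ hσ
    have h5 := hφ.order (σ / 2) (by linarith)
    have ht : Tendsto (fun z : ℂ => z ^ 2) (Bornology.cobounded ℂ) (Bornology.cobounded ℂ) := by
      rw [← tendsto_norm_atTop_iff_cobounded]
      have h6 : Tendsto (fun z : ℂ => ‖z‖ ^ 2) (Bornology.cobounded ℂ) atTop :=
        (tendsto_pow_atTop (by norm_num)).comp (tendsto_norm_cobounded_atTop (E := ℂ))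
      refine h6.congr fun z => ?_
      rw [norm_pow]
    filter_upwards [ht.eventually h5] with z hz
    refine hz.trans (le_of_eq ?_)
    rw [norm_pow, ← Real.rpow_natCast, ← Real.rpow_mul (norm_nonneg _)]
    congr 2
    push_cast
    ring
  · intro z hz
    exact h3 z hz.ne
  · intro z _
    exact (h4 z).symm.le

theorem one_base {r b : ℝ → ℝ} {B : ℝ} (h : DensPos r B) (hb : SlowFn b) :
    ∃ f : ℂ → ℂ, Pre 1 f ∧ (∀ z : ℂ, z.im ≠ 0 → f z ≠ 0) ∧ (∀ z : ℂ, ‖f (conj z)‖ = ‖f z‖) ∧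
      (∀ ε : ℝ, 0 < ε → ∀ᶠ t : ℝ in atTop, ∀ θ : ℝ, ‖f (ray (Real.exp t) θ)‖ ≤
        Real.exp (Real.exp t * (pot r b t θ + ε))) ∧
      ∀ ε : ℝ, 0 < ε → ε ≤ 1 / 8 → ∀ᶠ t : ℝ in atTop, (∀ n : ℤ, 1 / 4 ≤ |t - n|) → ∀ θ : ℝ,
        ∃ t' ∈ Icc t (t + ε),
          Real.exp (Real.exp t' * (pot r b t θ - ε)) ≤ ‖f (ray (Real.exp t') θ)‖ := by
  obtain ⟨φ, hφ, h1, h2, h3, h4⟩ := realize_pos h
  obtain ⟨F, hF, g1, g2, g3, g4⟩ := drift_all hb
  obtain ⟨p1, p2, p3⟩ := bas_even hφ h1 h2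
  have ht2 : Tendsto (fun t : ℝ => 2 * t) atTop atTop := tendsto_id.const_mul_atTop (by norm_num)
  refine ⟨fun z => φ (z ^ 2) * F z, p1.mul hF, ?_, ?_, ?_, ?_⟩
  · intro z hz
    exact mul_ne_zero (p2 z hz) (g1 z hz)
  · intro z
    rw [norm_mul, norm_mul, p3, g2]
  · intro ε hε
    filter_upwards [ht2.eventually (h3 (ε / 2) (by positivity)), g3 (ε / 2) (by positivity)]
      with t ha hb' θ
    have ha' := ha (2 * θ)
    have hb'' := hb' θ
    rw [norm_mul, ray_sq]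
    calc ‖φ (ray (Real.exp (2 * t)) (2 * θ))‖ * ‖F (ray (Real.exp t) θ)‖
        ≤ Real.exp (Real.exp (2 * t / 2) *
            ((∫ u, kn 0 (1 / 2) u (2 * θ) * r (2 * t - u)) + ε / 2)) *
          Real.exp (Real.exp t * (b t * Real.cos θ + ε / 2)) := by gcongr
      _ = Real.exp (Real.exp t * (pot r b t θ + ε)) := by
          rw [← Real.exp_add, show 2 * t / 2 = t by ring]
          congr 1
          unfold pot
          ring
  · intro ε hε hε8
    obtain ⟨-, ω, hω, hω2⟩ := hb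
    have g4' := g4 (ε / 4) (by positivity)
    rw [eventually_atTop] at g4'
    obtain ⟨T, hT⟩ := g4'
    filter_upwards [ht2.eventually (h4 (ε / 4) (by positivity)), eventually_ge_atTop T,
      eventually_ge_atTop 0, hω.eventually (ge_mem_nhds (show (0 : ℝ) < ε / 16 by positivity))]
      with t ha htT ht0 htω hn θ
    obtain ⟨s, hs, hs'⟩ := ha (2 * θ)
    have hs1 : t ≤ s / 2 := by linarith [hs.1]
    have hs2 : s / 2 ≤ t + ε / 8 := by linarith [hs.2]
    refine ⟨s / 2, ⟨hs1, by linarith⟩, ?_⟩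
    have hgap : ∀ n : ℤ, 1 / 8 ≤ |s / 2 - n| := by
      intro n
      have q1 := hn n
      have q2 : |t - n| ≤ |t - s / 2| + |s / 2 - n| := abs_sub_le _ _ _
      have q3 : |t - s / 2| ≤ 1 / 8 := by
        rw [abs_le]
        constructor <;> linarith
      linarith
    have hg := hT (s / 2) (by linarith) hgap θ
    have hω3 : |b (s / 2) - b t| ≤ ε / 4 := by
      have q1 := hω2 t (t - s / 2) ht0
      rw [sub_sub_cancel] at q1
      refine q1.trans ?_
      have q3 : |t - s / 2| ≤ 1 := by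
        rw [abs_le]
        constructor <;> linarith
      have q4 : (1 + |t - s / 2|) ^ 2 ≤ 4 := by
        nlinarith [abs_nonneg (t - s / 2)]
      calc ω t * (1 + |t - s / 2|) ^ 2 ≤ ε / 16 * (1 + |t - s / 2|) ^ 2 := by gcongr
        _ ≤ ε / 16 * 4 := by gcongr
        _ = ε / 4 := by ring
    have hω4 : b t * Real.cos θ - ε / 4 ≤ b (s / 2) * Real.cos θ := by
      have q1 : |(b (s / 2) - b t) * Real.cos θ| ≤ ε / 4 := by
        rw [abs_mul]
        have q2 := Real.abs_cos_le_one θ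
        calc |b (s / 2) - b t| * |Real.cos θ| ≤ ε / 4 * 1 := by gcongr
          _ = ε / 4 := mul_one _
      have q3 := (abs_le.1 q1).1
      linarith
    rw [norm_mul, ray_sq, show 2 * (s / 2) = s by ring]
    have hes := Real.exp_pos (s / 2)
    calc Real.exp (Real.exp (s / 2) * (pot r b t θ - ε))
        ≤ Real.exp (Real.exp (s / 2) * ((∫ u, kn 0 (1 / 2) u (2 * θ) * r (2 * t - u)) - ε / 4) +
            Real.exp (s / 2) * (b (s / 2) * Real.cos θ - ε / 4)) := by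
          rw [← mul_add]
          apply Real.exp_le_exp.2
          apply mul_le_mul_of_nonneg_left _ hes.le
          unfold pot
          linarith
      _ = Real.exp (Real.exp (s / 2) * ((∫ u, kn 0 (1 / 2) u (2 * θ) * r (2 * t - u)) - ε / 4)) *
            Real.exp (Real.exp (s / 2) * (b (s / 2) * Real.cos θ - ε / 4)) := Real.exp_add _ _
      _ ≤ ‖φ (ray (Real.exp s) (2 * θ))‖ * ‖F (ray (Real.exp (s / 2)) θ)‖ := by gcongr

private lemma bas_G (θ : ℝ) : G (1 / 2) (2 * θ) = |Real.sin θ| := by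
  rw [G]
  set w : ℂ := -Complex.exp (((2 * θ : ℝ) : ℂ) * I) with hw
  have hw1 : ‖w‖ = 1 := by
    rw [hw, norm_neg, Complex.norm_exp_ofReal_mul_I]
  have hw0 : w ≠ 0 := by
    rw [← norm_pos_iff, hw1]
    norm_num
  have h1 : 0 ≤ Real.cos (1 / 2 * arg w) := by
    have q1 := Complex.neg_pi_lt_arg w
    have q2 := Complex.arg_le_pi w
    apply Real.cos_nonneg_of_neg_pi_div_two_le_of_le <;> linarith
  have h2 : Real.cos (arg w) = -Real.cos (2 * θ) := by
    rw [Complex.cos_arg hw0, hw1, div_one, hw, Complex.neg_re, Complex.exp_ofReal_mul_I_re]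
  have h3 : Real.cos (1 / 2 * arg w) ^ 2 = |Real.sin θ| ^ 2 := by
    rw [sq_abs, Real.cos_sq, Real.sin_sq_eq_half_sub, show 2 * (1 / 2 * arg w) = arg w by ring, h2]
    ring
  exact (pow_left_inj₀ h1 (abs_nonneg _) (by norm_num)).1 h3

theorem vv_half (θ : ℝ) : VV 0 (1 / 2) (2 * θ) = VV 0 (1 / 2) π * |Real.sin θ| := by
  rw [VV_eq (by norm_num) (by norm_num) (by norm_num) (2 * θ), bas_G]

theorem ww_half : WW 0 (1 / 2) 0 = -(π * VV 0 (1 / 2) π) := by
  rw [WW_eq (by norm_num) (by norm_num) (by norm_num) (by rw [abs_zero]; exact Real.pi_pos.le),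
    abs_zero, sub_zero, show 1 / 2 * π = π / 2 by ring, Real.cos_pi_div_two, Real.sin_pi_div_two]
  ring

end HBOne
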