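import Pool.Agent.HBOne.PeakRep
import Pool.Agent.HBOne.ExoPar
import Pool.Agent.HBOne.OneBase
import Pool.Agent.HBInf.SlowAsym

/-!
# The potential of a slow density with peaks

`C j = M j - A j ≥ 0`, `V = VV 0 (1/2) π > 0` (`VV_pi_zero`).

`exo_dens`: at most one term of the series is nonzero (`chi` is supported in `|x| ≤ 4`, `T j + 20 ≤ T (j+1)`), locally finite
sum: continuous. Where `chi (τ/2 - T j) ≠ 0`: `s = N j` and by `abs_pk_le`
`C j |pk| ≤ 4 λ (1 + |x|) e^{-λ (x² - π²/4)} C j ≤ 8 e^{3.5 λ} C j ≤ N j / V` for `K ≥ 8 V` (`(1 + |x|) e^{-x²} ≤ 2`, `λ ≤ e^λ`, `π²/4 ≤ 2.5`).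
So `0 ≤ r ≤ 2 s (τ/2)/V`.

`exo_pot`: `pot r b t θ - b t cos θ = (1/V) ∫ kn u (2θ) s ((2t - u)/2) du + ∑_j C j ∫ kn u (2θ) (chi pk) ((2t - u)/2 - T j) du`
(dominated convergence, locally finite). First term: `s t |sin θ| + o(1)` (`asym_q` for `q τ = s (τ/2)`, `vv_half`). Term `j`, with
`y = t - T j`: `C j pkT (lam j) e y θ` (`peak_rep`) `- C j ∫ kn u (2θ) ((1 - chi) pk) ((2t - u)/2 - T j) du`. As `x² - π²/4 ≥ 0.7 x²` for
`|x| ≥ 3`: `|(1 - chi x) pk x| ≤ 16 e^{-2λ} e^{-|x|/2}`, and `∫ Psi u e^{|u|/4} du < ∞` (`integrable_psi`, `sg 0 (1/2) = 1/4`), so the last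
term is `≤ C₀ C j e^{-2λ} e^{-|t - T j|/2}`. Also `|C j pkT (lam j) e y θ| ≤ C j e^{-λ (y² - π²/4)} ≤ C j e^{-λ} e^{-|y|}` for `|y| ≥ 3`.
With `p4`, `∑_j (1/2)^j e^{-|t - T j|/2} → 0` as `t → ∞` (dominated convergence). At most one `j` has `|t - T j| < 3`.
-/

namespace HBOne

open HBInd HBInf Complex Filter Topology Set MeasureTheory
open scoped Real ComplexConjugate

noncomputable def chi (x : ℝ) : ℝ := max 0 (min 1 (4 - |x|))

/-- the density: slow part and peaks of height `C j` at `T j` -/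
noncomputable def exoR (s : ℝ → ℝ) (C lam : ℕ → ℝ) (e : ℝ) (T : ℕ → ℝ) (τ : ℝ) : ℝ :=
  s (τ / 2) / VV 0 (1 / 2) π + ∑' j, C j * (chi (τ / 2 - T j) * pk (lam j) e (τ / 2 - T j))

/-- the hypotheses on the slow part -/
structure ExoSlow (N T : ℕ → ℝ) (s : ℝ → ℝ) : Prop where
  slow : SlowFn s
  nn : ∀ t, 0 ≤ s t
  zero : ∀ t ≤ 1, s t = 0
  bd : ∃ C : ℝ, ∀ t, s t ≤ C * (1 + |t|)
  T10 : ∀ j : ℕ, (j : ℝ) + 10 ≤ T j
  step : ∀ j, T j + 20 ≤ T (j + 1)
  plat : ∀ j t, |t - T j| ≤ 8 → s t = N j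

namespace EPO

theorem chi_nonneg (x : ℝ) : 0 ≤ chi x := le_max_left _ _

theorem chi_le_one (x : ℝ) : chi x ≤ 1 := by
  unfold chi
  exact max_le zero_le_one (min_le_left _ _)

theorem chi_zero {x : ℝ} (h : 4 ≤ |x|) : chi x = 0 := by
  unfold chi
  exact max_eq_left ((min_le_right _ _).trans (by linarith))

theorem chi_one {x : ℝ} (h : |x| ≤ 3) : chi x = 1 := by
  unfold chi
  rw [min_eq_left (by linarith), max_eq_right zero_le_one]

theorem continuous_chi : Continuous chi := by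
  unfold chi
  fun_prop

/-- the terms of the density -/
noncomputable def g (C lam : ℕ → ℝ) (e : ℝ) (T : ℕ → ℝ) (j : ℕ) (x : ℝ) : ℝ :=
  C j * (chi (x - T j) * pk (lam j) e (x - T j))

theorem continuous_g (C lam : ℕ → ℝ) (e : ℝ) (T : ℕ → ℝ) (j : ℕ) :
    Continuous (g C lam e T j) := by
  unfold g
  have h1 := continuous_chi
  have h2 := continuous_pk (lam j) e
  fun_prop

theorem g_zero {C lam : ℕ → ℝ} {e : ℝ} {T : ℕ → ℝ} {j : ℕ} {x : ℝ} (h : 4 ≤ |x - T j|) :
    g C lam e T j x = 0 := by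
  unfold g
  rw [chi_zero h]
  ring

section

variable {N T : ℕ → ℝ} {s : ℝ → ℝ}

theorem mono_T (hs : ExoSlow N T s) : Monotone T :=
  monotone_nat_of_le_succ fun j => by linarith [hs.step j]

theorem sep_T (hs : ExoSlow N T s) {i j : ℕ} (h : i < j) : T i + 20 ≤ T j := by
  have h1 : T (i + 1) ≤ T j := mono_T hs h
  linarith [hs.step i]

theorem uniq (hs : ExoSlow N T s) {i j : ℕ} {x : ℝ} (h : |x - T i| + |x - T j| < 20) : i = j := by
  have h1 := neg_abs_le (x - T i)
  have h2 := le_abs_self (x - T i)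
  have h3 := neg_abs_le (x - T j)
  have h4 := le_abs_self (x - T j)
  rcases lt_trichotomy i j with h5 | h5 | h5
  · have := sep_T hs h5
    linarith
  · exact h5
  · have := sep_T hs h5
    linarith

theorem pi_sq_le : π ^ 2 / 4 ≤ 2.5 := by
  have := Real.pi_lt_d2
  have := Real.pi_pos
  nlinarith

theorem V_pos : 0 < VV 0 (1 / 2) π := VV_pi_zero (by norm_num) (by norm_num)

variable {A M lam : ℕ → ℝ}

/-- the bound of the peaks by the slow part -/
theorem g_le (hAM : ∀ j, A j ≤ M j) (hp : ExoPar (8 * VV 0 (1 / 2) π) A M lam N)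
    (hs : ExoSlow N T s) (e : ℝ) {j : ℕ} {x : ℝ} (h : |x - T j| < 4) :
    |g (fun j => M j - A j) lam e T j x| ≤ s x / VV 0 (1 / 2) π := by
  have hV := V_pos
  have hC : 0 ≤ M j - A j := sub_nonneg.2 (hAM j)
  have hl := hp.l1 j
  rw [hs.plat j x (by linarith)]
  have h5 := hp.p5 j
  have h1 := abs_pk_le hl e (x - T j)
  set y := x - T j with hy
  have e1 : (1 + |y|) * Real.exp (-(y ^ 2)) ≤ 2 := by
    have a1 : 1 + |y| ≤ 2 * Real.exp (y ^ 2) := by
      have a2 := Real.add_one_le_exp (y ^ 2)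
      have a3 : |y| ≤ 1 + y ^ 2 := by
        have := sq_abs y
        nlinarith [sq_nonneg (|y| - 1)]
      have a4 : 0 ≤ y ^ 2 := sq_nonneg y
      linarith
    have a5 : Real.exp (y ^ 2) * Real.exp (-(y ^ 2)) = 1 := by
      rw [← Real.exp_add]; simp
    have a6 := Real.exp_pos (-(y ^ 2))
    nlinarith
  have e2 : Real.exp (-(lam j * (y ^ 2 - π ^ 2 / 4))) ≤
      Real.exp (-(y ^ 2)) * Real.exp (2.5 * lam j) := by
    rw [← Real.exp_add]
    apply Real.exp_le_exp.2
    have := pi_sq_le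
    nlinarith [sq_nonneg y]
  have e3 : lam j ≤ Real.exp (lam j) := by
    have := Real.add_one_le_exp (lam j)
    linarith
  have e4 : Real.exp (2.5 * lam j) * Real.exp (lam j) ≤ Real.exp (4 * lam j) := by
    rw [← Real.exp_add]
    apply Real.exp_le_exp.2
    linarith
  have e5 : |pk (lam j) e y| ≤ 8 * Real.exp (4 * lam j) := by
    have p1 := Real.exp_pos (2.5 * lam j)
    have p2 := Real.exp_pos (-(y ^ 2))
    have p3 := abs_nonneg y
    calc |pk (lam j) e y| ≤ 4 * lam j * (1 + |y|) * Real.exp (-(lam j * (y ^ 2 - π ^ 2 / 4))) := h1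
      _ ≤ 4 * lam j * (1 + |y|) * (Real.exp (-(y ^ 2)) * Real.exp (2.5 * lam j)) :=
          mul_le_mul_of_nonneg_left e2 (by positivity)
      _ = 4 * lam j * ((1 + |y|) * Real.exp (-(y ^ 2))) * Real.exp (2.5 * lam j) := by ring
      _ ≤ 4 * lam j * 2 * Real.exp (2.5 * lam j) := by gcongr
      _ ≤ 4 * Real.exp (lam j) * 2 * Real.exp (2.5 * lam j) := by gcongr
      _ = 8 * (Real.exp (2.5 * lam j) * Real.exp (lam j)) := by ring
      _ ≤ _ := by gcongr
  have e6 : |chi y * pk (lam j) e y| ≤ 8 * Real.exp (4 * lam j) := by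
    rw [abs_mul, abs_of_nonneg (chi_nonneg _)]
    have := chi_le_one y
    have := abs_nonneg (pk (lam j) e y)
    nlinarith
  have e7 : (M j - A j) * (8 * Real.exp (4 * lam j)) ≤ N j / VV 0 (1 / 2) π := by
    rw [le_div_iff₀ hV]
    have q1 := Real.exp_pos (4 * lam j)
    have q2 := abs_nonneg (A j)
    have q3 : 0 ≤ 8 * VV 0 (1 / 2) π * Real.exp (4 * lam j) * (1 + |A j|) := by positivity
    have q4 : (0 : ℝ) ≤ j := Nat.cast_nonneg j
    nlinarith
  unfold g
  simp only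
  rw [abs_mul, abs_of_nonneg hC]
  exact (mul_le_mul_of_nonneg_left e6 hC).trans e7

theorem sum_g_le (hAM : ∀ j, A j ≤ M j) (hp : ExoPar (8 * VV 0 (1 / 2) π) A M lam N)
    (hs : ExoSlow N T s) (e : ℝ) (S : Finset ℕ) (x : ℝ) :
    ∑ j ∈ S, |g (fun j => M j - A j) lam e T j x| ≤ s x / VV 0 (1 / 2) π := by
  classical
  have hV := V_pos
  by_cases h : ∃ j, |x - T j| < 4
  · obtain ⟨j₀, hj₀⟩ := h
    have h1 : ∀ j, j ≠ j₀ → |g (fun j => M j - A j) lam e T j x| = 0 := by
      intro j hj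
      rw [g_zero, abs_zero]
      by_contra h2
      push Not at h2
      exact hj (uniq hs (x := x) (by linarith))
    by_cases h2 : j₀ ∈ S
    · rw [Finset.sum_eq_single_of_mem j₀ h2 fun j _ hj => h1 j hj]
      exact g_le hAM hp hs e hj₀
    · rw [Finset.sum_eq_zero fun j hj => h1 j fun h3 => h2 (h3 ▸ hj)]
      exact div_nonneg (hs.nn x) hV.le
  · push Not at h
    rw [Finset.sum_eq_zero fun j _ => by rw [g_zero (h j), abs_zero]]
    exact div_nonneg (hs.nn x) hV.le

theorem tsum_g_le (hAM : ∀ j, A j ≤ M j) (hp : ExoPar (8 * VV 0 (1 / 2) π) A M lam N)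
    (hs : ExoSlow N T s) (e : ℝ) (x : ℝ) :
    |∑' j, g (fun j => M j - A j) lam e T j x| ≤ s x / VV 0 (1 / 2) π := by
  classical
  have hV := V_pos
  by_cases h : ∃ j, |x - T j| < 4
  · obtain ⟨j₀, hj₀⟩ := h
    rw [tsum_eq_single j₀]
    · exact g_le hAM hp hs e hj₀
    · intro j hj
      apply g_zero
      by_contra h2
      push Not at h2
      exact hj (uniq hs (x := x) (by linarith))
  · push Not at h
    have h1 : ∀ j, g (fun j => M j - A j) lam e T j x = 0 := fun j => g_zero (h j)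
    rw [tsum_congr h1, tsum_zero, abs_zero]
    exact div_nonneg (hs.nn x) hV.le

theorem tsum_g_eq (hs : ExoSlow N T s) (C lam : ℕ → ℝ) (e : ℝ) (J : ℕ) {x : ℝ} (hx : x < J) :
    ∑' j, g C lam e T j x = ∑ j ∈ Finset.range J, g C lam e T j x := by
  apply tsum_eq_sum
  intro j hj
  rw [Finset.mem_range, not_lt] at hj
  apply g_zero
  have h1 := hs.T10 j
  have h2 : (J : ℝ) ≤ j := by exact_mod_cast hj
  have h3 := neg_abs_le (x - T j)
  linarith

theorem continuous_G (hs : ExoSlow N T s) (C lam : ℕ → ℝ) (e : ℝ) :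
    Continuous fun x => ∑' j, g C lam e T j x := by
  rw [continuous_iff_continuousAt]
  intro x
  obtain ⟨J, hJ⟩ := exists_nat_gt x
  have h1 : (fun x => ∑' j, g C lam e T j x) =ᶠ[𝓝 x]
      fun x => ∑ j ∈ Finset.range J, g C lam e T j x := by
    filter_upwards [eventually_lt_nhds hJ] with z hz
    exact tsum_g_eq hs C lam e J hz
  rw [continuousAt_congr h1]
  exact (continuous_finsetSum _ fun j _ => continuous_g C lam e T j).continuousAt

end

end EPO

theorem exo_dens {A M lam N T : ℕ → ℝ} (hAM : ∀ j, A j ≤ M j)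
    (hp : ExoPar (8 * VV 0 (1 / 2) π) A M lam N) {s : ℝ → ℝ} (hs : ExoSlow N T s) (e : ℝ) :
    ∃ B : ℝ, DensPos (exoR s (fun j => M j - A j) lam e T) B := by
  have hV := EPO.V_pos
  obtain ⟨C, hC⟩ := hs.bd
  have hr : ∀ τ, exoR s (fun j => M j - A j) lam e T τ = s (τ / 2) / VV 0 (1 / 2) π +
      ∑' j, EPO.g (fun j => M j - A j) lam e T j (τ / 2) := fun τ => rfl
  refine ⟨2 * |C| / VV 0 (1 / 2) π, ?_, ?_, ?_, ?_⟩
  · have h1 := hs.slow.1
    have h2 := EPO.continuous_G hs (fun j => M j - A j) lam e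
    have h3 : (exoR s (fun j => M j - A j) lam e T) = fun τ => s (τ / 2) / VV 0 (1 / 2) π +
        (fun x => ∑' j, EPO.g (fun j => M j - A j) lam e T j x) (τ / 2) := funext hr
    rw [h3]
    have h4 : Continuous fun τ : ℝ => τ / 2 := by fun_prop
    have h5 := h2.comp h4
    have h6 : Continuous fun τ : ℝ => s (τ / 2) / VV 0 (1 / 2) π := by fun_prop
    exact h6.add h5
  · intro τ
    rw [hr]
    have := (abs_le.1 (EPO.tsum_g_le hAM hp hs e (τ / 2))).1
    linarith
  · intro τ hτ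
    rw [hr, hs.zero _ (by linarith)]
    have h1 : ∀ j, EPO.g (fun j => M j - A j) lam e T j (τ / 2) = 0 := by
      intro j
      apply EPO.g_zero
      have h1 := hs.T10 j
      have h2 : (0 : ℝ) ≤ j := Nat.cast_nonneg j
      have h3 := neg_abs_le (τ / 2 - T j)
      linarith
    rw [tsum_congr h1, tsum_zero]
    simp
  · intro τ
    rw [hr]
    have h1 := (abs_le.1 (EPO.tsum_g_le hAM hp hs e (τ / 2))).2
    have h2 := hC (τ / 2)
    have h3 : s (τ / 2) ≤ |C| * (1 + |τ|) ^ 2 := by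
      have a1 : |τ / 2| = |τ| / 2 := by rw [abs_div]; norm_num
      have a2 := abs_nonneg τ
      have a3 : C * (1 + |τ / 2|) ≤ |C| * (1 + |τ / 2|) :=
        mul_le_mul_of_nonneg_right (le_abs_self C) (by positivity)
      have a4 : |C| * (1 + |τ / 2|) ≤ |C| * (1 + |τ|) ^ 2 := by
        refine mul_le_mul_of_nonneg_left ?_ (abs_nonneg C)
        rw [a1]
        nlinarith
      linarith
    have h4 : s (τ / 2) / VV 0 (1 / 2) π ≤ |C| * (1 + |τ|) ^ 2 / VV 0 (1 / 2) π :=
      div_le_div_of_nonneg_right h3 hV.le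
    calc _ ≤ s (τ / 2) / VV 0 (1 / 2) π + s (τ / 2) / VV 0 (1 / 2) π := by linarith
      _ ≤ |C| * (1 + |τ|) ^ 2 / VV 0 (1 / 2) π + |C| * (1 + |τ|) ^ 2 / VV 0 (1 / 2) π := by
          linarith
      _ = _ := by ring

namespace EPO

/-- the integral of the majorant -/
noncomputable def T0 : ℝ := ∫ u : ℝ, (1 + |u|) ^ 2 * Psi 0 (1 / 2) u *
  Real.exp (sg 0 (1 / 2) * |u|)

theorem h1' : ((0 : ℕ) : ℝ) < (1 / 2 : ℝ) := by norm_num

theorem h2' : (1 / 2 : ℝ) < ((0 : ℕ) : ℝ) + 1 := by norm_num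

theorem T0_nonneg : 0 ≤ T0 := by
  apply integral_nonneg
  intro u
  have := Psi_nonneg 0 (1 / 2) u
  simp only [Pi.zero_apply]
  positivity

theorem E_tendsto (T : ℕ → ℝ) :
    Tendsto (fun t : ℝ => ∑' j : ℕ, (1 / 2 : ℝ) ^ j * Real.exp (-(|t - T j| / 2))) atTop
      (𝓝 0) := by
  have hgeo : Summable fun j : ℕ => (1 / 2 : ℝ) ^ j :=
    summable_geometric_of_lt_one (by norm_num) (by norm_num)
  have h := tendsto_tsum_of_dominated_convergence (𝓕 := atTop)
    (f := fun (t : ℝ) (j : ℕ) => (1 / 2 : ℝ) ^ j * Real.exp (-(|t - T j| / 2)))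
    (g := fun _ => (0 : ℝ)) hgeo (fun j => by
      have h1 : Tendsto (fun t : ℝ => t - T j) atTop atTop :=
        tendsto_atTop_add_const_right _ _ tendsto_id
      have h2 : Tendsto (fun t : ℝ => |t - T j| / 2) atTop atTop :=
        (tendsto_abs_atTop_atTop.comp h1).atTop_div_const (by norm_num)
      have h3 := Real.tendsto_exp_neg_atTop_nhds_zero.comp h2
      simpa using h3.const_mul ((1 / 2 : ℝ) ^ j))
    (Filter.Eventually.of_forall fun t j => by
      rw [Real.norm_eq_abs, abs_of_nonneg (by positivity)]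
      refine mul_le_of_le_one_right (by positivity) ?_
      rw [Real.exp_le_one_iff]
      have := abs_nonneg (t - T j)
      linarith)
  simpa using h

theorem slow_half {s : ℝ → ℝ} (hs : SlowFn s) : SlowFn fun τ => s (τ / 2) := by
  obtain ⟨hc, ω, hω, hb⟩ := hs
  refine ⟨by fun_prop, fun t => ω (t / 2), ?_, ?_⟩
  · exact hω.comp (tendsto_id.atTop_div_const (by norm_num))
  · intro t u ht
    have h1 := hb (t / 2) (u / 2) (by linarith)
    have h0 : 0 ≤ ω (t / 2) := by
      have := hb (t / 2) 0 (by linarith)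
      simpa using this
    have h2 : (t - u) / 2 = t / 2 - u / 2 := by ring
    simp only
    rw [h2]
    refine h1.trans (mul_le_mul_of_nonneg_left ?_ h0)
    have h3 : |u / 2| = |u| / 2 := by rw [abs_div]; norm_num
    rw [h3]
    have := abs_nonneg u
    exact pow_le_pow_left₀ (by positivity) (by linarith) 2

/-- the part of the peak which is cut off -/
theorem cut_le {lam : ℝ} (hl : 1 ≤ lam) (e x : ℝ) :
    |(1 - chi x) * pk lam e x| ≤ 8 * Real.exp (-(2 * lam)) * Real.exp (-(|x| / 2)) := by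
  rcases le_or_gt |x| 3 with h | h
  · rw [chi_one h]
    simp only [sub_self, zero_mul, abs_zero]
    positivity
  · have h1 := abs_pk_le hl e x
    have h2 : |1 - chi x| ≤ 1 := by
      rw [abs_le]
      constructor <;> linarith [chi_nonneg x, chi_le_one x]
    have h3 : |(1 - chi x) * pk lam e x| ≤ |pk lam e x| := by
      rw [abs_mul]
      exact mul_le_of_le_one_left (abs_nonneg _) h2
    have hx := sq_abs x
    have e1 : Real.exp (-(lam * (x ^ 2 - π ^ 2 / 4))) ≤
        Real.exp (-(3 * lam)) * Real.exp (-|x|) := by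
      rw [← Real.exp_add]
      apply Real.exp_le_exp.2
      have a1 := pi_sq_le
      have a2 : 3 + |x| ≤ x ^ 2 - π ^ 2 / 4 := by
        rw [← hx]
        nlinarith
      have a3 : |x| ≤ lam * |x| := le_mul_of_one_le_left (abs_nonneg x) hl
      have a4 : lam * (3 + |x|) ≤ lam * (x ^ 2 - π ^ 2 / 4) :=
        mul_le_mul_of_nonneg_left a2 (by linarith)
      nlinarith
    have e2 : lam ≤ Real.exp lam := by
      have := Real.add_one_le_exp lam
      linarith
    have e3 : 1 + |x| ≤ 2 * Real.exp (|x| / 2) := by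
      have := Real.add_one_le_exp (|x| / 2)
      have := abs_nonneg x
      linarith
    have e4 : Real.exp lam * Real.exp (-(3 * lam)) = Real.exp (-(2 * lam)) := by
      rw [← Real.exp_add]; congr 1; ring
    have e5 : Real.exp (|x| / 2) * Real.exp (-|x|) = Real.exp (-(|x| / 2)) := by
      rw [← Real.exp_add]; congr 1; ring
    refine h3.trans (h1.trans ?_)
    calc 4 * lam * (1 + |x|) * Real.exp (-(lam * (x ^ 2 - π ^ 2 / 4)))
        ≤ 4 * Real.exp lam * (2 * Real.exp (|x| / 2)) *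
            (Real.exp (-(3 * lam)) * Real.exp (-|x|)) := by
          have := abs_nonneg x
          gcongr
      _ = 8 * (Real.exp lam * Real.exp (-(3 * lam))) *
            (Real.exp (|x| / 2) * Real.exp (-|x|)) := by ring
      _ = _ := by rw [e4, e5]

/-- the potential of the part which is cut off -/
theorem cut_pot {lam : ℝ} (hl : 1 ≤ lam) (e y θ : ℝ) :
    Integrable (fun u => kn 0 (1 / 2) u (2 * θ) *
        ((1 - chi ((2 * y - u) / 2)) * pk lam e ((2 * y - u) / 2))) ∧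
      |∫ u, kn 0 (1 / 2) u (2 * θ) *
        ((1 - chi ((2 * y - u) / 2)) * pk lam e ((2 * y - u) / 2))| ≤
        8 * Real.exp (-(2 * lam)) * Real.exp (-(|y| / 2)) * T0 := by
  have hI := (integrable_psi (p := 0) (ρ := 1 / 2) (by norm_num) h1' h2').const_mul
    (8 * Real.exp (-(2 * lam)) * Real.exp (-(|y| / 2)))
  have hsg : sg 0 (1 / 2) = 1 / 4 := by
    unfold sg
    norm_num
  have hle : ∀ᵐ u : ℝ, ‖kn 0 (1 / 2) u (2 * θ) *
      ((1 - chi ((2 * y - u) / 2)) * pk lam e ((2 * y - u) / 2))‖ ≤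
      8 * Real.exp (-(2 * lam)) * Real.exp (-(|y| / 2)) *
        ((1 + |u|) ^ 2 * Psi 0 (1 / 2) u * Real.exp (sg 0 (1 / 2) * |u|)) := by
    filter_upwards [knt_ae_ne] with u hu
    have a1 := abs_kn_le (p := 0) (by norm_num) (1 / 2) hu (2 * θ)
    have a2 := cut_le hl e ((2 * y - u) / 2)
    have a3 := Psi_nonneg 0 (1 / 2) u
    have a4 : Real.exp (-(|(2 * y - u) / 2| / 2)) ≤
        Real.exp (-(|y| / 2)) * Real.exp (sg 0 (1 / 2) * |u|) := by
      rw [← Real.exp_add, hsg]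
      apply Real.exp_le_exp.2
      have b1 : |y| ≤ |(2 * y - u) / 2| + |u / 2| := by
        have := abs_add_le ((2 * y - u) / 2) (u / 2)
        rwa [show (2 * y - u) / 2 + u / 2 = y by ring] at this
      have b2 : |u / 2| = |u| / 2 := by rw [abs_div]; norm_num
      linarith
    have a5 : 1 ≤ (1 + |u|) ^ 2 := by
      have := abs_nonneg u
      nlinarith
    rw [Real.norm_eq_abs, abs_mul]
    have a6 := Real.exp_pos (sg 0 (1 / 2) * |u|)
    calc _ ≤ Psi 0 (1 / 2) u *
          (8 * Real.exp (-(2 * lam)) * Real.exp (-(|(2 * y - u) / 2| / 2))) :=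
          mul_le_mul a1 a2 (abs_nonneg _) a3
      _ ≤ Psi 0 (1 / 2) u * (8 * Real.exp (-(2 * lam)) *
          (Real.exp (-(|y| / 2)) * Real.exp (sg 0 (1 / 2) * |u|))) := by gcongr
      _ = 8 * Real.exp (-(2 * lam)) * Real.exp (-(|y| / 2)) *
        (1 * Psi 0 (1 / 2) u * Real.exp (sg 0 (1 / 2) * |u|)) := by ring
      _ ≤ _ := by gcongr
  have hm : Measurable fun u => kn 0 (1 / 2) u (2 * θ) *
      ((1 - chi ((2 * y - u) / 2)) * pk lam e ((2 * y - u) / 2)) := by
    have c1 := continuous_chi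
    have c2 := continuous_pk lam e
    have c3 : Continuous fun u : ℝ => (1 - chi ((2 * y - u) / 2)) * pk lam e ((2 * y - u) / 2) := by
      fun_prop
    exact (knt_meas_kn 0 (1 / 2) (2 * θ)).mul c3.measurable
  refine ⟨Integrable.mono' hI hm.aestronglyMeasurable hle, ?_⟩
  rw [T0, ← integral_const_mul, ← Real.norm_eq_abs]
  exact norm_integral_le_of_norm_le hI hle

/-- the potential of a term -/
theorem term_pot {lam : ℝ} (hl : 1 ≤ lam) (e y : ℝ) {θ : ℝ} (hθ : |θ| ≤ π) :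
    Integrable (fun u => kn 0 (1 / 2) u (2 * θ) *
        (chi ((2 * y - u) / 2) * pk lam e ((2 * y - u) / 2))) ∧
      |(∫ u, kn 0 (1 / 2) u (2 * θ) *
        (chi ((2 * y - u) / 2) * pk lam e ((2 * y - u) / 2))) - pkT lam e y θ| ≤
        8 * Real.exp (-(2 * lam)) * Real.exp (-(|y| / 2)) * T0 := by
  obtain ⟨i1, e1⟩ := peak_rep hl e y hθ
  obtain ⟨i2, e2⟩ := cut_pot hl e y θ
  have he : (fun u => kn 0 (1 / 2) u (2 * θ) *
      (chi ((2 * y - u) / 2) * pk lam e ((2 * y - u) / 2))) =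
      fun u => kn 0 (1 / 2) u (2 * θ) * pk lam e ((2 * y - u) / 2) -
        kn 0 (1 / 2) u (2 * θ) * ((1 - chi ((2 * y - u) / 2)) * pk lam e ((2 * y - u) / 2)) := by
    funext u
    ring
  constructor
  · rw [he]
    exact i1.sub i2
  · rw [he, integral_sub i1 i2, e1]
    rw [show ∀ a b : ℝ, a - b - a = -b by intros; ring, abs_neg]
    exact e2

theorem pkT_le {lam : ℝ} (hl : 1 ≤ lam) (e : ℝ) {y θ : ℝ} (hy : 3 ≤ |y|) (hθ : |θ| ≤ π) :
    |pkT lam e y θ| ≤ Real.exp (-lam) * Real.exp (-(|y| / 2)) := by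
  unfold pkT
  rw [abs_mul, abs_of_pos (Real.exp_pos (-(lam * (y ^ 2 - (|θ| - π / 2) ^ 2 + e ^ 2))))]
  have h1 := Real.abs_cos_le_one ((|θ| - π / 2) * (1 - 2 * lam * y))
  refine (mul_le_of_le_one_left (Real.exp_pos _).le h1).trans ?_
  rw [← Real.exp_add]
  apply Real.exp_le_exp.2
  have a1 := pi_sq_le
  have a2 : (|θ| - π / 2) ^ 2 ≤ π ^ 2 / 4 := by
    have := abs_nonneg θ
    nlinarith
  have hx := sq_abs y
  have a3 : 1 + |y| / 2 ≤ y ^ 2 - (|θ| - π / 2) ^ 2 + e ^ 2 := by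
    have := sq_nonneg e
    rw [← hx]
    nlinarith
  have a4 : lam * (1 + |y| / 2) ≤ lam * (y ^ 2 - (|θ| - π / 2) ^ 2 + e ^ 2) :=
    mul_le_mul_of_nonneg_left a3 (by linarith)
  have a5 : |y| / 2 ≤ lam * (|y| / 2) := le_mul_of_one_le_left (by positivity) hl
  nlinarith

end EPO

theorem exo_pot {A M lam N T : ℕ → ℝ} (hAM : ∀ j, A j ≤ M j)
    (hp : ExoPar (8 * VV 0 (1 / 2) π) A M lam N) {s : ℝ → ℝ} (hs : ExoSlow N T s) (e : ℝ)
    (b : ℝ → ℝ) {ε : ℝ} (hε : 0 < ε) : ∀ᶠ t : ℝ in atTop, ∀ θ : ℝ, |θ| ≤ π →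
      ((∀ j, 3 ≤ |t - T j|) → |pot (exoR s (fun j => M j - A j) lam e T) b t θ -
        (b t * Real.cos θ + s t * |Real.sin θ|)| ≤ ε) ∧
      ∀ j, |t - T j| ≤ 3 → |pot (exoR s (fun j => M j - A j) lam e T) b t θ -
        (b t * Real.cos θ + s t * |Real.sin θ| +
          (M j - A j) * pkT (lam j) e (t - T j) θ)| ≤ ε := by
  classical
  have hV := EPO.V_pos
  have hT0 := EPO.T0_nonneg
  set V := VV 0 (1 / 2) π with hVdef
  set C : ℕ → ℝ := fun j => M j - A j with hC
  have hC0 : ∀ j, 0 ≤ C j := fun j => sub_nonneg.2 (hAM j)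
  have ev1 := asym_q (p := 0) (ρ := 1 / 2) (by norm_num) EPO.h1' EPO.h2'
    (EPO.slow_half hs.slow) (ε := V * (ε / 2)) (by positivity)
  have ev1' := (tendsto_id.const_mul_atTop (by norm_num : (0 : ℝ) < 2)).eventually ev1
  have ev2 : ∀ᶠ t : ℝ in atTop, (1 + 8 * EPO.T0) *
      ∑' j : ℕ, (1 / 2 : ℝ) ^ j * Real.exp (-(|t - T j| / 2)) ≤ ε / 2 := by
    have h := (EPO.E_tendsto T).const_mul (1 + 8 * EPO.T0)
    rw [mul_zero] at h
    exact h.eventually_le_const (by positivity)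
  filter_upwards [ev1', ev2] with t ht1 ht2 θ hθ
  obtain ⟨i1, b1⟩ := ht1 (2 * θ)
  simp only [id] at i1 b1
  rw [vv_half, mul_div_cancel_left₀ t (two_ne_zero)] at b1
  -- the terms
  set F : ℕ → ℝ → ℝ := fun j u => kn 0 (1 / 2) u (2 * θ) * EPO.g C lam e T j ((2 * t - u) / 2)
    with hF
  have hterm : ∀ j, Integrable (F j) ∧ |(∫ u, F j u) - C j * pkT (lam j) e (t - T j) θ| ≤
      8 * EPO.T0 * ((1 / 2 : ℝ) ^ j * Real.exp (-(|t - T j| / 2))) := by
    intro j
    obtain ⟨i2, b2⟩ := EPO.term_pot (hp.l1 j) e (t - T j) hθ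
    have he : F j = fun u => C j * (kn 0 (1 / 2) u (2 * θ) *
        (chi ((2 * (t - T j) - u) / 2) * pk (lam j) e ((2 * (t - T j) - u) / 2))) := by
      funext u
      simp only [hF, EPO.g]
      rw [show (2 * t - u) / 2 - T j = (2 * (t - T j) - u) / 2 by ring]
      ring
    refine ⟨by rw [he]; exact i2.const_mul _, ?_⟩
    rw [he, integral_const_mul, ← mul_sub, abs_mul, abs_of_nonneg (hC0 j)]
    have h4 := hp.p4 j
    have hl := hp.l1 j
    have e1 : Real.exp (-(2 * lam j)) ≤ Real.exp (-lam j) := Real.exp_le_exp.2 (by linarith)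
    calc C j * _ ≤ C j * (8 * Real.exp (-(2 * lam j)) * Real.exp (-(|t - T j| / 2)) * EPO.T0) :=
          mul_le_mul_of_nonneg_left b2 (hC0 j)
      _ ≤ C j * (8 * Real.exp (-lam j) * Real.exp (-(|t - T j| / 2)) * EPO.T0) := by
          have := hC0 j
          gcongr
      _ = (C j * Real.exp (-lam j)) * (8 * Real.exp (-(|t - T j| / 2)) * EPO.T0) := by ring
      _ ≤ (1 / 2) ^ j * (8 * Real.exp (-(|t - T j| / 2)) * EPO.T0) :=
          mul_le_mul_of_nonneg_right h4 (by positivity)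
      _ = _ := by ring
  have hfar : ∀ j, 3 ≤ |t - T j| → |C j * pkT (lam j) e (t - T j) θ| ≤
      (1 / 2 : ℝ) ^ j * Real.exp (-(|t - T j| / 2)) := by
    intro j hj
    have h3 := EPO.pkT_le (hp.l1 j) e hj hθ
    have h4 := hp.p4 j
    rw [abs_mul, abs_of_nonneg (hC0 j)]
    calc C j * _ ≤ C j * (Real.exp (-lam j) * Real.exp (-(|t - T j| / 2))) :=
          mul_le_mul_of_nonneg_left h3 (hC0 j)
      _ = (C j * Real.exp (-lam j)) * Real.exp (-(|t - T j| / 2)) := by ring
      _ ≤ _ := mul_le_mul_of_nonneg_right h4 (Real.exp_pos _).le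
  -- summability and interchange
  have i1' : Integrable fun u => |kn 0 (1 / 2) u (2 * θ) * s ((2 * t - u) / 2)| := i1.abs
  have hsum : Summable fun j => ∫ u, ‖F j u‖ := by
    refine summable_of_sum_le (c := ∫ u, |kn 0 (1 / 2) u (2 * θ) * s ((2 * t - u) / 2)| / V)
      (fun j => integral_nonneg fun u => norm_nonneg _) (fun S => ?_)
    rw [← integral_finsetSum S fun j _ => (hterm j).1.norm]
    apply integral_mono (integrable_finsetSum S fun j _ => (hterm j).1.norm) (i1'.div_const V)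
    intro u
    simp only [hF, Real.norm_eq_abs, abs_mul]
    rw [← Finset.mul_sum]
    have h3 := EPO.sum_g_le hAM hp hs e S ((2 * t - u) / 2)
    rw [abs_of_nonneg (hs.nn _), mul_div_assoc]
    exact mul_le_mul_of_nonneg_left h3 (abs_nonneg _)
  have hhs := hasSum_integral_of_summable_integral_norm (fun j => (hterm j).1) hsum
  have hG : ∀ u, ∑' j, F j u = kn 0 (1 / 2) u (2 * θ) *
      ∑' j, EPO.g C lam e T j ((2 * t - u) / 2) := fun u => by
    simp only [hF]
    rw [tsum_mul_left]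
  have iG : Integrable fun u => kn 0 (1 / 2) u (2 * θ) *
      ∑' j, EPO.g C lam e T j ((2 * t - u) / 2) := by
    refine (i1'.div_const V).mono' ?_ (Eventually.of_forall fun u => ?_)
    · have c1 := EPO.continuous_G hs C lam e
      have c0 : Continuous fun u : ℝ => (2 * t - u) / 2 := by fun_prop
      have c2 : Continuous fun u : ℝ => (fun x => ∑' j, EPO.g C lam e T j x) ((2 * t - u) / 2) :=
        c1.comp c0
      exact ((knt_meas_kn 0 (1 / 2) (2 * θ)).mul c2.measurable).aestronglyMeasurable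
    · rw [Real.norm_eq_abs, abs_mul, abs_mul, abs_of_nonneg (hs.nn _), mul_div_assoc]
      exact mul_le_mul_of_nonneg_left (EPO.tsum_g_le hAM hp hs e _) (abs_nonneg _)
  have hpot : pot (exoR s C lam e T) b t θ =
      (∫ u, kn 0 (1 / 2) u (2 * θ) * s ((2 * t - u) / 2)) / V + (∑' j, ∫ u, F j u) +
        b t * Real.cos θ := by
    rw [pot, hhs.tsum_eq]
    congr 1
    have h3 : (fun u => kn 0 (1 / 2) u (2 * θ) * exoR s C lam e T (2 * t - u)) =
        fun u => (kn 0 (1 / 2) u (2 * θ) * s ((2 * t - u) / 2)) / V +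
          kn 0 (1 / 2) u (2 * θ) * ∑' j, EPO.g C lam e T j ((2 * t - u) / 2) := by
      funext u
      have h4 : exoR s C lam e T (2 * t - u) = s ((2 * t - u) / 2) / V +
          ∑' j, EPO.g C lam e T j ((2 * t - u) / 2) := rfl
      rw [h4]
      ring
    rw [h3, integral_add (i1.div_const V) iG, integral_div]
    congr 1
    exact integral_congr_ae (Eventually.of_forall fun u => (hG u).symm)
  have hmain : abs ((∫ u, kn 0 (1 / 2) u (2 * θ) * s ((2 * t - u) / 2)) / V -
      s t * |Real.sin θ|) ≤ ε / 2 := by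
    have h3 : (∫ u, kn 0 (1 / 2) u (2 * θ) * s ((2 * t - u) / 2)) / V - s t * |Real.sin θ| =
        ((∫ u, kn 0 (1 / 2) u (2 * θ) * s ((2 * t - u) / 2)) - s t * (V * (|Real.sin θ|))) / V := by
      field_simp
    rw [h3, abs_div, abs_of_pos hV, div_le_iff₀ hV]
    linarith
  have hEs : Summable fun j : ℕ => (1 / 2 : ℝ) ^ j * Real.exp (-(|t - T j| / 2)) := by
    refine Summable.of_nonneg_of_le (fun j => by positivity) (fun j => ?_)
      (summable_geometric_of_lt_one (r := (1 / 2 : ℝ)) (by norm_num) (by norm_num))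
    refine mul_le_of_le_one_right (by positivity) ?_
    rw [Real.exp_le_one_iff]
    have := abs_nonneg (t - T j)
    linarith
  have hD : ∀ D : ℕ → ℝ, (∀ j, |D j| ≤ (1 + 8 * EPO.T0) *
      ((1 / 2 : ℝ) ^ j * Real.exp (-(|t - T j| / 2)))) → |∑' j, D j| ≤ ε / 2 := by
    intro D hDj
    have h3 := tsum_of_norm_bounded (hEs.mul_left (1 + 8 * EPO.T0)).hasSum
      (fun j => by rw [Real.norm_eq_abs]; exact hDj j)
    rw [tsum_mul_left, Real.norm_eq_abs] at h3
    exact h3.trans ht2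
  have hall : ∀ j, 3 ≤ |t - T j| → |∫ u, F j u| ≤ (1 + 8 * EPO.T0) *
      ((1 / 2 : ℝ) ^ j * Real.exp (-(|t - T j| / 2))) := by
    intro j hj
    have h3 := (hterm j).2
    have h4 := hfar j hj
    have h5 := abs_add_le ((∫ u, F j u) - C j * pkT (lam j) e (t - T j) θ)
      (C j * pkT (lam j) e (t - T j) θ)
    rw [sub_add_cancel] at h5
    rw [add_mul, one_mul]
    linarith
  constructor
  · intro hj
    rw [hpot]
    have h3 := hD (fun j => ∫ u, F j u) fun j => hall j (hj j)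
    have h5 := abs_add_le ((∫ u, kn 0 (1 / 2) u (2 * θ) * s ((2 * t - u) / 2)) / V -
      s t * |Real.sin θ|) (∑' j, ∫ u, F j u)
    calc _ = |((∫ u, kn 0 (1 / 2) u (2 * θ) * s ((2 * t - u) / 2)) / V -
      s t * |Real.sin θ|) + (∑' j, ∫ u, F j u)| := by congr 1; ring
      _ ≤ _ := by linarith
  · intro j hj
    rw [hpot]
    set P := C j * pkT (lam j) e (t - T j) θ with hP
    have hsub : (∑' i, ∫ u, F i u) - P = ∑' i, ((∫ u, F i u) - if i = j then P else 0) := by
      rw [hhs.summable.tsum_sub (hasSum_ite_eq j P).summable, tsum_ite_eq]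
    have h3 := hD (fun i => (∫ u, F i u) - if i = j then P else 0) fun i => by
      by_cases hij : i = j
      · subst hij
        simp only [if_true]
        have h4 := (hterm i).2
        have h5 : 0 ≤ (1 / 2 : ℝ) ^ i * Real.exp (-(|t - T i| / 2)) := by positivity
        rw [add_mul, one_mul]
        linarith
      · simp only [if_neg hij, sub_zero]
        apply hall
        by_contra h4
        push Not at h4
        exact hij (EPO.uniq hs (x := t) (by linarith))
    rw [← hsub] at h3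
    have h5 := abs_add_le ((∫ u, kn 0 (1 / 2) u (2 * θ) * s ((2 * t - u) / 2)) / V -
      s t * |Real.sin θ|) ((∑' j, ∫ u, F j u) - P)
    calc _ = |((∫ u, kn 0 (1 / 2) u (2 * θ) * s ((2 * t - u) / 2)) / V -
      s t * |Real.sin θ|) + ((∑' j, ∫ u, F j u) - P)| := by congr 1; ring
      _ ≤ _ := by linarith

end HBOne
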