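import Pool.Agent.HBInf.TrigE
import Pool.Agent.HBInd.Final

/-!
# Order at most one half, in terms of `CondT`
-/

namespace HBOne

open HBInd HBInf Complex Filter Topology Set MeasureTheory
open scoped Real ComplexConjugate

theorem sma_trigConvex {ρ : ℝ} (hρ : 0 < ρ) {h : ℝ → EReal} (hT : CondT ρ h)
    (h1 : ∀ θ, h θ ≠ ⊤) (h2 : ∀ θ, h θ ≠ ⊥) : TrigConvex ρ fun θ => (h θ).toReal := by
  intro a t b hat htb hl
  have hs : 0 < Real.sin (ρ * (b - a)) := tre_sin_pos hρ (hat.trans htb) hl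
  have e : ∀ θ, ((h θ).toReal : EReal) = h θ := fun θ => EReal.coe_toReal (h1 θ) (h2 θ)
  have h3 := hT a t b (h a).toReal (h b).toReal hat htb hl (e a).ge (e b).ge
  rw [← e t, EReal.coe_le_coe_iff, le_div_iff₀ hs] at h3
  exact h3

/-- representatives in `(-π, π]` -/
theorem sma_repr (θ : ℝ) : ∃ n : ℤ, θ + n * (2 * π) ∈ Ioc (-π) π := by
  obtain ⟨n, hn, -⟩ := existsUnique_add_zsmul_mem_Ioc (a := 2 * π) (by positivity) θ (-π)
  rw [zsmul_eq_mul] at hn
  exact ⟨n, hn.1, by linarith [hn.2]⟩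

theorem small_condT {ρ : ℝ} (hρ : 0 < ρ) (hρ2 : ρ ≤ 1 / 2) (h : ℝ → EReal) :
    (∃ f : ℂ → ℂ, InClass ρ f ∧ ∀ θ, ind ρ f θ = h θ) ↔
      (∀ θ, h (θ + 2 * π) = h θ) ∧ CondT ρ h ∧ (∀ θ ∈ Ioo 0 π, h θ ≤ h (-θ)) ∧
        ∃ θ, h θ ≠ ⊥ := by
  have hpi := Real.pi_pos
  have hle2 : 2 * π ≤ π / ρ := by
    rw [le_div_iff₀ hρ]
    nlinarith
  constructor
  · intro hex
    obtain ⟨hper, hcase⟩ := (small_iff hρ hρ2 h).1 hex
    obtain ⟨f, hf, hfh⟩ := hex
    have hfun : h = ind ρ f := funext fun θ => (hfh θ).symm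
    refine ⟨hper, by rw [hfun]; exact condT_ind hρ hf, ?_, ?_⟩
    · intro θ hθ
      rw [hfun]
      exact hf.ind_le hθ
    · rcases hcase with ⟨g, hg, -, -⟩ | h1 | ⟨-, α, -, h1⟩
      · exact ⟨0, by rw [hg]; exact EReal.coe_ne_bot _⟩
      · exact ⟨0, by rw [h1]; exact top_ne_bot⟩
      · refine ⟨α + π, ?_⟩
        rw [h1 (α + π)]
        · exact top_ne_bot
        · intro n hn
          have h2 : π = n * (2 * π) := by linarith
          have h3 : (1 : ℝ) = ((2 * n : ℤ) : ℝ) := by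
            push_cast
            have : π * (1 - 2 * n) = 0 := by linarith
            rcases mul_eq_zero.1 this with h4 | h4
            · exact absurd h4 hpi.ne'
            · linarith
          have h4 : (1 : ℤ) = 2 * n := by exact_mod_cast h3
          omega
  · rintro ⟨hper, hT, hle, hbot⟩
    refine (small_iff hρ hρ2 h).2 ⟨hper, ?_⟩
    by_cases htop : ∀ θ, h θ = ⊤
    · exact Or.inr (Or.inl htop)
    push Not at htop
    obtain ⟨α₀, hα₀⟩ := htop
    have hpn := periodic_int_gen hper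
    -- everything finite implies real
    have hreal : (∀ θ, h θ ≠ ⊤) → ∃ g : ℝ → ℝ, (∀ θ, h θ = g θ) ∧ TrigConvex ρ g ∧
        ∀ θ ∈ Ioo 0 π, g θ ≤ g (-θ) := by
      intro hfin
      have hnb : ∀ θ, h θ ≠ ⊥ := by
        intro t₀ ht₀
        obtain ⟨t₁, ht₁⟩ := hbot
        -- a representative of `t₁` in `[t₀, t₀ + 2π)`
        obtain ⟨n, hn, -⟩ := existsUnique_add_zsmul_mem_Ico (a := 2 * π) (by positivity) t₁ t₀
        rw [zsmul_eq_mul] at hn
        have h1 := hpn t₁ n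
        rcases eq_or_lt_of_le hn.1 with h2 | h2
        · rw [← h1, ← h2] at ht₁
          exact ht₁ ht₀
        · obtain ⟨b, hb1, hb2⟩ := exists_between hn.2
          have h3 := condT_bot_left hρ hT h2 hb1 (by linarith) ht₀ (hfin b)
          rw [h1] at h3
          exact ht₁ h3
      refine ⟨fun θ => (h θ).toReal, fun θ => (EReal.coe_toReal (hfin θ) (hnb θ)).symm,
        sma_trigConvex hρ hT hfin hnb, ?_⟩
      intro θ hθ
      have h1 := hle θ hθ
      rw [← EReal.coe_toReal (hfin θ) (hnb θ), ← EReal.coe_toReal (hfin (-θ)) (hnb (-θ))] at h1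
      exact_mod_cast h1
    by_cases hfin : ∀ θ, h θ ≠ ⊤
    · exact Or.inl (hreal hfin)
    push Not at hfin
    obtain ⟨θ₁, hθ₁⟩ := hfin
    -- a representative of `θ₁` in `[α₀, α₀ + 2π)`
    obtain ⟨n, hn, -⟩ := existsUnique_add_zsmul_mem_Ico (a := 2 * π) (by positivity) θ₁ α₀
    rw [zsmul_eq_mul] at hn
    have h1 := hpn θ₁ n
    set θ₂ := θ₁ + n * (2 * π) with hθ₂
    have hθ₂t : h θ₂ = ⊤ := by rw [h1, hθ₁]
    have hne : α₀ ≠ θ₂ := fun h2 => hα₀ (by rw [h2, hθ₂t])
    have hlt : α₀ < θ₂ := lt_of_le_of_ne hn.1 hne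
    have hα₂ : h (α₀ + 2 * π) ≠ ⊤ := by rw [hper]; exact hα₀
    have hρe : ρ = 1 / 2 := by
      by_contra hcon
      have hlt2 : 2 * π < π / ρ := by
        rw [lt_div_iff₀ hρ]
        have : ρ < 1 / 2 := lt_of_le_of_ne hρ2 hcon
        nlinarith
      exact condT_between hT hlt hn.2 (by linarith) hα₀ hα₂ hθ₂t
    -- the finite set is one ray
    have huniq : ∀ θ, h θ ≠ ⊤ → ∃ m : ℤ, θ = α₀ + m * (2 * π) := by
      intro θ hθ
      obtain ⟨m, hm, -⟩ := existsUnique_add_zsmul_mem_Ico (a := 2 * π) (by positivity) θ α₀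
      rw [zsmul_eq_mul] at hm
      have h2 := hpn θ m
      rcases eq_or_lt_of_le hm.1 with h3 | h3
      · refine ⟨-m, ?_⟩
        push_cast
        linarith
      · exfalso
        have h4 : h (θ + m * (2 * π)) ≠ ⊤ := by rw [h2]; exact hθ
        set β := θ + m * (2 * π) with hβ
        have h5 : β < α₀ + 2 * π := hm.2
        rcases lt_trichotomy θ₂ β with h6 | h6 | h6
        · exact condT_between hT hlt h6 (by linarith) hα₀ h4 hθ₂t
        · rw [h6] at hθ₂t
          exact h4 hθ₂t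
        · exact condT_between hT h6 hn.2 (by linarith) h4 hα₂ hθ₂t
    obtain ⟨m, hm⟩ := sma_repr α₀
    have h3 : h (α₀ + m * (2 * π)) ≠ ⊤ := by rw [hpn]; exact hα₀
    set α := α₀ + m * (2 * π) with hα
    have hα0 : 0 ≤ α := by
      by_contra hcon
      push Not at hcon
      have h4 := hle (-α) ⟨by linarith, by linarith [hm.1]⟩
      rw [neg_neg] at h4
      have h5 : h (-α) ≠ ⊤ := fun h6 => h3 (top_le_iff.1 (h6 ▸ h4))
      obtain ⟨k, hk⟩ := huniq (-α) h5
      have h6 : -α - α = (k - m) * (2 * π) := by rw [hk, hα]; ring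
      have h7 : -α = ((k - m : ℤ) : ℝ) * π := by push_cast; linarith
      have h8 : 0 < -α := by linarith
      have h9 : -α < π := by linarith [hm.1]
      rw [h7] at h8 h9
      have h10 : (0 : ℝ) < ((k - m : ℤ) : ℝ) := by
        by_contra h11
        push Not at h11
        nlinarith
      have h11 : ((k - m : ℤ) : ℝ) < 1 := by
        by_contra h12
        push Not at h12
        nlinarith
      have h12 : (0 : ℤ) < k - m := by exact_mod_cast h10
      have h13 : k - m < (1 : ℤ) := by exact_mod_cast h11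
      omega
    refine Or.inr (Or.inr ⟨hρe, α, ⟨hα0, hm.2⟩, fun θ hθ => ?_⟩)
    by_contra hcon
    obtain ⟨k, hk⟩ := huniq θ hcon
    refine hθ (k - m) ?_
    rw [hk, hα]
    push_cast
    ring

end HBOne
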