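import Pool.Agent.HBOne.FinalOne
import Pool.Agent.HBOne.Small
import Pool.Agent.HBInf.FinalInf

/-!
# The set of indicators for every order in `(0, 2)`
-/

namespace HBOne

open HBInd HBInf Complex Filter Topology Set MeasureTheory
open scoped Real ComplexConjugate

theorem all_iff {ρ : ℝ} (h0 : 0 < ρ) (h2 : ρ < 2) (h : ℝ → EReal) :
    (∃ f : ℂ → ℂ, InClass ρ f ∧ ∀ θ, ind ρ f θ = h θ) ↔
      (∀ θ, h (θ + 2 * π) = h θ) ∧ CondT ρ h ∧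
        (ρ ≤ 1 / 2 → (∀ θ ∈ Ioo 0 π, h θ ≤ h (-θ)) ∧ ∃ θ, h θ ≠ ⊥) ∧
        (1 / 2 < ρ → ρ < 1 → (CondA 0 ρ h ∧ CondC ρ h) ∨ ExcZero ρ h) ∧
        (ρ = 1 → ∃ c : ℝ, 0 ≤ c ∧ CondOne c h) ∧
        (1 < ρ → (CondA 1 ρ h ∧ CondC ρ h) ∨ ExcOne ρ h) := by
  rcases le_or_gt ρ (1 / 2) with hs | hs
  · rw [small_condT h0 hs h]
    constructor
    · rintro ⟨hp, hT, hle, hb⟩
      exact ⟨hp, hT, fun _ => ⟨hle, hb⟩, fun h3 => absurd hs (not_le.2 h3),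
        fun h3 => absurd hs (by rw [h3]; norm_num), fun h3 => absurd hs (by linarith)⟩
    · rintro ⟨hp, hT, h3, -⟩
      exact ⟨hp, hT, (h3 hs).1, (h3 hs).2⟩
  rcases lt_trichotomy ρ 1 with h3 | h3 | h3
  · rw [inf_iff_zero hs h3 h]
    constructor
    · rintro ⟨hp, hT, hc⟩
      exact ⟨hp, hT, fun h4 => absurd h4 (not_le.2 hs), fun _ _ => hc,
        fun h4 => absurd h4 h3.ne, fun h4 => absurd h4 (by linarith)⟩
    · rintro ⟨hp, hT, -, hc, -⟩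
      exact ⟨hp, hT, hc hs h3⟩
  · subst h3
    rw [inf_iff_order_one h]
    constructor
    · rintro ⟨hp, hT, hc⟩
      exact ⟨hp, hT, fun h4 => absurd h4 (not_le.2 hs), fun _ h4 => absurd h4 (lt_irrefl _),
        fun _ => hc, fun h4 => absurd h4 (lt_irrefl _)⟩
    · rintro ⟨hp, hT, -, -, hc, -⟩
      exact ⟨hp, hT, hc rfl⟩
  · rw [inf_iff_one h3 h2 h]
    constructor
    · rintro ⟨hp, hT, hc⟩
      exact ⟨hp, hT, fun h4 => absurd h4 (not_le.2 hs), fun _ h4 => absurd h4 (by linarith),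
        fun h4 => absurd h4 h3.ne', fun _ => hc⟩
    · rintro ⟨hp, hT, -, -, -, hc⟩
      exact ⟨hp, hT, hc h3⟩

end HBOne
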