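import Pool.Agent.HBOne.OneReal

/-!
# The exceptional indicators finite on the real axis only, order one

`slow_path2` with `q j = ![b j, κ j]`, `C x = ∫_0^x Q (s/2) 1 ds`, `r = C / (π VV 0 (1/2) π)` for `x ≥ 0` (`Q = 0` for `t ≤ 1`, so
`r = 0` for `x ≤ 2`), `≥ 0` because all values of `κ` on the path are `≥ 0`, `≤ B (1 + |x|)²`. `asym_C`:
`pot r b t θ = [C (2t) VV (2θ) + Q t 1 WW (2θ)] / (π VV π) + b t cos θ + o(1)`.
* `θ = 0`, `θ = π`: `VV = 0`, `WW = -π VV π` (`vv_half`, `ww_half`, `WW_add_int`): `± b t - κ t`; on `[T j, T (j+1)]` convex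
  combinations: `ind_pot`.
* `sin θ ≠ 0`: `C (2t) ≥ c t` for large `t` (`κ ≥ κ₀` after `T 0`) and `|b t|`, `|κ t|` are `≤ ε t`: `pot → ∞`;
  lower bound of `one_base` at half-integers `t`.
-/

namespace HBOne

open HBInd HBInf Complex Filter Topology Set MeasureTheory
open scoped Real ComplexConjugate

private theorem exc_slow {q : ℝ → ℝ} (hq : SlowFn q) : SlowFn fun x => q (x / 2) := by
  obtain ⟨hc, ω, hω, hb⟩ := hq
  refine ⟨by fun_prop, fun t => ω (t / 2), hω.comp (tendsto_id.atTop_div_const (by norm_num)), ?_⟩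
  intro t u ht
  have h1 := hb (t / 2) (u / 2) (by positivity)
  have hw : 0 ≤ ω (t / 2) := by
    have := hb (t / 2) 0 (by positivity)
    simpa using this
  have e : (t - u) / 2 = t / 2 - u / 2 := by ring
  change |q ((t - u) / 2) - q (t / 2)| ≤ ω (t / 2) * (1 + |u|) ^ 2
  rw [e]
  refine h1.trans (mul_le_mul_of_nonneg_left ?_ hw)
  have hu := abs_nonneg u
  have h2 : |u / 2| ≤ |u| := by
    rw [abs_div, abs_of_pos (by norm_num : (0 : ℝ) < 2)]
    linarith
  exact pow_le_pow_left₀ (by positivity) (by linarith) 2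

private theorem exc_neg {g : ℝ → ℝ} (hz : ∀ t ≤ 2, g t = 0) {x : ℝ} (hx : x ≤ 0) :
    (∫ s in (0 : ℝ)..x, g s) = 0 := by
  have h : ∀ s ∈ uIcc 0 x, g s = (fun _ => (0 : ℝ)) s := by
    intro s hs
    rw [uIcc_of_ge hx] at hs
    exact hz s (by linarith [hs.2])
  rw [intervalIntegral.integral_congr h]
  simp

private theorem exc_dens {g : ℝ → ℝ} (hgc : Continuous g) (hg0 : ∀ t, 0 ≤ g t)
    (hz : ∀ t ≤ 2, g t = 0) {C : ℝ} (hC : ∀ t, |g t| ≤ C * (1 + |t|)) {V : ℝ} (hV : 0 < V) :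
    DensPos (fun x => (∫ s in (0 : ℝ)..x, g s) / V) (C / V) := by
  have hC0 : 0 ≤ C := by
    have h := (abs_nonneg _).trans (hC 0)
    simpa using h
  refine ⟨?_, ?_, ?_, ?_⟩
  · exact (intervalIntegral.continuous_primitive (fun a b => hgc.intervalIntegrable a b)
      0).div_const V
  · intro t
    rcases le_total t 0 with h | h
    · change 0 ≤ (∫ s in (0 : ℝ)..t, g s) / V
      rw [exc_neg hz h]
      simp
    · exact div_nonneg (intervalIntegral.integral_nonneg h fun u _ => hg0 u) hV.le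
  · intro t h
    change (∫ s in (0 : ℝ)..t, g s) / V = 0
    rw [exc_neg hz h]
    simp
  · intro t
    have ht := abs_nonneg t
    have h1 : ‖∫ s in (0 : ℝ)..t, g s‖ ≤ C * (1 + |t|) * |t - 0| := by
      refine intervalIntegral.norm_integral_le_of_norm_le_const fun s hs => ?_
      rw [Real.norm_eq_abs]
      refine (hC s).trans (mul_le_mul_of_nonneg_left ?_ hC0)
      have h2 : |s| ≤ |t| := by
        rw [uIoc, mem_Ioc] at hs
        rcases le_total 0 t with h | h
        · rw [min_eq_left h, max_eq_right h] at hs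
          rw [abs_of_nonneg h, abs_le]
          constructor <;> linarith [hs.1, hs.2]
        · rw [min_eq_right h, max_eq_left h] at hs
          rw [abs_of_nonpos h, abs_le]
          constructor <;> linarith [hs.1, hs.2]
      linarith
    rw [Real.norm_eq_abs, sub_zero] at h1
    change (∫ s in (0 : ℝ)..t, g s) / V ≤ C / V * (1 + |t|) ^ 2
    rw [div_mul_eq_mul_div]
    refine div_le_div_of_nonneg_right ?_ hV.le
    refine (le_abs_self _).trans (h1.trans ?_)
    nlinarith [mul_nonneg hC0 (by linarith : (0 : ℝ) ≤ 1 + |t|)]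

/-- the asymptotics of the potential -/
private theorem exc_pot {g : ℝ → ℝ} (hg : SlowFn g) (b : ℝ → ℝ) {ε : ℝ} (hε : 0 < ε) :
    ∀ᶠ t : ℝ in atTop, ∀ θ : ℝ,
      |pot (fun x => (∫ s in (0 : ℝ)..x, g s) / (π * VV 0 (1 / 2) π)) b t θ -
        ((∫ s in (0 : ℝ)..(2 * t), g s) * |Real.sin θ| / π +
          g (2 * t) * (WW 0 (1 / 2) (2 * θ) / (π * VV 0 (1 / 2) π)) + b t * Real.cos θ)| ≤ ε := by
  have hV : 0 < VV 0 (1 / 2) π := VV_pi_zero (by norm_num) (by norm_num)
  have hπ := Real.pi_pos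
  have hW : 0 < π * VV 0 (1 / 2) π := mul_pos hπ hV
  have h := asym_C (p := 0) (by norm_num) (ρ := 1 / 2) (by norm_num) (by norm_num) hg
    (ε := ε * (π * VV 0 (1 / 2) π)) (mul_pos hε hW)
  have h2 : Tendsto (fun t : ℝ => 2 * t) atTop atTop :=
    tendsto_id.const_mul_atTop (by norm_num)
  filter_upwards [h2.eventually h] with t ht θ
  have h3 := (ht (2 * θ)).2
  have e1 : (∫ u, kn 0 (1 / 2) u (2 * θ) *
      ((∫ s in (0 : ℝ)..(2 * t - u), g s) / (π * VV 0 (1 / 2) π))) =
      (∫ u, kn 0 (1 / 2) u (2 * θ) * ∫ s in (0 : ℝ)..(2 * t - u), g s) /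
        (π * VV 0 (1 / 2) π) := by
    rw [← integral_div]
    congr 1
    funext u
    ring
  unfold pot
  rw [e1]
  rw [vv_half] at h3
  have e2 : (∫ u, kn 0 (1 / 2) u (2 * θ) * ∫ s in (0 : ℝ)..(2 * t - u), g s) /
        (π * VV 0 (1 / 2) π) + b t * Real.cos θ -
        ((∫ s in (0 : ℝ)..(2 * t), g s) * |Real.sin θ| / π +
          g (2 * t) * (WW 0 (1 / 2) (2 * θ) / (π * VV 0 (1 / 2) π)) + b t * Real.cos θ) =
      ((∫ u, kn 0 (1 / 2) u (2 * θ) * ∫ s in (0 : ℝ)..(2 * t - u), g s) -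
        ((∫ s in (0 : ℝ)..(2 * t), g s) * (VV 0 (1 / 2) π * |Real.sin θ|) +
          g (2 * t) * WW 0 (1 / 2) (2 * θ))) / (π * VV 0 (1 / 2) π) := by
    field_simp
    ring
  rw [e2, abs_div, abs_of_pos hW, div_le_iff₀ hW]
  exact h3

/-- the density grows linearly -/
private theorem exc_grow {g : ℝ → ℝ} (hgc : Continuous g) (hg0 : ∀ t, 0 ≤ g t) {κ₀ a : ℝ}
    (ha : 0 ≤ a) (hκ : ∀ t, a ≤ t → κ₀ ≤ g t) {x : ℝ} (hx : a ≤ x) :
    κ₀ * (x - a) ≤ ∫ s in (0 : ℝ)..x, g s := by
  have hi : ∀ a b : ℝ, IntervalIntegrable g volume a b := fun a b => hgc.intervalIntegrable a b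
  rw [← intervalIntegral.integral_add_adjacent_intervals (hi 0 a) (hi a x)]
  have h1 : 0 ≤ ∫ s in (0 : ℝ)..a, g s := intervalIntegral.integral_nonneg ha fun u _ => hg0 u
  have h2 : (∫ _ in a..x, κ₀) ≤ ∫ s in a..x, g s :=
    intervalIntegral.integral_mono_on hx (by simp) (hi a x) fun s hs => hκ s hs.1
  rw [intervalIntegral.integral_const, smul_eq_mul] at h2
  linarith [mul_comm κ₀ (x - a)]

/-- every point after the first plateau is between two plateaus -/
private theorem exc_between {T : ℕ → ℝ} (hT : ∀ j : ℕ, (j : ℝ) + 10 ≤ T j) {t : ℝ}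
    (ht : T 0 ≤ t) : ∃ j, T j ≤ t ∧ t ≤ T (j + 1) := by
  by_contra hcon
  push Not at hcon
  have h : ∀ j, T j ≤ t := by
    intro j
    induction j with
    | zero => exact ht
    | succ n ih => exact (hcon n ih).le
  obtain ⟨n, hn⟩ := exists_nat_gt t
  linarith [h n, hT n]

private theorem exc_half (n : ℕ) (m : ℤ) : 1 / 4 ≤ |((n : ℝ) + 1 / 2) - m| := by
  rcases le_or_gt m n with h | h
  · have h1 : (m : ℝ) ≤ n := by exact_mod_cast h
    exact le_trans (by linarith) (le_abs_self _)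
  · have h1 : ((n : ℤ) : ℝ) + 1 ≤ m := by exact_mod_cast h
    rw [Int.cast_natCast] at h1
    exact le_trans (by linarith) (neg_le_abs _)

private theorem exc_conv {s : ℝ} (hs : s ∈ Icc (0 : ℝ) 1) (a k a' k' : ℝ) :
    (1 - s) * a + s * a' - ((1 - s) * k + s * k') ≤ max (a - k) (a' - k') := by
  have h1 := mul_le_mul_of_nonneg_left (le_max_left (a - k) (a' - k'))
    (by linarith [hs.2] : (0 : ℝ) ≤ 1 - s)
  have h2 := mul_le_mul_of_nonneg_left (le_max_right (a - k) (a' - k')) hs.1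
  nlinarith

private theorem exc_top {f : ℂ → ℂ} {P : ℝ → ℝ} {θ : ℝ}
    (hL : ∀ ε : ℝ, 0 < ε → ε ≤ 1 / 8 → ∀ᶠ t : ℝ in atTop, (∀ n : ℤ, 1 / 4 ≤ |t - n|) →
        ∃ t' ∈ Icc t (t + ε),
          Real.exp (Real.exp t' * (P t - ε)) ≤ ‖f (ray (Real.exp t') θ)‖)
    (hP : ∀ M : ℝ, ∀ᶠ t : ℝ in atTop, M ≤ P t) : ind 1 f θ = ⊤ := by
  rw [EReal.eq_top_iff_forall_lt]
  intro M
  have h1 : ((M + 1 : ℝ) : EReal) ≤ ind 1 f θ := by
    apply le_ind_of_frequently
    rw [frequently_atTop]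
    intro X
    have h2 := (hL (1 / 8) (by norm_num) le_rfl).and ((hP (M + 2)).and
      (eventually_ge_atTop (Real.log (max X 1))))
    obtain ⟨t₀, ht₀⟩ := eventually_atTop.1 h2
    obtain ⟨n, hn⟩ := exists_nat_gt t₀
    obtain ⟨h3, h4, h5⟩ := ht₀ ((n : ℝ) + 1 / 2) (by linarith)
    obtain ⟨t', ht', h6⟩ := h3 (exc_half n)
    refine ⟨Real.exp t', ?_, ?_⟩
    · have h7 : max X 1 ≤ Real.exp t' := by
        rw [← Real.log_le_iff_le_exp (by positivity)]
        exact h5.trans ht'.1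
      exact (le_max_left _ _).trans h7
    · refine le_trans (Real.exp_le_exp.2 ?_) h6
      rw [Real.rpow_one, mul_comm]
      exact mul_le_mul_of_nonneg_left (by linarith) (Real.exp_nonneg _)
  refine lt_of_lt_of_le ?_ h1
  exact EReal.coe_lt_coe_iff.2 (by linarith)

theorem one_exc {b κ : ℕ → ℝ} {κ₀ : ℝ} (hκ₀ : 0 < κ₀) (hκ : ∀ j, κ₀ ≤ κ j) :
    ∃ f : ℂ → ℂ, Pre 1 f ∧ (∀ θ, Real.sin θ ≠ 0 → ind 1 f θ = ⊤) ∧
      ind 1 f 0 = limsup (fun j => ((b j - κ j : ℝ) : EReal)) atTop ∧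
      ind 1 f π = limsup (fun j => ((-b j - κ j : ℝ) : EReal)) atTop := by
  have hπ := Real.pi_pos
  have hV : 0 < VV 0 (1 / 2) π := VV_pi_zero (by norm_num) (by norm_num)
  have hW : 0 < π * VV 0 (1 / 2) π := mul_pos hπ hV
  obtain ⟨Q, T, hQs, hQ0, ⟨C, hC⟩, hQe, hTh, hT10, -, hQp, hQb, hQ1⟩ :=
    slow_path2 (m := 2) (fun j => ![b j, κ j])
  -- the second coordinate is nonnegative, and at least `κ₀` after `T 0`
  have hk1 : ∀ t, T 0 ≤ t → κ₀ ≤ Q t 1 := by
    intro t ht
    obtain ⟨j, h1, h2⟩ := exc_between hT10 ht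
    obtain ⟨s, hs, h3⟩ := hQb j t h1 h2
    have h4 := h3 1
    simp only [Matrix.cons_val_one, Matrix.cons_val_fin_one] at h4
    rw [h4]
    have h5 := mul_le_mul_of_nonneg_left (hκ j) (by linarith [hs.2] : (0 : ℝ) ≤ 1 - s)
    have h6 := mul_le_mul_of_nonneg_left (hκ (j + 1)) hs.1
    nlinarith
  have hk0 : ∀ t, 0 ≤ Q t 1 := by
    intro t
    rcases le_total (T 0) t with h | h
    · exact hκ₀.le.trans (hk1 t h)
    · obtain ⟨s, hs, h3⟩ := hQ1 t h
      have h4 := h3 1
      simp only [Matrix.cons_val_one, Matrix.cons_val_fin_one] at h4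
      rw [h4]
      exact mul_nonneg hs.1 (hκ₀.le.trans (hκ 0))
  set g : ℝ → ℝ := fun x => Q (x / 2) 1 with hgdef
  have hgS : SlowFn g := exc_slow (q := fun t => Q t 1) (hQs 1)
  have hg0 : ∀ t, 0 ≤ g t := fun t => hk0 _
  have hgz : ∀ t ≤ 2, g t = 0 := fun t ht => hQ0 (t / 2) (by linarith) 1
  have hgC : ∀ t, |g t| ≤ C * (1 + |t|) := by
    intro t
    have hC0 : 0 ≤ C := by
      have h := (abs_nonneg _).trans (hC 0 1)
      simpa using h
    refine (hC (t / 2) 1).trans (mul_le_mul_of_nonneg_left ?_ hC0)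
    have h2 : |t / 2| ≤ |t| := by
      rw [abs_div, abs_of_pos (by norm_num : (0 : ℝ) < 2)]
      linarith [abs_nonneg t]
    linarith
  have hg2 : ∀ t, g (2 * t) = Q t 1 := by
    intro t
    have : 2 * t / 2 = t := by ring
    change Q (2 * t / 2) 1 = Q t 1
    rw [this]
  have hD := exc_dens hgS.1 hg0 hgz hgC hW
  obtain ⟨f, hf, -, -, hU, hL⟩ := one_base hD (hQs 0)
  refine ⟨f, hf, ?_, ?_, ?_⟩
  · -- infinite off the real axis
    intro θ hθ
    have hs : 0 < |Real.sin θ| := abs_pos.2 hθ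
    refine exc_top (P := fun t => pot (fun x => (∫ s in (0 : ℝ)..x, g s) /
      (π * VV 0 (1 / 2) π)) (fun t => Q t 0) t θ) (fun ε h1 h2 => ?_) (fun M => ?_)
    · filter_upwards [hL ε h1 h2] with t ht hn
      exact ht hn θ
    · set w : ℝ := WW 0 (1 / 2) (2 * θ) / (π * VV 0 (1 / 2) π) with hw
      set A : ℝ := κ₀ * |Real.sin θ| / π with hA
      have hA0 : 0 < A := div_pos (mul_pos hκ₀ hs) hπ
      have hw1 : 0 < |w| + 1 := by positivity
      filter_upwards [exc_pot hgS (fun t => Q t 0) one_pos, hQe (A / (|w| + 1)) (div_pos hA0 hw1),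
        eventually_ge_atTop (T 0), eventually_ge_atTop 0,
        eventually_ge_atTop (2 * T 0 + (M + 1) / A)] with t h1 h2 h3 h4 h5
      have h6 := (abs_le.1 (h1 θ)).1
      rw [← hw, hg2] at h6
      have hT0 : 0 ≤ T 0 := by
        have := hT10 0
        push_cast at this
        linarith
      have h7 := exc_grow hgS.1 hg0 (a := 2 * T 0) (κ₀ := κ₀) (by linarith)
        (fun s hs => hk1 (s / 2) (by linarith)) (x := 2 * t) (by linarith)
      have h8 : κ₀ * (2 * t - 2 * T 0) * |Real.sin θ| / π ≤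
          (∫ s in (0 : ℝ)..(2 * t), g s) * |Real.sin θ| / π := by
        gcongr
      have h9 : κ₀ * (2 * t - 2 * T 0) * |Real.sin θ| / π = A * (2 * t - 2 * T 0) := by
        rw [hA]
        ring
      rw [h9] at h8
      have h10 : |Q t 1 * w + Q t 0 * Real.cos θ| ≤ A * t := by
        calc |Q t 1 * w + Q t 0 * Real.cos θ| ≤ |Q t 1 * w| + |Q t 0 * Real.cos θ| := abs_add_le _ _
          _ = |Q t 1| * |w| + |Q t 0| * |Real.cos θ| := by rw [abs_mul, abs_mul]
          _ ≤ (A / (|w| + 1) * t) * |w| + (A / (|w| + 1) * t) * 1 := by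
              have e1 := h2 1
              have e2 := h2 0
              have e3 := Real.abs_cos_le_one θ
              have e4 : 0 ≤ A / (|w| + 1) * t := by positivity
              exact add_le_add (mul_le_mul_of_nonneg_right e1 (abs_nonneg _))
                (mul_le_mul e2 e3 (abs_nonneg _) e4)
          _ = A * t := by
              field_simp
      have h11 := (abs_le.1 h10).1
      have h12 : M + 1 ≤ A * (t - 2 * T 0) := by
        have e1 : (M + 1) / A ≤ t - 2 * T 0 := by linarith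
        rw [div_le_iff₀ hA0] at e1
        linarith [mul_comm A (t - 2 * T 0)]
      nlinarith
  · -- the positive half-line
    have h := ind_pot (f := f) (P := fun t => pot (fun x => (∫ s in (0 : ℝ)..x, g s) /
      (π * VV 0 (1 / 2) π)) (fun t => Q t 0) t 0) (V := fun t => Q t 0 - Q t 1) (θ := 0) (T := T)
      hTh (fun j => by linarith [hT10 j]) ?_ ?_ ?_ ?_
    · rw [h]
      congr 1
      funext j
      have h1 := hQp j (T j) (by simp)
      have h2 := h1 0
      have h3 := h1 1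
      simp only [Matrix.cons_val_zero, Matrix.cons_val_one, Matrix.cons_val_fin_one] at h2 h3
      rw [h2, h3]
    · intro ε hε
      filter_upwards [hU ε hε] with t ht
      exact ht 0
    · intro ε h1 h2
      filter_upwards [hL ε h1 h2] with t ht hn
      exact ht hn 0
    · intro ε hε
      filter_upwards [exc_pot hgS (fun t => Q t 0) hε] with t ht
      have h1 := ht 0
      rw [hg2, Real.sin_zero, abs_zero, mul_zero, zero_div, mul_zero, ww_half, Real.cos_zero,
        neg_div, div_self hW.ne'] at h1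
      have e : Q t 0 - Q t 1 = 0 + Q t 1 * -1 + Q t 0 * 1 := by ring
      change |_ - (Q t 0 - Q t 1)| ≤ ε
      rw [e]
      exact h1
    · intro j t ht
      obtain ⟨s, hs, h3⟩ := hQb j t ht.1 ht.2
      have h1 := hQp j (T j) (by simp)
      have h2 := hQp (j + 1) (T (j + 1)) (by simp)
      change Q t 0 - Q t 1 ≤ max (Q (T j) 0 - Q (T j) 1) (Q (T (j + 1)) 0 - Q (T (j + 1)) 1)
      rw [h3 0, h3 1, h1 0, h1 1, h2 0, h2 1]
      exact exc_conv hs _ _ _ _
  · have h := ind_pot (f := f) (P := fun t => pot (fun x => (∫ s in (0 : ℝ)..x, g s) /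
      (π * VV 0 (1 / 2) π)) (fun t => Q t 0) t π) (V := fun t => -Q t 0 - Q t 1) (θ := π) (T := T)
      hTh (fun j => by linarith [hT10 j]) ?_ ?_ ?_ ?_
    · rw [h]
      congr 1
      funext j
      have h1 := hQp j (T j) (by simp)
      have h2 := h1 0
      have h3 := h1 1
      simp only [Matrix.cons_val_zero, Matrix.cons_val_one, Matrix.cons_val_fin_one] at h2 h3
      rw [h2, h3]
    · intro ε hε
      filter_upwards [hU ε hε] with t ht
      exact ht π
    · intro ε h1 h2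
      filter_upwards [hL ε h1 h2] with t ht hn
      exact ht hn π
    · intro ε hε
      filter_upwards [exc_pot hgS (fun t => Q t 0) hε] with t ht
      have h1 := ht π
      have hww : WW 0 (1 / 2) (2 * π) = -(π * VV 0 (1 / 2) π) := by
        have h2 := WW_add_int 0 (1 / 2) 0 1
        rw [ww_half] at h2
        rw [← h2]
        congr 1
        push_cast
        ring
      rw [hg2, Real.sin_pi, abs_zero, mul_zero, zero_div, hww, Real.cos_pi,
        neg_div, div_self hW.ne'] at h1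
      have e : -Q t 0 - Q t 1 = 0 + Q t 1 * -1 + Q t 0 * -1 := by ring
      change |_ - (-Q t 0 - Q t 1)| ≤ ε
      rw [e]
      exact h1
    · intro j t ht
      obtain ⟨s, hs, h3⟩ := hQb j t ht.1 ht.2
      have h1 := hQp j (T j) (by simp)
      have h2 := hQp (j + 1) (T (j + 1)) (by simp)
      change -Q t 0 - Q t 1 ≤ max (-Q (T j) 0 - Q (T j) 1) (-Q (T (j + 1)) 0 - Q (T (j + 1)) 1)
      rw [h3 0, h3 1, h1 0, h1 1, h2 0, h2 1]
      have h4 := exc_conv hs (-![b j, κ j] 0) (![b j, κ j] 1) (-![b (j + 1), κ (j + 1)] 0)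
        (![b (j + 1), κ (j + 1)] 1)
      convert h4 using 1
      ring

end HBOne
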