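import Pool.Agent.HBOne.Defs

/-!
# Reflection in the imaginary axis

`mir f z = conj (f (- conj z))`. `ray r θ ↦ - conj (ray r θ) = ray r (π - θ)`. Entire: composition of two conjugations
(`DifferentiableAt.conj_conj` or `differentiable_conj...`). The order: `‖- conj z‖ = ‖z‖` and `z ↦ - conj z` preserves
`cobounded`. The conditions of the class are invariant (`Im (- conj z) = Im z`).
`CondT 1`, `CondOne c` are invariant under `h ↦ h (π - ·)` for `2π`-periodic `h`: for `CondT` replace `a < t < b` by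
`π - b < π - t < π - a`. For `CondOne`: `h' θ = h (π - θ)`, `h' (-θ) = h (π + θ) = h (-(π - θ))` by periodicity;
`right` for `h'` is `left` for `h` and conversely (`t ∈ (θ, 2π - θ)` iff `π - t ∈ (-(π - θ), π - θ)`).
-/

namespace HBOne

open HBInd HBInf Complex Filter Topology Set MeasureTheory Bornology
open scoped Real ComplexConjugate

noncomputable def mir (f : ℂ → ℂ) (z : ℂ) : ℂ := conj (f (-conj z))

theorem omi_ray (r θ : ℝ) : -conj (ray r θ) = ray r (π - θ) := by
  rw [conj_ray, ray, ray, show ((π - θ : ℝ) : ℂ) * I = π * I + ((-θ : ℝ) : ℂ) * I by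
    push_cast; ring, Complex.exp_add, Complex.exp_pi_mul_I]
  ring

theorem ind_mir (f : ℂ → ℂ) (θ : ℝ) : ind 1 (mir f) θ = ind 1 f (π - θ) := by
  unfold ind
  congr 1
  funext r
  have h : ‖mir f (ray r θ)‖ₑ = ‖f (ray r (π - θ))‖ₑ := by
    rw [mir, omi_ray, ← ofReal_norm, ← ofReal_norm, Complex.norm_conj]
  rw [h]

theorem omi_diff {f : ℂ → ℂ} (hf : Differentiable ℂ f) : Differentiable ℂ (mir f) := by
  have h1 : Differentiable ℂ fun z : ℂ => f (-z) := hf.comp differentiable_neg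
  intro z
  have h2 := (h1 (conj z)).conj_conj
  have e : mir f = conj ∘ (fun z : ℂ => f (-z)) ∘ conj := by
    funext w
    rfl
  rw [e]
  simpa using h2

theorem omi_cobounded {P : ℂ → Prop} (h : ∀ᶠ z in cobounded ℂ, P z) :
    ∀ᶠ z in cobounded ℂ, P (-conj z) := by
  have ht : Tendsto (fun z : ℂ => -conj z) (cobounded ℂ) (cobounded ℂ) := by
    rw [← tendsto_norm_atTop_iff_cobounded]
    refine (tendsto_norm_cobounded_atTop (E := ℂ)).congr fun z => ?_
    rw [norm_neg, Complex.norm_conj]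
  exact ht.eventually h

theorem omi_norm (f : ℂ → ℂ) (z : ℂ) : ‖mir f z‖ = ‖f (-conj z)‖ := by
  rw [mir, Complex.norm_conj]

theorem omi_norm_conj (z : ℂ) : ‖-conj z‖ = ‖z‖ := by rw [norm_neg, Complex.norm_conj]

theorem omi_im (z : ℂ) : (-conj z).im = z.im := by simp

theorem omi_zero {f : ℂ → ℂ} (h : ∀ z : ℂ, z.im < 0 → f z ≠ 0) (z : ℂ) (hz : z.im < 0) :
    mir f z ≠ 0 := by
  rw [mir]
  exact (map_ne_zero _).2 (h _ (by rwa [omi_im]))

theorem omi_le {f : ℂ → ℂ} (h : ∀ z : ℂ, 0 < z.im → ‖f z‖ ≤ ‖f (conj z)‖) (z : ℂ)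
    (hz : 0 < z.im) : ‖mir f z‖ ≤ ‖mir f (conj z)‖ := by
  rw [omi_norm, omi_norm]
  have h1 := h (-conj z) (by rwa [omi_im])
  rwa [map_neg] at h1

theorem omi_bound {f : ℂ → ℂ} (σ : ℝ) :
    (∀ᶠ z in cobounded ℂ, ‖f z‖ ≤ Real.exp (‖z‖ ^ σ)) ↔
      ∀ᶠ z in cobounded ℂ, ‖mir f z‖ ≤ Real.exp (‖z‖ ^ σ) := by
  constructor
  · intro h
    filter_upwards [omi_cobounded h] with z hz
    rwa [omi_norm, ← omi_norm_conj z]
  · intro h
    filter_upwards [omi_cobounded h] with z hz
    rw [omi_norm, omi_norm_conj] at hz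
    simpa using hz

theorem inClass_mir {f : ℂ → ℂ} (hf : InClass 1 f) : InClass 1 (mir f) where
  entire := omi_diff hf.entire
  order := by
    have h := hf.order
    unfold HasOrder at h ⊢
    have e : {σ : ℝ | 0 ≤ σ ∧ ∀ᶠ z in cobounded ℂ, ‖mir f z‖ ≤ Real.exp (‖z‖ ^ σ)} =
        {σ : ℝ | 0 ≤ σ ∧ ∀ᶠ z in cobounded ℂ, ‖f z‖ ≤ Real.exp (‖z‖ ^ σ)} := by
      ext σ
      exact and_congr_right fun _ => (omi_bound (f := f) σ).symm
    rw [e]
    exact h
  zero_free := omi_zero hf.zero_free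
  norm_le := omi_le hf.norm_le

theorem pre_mir {f : ℂ → ℂ} (hf : Pre 1 f) : Pre 1 (mir f) where
  entire := omi_diff hf.entire
  order := fun σ hσ => (omi_bound σ).1 (hf.order σ hσ)
  zero_free := omi_zero hf.zero_free
  norm_le := omi_le hf.norm_le

theorem condT_mir {h : ℝ → EReal} (hT : CondT 1 h) : CondT 1 fun θ => h (π - θ) := by
  intro a t b A B hat htb hl ha hb
  have h1 := hT (π - b) (π - t) (π - a) B A (by linarith) (by linarith) (by linarith) hb ha
  refine h1.trans_eq ?_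
  rw [show π - a - (π - t) = t - a by ring, show π - t - (π - b) = b - t by ring,
    show π - a - (π - b) = b - a by ring, add_comm]

theorem condOne_mir {c : ℝ} {h : ℝ → EReal} (hper : ∀ θ, h (θ + 2 * π) = h θ)
    (H : CondOne c h) : CondOne c fun θ => h (π - θ) := by
  have hp : ∀ θ : ℝ, h (π - -θ) = h (-(π - θ)) := by
    intro θ
    rw [← hper (-(π - θ))]
    congr 1
    ring
  have hs : ∀ θ : ℝ, Real.sin (π - θ) = Real.sin θ := Real.sin_pi_sub
  refine ⟨?_, ?_, ?_, ?_, ?_, ?_⟩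
  · intro θ hθ
    have h1 := H.le (π - θ) ⟨by linarith [hθ.2], by linarith [hθ.1]⟩
    rw [hs] at h1
    rw [hp]
    exact h1
  · have h1 := H.half
    rw [hp]
    rw [show π - π / 2 = π / 2 by ring]
    exact h1
  · intro θ hθ hn
    have h1 := H.eq (π - θ) ⟨by linarith [hθ.2], by linarith [hθ.1]⟩ (by
      have ht : Tendsto (fun t : ℝ => π - t) (𝓝 (π - θ)) (𝓝 θ) := by
        have h3 := (by fun_prop : Continuous fun t : ℝ => π - t).tendsto (π - θ)
        rwa [sub_sub_cancel] at h3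
      have h2 := ht.eventually (show ∀ᶠ t in 𝓝 θ, h (π - t) ≠ ⊤ from hn)
      filter_upwards [h2] with t ht
      rw [sub_sub_cancel] at ht
      exact ht)
    rw [hs] at h1
    rw [hp]
    exact h1
  · intro θ hθ hn t ht
    have h1 := H.left (π - θ) ⟨by linarith [hθ.2], by linarith [hθ.1]⟩ hn (π - t)
      ⟨by linarith [ht.2], by linarith [ht.1]⟩
    exact h1
  · intro θ hθ hn t ht
    have h1 := H.right (π - θ) ⟨by linarith [hθ.2], by linarith [hθ.1]⟩ hn (π - t)
      ⟨by linarith [ht.2], by linarith [ht.1]⟩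
    exact h1
  · have h1 := H.ge
    rw [hp, show π - π / 2 = π / 2 by ring]
    exact h1

end HBOne
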