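import Pool.Agent.HBOne.Defs

/-!
# The factor `e^{icz}`

`‖exp (I c z)‖ = exp (- c Im z)`. `ind_exp`: each term of the limsup is shifted by `- c sin θ` (`r > 0`, order `1`;
`ind_mul_of_tendsto` in `HBInd.Half` is the model; use `lt_term_iff`/`term_lt_iff`, or `EReal` limsup of a sum with a
constant: `EReal.limsup_add_const`...). `pre_exp`: see the proof of `order_one_iff`. `condT_shift`: as `sin` is a
sinusoid (`trigConvex_add_sin` in `HBInd.OrderOne`). `condOne_shift`: `k θ = h θ + c sin θ`, `sin (-θ) = - sin θ`.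
-/

namespace HBOne

open HBInd HBInf Complex Filter Topology Set MeasureTheory Bornology
open scoped Real ComplexConjugate

theorem shi_norm (c : ℝ) (z : ℂ) : ‖Complex.exp (I * c * z)‖ = Real.exp (-(c * z.im)) := by
  rw [Complex.norm_exp]
  congr 1
  rw [mul_assoc, Complex.I_mul_re, Complex.im_ofReal_mul]

theorem shi_mono (c : ℝ) : Monotone fun x : EReal => x + (c : EReal) :=
  fun _ _ h => add_le_add_left h _

theorem shi_cont (c : ℝ) (x : EReal) : ContinuousAt (fun x : EReal => x + (c : EReal)) x := by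
  have h1 : ContinuousAt (fun p : EReal × EReal => p.1 + p.2) (x, (c : EReal)) :=
    EReal.continuousAt_add (Or.inr (EReal.coe_ne_bot c)) (Or.inr (EReal.coe_ne_top c))
  exact h1.comp (f := fun x : EReal => (x, (c : EReal))) (by fun_prop)

theorem ind_exp (f : ℂ → ℂ) (c θ : ℝ) :
    ind 1 (fun z => f z * Complex.exp (I * c * z)) θ =
      ind 1 f θ - ((c * Real.sin θ : ℝ) : EReal) := by
  unfold ind
  rw [sub_eq_add_neg, ← EReal.coe_neg,
    (shi_mono (-(c * Real.sin θ))).map_limsup_of_continuousAt _ (shi_cont _ _)]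
  refine limsup_congr ?_
  filter_upwards [eventually_gt_atTop 0] with r hr
  simp only [Function.comp]
  rcases eq_or_ne (f (ray r θ)) 0 with h0 | h0
  · rw [h0, zero_mul, term_zero hr, EReal.bot_add]
  · have h1 : f (ray r θ) * Complex.exp (I * c * ray r θ) ≠ 0 :=
      mul_ne_zero h0 (Complex.exp_ne_zero _)
    rw [term_eq h0, term_eq h1, norm_mul, shi_norm, Real.log_mul (norm_ne_zero_iff.2 h0)
      (Real.exp_pos _).ne', Real.log_exp, ray_im, ← EReal.coe_add]
    congr 1
    rw [Real.rpow_neg_one]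
    field_simp

theorem pre_exp {f : ℂ → ℂ} (hf : Pre 1 f) {c : ℝ} (hc : 0 ≤ c) :
    Pre 1 fun z => f z * Complex.exp (I * c * z) := by
  have hexp := shi_norm c
  refine ⟨hf.entire.mul (Complex.differentiable_exp.comp (differentiable_id.const_mul _)),
    ?_, ?_, ?_⟩
  · intro σ hσ
    obtain ⟨σ', h1, h2⟩ := exists_between hσ
    filter_upwards [hf.order σ' h1, (tendsto_norm_cobounded_atTop (E := ℂ)).eventually
      (eventually_mul_rpow_le h2 (1 + c)),
      (tendsto_norm_cobounded_atTop (E := ℂ)).eventually_ge_atTop 1] with z hz1 hz2 hz3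
    have h5 : ‖z‖ ≤ ‖z‖ ^ σ' := by
      nth_rewrite 1 [← Real.rpow_one ‖z‖]
      exact Real.rpow_le_rpow_of_exponent_le hz3 h1.le
    have h6 : -(c * z.im) ≤ c * ‖z‖ ^ σ' := by
      have h7 : -z.im ≤ ‖z‖ := (neg_le_abs _).trans (Complex.abs_im_le_norm z)
      nlinarith
    rw [norm_mul, hexp]
    calc ‖f z‖ * Real.exp (-(c * z.im)) ≤
        Real.exp (‖z‖ ^ σ') * Real.exp (c * ‖z‖ ^ σ') :=
          mul_le_mul hz1 (Real.exp_le_exp.2 h6) (Real.exp_pos _).le (Real.exp_pos _).le
      _ = Real.exp ((1 + c) * ‖z‖ ^ σ') := by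
          rw [← Real.exp_add]
          ring_nf
      _ ≤ _ := Real.exp_le_exp.2 hz2
  · exact fun z hz => mul_ne_zero (hf.zero_free z hz) (Complex.exp_ne_zero _)
  · intro z hz
    rw [norm_mul, norm_mul, hexp, hexp]
    refine mul_le_mul (hf.norm_le z hz) (Real.exp_le_exp.2 ?_) (Real.exp_pos _).le
      (norm_nonneg _)
    rw [Complex.conj_im]
    nlinarith

theorem condT_shift {h : ℝ → EReal} (hT : CondT 1 h) (c : ℝ) :
    CondT 1 fun θ => h θ + ((c * Real.sin θ : ℝ) : EReal) := by
  intro a t b A B hat htb hl ha hb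
  have key : ∀ (x : EReal) (s y : ℝ), x + (s : EReal) ≤ (y : EReal) → x ≤ ((y - s : ℝ) : EReal) := by
    intro x s y hx
    induction x using EReal.rec with
    | bot => exact bot_le
    | coe x => 
      have h1 : x + s ≤ y := by exact_mod_cast hx
      exact_mod_cast (by linarith : x ≤ y - s)
    | top => 
      rw [EReal.top_add_coe, top_le_iff] at hx
      exact absurd hx (EReal.coe_ne_top _)
  have h1 := hT a t b _ _ hat htb hl (key _ _ _ ha) (key _ _ _ hb)
  have hs : 0 < Real.sin (b - a) := by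
    have := tre_sin_pos one_pos (hat.trans htb) hl
    rwa [one_mul] at this
  simp only [one_mul] at h1 ⊢
  refine (add_le_add_left h1 _).trans_eq ?_
  rw [← EReal.coe_add]
  congr 1
  have e : Real.sin t * Real.sin (b - a) =
      Real.sin a * Real.sin (b - t) + Real.sin b * Real.sin (t - a) := by
    rw [Real.sin_sub, Real.sin_sub, Real.sin_sub]
    ring
  field_simp
  linear_combination c * e

theorem condOne_shift {c : ℝ} {h : ℝ → EReal} (H : CondOne c h) :
    CondOne 0 fun θ => h θ + ((c * Real.sin θ : ℝ) : EReal) := by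
  have e1 : ∀ (x : EReal) (a b : ℝ), x + (a : EReal) + (b : EReal) = x + ((a + b : ℝ) : EReal) := by
    intro x a b
    rw [EReal.coe_add, add_assoc]
  have etop : ∀ t, h t + ((c * Real.sin t : ℝ) : EReal) ≠ ⊤ ↔ h t ≠ ⊤ := by
    intro t
    constructor
    · intro h1 h2
      rw [h2, EReal.top_add_coe] at h1
      exact h1 rfl
    · intro h1
      exact EReal.add_ne_top h1 (EReal.coe_ne_top _)
  refine ⟨?_, ?_, ?_, ?_, ?_, ?_⟩
  · intro θ hθ
    have h1 := add_le_add_left (H.le θ hθ) ((c * Real.sin (-θ) : ℝ) : EReal)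
    rw [e1] at h1
    rw [e1]
    refine (le_of_eq ?_).trans h1
    congr 2
    rw [Real.sin_neg]
    ring
  · have h1 := congrArg (fun x : EReal => x + ((c * Real.sin (-(π / 2)) : ℝ) : EReal)) H.half
    rw [e1] at h1
    rw [e1, ← h1]
    congr 2
    rw [Real.sin_neg, Real.sin_pi_div_two]
    ring
  · intro θ hθ hn
    have hn' : {t | h t ≠ ⊤} ∈ 𝓝 θ := by
      filter_upwards [hn] with t ht
      exact (etop t).1 ht
    have h1 := congrArg (fun x : EReal => x + ((c * Real.sin (-θ) : ℝ) : EReal)) (H.eq θ hθ hn')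
    rw [e1] at h1
    rw [e1, ← h1]
    congr 2
    rw [Real.sin_neg]
    ring
  · intro θ hθ hn t ht
    exact (etop t).2 (H.right θ hθ ((etop θ).1 hn) t ht)
  · intro θ hθ hn t ht
    exact (etop t).2 (H.left θ hθ ((etop θ).1 hn) t ht)
  · have h1 := add_le_add_left H.ge ((c * Real.sin (-(π / 2)) : ℝ) : EReal)
    refine (le_of_eq ?_).trans h1
    rw [← EReal.coe_add]
    congr 1
    rw [Real.sin_neg, Real.sin_pi_div_two]
    ring

end HBOne
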