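import Pool.Agent.HBOne.Defs

/-!
# The set where an indicator of order one is finite

`D = {k ≠ ⊤}`, `CondOne 0 k`: `k θ ≤ k (-θ)` on `(0, π)`, `k (π/2) = k (-π/2) ≥ 0`.

`struct_right`: let `θ₀ ∈ D`, `0 < |θ₀| < π/2`; then `|θ₀| ∈ D` (`le`). `Z = D ∩ (0, π/2)`, `d = sSup Z ∈ (0, π/2]`. `|t| < d`: there is
`θ ∈ Z`, `|t| < θ`, and `right` gives `t ∈ D`. Suppose some `t` with `d < |t| ≤ π` is in `D`. Then `|t| ∈ D` (`le`, `half`,
periodicity for `π`); `|t| < π/2` contradicts the definition of `d`. If `π/2 ≤ |t|`: `condT_between` on `[θ, |t|]`, `θ ∈ Z`, `|t| - θ < π`: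
`(θ, |t|) ⊆ D`, so `d = π/2`; as `d < |t|`, `π/2 ∈ D`; `(-π/2, π/2) ⊆ D`, `± π/2 ∈ D`, and `left` for `t' ∈ (π/2, |t|)`, `t' → π/2`:
`(π/2, 3π/2) ⊆ D`: everything is finite, by periodicity.

`dich`: on an open interval of finiteness of length `≤ π`... precisely if `|t| < d → k t ≠ ⊤`, `d ≤ π/2`, either `k = ⊥` on `(-d, d)` or
`k ≠ ⊥` on `(-d, d)` (`condT_bot` on slightly smaller intervals). `even_in`: `CondOne.eq` on `(0, d)`.

`real_all`: if `k ≠ ⊤` everywhere then `k ≠ ⊥` everywhere: if `k t₀ = ⊥`, `condT_bot_left`/`right` give `k = ⊥` on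
`(t₀, t₀ + π)` and then everywhere, contradiction with `k (-π/2) ≥ 0`.
`lim_end`: `k (t) ≤ sinusoid` through `(0, k 0)` and `(d, k d)` (`CondT` on `[0, d]`): if `S t = β cos t + σ |sin t| ≤ k t` on `(-d, d)`
then `S d ≤ k d` by `t → d` (`k 0 ≠ ⊤`; trivial if `k d = ⊤`).
-/

namespace HBOne

open HBInd HBInf Complex Filter Topology Set MeasureTheory
open scoped Real ComplexConjugate

variable {k : ℝ → EReal}

lemma str_le (H : CondOne 0 k) {θ : ℝ} (h0 : 0 < θ) (h1 : θ < π) : k θ ≤ k (-θ) := by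
  have := H.le θ ⟨h0, h1⟩
  simpa using this

lemma str_half (H : CondOne 0 k) : k (π / 2) = k (-(π / 2)) := by
  have := H.half
  simpa using this

lemma str_eq (H : CondOne 0 k) {θ : ℝ} (h0 : 0 < θ) (h1 : θ < π) (h : {t | k t ≠ ⊤} ∈ 𝓝 θ) :
    k θ = k (-θ) := by
  have := H.eq θ ⟨h0, h1⟩ h
  simpa using this

lemma str_abs (hper : ∀ θ, k (θ + 2 * π) = k θ) (H : CondOne 0 k) {t : ℝ} (ht : |t| ≤ π)
    (h : k t ≠ ⊤) : k |t| ≠ ⊤ := by
  rcases le_or_gt 0 t with h0 | h0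
  · rwa [abs_of_nonneg h0]
  · rw [abs_of_neg h0] at ht ⊢
    rcases ht.lt_or_eq with h1 | h1
    · have h2 := str_le H (θ := -t) (by linarith) h1
      rw [neg_neg] at h2
      exact ne_top_of_le_ne_top h h2
    · have h2 := hper t
      have e : t + 2 * π = -t := by linarith
      rw [e] at h2
      rwa [h2]

theorem struct_right (hper : ∀ θ, k (θ + 2 * π) = k θ) (hT : CondT 1 k) (H : CondOne 0 k)
    {θ₀ : ℝ} (h0 : θ₀ ≠ 0) (h1 : |θ₀| < π / 2) (h2 : k θ₀ ≠ ⊤) (h3 : ∃ θ, k θ = ⊤) :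
    ∃ d : ℝ, 0 < d ∧ d ≤ π / 2 ∧ (∀ t, |t| < d → k t ≠ ⊤) ∧ ∀ t, d < |t| → |t| ≤ π → k t = ⊤ := by
  have hπ := Real.pi_pos
  have hA : k |θ₀| ≠ ⊤ := str_abs hper H (by linarith) h2
  set Z : Set ℝ := {t | 0 < t ∧ t < π / 2 ∧ k t ≠ ⊤} with hZ
  have hmem : |θ₀| ∈ Z := ⟨abs_pos.2 h0, h1, hA⟩
  have hbdd : BddAbove Z := ⟨π / 2, fun t ht => ht.2.1.le⟩
  have hfin : ∀ t, |t| < sSup Z → k t ≠ ⊤ := by
    intro t ht
    obtain ⟨θ, hθ, hθt⟩ := exists_lt_of_lt_csSup ⟨_, hmem⟩ ht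
    exact H.right θ ⟨hθ.1, hθ.2.1⟩ hθ.2.2 t (abs_lt.1 hθt)
  refine ⟨sSup Z, (abs_pos.2 h0).trans_le (le_csSup hbdd hmem),
    csSup_le ⟨_, hmem⟩ fun t ht => ht.2.1.le, hfin, fun t ht1 ht2 => ?_⟩
  by_contra hcon
  set u := |t| with hu
  have hu1 : k u ≠ ⊤ := str_abs hper H ht2 hcon
  have hdpos : 0 < sSup Z := (abs_pos.2 h0).trans_le (le_csSup hbdd hmem)
  have hu0 : 0 < u := hdpos.trans ht1
  have hu2 : π / 2 ≤ u := by
    by_contra hlt
    rw [not_le] at hlt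
    exact absurd (le_csSup hbdd (show u ∈ Z from ⟨hu0, hlt, hu1⟩)) (not_le.2 ht1)
  have hbet : ∀ s, |θ₀| < s → s < u → k s ≠ ⊤ := by
    intro s hs1 hs2
    have := abs_pos.2 h0
    exact condT_between hT hs1 hs2 (by rw [div_one]; linarith) hA hu1
  have hd : π / 2 ≤ sSup Z := by
    by_contra hlt
    rw [not_le] at hlt
    obtain ⟨s, hs1, hs2⟩ := exists_between (max_lt hlt h1)
    rw [max_lt_iff] at hs1
    have : s ∈ Z := ⟨hdpos.trans hs1.1, hs2, hbet s hs1.2 (hs2.trans_le hu2)⟩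
    exact absurd (le_csSup hbdd this) (not_le.2 hs1.1)
  have hu3 : π / 2 < u := hd.trans_lt ht1
  have hh1 : k (π / 2) ≠ ⊤ := hbet _ h1 hu3
  have hh2 : k (-(π / 2)) ≠ ⊤ := by rwa [← str_half H]
  obtain ⟨x, hx⟩ := h3
  have hP : Function.Periodic k (2 * π) := hper
  obtain ⟨y, hy, hxy⟩ := hP.exists_mem_Ico (by positivity) x (-(π / 2))
  rw [hxy] at hx
  rcases lt_trichotomy y (π / 2) with hlt | heq | hgt
  · rcases hy.1.lt_or_eq with h4 | h4
    · exact hfin y (abs_lt.2 ⟨by linarith, by linarith⟩) hx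
    · rw [← h4] at hx
      exact hh2 hx
  · rw [heq] at hx
    exact hh1 hx
  · have h5 : π / 2 < 2 * π - y := by linarith [hy.2]
    obtain ⟨s, hs1, hs2⟩ := exists_between (lt_min hu3 (lt_min hgt h5))
    rw [lt_min_iff, lt_min_iff] at hs2
    exact H.left s ⟨hs1, by linarith⟩ (hbet s (by linarith) hs2.1) y
      ⟨hs2.2.1, by linarith [hs2.2.2]⟩ hx

theorem dich (hT : CondT 1 k) {d : ℝ} (hd : 0 < d) (hd2 : d ≤ π / 2)
    (h : ∀ t, |t| < d → k t ≠ ⊤) : (∀ t, |t| < d → k t = ⊥) ∨ ∀ t, |t| < d → k t ≠ ⊥ := by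
  by_cases hb : ∃ t₀, |t₀| < d ∧ k t₀ = ⊥
  · left
    obtain ⟨t₀, ht₀, hb⟩ := hb
    intro t ht
    obtain ⟨e, he1, he2⟩ := exists_between (max_lt ht ht₀)
    rw [max_lt_iff] at he1
    have he0 : 0 < e := (abs_nonneg t).trans_lt he1.1
    have hπ := Real.pi_pos
    refine condT_bot one_pos hT (a := -e) (b := e) (t₀ := t₀) ?_ ?_ ?_ ?_ hb t ?_
    · rw [div_one]; linarith
    · exact h _ (by rwa [abs_neg, abs_of_pos he0])
    · exact h _ (by rwa [abs_of_pos he0])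
    · exact abs_lt.1 he1.2
    · exact abs_lt.1 he1.1
  · right
    push Not at hb
    exact hb

theorem even_in (H : CondOne 0 k) {d : ℝ} (hd2 : d ≤ π / 2) (h : ∀ t, |t| < d → k t ≠ ⊤)
    {t : ℝ} (ht : |t| < d) : k (-t) = k t := by
  have hπ := Real.pi_pos
  have key : ∀ s, 0 < s → s < d → k s = k (-s) := by
    intro s hs1 hs2
    refine str_eq H hs1 (by linarith) ?_
    refine Filter.mem_of_superset (Ioo_mem_nhds hs1 hs2) fun x hx => h x ?_
    rw [abs_of_pos hx.1]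
    exact hx.2
  rcases lt_trichotomy t 0 with h0 | h0 | h0
  · rw [abs_of_neg h0] at ht
    have := key (-t) (by linarith) ht
    rwa [neg_neg] at this
  · rw [h0, neg_zero]
  · rw [abs_of_pos h0] at ht
    exact (key t h0 ht).symm

lemma str_bot_right (hT : CondT 1 k) (h : ∀ θ, k θ ≠ ⊤) {a t : ℝ} (ha : k a = ⊥) (h1 : a < t)
    (h2 : t < a + π) : k t = ⊥ := by
  obtain ⟨b, hb1, hb2⟩ := exists_between h2
  exact condT_bot_left one_pos hT h1 hb1 (by rw [div_one]; linarith) ha (h b)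

theorem real_all (hper : ∀ θ, k (θ + 2 * π) = k θ) (hT : CondT 1 k) (H : CondOne 0 k)
    (h : ∀ θ, k θ ≠ ⊤) (θ : ℝ) : k θ ≠ ⊥ := by
  intro hb
  have hπ := Real.pi_pos
  have hP : Function.Periodic k (2 * π) := hper
  obtain ⟨y, hy, hxy⟩ := hP.exists_mem_Ico (by positivity) (-(π / 2)) θ
  have h1 : k (θ + π / 2) = ⊥ := str_bot_right hT h hb (by linarith) (by linarith)
  have h2 : k (θ + π) = ⊥ := str_bot_right hT h h1 (by linarith) (by linarith)
  have hyb : k y = ⊥ := by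
    rcases hy.1.lt_or_eq with h4 | h4
    · rcases lt_trichotomy y (θ + π) with h5 | h5 | h5
      · exact str_bot_right hT h hb h4 h5
      · rw [h5]; exact h2
      · exact str_bot_right hT h h2 h5 (by linarith [hy.2])
    · rw [← h4]; exact hb
  have h6 := H.ge
  rw [hxy, hyb] at h6
  exact absurd h6 (not_le.2 (EReal.bot_lt_coe 0))

theorem lim_end (hT : CondT 1 k) {d : ℝ} (hd : 0 < d) (hd2 : d ≤ π / 2) (h0 : k 0 ≠ ⊤)
    {β σ : ℝ}
    (hS : ∀ t, |t| < d → ((β * Real.cos t + σ * |Real.sin t| : ℝ) : EReal) ≤ k t) :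
    ((β * Real.cos d + σ * Real.sin d : ℝ) : EReal) ≤ k d := by
  have hπ := Real.pi_pos
  obtain ⟨A, hA⟩ := exists_real_gt h0
  refine EReal.le_of_forall_lt_iff_le.1 fun B hB => ?_
  have hsin : 0 < Real.sin d := Real.sin_pos_of_pos_of_lt_pi hd (by linarith)
  have key : ∀ t ∈ Ioo 0 d, β * Real.cos t + σ * Real.sin t ≤
      (A * Real.sin (1 * (d - t)) + B * Real.sin (1 * (t - 0))) / Real.sin (1 * (d - 0)) := by
    intro t ht
    have h1 := hT 0 t d A B ht.1 ht.2 (by rw [div_one]; linarith) hA.le hB.le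
    have h2 := hS t (by rw [abs_of_pos ht.1]; exact ht.2)
    have h3 : 0 ≤ Real.sin t := Real.sin_nonneg_of_nonneg_of_le_pi ht.1.le (by linarith [ht.2])
    rw [abs_of_nonneg h3] at h2
    exact_mod_cast h2.trans h1
  have hlim1 : Tendsto (fun t : ℝ => β * Real.cos t + σ * Real.sin t) (𝓝[<] d)
      (𝓝 (β * Real.cos d + σ * Real.sin d)) := by
    have hc : Continuous fun t : ℝ => β * Real.cos t + σ * Real.sin t := by fun_prop
    exact hc.continuousAt.tendsto.mono_left nhdsWithin_le_nhds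
  have hlim2 : Tendsto (fun t : ℝ => (A * Real.sin (1 * (d - t)) + B * Real.sin (1 * (t - 0))) /
      Real.sin (1 * (d - 0))) (𝓝[<] d) (𝓝 B) := by
    have hc : Continuous fun t : ℝ => (A * Real.sin (1 * (d - t)) + B * Real.sin (1 * (t - 0))) /
      Real.sin (1 * (d - 0)) := by fun_prop
    have h1 := hc.continuousAt.tendsto.mono_left (nhdsWithin_le_nhds (a := d) (s := Iio d))
    have e : (A * Real.sin (1 * (d - d)) + B * Real.sin (1 * (d - 0))) / Real.sin (1 * (d - 0)) =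
        B := by
      rw [sub_self, mul_zero, Real.sin_zero, mul_zero, zero_add, sub_zero, one_mul,
        mul_div_assoc, div_self hsin.ne', mul_one]
    rw [e] at h1
    exact h1
  have h1 : β * Real.cos d + σ * Real.sin d ≤ B := by
    refine le_of_tendsto_of_tendsto hlim1 hlim2 ?_
    filter_upwards [Ioo_mem_nhdsLT hd] with t ht
    exact key t ht
  exact_mod_cast h1

end HBOne
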