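import Pool.Agent.HBInd.Trig

/-!
# Supporting sinusoids of an even function on an interval

`k` is trigonometrically convex on `(-d, d)`, `d ≤ π/2`. At every `x` in `(-d, d)` there is a supporting sinusoid
`k x cos (t - x) + s sin (t - x) = β cos t + σ sin t ≤ k t` on `(-d, d)`: the slopes from the left are `≤` the slopes
from the right by the convexity inequality, and all differences are `< π`. By evenness also `β cos t - σ sin t ≤ k t`, so
`β cos t + |σ| |sin t| ≤ k t`, with equality at `x` if `x ≥ 0`. We take an enumeration with infinite repetition of all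
pairs of rational numbers `β`, `σ ≥ 0` with `β cos t + σ |sin t| ≤ k t` on `(-d, d)`.
-/

namespace HBOne

open HBInd Filter Topology Set
open scoped Real

theorem sup_sinusoid {d : ℝ} (hd2 : d ≤ π / 2) {k : ℝ → ℝ}
    (hc : ∀ a t b : ℝ, -d < a → a < t → t < b → b < d →
      k t * Real.sin (b - a) ≤ k a * Real.sin (b - t) + k b * Real.sin (t - a))
    {x : ℝ} (hx : x ∈ Ioo (-d) d) :
    ∃ β σ : ℝ, (∀ t ∈ Ioo (-d) d, β * Real.cos t + σ * Real.sin t ≤ k t) ∧
      β * Real.cos x + σ * Real.sin x = k x := by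
  obtain ⟨hx1, hx2⟩ := hx
  let Lo : ℝ → ℝ := fun a => (k x * Real.cos (x - a) - k a) / Real.sin (x - a)
  let Up : ℝ → ℝ := fun b => (k b - k x * Real.cos (b - x)) / Real.sin (b - x)
  have hsin : ∀ a b : ℝ, -d < a → a < b → b < d → 0 < Real.sin (b - a) := by
    intro a b h1 h2 h3
    apply Real.sin_pos_of_pos_of_lt_pi <;> linarith
  have hLU : ∀ a b : ℝ, -d < a → a < x → x < b → b < d → Lo a ≤ Up b := by
    intro a b h1 h2 h3 h4
    have hs1 := hsin a x h1 h2 hx2
    have hs2 := hsin x b hx1 h3 h4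
    have h := hc a x b h1 h2 h3 h4
    have hsum : Real.sin (b - a) = Real.sin (b - x) * Real.cos (x - a) +
        Real.cos (b - x) * Real.sin (x - a) := by
      rw [← Real.sin_add]; congr 1; ring
    show (k x * Real.cos (x - a) - k a) / Real.sin (x - a) ≤
      (k b - k x * Real.cos (b - x)) / Real.sin (b - x)
    rw [div_le_div_iff₀ hs1 hs2]
    rw [hsum] at h
    nlinarith [h]
  have hne : (Lo '' Ioo (-d) x).Nonempty := (nonempty_Ioo.2 hx1).image _
  have hbdd : ∀ b ∈ Ioo x d, ∀ v ∈ Lo '' Ioo (-d) x, v ≤ Up b := by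
    rintro b ⟨hb1, hb2⟩ v ⟨a, ⟨ha1, ha2⟩, rfl⟩
    exact hLU a b ha1 ha2 hb1 hb2
  obtain ⟨b0, hb0⟩ := nonempty_Ioo.2 hx2
  have hba : BddAbove (Lo '' Ioo (-d) x) := ⟨Up b0, fun v hv => hbdd b0 hb0 v hv⟩
  set m : ℝ := sSup (Lo '' Ioo (-d) x) with hm
  have hmLo : ∀ a ∈ Ioo (-d) x, Lo a ≤ m := fun a ha => le_csSup hba ⟨a, ha, rfl⟩
  have hmUp : ∀ b ∈ Ioo x d, m ≤ Up b := fun b hb => csSup_le hne (hbdd b hb)
  have key : ∀ t, (k x * Real.cos x - m * Real.sin x) * Real.cos t +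
      (k x * Real.sin x + m * Real.cos x) * Real.sin t =
      k x * Real.cos (t - x) + m * Real.sin (t - x) := by
    intro t
    rw [Real.cos_sub, Real.sin_sub]; ring
  refine ⟨k x * Real.cos x - m * Real.sin x, k x * Real.sin x + m * Real.cos x, ?_, ?_⟩
  · intro t ht
    rw [key t]
    rcases lt_trichotomy t x with h | h | h
    · have hs := hsin t x ht.1 h hx2
      have h1 := hmLo t ⟨ht.1, h⟩
      have h2 : k x * Real.cos (x - t) - k t ≤ m * Real.sin (x - t) := by
        have := (div_le_iff₀ hs).1 h1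
        exact this
      have e1 : Real.cos (t - x) = Real.cos (x - t) := by
        rw [← Real.cos_neg]; congr 1; ring
      have e2 : Real.sin (t - x) = - Real.sin (x - t) := by
        rw [← Real.sin_neg]; congr 1; ring
      rw [e1, e2]; linarith
    · subst h; simp
    · have hs := hsin x t hx1 h ht.2
      have h1 := hmUp t ⟨h, ht.2⟩
      have h2 : m * Real.sin (t - x) ≤ k t - k x * Real.cos (t - x) := by
        have := (le_div_iff₀ hs).1 h1
        exact this
      linarith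
  · rw [key x]; simp

theorem sup_even {d : ℝ} (hd2 : d ≤ π / 2) {k : ℝ → ℝ}
    (hc : ∀ a t b : ℝ, -d < a → a < t → t < b → b < d →
      k t * Real.sin (b - a) ≤ k a * Real.sin (b - t) + k b * Real.sin (t - a))
    (he : ∀ t ∈ Ioo (-d) d, k (-t) = k t)
    {x : ℝ} (hx : x ∈ Ioo (-d) d) :
    ∃ β σ : ℝ, 0 ≤ σ ∧ (∀ t ∈ Ioo (-d) d, β * Real.cos t + σ * |Real.sin t| ≤ k t) ∧
      β * Real.cos x + σ * |Real.sin x| = k x := by
  obtain ⟨β, σ, h1, h2⟩ := sup_sinusoid hd2 hc hx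
  have h3 : ∀ t ∈ Ioo (-d) d, β * Real.cos t + |σ| * |Real.sin t| ≤ k t := by
    intro t ht
    have a1 := h1 t ht
    have ht' : -t ∈ Ioo (-d) d := ⟨by linarith [ht.2], by linarith [ht.1]⟩
    have a2 := h1 (-t) ht'
    rw [he t ht, Real.cos_neg, Real.sin_neg] at a2
    rw [← abs_mul]
    rcases abs_cases (σ * Real.sin t) with ⟨h, _⟩ | ⟨h, _⟩ <;> rw [h] <;> linarith
  refine ⟨β, |σ|, abs_nonneg _, h3, le_antisymm (h3 x hx) ?_⟩
  rw [← h2, ← abs_mul]
  linarith [le_abs_self (σ * Real.sin x)]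

theorem one_supp {d : ℝ} (hd : 0 < d) (hd2 : d ≤ π / 2) {k : ℝ → ℝ}
    (hc : ∀ a t b : ℝ, -d < a → a < t → t < b → b < d →
      k t * Real.sin (b - a) ≤ k a * Real.sin (b - t) + k b * Real.sin (t - a))
    (he : ∀ t ∈ Ioo (-d) d, k (-t) = k t) :
    ∃ β σ : ℕ → ℝ, (∀ j, 0 ≤ σ j) ∧
      (∀ j, ∀ t ∈ Ioo (-d) d, β j * Real.cos t + σ j * |Real.sin t| ≤ k t) ∧
      ∀ t ∈ Ioo (-d) d,
        limsup (fun j => ((β j * Real.cos t + σ j * |Real.sin t| : ℝ) : EReal)) atTop =
          (k t : ℝ) := by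
  let A : Set (ℚ × ℚ) := {q | 0 ≤ q.2 ∧
    ∀ t ∈ Ioo (-d) d, (q.1 : ℝ) * Real.cos t + (q.2 : ℝ) * |Real.sin t| ≤ k t}
  have hcos : ∀ t ∈ Ioo (-d) d, 0 < Real.cos t := fun t ht =>
    Real.cos_pos_of_mem_Ioo ⟨by linarith [ht.1], by linarith [ht.2]⟩
  -- approximation
  have happ : ∀ x ∈ Ioo (-d) d, ∀ r : ℝ, r < k x → ∃ q ∈ A,
      r ≤ (q.1 : ℝ) * Real.cos x + (q.2 : ℝ) * |Real.sin x| := by
    intro x hx r hr
    obtain ⟨β, σ, h0, h1, h2⟩ := sup_even hd2 hc he hx
    have hε : 0 < (k x - r) / 2 := by linarith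
    obtain ⟨b, hb1, hb2⟩ := exists_rat_btwn (show β - (k x - r) / 2 < β by linarith)
    obtain ⟨s, hs0, hs1, hs2⟩ : ∃ s : ℚ, 0 ≤ s ∧ σ - (k x - r) / 2 ≤ s ∧ (s : ℝ) ≤ σ := by
      rcases h0.eq_or_lt with h | h
      · exact ⟨0, le_rfl, by rw [← h]; push_cast; linarith, by rw [← h]; simp⟩
      · obtain ⟨s, hs1, hs2⟩ := exists_rat_btwn
          (show max 0 (σ - (k x - r) / 2) < σ from max_lt h (by linarith))
        refine ⟨s, ?_, ?_, hs2.le⟩
        · have := (le_max_left 0 (σ - (k x - r) / 2)).trans hs1.le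
          exact_mod_cast this
        · exact (le_max_right _ _).trans hs1.le
    refine ⟨(b, s), ⟨hs0, fun t ht => ?_⟩, ?_⟩
    · have c1 := hcos t ht
      have c2 := abs_nonneg (Real.sin t)
      have := h1 t ht
      simp only
      nlinarith [mul_le_mul_of_nonneg_right hb2.le c1.le, mul_le_mul_of_nonneg_right hs2 c2]
    · have c1 := hcos x hx
      have c2 := abs_nonneg (Real.sin x)
      have c3 := Real.cos_le_one x
      have c4 := Real.abs_sin_le_one x
      simp only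
      have e1 : (β - (k x - r) / 2) * Real.cos x ≤ b * Real.cos x :=
        mul_le_mul_of_nonneg_right hb1.le c1.le
      have e2 : (σ - (k x - r) / 2) * |Real.sin x| ≤ s * |Real.sin x| :=
        mul_le_mul_of_nonneg_right hs1 c2
      nlinarith [mul_nonneg hε.le (sub_nonneg.2 c3), mul_nonneg hε.le (sub_nonneg.2 c4)]
  have hAne : A.Nonempty := by
    obtain ⟨q, hq, -⟩ := happ 0 ⟨by linarith, hd⟩ (k 0 - 1) (by linarith)
    exact ⟨q, hq⟩
  obtain ⟨e, he'⟩ := (Set.to_countable A).exists_eq_range hAne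
  have hemem : ∀ j, e j ∈ A := fun j => he' ▸ mem_range_self j
  refine ⟨fun j => ((e j.unpair.1).1 : ℝ), fun j => ((e j.unpair.1).2 : ℝ), ?_, ?_, ?_⟩
  · intro j
    exact Rat.cast_nonneg.2 (hemem j.unpair.1).1
  · intro j t ht
    exact (hemem j.unpair.1).2 t ht
  · intro t ht
    apply le_antisymm
    · apply limsup_le_of_le (by isBoundedDefault)
      exact Eventually.of_forall fun j => EReal.coe_le_coe_iff.2 ((hemem j.unpair.1).2 t ht)
    · refine le_of_forall_lt fun c hc' => ?_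
      obtain ⟨r, hr1, hr2⟩ := EReal.lt_iff_exists_real_btwn.1 hc'
      refine hr1.trans_le ?_
      obtain ⟨q, hq, hqr⟩ := happ t ht r (EReal.coe_lt_coe_iff.1 hr2)
      obtain ⟨j0, hj0⟩ : ∃ j, e j = q := by
        have : q ∈ range e := he' ▸ hq
        exact this
      apply le_limsup_of_frequently_le _ (by isBoundedDefault)
      rw [frequently_atTop]
      intro N
      refine ⟨Nat.pair j0 N, Nat.right_le_pair _ _, ?_⟩
      rw [EReal.coe_le_coe_iff]
      simp only [Nat.unpair_pair]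
      rw [hj0]
      exact hqr

end HBOne
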