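import Pool.Agent.HBOne.OneExotic
import Pool.Agent.HBOne.OneExc
import Pool.Agent.HBOne.OneSupp
import Pool.Agent.HBOne.OneShift
import Pool.Agent.HBOne.OneStruct
import Pool.Agent.HBOne.OneMirror
import Pool.Agent.HBInd.OrderOne

/-!
# Sufficiency, order one

`ereal_seq`: for `x ≤ y` in `EReal` there are real sequences `A ≤ M` with limits `x`, `y`: `A j = x` (real), `-j` (`⊥`), `j` (`⊤`), the
same for `M`, then replace `A` by `min A M`.

`suff_right` (some `θ₀` with `0 < |θ₀| < π/2`, `k θ₀ ≠ ⊤`, not everything finite): `d` from `struct_right`. `β, σ`: if `k = ⊥` on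
`(-d, d)` (`dich`): `β j = -j`, `σ j = 0`; otherwise `one_supp` for `k.toReal` (`even_in`; `CondT` gives `hc`), in both cases
`limsup (β j cos t + σ j |sin t|) = k t` on `(-d, d)` and `limsup (β j cos d + σ j sin d) ≤ k d` (`lim_end`).
* `d < π/2`: `k d ≤ k (-d)` (`le`), `ereal_seq`, `one_exotic`; outside `[-π, π]` periodicity (`ind_add_int`).
* `d = π/2`: `A j ≥ 0` with limit `k (π/2) ≥ 0`, `one_real` for the sequence alternating between `(β j, σ j)` and
  `(-j (1 + A j), A j)`: for `|t| < π/2` the second ones tend to `-∞`, for `π/2 < |t| ≤ π` to `∞`, and at `± π/2`: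
  `max (limsup σ j) (limsup A j) = k (π/2)` (`lim_end`, `half`).
`suff_left`: mirror image. `suff_rest`: `k θ = ⊤` unless `sin 2θ = 0`. If `k (π/2) ≠ ⊤` (real `A ≥ 0`): then `k 0 = k π = ⊤`
(`condT_between`), `one_real` for `(± j, A)`. If `k (π/2) = ⊤`: `x = k 0`, `y = k π`: if `x = ⊤` or `y = ⊤` or `x + y ≥ 0` (real):
`one_real` for the alternating sequence `(A j, j² + j |A j| + ..)`, `(-B j, ..)` with `A j → x`, `B j → y`; otherwise
`one_exc` with `b = (A - B)/2`, `κ = -(A + B)/2`, real sequences `A → x`, `B → y` with `A + B ≤ -2 κ₀` (if `x = ⊥`,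
`A j = -j - |B j| - 2`...).
`suff_top` collects these. `suff_order_one`: if `h θ = ⊤` for some `θ`: `suff_top` for `k = h + c sin` (`condT_shift`, `condOne_shift`),
then `pre_exp`, `ind_exp`, `Pre.inClass`. Otherwise all values are real (`real_all` for `k`), `order_one_iff` for `h.toReal`
(`CondT` gives `TrigConvex 1`).
-/

namespace HBOne

open HBInd HBInf Complex Filter Topology Set MeasureTheory
open scoped Real ComplexConjugate

variable {k : ℝ → EReal}

/-- interleaving of two sequences -/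
def suf_alt {α : Type*} (u v : ℕ → α) (n : ℕ) : α := if n % 2 = 0 then u (n / 2) else v (n / 2)

lemma suf_alt_even {α : Type*} (u v : ℕ → α) (n : ℕ) : suf_alt u v (2 * n) = u n := by
  simp [suf_alt]

lemma suf_alt_odd {α : Type*} (u v : ℕ → α) (n : ℕ) : suf_alt u v (2 * n + 1) = v n := by
  have h1 : (2 * n + 1) % 2 = 1 := by omega
  have h2 : (2 * n + 1) / 2 = n := by omega
  simp [suf_alt, h1, h2]

lemma suf_alt_prop {α : Type*} {u v : ℕ → α} {p : α → Prop} (hu : ∀ n, p (u n))
    (hv : ∀ n, p (v n)) (n : ℕ) : p (suf_alt u v n) := by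
  unfold suf_alt
  split_ifs
  · exact hu _
  · exact hv _

lemma suf_limsup_sub (w : ℕ → EReal) {φ : ℕ → ℕ} (hφ : Tendsto φ atTop atTop) :
    limsup (fun n => w (φ n)) atTop ≤ limsup w atTop := by
  have h := limsup_le_limsup_of_le (u := w) (f := map φ atTop) (g := atTop) hφ
  exact h

lemma suf_limsup_alt (u v : ℕ → EReal) :
    limsup (suf_alt u v) atTop = max (limsup u atTop) (limsup v atTop) := by
  apply le_antisymm
  · refine le_of_forall_gt_imp_ge_of_dense fun b hb => ?_
    obtain ⟨h1, h2⟩ := max_lt_iff.1 hb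
    obtain ⟨N1, hN1⟩ := eventually_atTop.1 (eventually_lt_of_limsup_lt h1)
    obtain ⟨N2, hN2⟩ := eventually_atTop.1 (eventually_lt_of_limsup_lt h2)
    refine limsup_le_of_le (h := ?_)
    refine eventually_atTop.2 ⟨2 * (N1 + N2), fun n hn => ?_⟩
    unfold suf_alt
    split_ifs
    · exact (hN1 _ (by omega)).le
    · exact (hN2 _ (by omega)).le
  · refine max_le ?_ ?_
    · have h := suf_limsup_sub (suf_alt u v) (φ := fun n => 2 * n)
        (tendsto_atTop_mono (fun n => by simp only [id]; omega) tendsto_id)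
      simpa only [suf_alt_even] using h
    · have h := suf_limsup_sub (suf_alt u v) (φ := fun n => 2 * n + 1)
        (tendsto_atTop_mono (fun n => by simp only [id]; omega) tendsto_id)
      simpa only [suf_alt_odd] using h

lemma suf_bot {u : ℕ → ℝ} (h : Tendsto u atTop atBot) :
    limsup (fun j => ((u j : ℝ) : EReal)) atTop = ⊥ :=
  (EReal.tendsto_coe_nhds_bot_iff.2 h).limsup_eq

lemma suf_top {u : ℕ → ℝ} (h : Tendsto u atTop atTop) :
    limsup (fun j => ((u j : ℝ) : EReal)) atTop = ⊤ :=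
  (EReal.tendsto_coe_nhds_top_iff.2 h).limsup_eq

lemma suf_real {b s b' s' : ℕ → ℝ} (hs : ∀ j, 0 ≤ s j) (hs' : ∀ j, 0 ≤ s' j) :
    ∃ g : ℂ → ℂ, Pre 1 g ∧ ∀ θ, ind 1 g θ =
      max (limsup (fun j => ((b j * Real.cos θ + s j * |Real.sin θ| : ℝ) : EReal)) atTop)
        (limsup (fun j => ((b' j * Real.cos θ + s' j * |Real.sin θ| : ℝ) : EReal)) atTop) := by
  obtain ⟨g, hg, h⟩ := one_real (b := suf_alt b b') (s := suf_alt s s')
    (fun j => suf_alt_prop (p := fun x => 0 ≤ x) hs hs' j)
  refine ⟨g, hg, fun θ => ?_⟩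
  rw [h, ← suf_limsup_alt]
  congr 1
  ext n
  unfold suf_alt
  split_ifs <;> rfl

lemma suf_seq1 (x : EReal) :
    ∃ A : ℕ → ℝ, Tendsto (fun j => ((A j : ℝ) : EReal)) atTop (𝓝 x) := by
  induction x with
  | bot =>
    exact ⟨fun j => -(j : ℝ), EReal.tendsto_coe_nhds_bot_iff.2
      (tendsto_neg_atTop_atBot.comp tendsto_natCast_atTop_atTop)⟩
  | coe x => exact ⟨fun _ => x, tendsto_const_nhds⟩
  | top => exact ⟨fun j => (j : ℝ), EReal.tendsto_coe_nhds_top_iff.2 tendsto_natCast_atTop_atTop⟩

lemma suf_coe_min (a b : ℝ) : ((min a b : ℝ) : EReal) = min (a : EReal) (b : EReal) :=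
  EReal.coe_strictMono.monotone.map_min

lemma suf_coe_max (a b : ℝ) : ((max a b : ℝ) : EReal) = max (a : EReal) (b : EReal) :=
  EReal.coe_strictMono.monotone.map_max

lemma suf_seq2 {x y : EReal} (hxy : x ≤ y) :
    ∃ A M : ℕ → ℝ, (∀ j, A j ≤ M j) ∧ Tendsto (fun j => ((A j : ℝ) : EReal)) atTop (𝓝 x) ∧
      Tendsto (fun j => ((M j : ℝ) : EReal)) atTop (𝓝 y) := by
  obtain ⟨A, hA⟩ := suf_seq1 x
  obtain ⟨M, hM⟩ := suf_seq1 y
  refine ⟨fun j => min (A j) (M j), M, fun j => min_le_right _ _, ?_, hM⟩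
  have h := hA.min hM
  rw [min_eq_left hxy] at h
  simpa only [suf_coe_min] using h

lemma suf_seq_le {x : EReal} {c : ℝ} (hx : x ≤ c) :
    ∃ A : ℕ → ℝ, (∀ j, A j ≤ c) ∧ Tendsto (fun j => ((A j : ℝ) : EReal)) atTop (𝓝 x) := by
  obtain ⟨A, hA⟩ := suf_seq1 x
  refine ⟨fun j => min (A j) c, fun j => min_le_right _ _, ?_⟩
  have h := hA.min (tendsto_const_nhds (x := (c : EReal)))
  rw [min_eq_left hx] at h
  simpa only [suf_coe_min] using h

lemma suf_seq_ge {x : EReal} {c : ℝ} (hx : (c : EReal) ≤ x) :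
    ∃ A : ℕ → ℝ, (∀ j, c ≤ A j) ∧ Tendsto (fun j => ((A j : ℝ) : EReal)) atTop (𝓝 x) := by
  obtain ⟨A, hA⟩ := suf_seq1 x
  refine ⟨fun j => max (A j) c, fun j => le_max_right _ _, ?_⟩
  have h := hA.max (tendsto_const_nhds (x := (c : EReal)))
  rw [max_eq_left hx] at h
  simpa only [suf_coe_max] using h

lemma suf_all {f : ℂ → ℂ} (hper : ∀ θ, k (θ + 2 * π) = k θ)
    (h : ∀ θ, |θ| ≤ π → ind 1 f θ = k θ) (θ : ℝ) : ind 1 f θ = k θ := by
  have hpi := Real.pi_pos
  obtain ⟨n, hn, -⟩ := existsUnique_add_zsmul_mem_Ioc (a := 2 * π) (by positivity) θ (-π)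
  rw [zsmul_eq_mul] at hn
  have hp : Function.Periodic k (2 * π) := hper
  rw [← ind_add_int 1 f θ n, h _ (abs_le.2 ⟨hn.1.le, by linarith [hn.2]⟩)]
  exact hp.int_mul n θ

lemma suf_half (H : CondOne 0 k) : k (-(π / 2)) = k (π / 2) := by
  have h := H.half
  rw [mul_zero, EReal.coe_zero, add_zero] at h
  exact h.symm

lemma suf_half_nonneg (H : CondOne 0 k) : 0 ≤ k (π / 2) := by
  have h := H.ge
  rwa [suf_half H, EReal.coe_zero] at h

lemma suf_le (H : CondOne 0 k) {θ : ℝ} (hθ : θ ∈ Ioo 0 π) : k θ ≤ k (-θ) := by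
  have h := H.le θ hθ
  rwa [mul_zero, zero_mul, EReal.coe_zero, add_zero] at h

lemma suf_bs (hT : CondT 1 k) (H : CondOne 0 k) {d : ℝ} (hd : 0 < d) (hd2 : d ≤ π / 2)
    (h : ∀ t, |t| < d → k t ≠ ⊤) :
    ∃ β σ : ℕ → ℝ, (∀ j, 0 ≤ σ j) ∧
      (∀ t, |t| < d → limsup (fun j => ((β j * Real.cos t + σ j * |Real.sin t| : ℝ) : EReal))
        atTop = k t) ∧
      limsup (fun j => ((β j * Real.cos d + σ j * Real.sin d : ℝ) : EReal)) atTop ≤ k d := by
  have hbl : ∀ c : ℝ, 0 < c → Tendsto (fun j : ℕ => -(j : ℝ) * c + 0) atTop atBot := by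
    intro c hc
    have h1 : Tendsto (fun j : ℕ => (j : ℝ) * c) atTop atTop :=
      tendsto_natCast_atTop_atTop.atTop_mul_const hc
    refine (tendsto_neg_atTop_atBot.comp h1).congr fun j => ?_
    simp only [Function.comp_apply]
    ring
  rcases dich hT hd hd2 h with hbot | hreal
  · refine ⟨fun j => -(j : ℝ), fun _ => 0, fun _ => le_rfl, fun t ht => ?_, ?_⟩
    · have hc : 0 < Real.cos t := Real.cos_pos_of_mem_Ioo
        ⟨by linarith [(abs_lt.1 ht).1], by linarith [(abs_lt.1 ht).2]⟩
      rw [hbot t ht]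
      simp only [zero_mul]
      exact suf_bot (hbl _ hc)
    · rcases eq_or_lt_of_le hd2 with e | hlt
      · rw [e, Real.cos_pi_div_two]
        simp only [mul_zero, zero_mul, add_zero, EReal.coe_zero]
        rw [limsup_const]
        exact suf_half_nonneg H
      · have hc : 0 < Real.cos d := Real.cos_pos_of_mem_Ioo ⟨by linarith, by linarith⟩
        simp only [zero_mul]
        rw [suf_bot (hbl _ hc)]
        exact bot_le
  · have hk : ∀ t, |t| < d → ((k t).toReal : EReal) = k t := fun t ht =>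
      EReal.coe_toReal (h t ht) (hreal t ht)
    obtain ⟨β, σ, h1, h2, h3⟩ := one_supp hd hd2 (k := fun t => (k t).toReal)
      (by
        intro a t b ha hat htb hb
        have hsin : 0 < Real.sin (b - a) := Real.sin_pos_of_pos_of_lt_pi (by linarith) (by linarith)
        have ha' : |a| < d := abs_lt.2 ⟨ha, by linarith⟩
        have ht' : |t| < d := abs_lt.2 ⟨by linarith, by linarith⟩
        have hb' : |b| < d := abs_lt.2 ⟨by linarith, hb⟩
        have h4 := hT a t b (k a).toReal (k b).toReal hat htb (by rw [div_one]; linarith)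
          (hk a ha').ge (hk b hb').ge
        rw [← hk t ht', EReal.coe_le_coe_iff, one_mul, one_mul, one_mul, le_div_iff₀ hsin] at h4
        exact h4)
      (by
        intro t ht
        have ht' : |t| < d := abs_lt.2 ht
        rw [even_in H hd2 h ht'])
    refine ⟨β, σ, h1, fun t ht => ?_, ?_⟩
    · rw [h3 t (abs_lt.1 ht)]
      exact hk t ht
    · refine limsup_le_of_le (h := Eventually.of_forall fun j => ?_)
      refine lim_end hT hd hd2 (h 0 (by rwa [abs_zero])) fun t ht => ?_
      rw [← hk t ht]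
      exact_mod_cast h2 j t (abs_lt.1 ht)

theorem suff_right (hper : ∀ θ, k (θ + 2 * π) = k θ) (hT : CondT 1 k) (H : CondOne 0 k)
    {θ₀ : ℝ} (h0 : θ₀ ≠ 0) (h1 : |θ₀| < π / 2) (h2 : k θ₀ ≠ ⊤) (h3 : ∃ θ, k θ = ⊤) :
    ∃ g : ℂ → ℂ, Pre 1 g ∧ ∀ θ, ind 1 g θ = k θ := by
  have hpi := Real.pi_pos
  obtain ⟨d, hd, hd2, hfin, htop⟩ := struct_right hper hT H h0 h1 h2 h3
  obtain ⟨β, σ, hσ, hin, hend⟩ := suf_bs hT H hd hd2 hfin
  rcases lt_or_eq_of_le hd2 with hlt | rfl
  · obtain ⟨A, M, hAM, hA, hM⟩ := suf_seq2 (suf_le H (θ := d) ⟨hd, by linarith⟩)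
    obtain ⟨f, hf, f1, f2, f3, f4⟩ := one_exotic ⟨hd, hlt⟩ (β := β) hσ hAM
    refine ⟨f, hf, suf_all hper fun θ hθ => ?_⟩
    rcases lt_trichotomy |θ| d with hl | he | hg
    · rw [f1 θ hl, hin θ hl]
    · rcases le_total 0 θ with hs | hs
      · rw [abs_of_nonneg hs] at he
        rw [he, f2, hA.limsup_eq, max_eq_right hend]
      · rw [abs_of_nonpos hs] at he
        rw [show θ = -d by linarith, f3, hM.limsup_eq,
          max_eq_right (hend.trans (suf_le H ⟨hd, by linarith⟩))]
    · rw [f4 θ hg hθ, htop θ hg hθ]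
  · obtain ⟨A, hA0, hA⟩ := suf_seq_ge (x := k (π / 2)) (c := 0) (by
      rw [EReal.coe_zero]; exact suf_half_nonneg H)
    obtain ⟨f, hf, f1⟩ := suf_real (b := β) (s := σ) (b' := fun j => -((j : ℝ) * (1 + A j)))
      (s' := A) hσ hA0
    have hhalf : ind 1 f (π / 2) = k (π / 2) := by
      have e := f1 (π / 2)
      rw [Real.cos_pi_div_two, Real.sin_pi_div_two, abs_one] at e
      simp only [mul_zero, mul_one, zero_add] at e
      rw [Real.cos_pi_div_two, Real.sin_pi_div_two] at hend
      simp only [mul_zero, mul_one, zero_add] at hend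
      rw [e, hA.limsup_eq, max_eq_right hend]
    have hhalf' : ind 1 f (-(π / 2)) = k (-(π / 2)) := by
      have e := f1 (-(π / 2))
      rw [Real.cos_neg, Real.sin_neg, abs_neg, ← f1 (π / 2)] at e
      rw [e, hhalf, suf_half H]
    refine ⟨f, hf, suf_all hper fun θ hθ => ?_⟩
    rcases lt_trichotomy |θ| (π / 2) with hl | he | hg
    · have hc : 0 < Real.cos θ := Real.cos_pos_of_mem_Ioo (abs_lt.1 hl)
      have h5 : Tendsto (fun j : ℕ => -((j : ℝ) * (1 + A j)) * Real.cos θ + A j * |Real.sin θ|)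
          atTop atBot := by
        have h6 : Tendsto (fun j : ℕ => -((j : ℝ) * Real.cos θ)) atTop atBot :=
          tendsto_neg_atTop_atBot.comp (tendsto_natCast_atTop_atTop.atTop_mul_const hc)
        have h7 : Tendsto (fun j : ℕ => ((j : ℝ) * Real.cos θ)) atTop atTop :=
          tendsto_natCast_atTop_atTop.atTop_mul_const hc
        refine tendsto_atBot_mono' atTop ?_ h6
        filter_upwards [h7.eventually_ge_atTop 1] with j hj
        have h8 : |Real.sin θ| ≤ 1 := Real.abs_sin_le_one θ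
        have h9 : 0 ≤ A j * ((j : ℝ) * Real.cos θ - |Real.sin θ|) :=
          mul_nonneg (hA0 j) (by linarith)
        nlinarith
      rw [f1 θ, hin θ hl, suf_bot h5, max_eq_left bot_le]
    · rcases le_total 0 θ with hs | hs
      · rw [abs_of_nonneg hs] at he
        rw [he, hhalf]
      · rw [abs_of_nonpos hs] at he
        rw [show θ = -(π / 2) by linarith, hhalf']
    · have hc : Real.cos θ < 0 := by
        rw [← Real.cos_abs]
        exact Real.cos_neg_of_pi_div_two_lt_of_lt hg (by linarith)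
      have h5 : Tendsto (fun j : ℕ => -((j : ℝ) * (1 + A j)) * Real.cos θ + A j * |Real.sin θ|)
          atTop atTop := by
        have h6 : Tendsto (fun j : ℕ => (j : ℝ) * (-Real.cos θ)) atTop atTop :=
          tendsto_natCast_atTop_atTop.atTop_mul_const (by linarith)
        refine tendsto_atTop_mono (fun j => ?_) h6
        have h7 : 0 ≤ A j * |Real.sin θ| := mul_nonneg (hA0 j) (abs_nonneg _)
        have h8 : 0 ≤ (j : ℝ) * A j * (-Real.cos θ) :=
          mul_nonneg (mul_nonneg (Nat.cast_nonneg _) (hA0 j)) (by linarith)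
        nlinarith
      rw [f1 θ, suf_top h5, max_eq_right le_top, htop θ hg hθ]

/-- the four points -/
lemma suf_pts {θ : ℝ} (hθ : |θ| ≤ π) :
    Real.sin (2 * θ) ≠ 0 ∨ θ = 0 ∨ θ = π / 2 ∨ θ = -(π / 2) ∨ θ = π ∨ θ = -π := by
  have hpi := Real.pi_pos
  by_cases h : Real.sin (2 * θ) = 0
  · right
    obtain ⟨n, hn⟩ := Real.sin_eq_zero_iff.1 h
    obtain ⟨h1, h2⟩ := abs_le.1 hθ
    have h3 : (n : ℝ) ≤ 2 := by
      by_contra hc
      have : 2 * π < n * π := by nlinarith
      linarith
    have h4 : (-2 : ℝ) ≤ n := by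
      by_contra hc
      have : n * π < (-2) * π := by nlinarith
      linarith
    have h3' : n ≤ 2 := by exact_mod_cast h3
    have h4' : -2 ≤ n := by exact_mod_cast h4
    have h5 : n = -2 ∨ n = -1 ∨ n = 0 ∨ n = 1 ∨ n = 2 := by omega
    rcases h5 with rfl | rfl | rfl | rfl | rfl
    · right; right; right; right
      push_cast at hn
      linarith
    · right; right; left
      push_cast at hn
      linarith
    · left
      push_cast at hn
      linarith
    · right; left
      push_cast at hn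
      linarith
    · right; right; right; left
      push_cast at hn
      linarith
  · exact Or.inl h

lemma suf_neg_pi (hper : ∀ θ, k (θ + 2 * π) = k θ) : k (-π) = k π := by
  have h := hper (-π)
  rw [show -π + 2 * π = π by ring] at h
  exact h.symm

lemma suf_ind_neg_pi (f : ℂ → ℂ) : ind 1 f (-π) = ind 1 f π := by
  have h := ind_add_two_pi 1 f (-π)
  rw [show -π + 2 * π = π by ring] at h
  exact h.symm

/-- the value `⊤` for the sequences with a large coefficient of `|sin θ|` -/
lemma suf_big {A : ℕ → ℝ} {θ : ℝ} (hθ : Real.sin θ ≠ 0) :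
    Tendsto (fun j : ℕ => A j * Real.cos θ + (j : ℝ) * (1 + |A j|) * |Real.sin θ|)
      atTop atTop := by
  have hs : 0 < |Real.sin θ| := abs_pos.2 hθ
  have h6 : Tendsto (fun j : ℕ => (j : ℝ) * |Real.sin θ|) atTop atTop :=
    tendsto_natCast_atTop_atTop.atTop_mul_const hs
  refine tendsto_atTop_mono' atTop ?_ h6
  filter_upwards [h6.eventually_ge_atTop 1] with j hj
  have h7 : -|A j| ≤ A j * Real.cos θ := by
    have h8 : |A j * Real.cos θ| ≤ |A j| := by
      rw [abs_mul]
      exact mul_le_of_le_one_right (abs_nonneg _) (Real.abs_cos_le_one θ)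
    linarith [neg_abs_le (A j * Real.cos θ)]
  have h9 : 0 ≤ |A j| * ((j : ℝ) * |Real.sin θ| - 1) := mul_nonneg (abs_nonneg _) (by linarith)
  nlinarith

theorem suff_rest (hper : ∀ θ, k (θ + 2 * π) = k θ) (hT : CondT 1 k) (H : CondOne 0 k)
    (h : ∀ θ, Real.sin (2 * θ) ≠ 0 → k θ = ⊤) :
    ∃ g : ℂ → ℂ, Pre 1 g ∧ ∀ θ, ind 1 g θ = k θ := by
  have hpi := Real.pi_pos
  by_cases hh : k (π / 2) = ⊤
  · by_cases hxy : -(k π) ≤ k 0
    · obtain ⟨A, hA⟩ := suf_seq1 (k 0)
      obtain ⟨B, hB⟩ := suf_seq1 (k π)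
      have hB' : Tendsto (fun j => ((-B j : ℝ) : EReal)) atTop (𝓝 (-(k π))) := by
        have h1 := hB.neg
        simpa only [EReal.coe_neg] using h1
      have hA' : Tendsto (fun j => ((-A j : ℝ) : EReal)) atTop (𝓝 (-(k 0))) := by
        have h1 := hA.neg
        simpa only [EReal.coe_neg] using h1
      obtain ⟨f, hf, f1⟩ := suf_real (b := A) (s := fun j => (j : ℝ) * (1 + |A j|))
        (b' := fun j => -B j) (s' := fun j => (j : ℝ) * (1 + |B j|))
        (fun j => by positivity) (fun j => by positivity)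
      have hsin : ∀ θ, Real.sin θ ≠ 0 → ind 1 f θ = ⊤ := by
        intro θ hθ
        rw [f1 θ, suf_top (suf_big hθ), max_eq_left le_top]
      have hzero : ind 1 f 0 = k 0 := by
        have e := f1 0
        rw [Real.cos_zero, Real.sin_zero, abs_zero] at e
        simp only [mul_zero, mul_one, add_zero] at e
        rw [e, hA.limsup_eq, hB'.limsup_eq, max_eq_left hxy]
      have hpi' : ind 1 f π = k π := by
        have e := f1 π
        rw [Real.cos_pi, Real.sin_pi, abs_zero] at e
        simp only [mul_zero, mul_neg, mul_one, neg_neg, add_zero] at e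
        rw [e, hA'.limsup_eq, hB.limsup_eq, max_eq_right]
        exact EReal.neg_le.1 hxy
      refine ⟨f, hf, suf_all hper fun θ hθ => ?_⟩
      rcases suf_pts hθ with h1 | rfl | rfl | rfl | rfl | rfl
      · rw [h θ h1, hsin θ]
        intro h2
        apply h1
        rw [Real.sin_two_mul, h2]
        ring
      · exact hzero
      · rw [hh, hsin]
        rw [Real.sin_pi_div_two]
        exact one_ne_zero
      · rw [suf_half H, hh, hsin]
        rw [Real.sin_neg, Real.sin_pi_div_two]
        norm_num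
      · exact hpi'
      · rw [suf_ind_neg_pi, suf_neg_pi hper, hpi']
    · rw [not_le] at hxy
      obtain ⟨c1, hc1, hc1'⟩ := EReal.exists_between_coe_real hxy
      obtain ⟨c2, hc2, hc2'⟩ := EReal.exists_between_coe_real hc1'
      have hc12 : c1 < c2 := by exact_mod_cast hc2
      obtain ⟨A, hA1, hA⟩ := suf_seq_le (x := k 0) (c := c1) hc1.le
      obtain ⟨B, hB1, hB⟩ := suf_seq_le (x := k π) (c := -c2) (by
        rw [EReal.coe_neg]
        exact EReal.le_neg.1 hc2'.le)
      obtain ⟨f, hf, f1, f2, f3⟩ := one_exc (b := fun j => (A j - B j) / 2)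
        (κ := fun j => -(A j + B j) / 2) (κ₀ := (c2 - c1) / 2) (by linarith)
        (fun j => by linarith [hA1 j, hB1 j])
      have hzero : ind 1 f 0 = k 0 := by
        rw [f2, ← hA.limsup_eq]
        congr 1
        ext j
        congr 1
        ring
      have hpi' : ind 1 f π = k π := by
        rw [f3, ← hB.limsup_eq]
        congr 1
        ext j
        congr 1
        ring
      refine ⟨f, hf, suf_all hper fun θ hθ => ?_⟩
      rcases suf_pts hθ with h1 | rfl | rfl | rfl | rfl | rfl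
      · rw [h θ h1, f1 θ]
        intro h2
        apply h1
        rw [Real.sin_two_mul, h2]
        ring
      · exact hzero
      · rw [hh, f1]
        rw [Real.sin_pi_div_two]
        exact one_ne_zero
      · rw [suf_half H, hh, f1]
        rw [Real.sin_neg, Real.sin_pi_div_two]
        norm_num
      · exact hpi'
      · rw [suf_ind_neg_pi, suf_neg_pi hper, hpi']
  · have hlt : k (π / 2) ≠ ⊥ := by
      intro e
      have := suf_half_nonneg H
      rw [e] at this
      exact absurd this (by simp)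
    have hAc : (((k (π / 2)).toReal : ℝ) : EReal) = k (π / 2) := EReal.coe_toReal hh hlt
    have hA0 : 0 ≤ (k (π / 2)).toReal := EReal.toReal_nonneg (suf_half_nonneg H)
    set A : ℝ := (k (π / 2)).toReal with hAdef
    have hk0 : k 0 = ⊤ := by
      by_contra hc
      refine condT_between hT (a := 0) (t := π / 4) (b := π / 2) (by linarith) (by linarith)
        (by rw [div_one]; linarith) hc hh (h _ ?_)
      rw [show 2 * (π / 4) = π / 2 by ring, Real.sin_pi_div_two]
      exact one_ne_zero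
    have hkpi : k π = ⊤ := by
      by_contra hc
      refine condT_between hT (a := π / 2) (t := 3 * π / 4) (b := π) (by linarith) (by linarith)
        (by rw [div_one]; linarith) hh hc (h _ ?_)
      rw [show 2 * (3 * π / 4) = π / 2 + π by ring, Real.sin_add_pi, Real.sin_pi_div_two]
      norm_num
    obtain ⟨f, hf, f1⟩ := suf_real (b := fun j => (j : ℝ)) (s := fun _ => A)
      (b' := fun j => -(j : ℝ)) (s' := fun _ => A) (fun _ => hA0) (fun _ => hA0)
    have hcos : ∀ θ, Real.cos θ ≠ 0 → ind 1 f θ = ⊤ := by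
      intro θ hθ
      rcases lt_or_gt_of_ne hθ with hneg | hpos
      · have h5 : Tendsto (fun j : ℕ => -(j : ℝ) * Real.cos θ + A * |Real.sin θ|) atTop atTop := by
          have h6 : Tendsto (fun j : ℕ => (j : ℝ) * (-Real.cos θ)) atTop atTop :=
            tendsto_natCast_atTop_atTop.atTop_mul_const (by linarith)
          refine tendsto_atTop_mono (fun j => ?_) h6
          have h7 : 0 ≤ A * |Real.sin θ| := mul_nonneg hA0 (abs_nonneg _)
          nlinarith
        rw [f1 θ, suf_top h5, max_eq_right le_top]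
      · have h5 : Tendsto (fun j : ℕ => (j : ℝ) * Real.cos θ + A * |Real.sin θ|) atTop atTop := by
          have h6 : Tendsto (fun j : ℕ => (j : ℝ) * (Real.cos θ)) atTop atTop :=
            tendsto_natCast_atTop_atTop.atTop_mul_const hpos
          refine tendsto_atTop_mono (fun j => ?_) h6
          have h7 : 0 ≤ A * |Real.sin θ| := mul_nonneg hA0 (abs_nonneg _)
          linarith
        rw [f1 θ, suf_top h5, max_eq_left le_top]
    have hhalf : ind 1 f (π / 2) = k (π / 2) := by
      have e := f1 (π / 2)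
      rw [Real.cos_pi_div_two, Real.sin_pi_div_two, abs_one] at e
      simp only [mul_zero, mul_one, zero_add, limsup_const, max_self] at e
      rw [e, hAc]
    have hhalf' : ind 1 f (-(π / 2)) = k (-(π / 2)) := by
      have e := f1 (-(π / 2))
      rw [Real.cos_neg, Real.sin_neg, abs_neg, ← f1 (π / 2)] at e
      rw [e, hhalf, suf_half H]
    refine ⟨f, hf, suf_all hper fun θ hθ => ?_⟩
    rcases suf_pts hθ with h1 | rfl | rfl | rfl | rfl | rfl
    · rw [h θ h1, hcos θ]
      intro h2
      apply h1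
      rw [Real.sin_two_mul, h2]
      ring
    · rw [hk0, hcos]
      rw [Real.cos_zero]
      exact one_ne_zero
    · exact hhalf
    · exact hhalf'
    · rw [hkpi, hcos]
      rw [Real.cos_pi]
      norm_num
    · rw [suf_neg_pi hper, hkpi, hcos]
      rw [Real.cos_neg, Real.cos_pi]
      norm_num

theorem suff_top (hper : ∀ θ, k (θ + 2 * π) = k θ) (hT : CondT 1 k) (H : CondOne 0 k)
    (h3 : ∃ θ, k θ = ⊤) : ∃ g : ℂ → ℂ, Pre 1 g ∧ ∀ θ, ind 1 g θ = k θ := by
  have hpi := Real.pi_pos
  by_cases hr : ∀ θ, Real.sin (2 * θ) ≠ 0 → k θ = ⊤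
  · exact suff_rest hper hT H hr
  · push Not at hr
    obtain ⟨θ₁, hs1, hk1⟩ := hr
    obtain ⟨n, hn, -⟩ := existsUnique_add_zsmul_mem_Ioc (a := 2 * π) (by positivity) θ₁ (-π)
    rw [zsmul_eq_mul] at hn
    have hp : Function.Periodic k (2 * π) := hper
    have hk2 : k (θ₁ + n * (2 * π)) ≠ ⊤ := by
      rw [hp.int_mul n θ₁]
      exact hk1
    have hs2 : Real.sin (2 * (θ₁ + n * (2 * π))) ≠ 0 := by
      rw [show 2 * (θ₁ + n * (2 * π)) = 2 * θ₁ + ((2 * n : ℤ) : ℝ) * (2 * π) by push_cast; ring,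
        Real.sin_add_int_mul_two_pi]
      exact hs1
    set θ₂ : ℝ := θ₁ + n * (2 * π) with hθ₂
    have hn1 : -π < θ₂ := hn.1
    have hn2 : θ₂ ≤ π := by linarith [hn.2]
    have hne0 : θ₂ ≠ 0 := by
      intro e
      rw [e, mul_zero, Real.sin_zero] at hs2
      exact hs2 rfl
    have hnepi : θ₂ ≠ π := by
      intro e
      rw [e, Real.sin_two_pi] at hs2
      exact hs2 rfl
    have hnehalf : |θ₂| ≠ π / 2 := by
      intro e
      rcases le_total 0 θ₂ with hs | hs
      · rw [abs_of_nonneg hs] at e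
        rw [e, show 2 * (π / 2) = π by ring, Real.sin_pi] at hs2
        exact hs2 rfl
      · rw [abs_of_nonpos hs] at e
        rw [show θ₂ = -(π / 2) by linarith, show 2 * -(π / 2) = -π by ring, Real.sin_neg,
          Real.sin_pi, neg_zero] at hs2
        exact hs2 rfl
    rcases lt_or_gt_of_ne hnehalf with hlt | hgt
    · exact suff_right hper hT H hne0 hlt hk2 h3
    · have hper' : ∀ θ, (fun θ => k (π - θ)) (θ + 2 * π) = (fun θ => k (π - θ)) θ := by
        intro θ
        simp only
        rw [← hper (π - (θ + 2 * π))]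
        congr 1
        ring
      have h3' : ∃ θ, (fun θ => k (π - θ)) θ = ⊤ := by
        obtain ⟨θ, hθ⟩ := h3
        refine ⟨π - θ, ?_⟩
        simp only
        rw [show π - (π - θ) = θ by ring]
        exact hθ
      have key : ∃ θ₃ : ℝ, θ₃ ≠ 0 ∧ |θ₃| < π / 2 ∧ (fun θ => k (π - θ)) θ₃ ≠ ⊤ := by
        rcases le_total 0 θ₂ with hs | hs
        · rw [abs_of_nonneg hs] at hgt
          refine ⟨π - θ₂, ?_, ?_, ?_⟩
          · intro e
            exact hnepi (by linarith)
          · rw [abs_lt]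
            exact ⟨by linarith, by linarith⟩
          · simp only
            rw [show π - (π - θ₂) = θ₂ by ring]
            exact hk2
        · rw [abs_of_nonpos hs] at hgt
          refine ⟨-π - θ₂, ?_, ?_, ?_⟩
          · intro e
            linarith
          · rw [abs_lt]
            exact ⟨by linarith, by linarith⟩
          · simp only
            rw [show π - (-π - θ₂) = θ₂ + 2 * π by ring, hper]
            exact hk2
      obtain ⟨θ₃, h31, h32, h33⟩ := key
      obtain ⟨g, hg, hg2⟩ := suff_right hper' (condT_mir hT) (condOne_mir hper H) h31 h32 h33 h3'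
      refine ⟨mir g, pre_mir hg, fun θ => ?_⟩
      rw [ind_mir, hg2]
      rw [show π - (π - θ) = θ by ring]

lemma suf_cancel (x : EReal) (c : ℝ) : x + (c : EReal) - (c : EReal) = x := by
  induction x with
  | bot => simp
  | coe x =>
    rw [← EReal.coe_add, ← EReal.coe_sub]
    congr 1
    ring
  | top => simp

theorem suff_order_one {h : ℝ → EReal} (hper : ∀ θ, h (θ + 2 * π) = h θ) (hT : CondT 1 h)
    {c : ℝ} (hc : 0 ≤ c) (H : CondOne c h) :
    ∃ f : ℂ → ℂ, InClass 1 f ∧ ∀ θ, ind 1 f θ = h θ := by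
  have hpi := Real.pi_pos
  have hper' : ∀ θ, (fun θ => h θ + ((c * Real.sin θ : ℝ) : EReal)) (θ + 2 * π) =
      (fun θ => h θ + ((c * Real.sin θ : ℝ) : EReal)) θ := by
    intro θ
    simp only
    rw [hper, Real.sin_add_two_pi]
  by_cases ht : ∃ θ, h θ = ⊤
  · obtain ⟨g, hg, hg2⟩ := suff_top hper' (condT_shift hT c) (condOne_shift H) (by
      obtain ⟨θ, hθ⟩ := ht
      refine ⟨θ, ?_⟩
      rw [hθ, EReal.top_add_coe])
    have hval : ∀ θ, ind 1 (fun z => g z * Complex.exp (I * c * z)) θ = h θ := by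
      intro θ
      rw [ind_exp, hg2]
      exact suf_cancel _ _
    refine ⟨fun z => g z * Complex.exp (I * c * z), ?_, hval⟩
    obtain ⟨θ, hθ⟩ := ht
    refine (pre_exp hg hc).inClass one_pos (θ := θ) ?_
    rw [hval θ, hθ]
    exact EReal.zero_lt_top
  · push Not at ht
    have hkt : ∀ θ, (fun θ => h θ + ((c * Real.sin θ : ℝ) : EReal)) θ ≠ ⊤ := by
      intro θ e
      simp only at e
      exact (EReal.add_ne_top_iff_ne_top_left (EReal.coe_ne_bot _) (EReal.coe_ne_top _)).2
        (ht θ) e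
    have hkb : ∀ θ, h θ ≠ ⊥ := by
      intro θ e
      have := real_all hper' (condT_shift hT c) (condOne_shift H) hkt θ
      rw [e, EReal.bot_add] at this
      exact this rfl
    have hk : ∀ θ, (((h θ).toReal : ℝ) : EReal) = h θ := fun θ => EReal.coe_toReal (ht θ) (hkb θ)
    obtain ⟨f, hf, hf2⟩ := (order_one_iff (fun θ => (h θ).toReal)).2 ⟨fun θ => by
        rw [hper], by
        intro a t b hat htb hl
        have hsin : 0 < Real.sin (1 * (b - a)) := by
          rw [one_mul]
          rw [div_one] at hl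
          exact Real.sin_pos_of_pos_of_lt_pi (by linarith) hl
        have h4 := hT a t b (h a).toReal (h b).toReal hat htb hl (hk a).ge (hk b).ge
        rw [← hk t, EReal.coe_le_coe_iff, le_div_iff₀ hsin] at h4
        exact h4, c, hc, fun θ hθ => by
        have h5 := H.eq θ hθ (by
          have : {t | h t ≠ ⊤} = univ := by
            ext t
            simp [ht t]
          rw [this]
          exact univ_mem)
        rw [← hk θ, ← hk (-θ)] at h5
        have h6 : (h θ).toReal + 2 * c * Real.sin θ = (h (-θ)).toReal := by exact_mod_cast h5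
        exact h6.symm⟩
    exact ⟨f, hf, fun θ => by rw [hf2, hk]⟩

end HBOne
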