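import Pool.Agent.HBOne.OneNec
import Pool.Agent.HBOne.OneSuff

/-!
# The set of indicators of order one
-/

namespace HBOne

open HBInd HBInf Complex Filter Topology Set MeasureTheory
open scoped Real ComplexConjugate

theorem inf_iff_order_one (h : ℝ → EReal) :
    (∃ f : ℂ → ℂ, InClass 1 f ∧ ∀ θ, ind 1 f θ = h θ) ↔
      (∀ θ, h (θ + 2 * π) = h θ) ∧ CondT 1 h ∧ ∃ c : ℝ, 0 ≤ c ∧ CondOne c h := by
  constructor
  · rintro ⟨f, hf, hh⟩
    obtain rfl : h = ind 1 f := funext fun θ => (hh θ).symm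
    exact ⟨ind_add_two_pi 1 f, nec_order_one hf⟩
  · rintro ⟨hper, hT, c, hc, H⟩
    exact suff_order_one hper hT hc H

end HBOne
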