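import Pool.Agent.HBInd.ProdP

/-!
# Products with few zeros on one ray

Zeros `exp (T j + i d)` with multiplicity `m j`, `∑ m j e^{-T j} < ∞`. `exists_entire` (`HBInd.Prod`) with the index type
`Σ j, Fin (m j)` and `c = exp (-T j - i d)` (`Im c ≤ 0`). `Pre 1`: `‖E z‖ ≤ exp (∑ m j log (1 + e^{-T j} ‖z‖)) ≤ exp (C ‖z‖)`. Let
`w_j = e^{t - T j + i(θ - d)}`. All sums over `j` below are `o(e^t)` by dominated convergence: the terms divided by `e^t` are
`≤ C m j e^{-T j}` and tend to `0` as `t → ∞` for fixed `j`.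
* upper bound: `log (1 + |w_j|) ≤ |w_j|`, and `e^{-t} log (1 + e^{t - T j}) → 0`.
* lower bound, `θ - d ∉ 2πℤ`: `|1 - w| ≥ c_θ > 0` and `log |1 - w| ≥ -2 |w|` for `|w| ≤ 1/2`: `log |1 - w_j| ≥ - C_θ min 1 e^{t - T j}`.
* lower bound on the ray `d` if `|t - T j| ≥ 1/4` for all `j`: `|1 - w_j| = |1 - e^{t - T j}| ≥ 1 - e^{-1/4}`, the same.
* upper bound on the ray `d` near `T j`: the factor `j` is `|1 - e^{t - T j}|^{m j} ≤ (2 |t - T j|)^{m j}` (`|1 - e^u| ≤ 2|u|` for
  `|u| ≤ 1`), the other factors are `≤ exp (ε e^t)` (if `t = T j`, `m j > 0`: the function vanishes, by continuity).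
-/

namespace HBOne

open HBInd Complex Filter Topology Set Bornology
open scoped Real ComplexConjugate

private lemma kp_ray_mul (r₁ r₂ θ₁ θ₂ : ℝ) : ray r₁ θ₁ * ray r₂ θ₂ = ray (r₁ * r₂) (θ₁ + θ₂) := by
  rw [ray, ray, ray]
  push_cast
  rw [add_mul, Complex.exp_add]
  ring

private lemma kp_const {c : ℝ} (hc : 0 < c) : ∃ K : ℝ, 0 < K ∧ ∀ w : ℂ, c ≤ ‖1 - w‖ →
    -(K * Real.log (1 + ‖w‖)) ≤ Real.log ‖1 - w‖ := by
  have hl : 0 < Real.log (3 / 2) := Real.log_pos (by norm_num)
  refine ⟨2 + |Real.log c| / Real.log (3 / 2), by positivity, ?_⟩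
  intro w hw
  have hr : 0 ≤ ‖w‖ := norm_nonneg w
  have hlr : 0 ≤ Real.log (1 + ‖w‖) := Real.log_nonneg (by linarith)
  have hq : 0 ≤ |Real.log c| / Real.log (3 / 2) := by positivity
  rcases le_total ‖w‖ (1 / 2) with h | h
  · have h1 : 1 - ‖w‖ ≤ ‖1 - w‖ := by
      have := norm_sub_norm_le (1 : ℂ) w
      rwa [norm_one] at this
    have h2 : 0 < 1 - ‖w‖ := by linarith
    have h3 : Real.log (1 - ‖w‖) ≤ Real.log ‖1 - w‖ := Real.log_le_log h2 h1
    have h4 : 0 ≤ Real.log ((1 - ‖w‖) * (1 + ‖w‖) ^ 2) := by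
      apply Real.log_nonneg
      nlinarith [mul_nonneg hr (by linarith : (0:ℝ) ≤ 1 / 2 - ‖w‖), mul_nonneg (mul_nonneg hr hr) (by linarith : (0:ℝ) ≤ 1 / 2 - ‖w‖)]
    rw [Real.log_mul h2.ne' (by positivity), Real.log_pow] at h4
    push_cast at h4
    have h5 := mul_nonneg hq hlr
    nlinarith
  · have h1 : Real.log c ≤ Real.log ‖1 - w‖ := Real.log_le_log hc hw
    have h2 : Real.log (3 / 2) ≤ Real.log (1 + ‖w‖) := Real.log_le_log (by norm_num) (by linarith)
    have h3 : -|Real.log c| ≤ Real.log c := neg_abs_le _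
    have h4 : |Real.log c| ≤ |Real.log c| / Real.log (3 / 2) * Real.log (1 + ‖w‖) := by
      calc |Real.log c| = |Real.log c| / Real.log (3 / 2) * Real.log (3 / 2) := by
            field_simp
        _ ≤ _ := mul_le_mul_of_nonneg_left h2 hq
    nlinarith

private lemma kp_away {φ : ℝ} (h : ∀ n : ℤ, φ ≠ n * (2 * π)) :
    ∃ c : ℝ, 0 < c ∧ ∀ r : ℝ, 0 ≤ r → c ≤ ‖1 - ray r φ‖ := by
  have h1 : Real.cos φ < 1 := by
    refine lt_of_le_of_ne (Real.cos_le_one φ) fun h2 => ?_
    obtain ⟨n, hn⟩ := (Real.cos_eq_one_iff φ).1 h2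
    exact h n hn.symm
  obtain ⟨κ, hκ⟩ : ∃ κ, κ = max (Real.cos φ) 0 := ⟨_, rfl⟩
  have hκ0 : 0 ≤ κ := hκ ▸ le_max_right _ _
  have hκ1 : κ < 1 := hκ ▸ max_lt h1 one_pos
  have hκc : Real.cos φ ≤ κ := hκ ▸ le_max_left _ _
  refine ⟨1 - κ, by linarith, fun r hr => ?_⟩
  have h2 : (1 - κ) ^ 2 ≤ ‖1 - ray r φ‖ ^ 2 := by
    rw [← Complex.normSq_eq_norm_sq, Complex.normSq_apply, Complex.sub_re, Complex.sub_im,
      Complex.one_re, Complex.one_im, ray_re, ray_im]
    have h3 := Real.sin_sq_add_cos_sq φ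
    have h4 : (1 - r * Real.cos φ) * (1 - r * Real.cos φ) + (0 - r * Real.sin φ) * (0 - r * Real.sin φ)
        = 1 - 2 * r * Real.cos φ + r ^ 2 := by
      linear_combination r ^ 2 * h3
    rw [h4]
    have h5 : r * Real.cos φ ≤ r * κ := mul_le_mul_of_nonneg_left hκc hr
    nlinarith [mul_nonneg hκ0 (sq_nonneg (1 - r)), mul_nonneg (by linarith : (0:ℝ) ≤ 1 - κ) (sq_nonneg r),
      mul_nonneg hκ0 (by linarith : (0:ℝ) ≤ 1 - κ)]
  exact le_of_sq_le_sq h2 (norm_nonneg _)

private lemma kp_term (a : ℝ) (ha : 0 ≤ a) :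
    Tendsto (fun t : ℝ => Real.exp (-t) * Real.log (1 + a * Real.exp t)) atTop (𝓝 0) := by
  have h1 : Tendsto (fun t : ℝ => Real.exp (-t) * (Real.log (1 + a) + t)) atTop (𝓝 0) := by
    have h2 : Tendsto (fun t : ℝ => t ^ 1 * Real.exp (-t)) atTop (𝓝 0) :=
      Real.tendsto_pow_mul_exp_neg_atTop_nhds_zero 1
    have h3 : Tendsto (fun t : ℝ => Real.exp (-t)) atTop (𝓝 0) := Real.tendsto_exp_neg_atTop_nhds_zero
    have h4 := (h3.mul_const (Real.log (1 + a))).add h2
    rw [zero_mul, zero_add] at h4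
    refine h4.congr fun t => ?_
    ring
  refine tendsto_of_tendsto_of_tendsto_of_le_of_le' tendsto_const_nhds h1 ?_ ?_
  · filter_upwards with t
    have h5 : 0 ≤ Real.log (1 + a * Real.exp t) := by
      apply Real.log_nonneg
      have := mul_nonneg ha (Real.exp_pos t).le
      linarith
    positivity
  · filter_upwards [eventually_ge_atTop 0] with t ht
    apply mul_le_mul_of_nonneg_left _ (Real.exp_pos _).le
    have h6 : 1 ≤ Real.exp t := Real.one_le_exp ht
    have h7 : 1 + a * Real.exp t ≤ (1 + a) * Real.exp t := by nlinarith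
    have h8 : 0 < 1 + a * Real.exp t := by
      have := mul_nonneg ha (Real.exp_pos t).le
      linarith
    calc Real.log (1 + a * Real.exp t) ≤ Real.log ((1 + a) * Real.exp t) := Real.log_le_log h8 h7
      _ = Real.log (1 + a) + t := by
        rw [Real.log_mul (by linarith) (Real.exp_pos _).ne', Real.log_exp]

private lemma kp_abs_one_sub_exp {u : ℝ} (h : |u| ≤ 1) : |1 - Real.exp u| ≤ 2 * |u| := by
  have h1 := Real.abs_exp_sub_one_le h
  rwa [abs_sub_comm]

private lemma kp_one_sub_exp_far {u : ℝ} (h : 1 / 4 ≤ |u|) :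
    1 - Real.exp (-(1 / 4)) ≤ |1 - Real.exp u| := by
  rcases le_abs.1 h with h1 | h1
  · have h2 : Real.exp (1 / 4) ≤ Real.exp u := Real.exp_le_exp.2 h1
    have h3 : (1 : ℝ) / 4 + 1 ≤ Real.exp (1 / 4) := Real.add_one_le_exp _
    have h4 : 1 - (1 : ℝ) / 4 ≤ Real.exp (-(1 / 4)) := by
      have := Real.add_one_le_exp (-(1 / 4 : ℝ))
      linarith
    rw [abs_sub_comm]
    refine le_trans ?_ (le_abs_self _)
    linarith
  · have h2 : Real.exp u ≤ Real.exp (-(1 / 4)) := Real.exp_le_exp.2 (by linarith)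
    refine le_trans ?_ (le_abs_self _)
    linarith

theorem kill_prod {d : ℝ} (hd : d ∈ Ioo 0 (π / 2)) {T : ℕ → ℝ} {m : ℕ → ℕ}
    (hT : ∀ j : ℕ, (j : ℝ) ≤ T j) (hm : Summable fun j => (m j : ℝ) * Real.exp (-T j)) :
    ∃ E : ℂ → ℂ, Pre 1 E ∧
      (∀ ε : ℝ, 0 < ε → ∀ᶠ t : ℝ in atTop, ∀ θ : ℝ, ‖E (ray (Real.exp t) θ)‖ ≤
        Real.exp (ε * Real.exp t)) ∧
      (∀ θ : ℝ, (∀ n : ℤ, θ - d ≠ n * (2 * π)) → ∀ ε : ℝ, 0 < ε → ∀ᶠ t : ℝ in atTop,
        Real.exp (-(ε * Real.exp t)) ≤ ‖E (ray (Real.exp t) θ)‖) ∧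
      (∀ ε : ℝ, 0 < ε → ∀ᶠ t : ℝ in atTop, (∀ j, 1 / 4 ≤ |t - T j|) →
        Real.exp (-(ε * Real.exp t)) ≤ ‖E (ray (Real.exp t) d)‖) ∧
      ∀ ε : ℝ, 0 < ε → ∀ᶠ t : ℝ in atTop, ∀ j, |t - T j| ≤ 1 / 2 →
        ‖E (ray (Real.exp t) d)‖ ≤ (2 * |t - T j|) ^ m j * Real.exp (ε * Real.exp t) := by
  let ι := Σ j : ℕ, Fin (m j)
  let c : ι → ℂ := fun i => ray (Real.exp (-T i.1)) (-d)
  have hcn : ∀ i : ι, ‖c i‖ = Real.exp (-T i.1) := fun i => norm_ray (Real.exp_pos _).le _
  have hsum : Summable fun i : ι => ‖c i‖ := by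
    simp only [hcn]
    rw [summable_sigma_of_nonneg (fun i => (Real.exp_pos _).le)]
    refine ⟨fun j => (hasSum_fintype _).summable, ?_⟩
    refine hm.congr fun j => ?_
    rw [tsum_fintype]
    simp
  have him : ∀ i : ι, (c i).im ≤ 0 := by
    intro i
    simp only [c]
    rw [ray_im, Real.sin_neg]
    have h1 := Real.sin_nonneg_of_mem_Icc (x := d) ⟨hd.1.le, by linarith [hd.2, Real.pi_pos]⟩
    have h2 := mul_nonneg (Real.exp_pos (-T i.1)).le h1
    linarith
  have hcm : ∀ (i : ι) (t θ : ℝ), c i * ray (Real.exp t) θ = ray (Real.exp (t - T i.1)) (θ - d) := by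
    intro i t θ
    simp only [c]
    rw [kp_ray_mul, ← Real.exp_add]
    congr 1
    · congr 1
      ring
    · ring
  obtain ⟨E, hE1, hE2, hE3, hE4, hE5⟩ := exists_entire hsum him
  obtain ⟨L, hLdef⟩ : ∃ L : ℝ → ℝ, ∀ t, L t = ∑' i : ι, Real.log (1 + ‖c i‖ * Real.exp t) :=
    ⟨_, fun t => rfl⟩
  have hLs : ∀ t : ℝ, Summable fun i : ι => Real.log (1 + ‖c i‖ * Real.exp t) := fun t =>
    Real.summable_log_one_add_of_summable (hsum.mul_right _)
  have hlog0 : ∀ (t : ℝ) (i : ι), 0 ≤ Real.log (1 + ‖c i‖ * Real.exp t) := by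
    intro t i
    apply Real.log_nonneg
    have := mul_nonneg (norm_nonneg (c i)) (Real.exp_pos t).le
    linarith
  have hL0 : ∀ t, 0 ≤ L t := by
    intro t
    rw [hLdef]
    exact tsum_nonneg (hlog0 t)
  have hLt : Tendsto (fun t => Real.exp (-t) * L t) atTop (𝓝 0) := by
    have h1 : Tendsto (fun t : ℝ => ∑' i : ι, Real.exp (-t) * Real.log (1 + ‖c i‖ * Real.exp t)) atTop
        (𝓝 (∑' _ : ι, (0 : ℝ))) := by
      refine tendsto_tsum_of_dominated_convergence hsum (fun i => kp_term _ (norm_nonneg _)) ?_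
      filter_upwards with t
      intro i
      rw [Real.norm_eq_abs, abs_of_nonneg (mul_nonneg (Real.exp_pos _).le (hlog0 t i))]
      have h2 : Real.log (1 + ‖c i‖ * Real.exp t) ≤ ‖c i‖ * Real.exp t := by
        have h3 : 0 < 1 + ‖c i‖ * Real.exp t := by positivity
        have := Real.log_le_sub_one_of_pos h3
        linarith
      calc Real.exp (-t) * Real.log (1 + ‖c i‖ * Real.exp t)
          ≤ Real.exp (-t) * (‖c i‖ * Real.exp t) := mul_le_mul_of_nonneg_left h2 (Real.exp_pos _).le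
        _ = ‖c i‖ := by
          rw [mul_left_comm, ← Real.exp_add]
          simp
    rw [tsum_zero] at h1
    refine h1.congr fun t => ?_
    rw [tsum_mul_left, hLdef]
  have hL : ∀ ε : ℝ, 0 < ε → ∀ᶠ t in atTop, L t ≤ ε * Real.exp t := by
    intro ε hε
    filter_upwards [hLt.eventually (gt_mem_nhds hε)] with t ht
    have h1 : L t = (Real.exp (-t) * L t) * Real.exp t := by
      rw [mul_right_comm, ← Real.exp_add]
      simp
    rw [h1]
    exact mul_le_mul_of_nonneg_right ht.le (Real.exp_pos _).le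
  have hup : ∀ t θ : ℝ, ‖E (ray (Real.exp t) θ)‖ ≤ Real.exp (L t) := by
    intro t θ
    have h1 := (hE5 (ray (Real.exp t) θ)).2
    rw [norm_ray (Real.exp_pos _).le] at h1
    rw [hLdef]
    exact h1
  have hlow : ∀ cst : ℝ, 0 < cst → ∃ K : ℝ, 0 < K ∧ ∀ t θ : ℝ,
      (∀ i : ι, cst ≤ ‖1 - ray (Real.exp (t - T i.1)) (θ - d)‖) →
      Real.exp (-(K * L t)) ≤ ‖E (ray (Real.exp t) θ)‖ := by
    intro cst hcst
    obtain ⟨K, hK, hKw⟩ := kp_const hcst
    refine ⟨K, hK, fun t θ hi => ?_⟩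
    have h1 : ∀ i, c i * ray (Real.exp t) θ ≠ 1 := by
      intro i h
      have h2 := hi i
      rw [← hcm, h, sub_self, norm_zero] at h2
      linarith
    obtain ⟨h2, h3⟩ := hE4 _ h1
    have h4 : -(K * L t) ≤ Real.log ‖E (ray (Real.exp t) θ)‖ := by
      have h5 : HasSum (fun i : ι => -(K * Real.log (1 + ‖c i‖ * Real.exp t))) (-(K * L t)) := by
        rw [hLdef]
        exact ((hLs t).hasSum.mul_left K).neg
      refine hasSum_le (fun i => ?_) h5 h3
      have h6 := hKw (c i * ray (Real.exp t) θ) (by rw [hcm]; exact hi i)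
      rw [norm_mul, norm_ray (Real.exp_pos t).le θ] at h6
      exact h6
    calc Real.exp (-(K * L t)) ≤ Real.exp (Real.log ‖E (ray (Real.exp t) θ)‖) := Real.exp_le_exp.2 h4
      _ = ‖E (ray (Real.exp t) θ)‖ := Real.exp_log (norm_pos_iff.2 h2)
  refine ⟨E, ⟨hE1, ?_, hE2, hE3⟩, ?_, ?_, ?_, ?_⟩
  · intro σ hσ
    filter_upwards [(tendsto_norm_cobounded_atTop (E := ℂ)).eventually
      (eventually_mul_rpow_le hσ (∑' i, ‖c i‖))] with z hz
    obtain ⟨h1, h2⟩ := hE5 z
    refine h2.trans (Real.exp_le_exp.2 (le_trans ?_ hz))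
    rw [Real.rpow_one, ← tsum_mul_right]
    refine h1.tsum_le_tsum (fun i => ?_) (hsum.mul_right _)
    have h3 : 0 < 1 + ‖c i‖ * ‖z‖ := by positivity
    have := Real.log_le_sub_one_of_pos h3
    linarith
  · intro ε hε
    filter_upwards [hL ε hε] with t ht
    intro θ
    exact (hup t θ).trans (Real.exp_le_exp.2 ht)
  · intro θ hθ ε hε
    obtain ⟨cst, hcst, haw⟩ := kp_away hθ
    obtain ⟨K, hK, hKE⟩ := hlow cst hcst
    filter_upwards [hL (ε / K) (by positivity)] with t ht
    refine le_trans (Real.exp_le_exp.2 ?_) (hKE t θ fun i => haw _ (Real.exp_pos _).le)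
    apply neg_le_neg
    calc K * L t ≤ K * (ε / K * Real.exp t) := mul_le_mul_of_nonneg_left ht hK.le
      _ = ε * Real.exp t := by field_simp
  · intro ε hε
    have hcst : (0 : ℝ) < 1 - Real.exp (-(1 / 4)) := by
      have h0 := Real.exp_lt_exp.2 (show -(1 / 4 : ℝ) < 0 by norm_num)
      rw [Real.exp_zero] at h0
      linarith
    obtain ⟨K, hK, hKE⟩ := hlow _ hcst
    filter_upwards [hL (ε / K) (by positivity)] with t ht
    intro hj
    refine le_trans (Real.exp_le_exp.2 ?_) (hKE t d fun i => ?_)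
    · apply neg_le_neg
      calc K * L t ≤ K * (ε / K * Real.exp t) := mul_le_mul_of_nonneg_left ht hK.le
        _ = ε * Real.exp t := by field_simp
    · have h1 : (1 : ℂ) - ray (Real.exp (t - T i.1)) (d - d) = ((1 - Real.exp (t - T i.1) : ℝ) : ℂ) := by
        rw [sub_self, ray]
        simp
      rw [h1, Complex.norm_real, Real.norm_eq_abs]
      exact kp_one_sub_exp_far (hj i.1)
  · intro ε hε
    obtain ⟨t0, ht0⟩ := eventually_atTop.1 (hL ε hε)
    filter_upwards [eventually_gt_atTop t0] with t ht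
    intro j htj
    have key : ∀ s : ℝ, |s - T j| < 1 → (∀ k, s ≠ T k) →
        ‖E (ray (Real.exp s) d)‖ ≤ (2 * |s - T j|) ^ m j * Real.exp (L s) := by
      intro s hs hne
      have hne0 : ∀ i : ι, c i * ray (Real.exp s) d = ((Real.exp (s - T i.1) : ℝ) : ℂ) := by
        intro i
        rw [hcm, sub_self, ray]
        simp
      have h1 : ∀ i, c i * ray (Real.exp s) d ≠ 1 := by
        intro i h
        rw [hne0] at h
        have h2 : Real.exp (s - T i.1) = 1 := by exact_mod_cast h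
        rw [Real.exp_eq_one_iff] at h2
        exact hne i.1 (by linarith)
      obtain ⟨h2, h3⟩ := hE4 _ h1
      have hpos : 0 < 2 * |s - T j| := by
        have : 0 < |s - T j| := abs_pos.2 (sub_ne_zero.2 (hne j))
        linarith
      have h4 : HasSum (fun i : ι => if i.1 = j then Real.log (2 * |s - T j|) else 0)
          (m j * Real.log (2 * |s - T j|)) := by
        have h5 : HasSum (fun i : ι => if i.1 = j then Real.log (2 * |s - T j|) else 0)
            (∑ i ∈ (Finset.univ : Finset (Fin (m j))).map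
              (Function.Embedding.sigmaMk (β := fun j => Fin (m j)) j), if i.1 = j then Real.log (2 * |s - T j|) else 0) := by
          apply hasSum_sum_of_ne_finset_zero
          intro i hi
          rw [if_neg]
          intro hij
          apply hi
          obtain ⟨j', k⟩ := i
          simp only at hij
          subst hij
          rw [Finset.mem_map]
          exact ⟨k, Finset.mem_univ _, rfl⟩
        have h6 : (∑ i ∈ (Finset.univ : Finset (Fin (m j))).map
              (Function.Embedding.sigmaMk (β := fun j => Fin (m j)) j), if i.1 = j then Real.log (2 * |s - T j|) else 0) =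
            m j * Real.log (2 * |s - T j|) := by
          rw [Finset.sum_map]
          simp
        rwa [h6] at h5
      have h7 : Real.log ‖E (ray (Real.exp s) d)‖ ≤ m j * Real.log (2 * |s - T j|) + L s := by
        have h8 : HasSum (fun i : ι => (if i.1 = j then Real.log (2 * |s - T j|) else 0) +
            Real.log (1 + ‖c i‖ * Real.exp s)) (m j * Real.log (2 * |s - T j|) + L s) := by
          rw [hLdef]
          exact h4.add (hLs s).hasSum
        refine hasSum_le (fun i => ?_) h3 h8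
        have h9 : (1 : ℂ) - c i * ray (Real.exp s) d = ((1 - Real.exp (s - T i.1) : ℝ) : ℂ) := by
          rw [hne0]
          push_cast
          ring
        have h10 : 0 < ‖1 - c i * ray (Real.exp s) d‖ :=
          norm_pos_iff.2 (sub_ne_zero.2 (h1 i).symm)
        split_ifs with hij
        · have h11 : Real.log ‖1 - c i * ray (Real.exp s) d‖ ≤ Real.log (2 * |s - T j|) := by
            apply Real.log_le_log h10
            rw [h9, Complex.norm_real, Real.norm_eq_abs, hij]
            exact kp_abs_one_sub_exp hs.le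
          have := hlog0 s i
          linarith
        · rw [zero_add]
          apply Real.log_le_log h10
          calc ‖1 - c i * ray (Real.exp s) d‖ ≤ ‖(1 : ℂ)‖ + ‖c i * ray (Real.exp s) d‖ := norm_sub_le _ _
            _ = 1 + ‖c i‖ * Real.exp s := by
              rw [norm_one, norm_mul, norm_ray (Real.exp_pos s).le d]
      calc ‖E (ray (Real.exp s) d)‖ = Real.exp (Real.log ‖E (ray (Real.exp s) d)‖) :=
            (Real.exp_log (norm_pos_iff.2 h2)).symm
        _ ≤ Real.exp (m j * Real.log (2 * |s - T j|) + L s) := Real.exp_le_exp.2 h7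
        _ = (2 * |s - T j|) ^ m j * Real.exp (L s) := by
          rw [Real.exp_add, Real.exp_nat_mul, Real.exp_log hpos]
    -- closure argument
    have hclosed : IsClosed {s : ℝ | ‖E (ray (Real.exp s) d)‖ ≤ (2 * |s - T j|) ^ m j *
        Real.exp (ε * Real.exp s)} := by
      apply isClosed_le
      · have hray : Continuous fun s : ℝ => ray (Real.exp s) d := by
          unfold ray
          fun_prop
        exact (hE1.continuous.comp hray).norm
      · fun_prop
    have hopen : IsOpen {s : ℝ | t0 < s ∧ |s - T j| < 1} := by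
      apply IsOpen.inter
      · exact isOpen_lt continuous_const continuous_id
      · exact isOpen_lt (continuous_id.sub continuous_const).abs continuous_const
    have hdense : Dense (Set.range T)ᶜ := (Set.countable_range T).dense_compl ℝ
    have hmem : t ∈ {s : ℝ | t0 < s ∧ |s - T j| < 1} := ⟨ht, by linarith⟩
    have hcl := hdense.open_subset_closure_inter hopen hmem
    refine closure_minimal ?_ hclosed hcl
    rintro s ⟨⟨hs1, hs2⟩, hs3⟩
    refine (key s hs2 fun k hk => hs3 ⟨k, hk.symm⟩).trans ?_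
    apply mul_le_mul_of_nonneg_left (Real.exp_le_exp.2 (ht0 s hs1.le))
    positivity

end HBOne
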