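import Pool.Agent.HBOne.BlaCirc
import Pool.Agent.HBInd.GlueC

/-!
# Relations between the indicator at `θ` and at `-θ`, order one

`c = D.c`. `ind_shift`: `‖g z‖ = ‖f z‖ e^{c Im z}` where `g z = f z e^{-icz}`.

* `c_nonneg`: `0 ≤ log ‖f (conj z)‖ - log ‖f z‖ = 2 c Im z + β z` (`norm_le`) with `β ≥ 0` (`bla_nonneg`); if `c < 0` then on the
  ray `π/2`: `β (ir) ≥ -2 c r` for a.e. `r`, so the integral in `ray_avg` is `≥ -2 c R²`, a contradiction for small `ε`.
* `le_one`: `mono` with `x = r cos θ`, `y₁ = y₂ = r sin θ`: `‖f (ray r θ)‖ e^{2 c r sin θ} ≤ ‖f (ray r (-θ))‖`.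
* `half_one`: `≤` is `le_one`. `≥`: let `a` be real, `a < ind 1 f (-(π/2)) - c` (an extended number), `ε > 0`. For arbitrarily
  large `r`: `‖f (-ir)‖ e^{-cr} ≥ e^{a r}`. By `mono` (`x = 0`): for `s ≥ r`: `‖f (-is)‖ e^{-cs} ≥ e^{ar}`. In `ray_avg`
  (`θ = π/2`, `R = r`, `ε² R²` with small `ε`): there is `s ∈ [r, (1 + ε) r]` with
  `log ‖f (-is)‖ - log ‖f (is)‖ - 2 c s ≤ ε r` (otherwise the integral is `≥ ε² r²`) and `f (is) ≠ 0`; so
  `log ‖f (is)‖ + c s ≥ a r - ε r ≥ (a - ε) s - |a| ε s`. Hence `ind 1 f (π/2) + c ≥ a - ...`.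
* `ge_one`: `‖f (-is)‖ e^{-cs} ≥ ‖f (-i)‖ e^{-c} > 0` for `s ≥ 1`, so `ind 1 f (-(π/2)) - c ≥ 0`.
* `eq_one`: `h = ind 1 f`, `h ≠ ⊤` near `θ ∈ (0, π)`. `≤` is `le_one`. Suppose `h θ + 2 c sin θ < h (-θ)`: there are reals
  `a' < a` with `h θ < a' - c sin θ`, `a - c sin θ... ` precisely: with `k φ = h φ + c sin φ`: `k θ < a' < a < k (-θ)`. Choose `η` with
  `h ≠ ⊤` on `[θ - η, θ + η] ⊂ (0, π)`. By `sector_bound` on `[θ - η, θ]` and `[θ, θ + η]` (`hf.order`, `ind < `): for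
  `|φ - θ| ≤ η`: `log ‖f (ray r φ)‖ + c r sin φ ≤ (a' + C |φ - θ|) r + C`. So for small `δ` and large `r`, on the circle
  `|z - ray r θ| = δ r`: `log ‖f z‖ + c Im z ≤ ((a + a')/2) r` off the zeros, and the average of `log ‖f‖` over the circle is
  `≤ ((a + a')/2) r - c r sin θ`. On the other hand for arbitrarily large `r`: `log ‖f (ray r (-θ))‖ - c r sin θ ≥ a r`, and
  `log ‖f‖` is harmonic in the lower half-plane (or `circleAverage_log_le` in `GlueC`, or Mathlib), so its average over the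
  conjugate circle is `≥ a r + c r sin θ`. With `circ_avg`: `a r + c r sin θ ≤ ((a + a')/2) r - c r sin θ + 2 c r sin θ + ε r`,
  a contradiction for `ε < (a - a')/2`.
-/

namespace HBOne

open HBInd HBInf Complex Filter Topology Set MeasureTheory
open scoped Real ComplexConjugate

variable {f : ℂ → ℂ}

lemma oe_ray_half (r : ℝ) : ray r (π / 2) = (r : ℂ) * I := by
  apply Complex.ext
  · rw [ray_re]; simp
  · rw [ray_im]; simp

lemma oe_ray_neg_half (r : ℝ) : ray r (-(π / 2)) = -((r : ℂ) * I) := by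
  apply Complex.ext
  · rw [ray_re]; simp
  · rw [ray_im]; simp

/-- there are countably many zeros on a ray -/
lemma oe_countable (D : OD f) (θ : ℝ) : {r : ℝ | f (ray r θ) = 0}.Countable := by
  have := D.cnt
  have h1 : ({0} ∪ range D.a : Set ℂ).Countable :=
    (countable_singleton 0).union (countable_range D.a)
  have h2 : {r : ℝ | f (ray r θ) = 0} ⊆ (fun r : ℝ => ray r θ) ⁻¹' ({0} ∪ range D.a) := by
    intro r hr
    by_contra hcon
    simp only [mem_preimage, mem_union, mem_singleton_iff, mem_range, not_or, not_exists] at hcon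
    exact (D.rep (ray r θ) hcon.1 (fun i h => hcon.2 i h.symm)).1 hr
  refine (h1.preimage_of_injOn ?_).mono h2
  intro x _ y _ hxy
  have h3 : Complex.exp ((θ : ℂ) * I) ≠ 0 := Complex.exp_ne_zero _
  have h4 : (x : ℂ) = y := mul_right_cancel₀ h3 hxy
  exact_mod_cast h4

/-- there are points on a ray, not far away, at which the difference is small -/
lemma oe_select (hf : InClass 1 f) (D : OD f) {θ : ℝ} (hθ : θ ∈ Ioo 0 π) {ε : ℝ} (hε : 0 < ε)
    (hε1 : ε ≤ 1) : ∀ᶠ R : ℝ in atTop, ∃ s ∈ Icc R ((1 + ε) * R), f (ray s θ) ≠ 0 ∧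
      Real.log ‖f (ray s (-θ))‖ - Real.log ‖f (ray s θ)‖ - 2 * D.c * (s * Real.sin θ) ≤ ε * R := by
  have hε' : 0 < ε ^ 2 / 2 := by positivity
  filter_upwards [ray_avg hf D hθ hε', eventually_gt_atTop 0] with R hR hR0
  by_contra hcon
  push Not at hcon
  have hsub : Icc R ((1 + ε) * R) ⊆ Icc R (2 * R) := by
    apply Icc_subset_Icc_right
    nlinarith
  have h1 : ∫⁻ _ in Icc R ((1 + ε) * R), ENNReal.ofReal (ε * R) ≤
      ∫⁻ r in Icc R ((1 + ε) * R), ENNReal.ofReal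
        (Real.log ‖f (ray r (-θ))‖ - Real.log ‖f (ray r θ)‖ - 2 * D.c * (r * Real.sin θ)) := by
    refine setLIntegral_mono_ae' measurableSet_Icc ?_
    filter_upwards [(oe_countable D θ).ae_notMem volume] with s hs hs1
    exact ENNReal.ofReal_le_ofReal (hcon s hs1 hs).le
  have h2 := (h1.trans (lintegral_mono_set hsub)).trans hR
  rw [setLIntegral_const, Real.volume_Icc, ← ENNReal.ofReal_mul (by positivity),
    ENNReal.ofReal_le_ofReal_iff (by positivity)] at h2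
  have h3 : 0 < ε ^ 2 * R ^ 2 := by positivity
  nlinarith

theorem c_nonneg (hf : InClass 1 f) (D : OD f) : 0 ≤ D.c := by
  by_contra hcon
  rw [not_le] at hcon
  have hpi := Real.pi_pos
  have hθ : π / 2 ∈ Ioo 0 π := ⟨by linarith, by linarith⟩
  have hε : 0 < min 1 (-D.c) := lt_min one_pos (by linarith)
  obtain ⟨R, ⟨s, hs, hs0, hs1⟩, hR0⟩ :=
    ((oe_select hf D hθ hε (min_le_left _ _)).and (eventually_gt_atTop 0)).exists
  have hs2 : 0 < s := lt_of_lt_of_le hR0 hs.1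
  have h1 : ‖f (ray s (π / 2))‖ ≤ ‖f (ray s (-(π / 2)))‖ := by
    rw [← conj_ray]
    refine hf.norm_le _ ?_
    rw [ray_im, Real.sin_pi_div_two, mul_one]
    exact hs2
  have h2 := Real.log_le_log (norm_pos_iff.2 hs0) h1
  rw [Real.sin_pi_div_two, mul_one] at hs1
  have h3 : min 1 (-D.c) * R ≤ -D.c * R := mul_le_mul_of_nonneg_right (min_le_right _ _) hR0.le
  have h4 : -D.c * R ≤ -D.c * s := mul_le_mul_of_nonneg_left hs.1 (by linarith)
  have h5 : 0 < -D.c * s := mul_pos (by linarith) hs2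
  linarith

lemma oe_sub_lt {x : EReal} {a s : ℝ} (h : (a : EReal) < x + (s : EReal)) :
    ((a - s : ℝ) : EReal) < x := by
  induction x with
  | bot => simp at h
  | top => exact EReal.coe_lt_top _
  | coe x =>
    rw [← EReal.coe_add, EReal.coe_lt_coe_iff] at h
    rw [EReal.coe_lt_coe_iff]
    linarith

lemma oe_le_add {x : EReal} {a s : ℝ} (h : ((a - s : ℝ) : EReal) ≤ x) :
    (a : EReal) ≤ x + (s : EReal) := by
  by_contra hcon
  rw [not_le] at hcon
  have h1 : x < ((a - s : ℝ) : EReal) := by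
    induction x with
    | bot => exact EReal.bot_lt_coe _
    | top => simp at hcon
    | coe x =>
      rw [← EReal.coe_add, EReal.coe_lt_coe_iff] at hcon
      rw [EReal.coe_lt_coe_iff]
      linarith
  exact absurd h1 (not_lt.2 h)

lemma oe_ray_upper (r θ : ℝ) :
    ray r θ = ((r * Real.cos θ : ℝ) : ℂ) + ((r * Real.sin θ : ℝ) : ℂ) * I := by
  rw [← ray_re, ← ray_im, Complex.re_add_im]

lemma oe_ray_lower (r θ : ℝ) :
    ray r (-θ) = ((r * Real.cos θ : ℝ) : ℂ) - ((r * Real.sin θ : ℝ) : ℂ) * I := by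
  rw [oe_ray_upper, Real.cos_neg, Real.sin_neg]
  push_cast
  ring

theorem le_one (hf : InClass 1 f) (D : OD f) {θ : ℝ} (hθ : θ ∈ Ioo 0 π) :
    ind 1 f θ + ((2 * D.c * Real.sin θ : ℝ) : EReal) ≤ ind 1 f (-θ) := by
  have hsin : 0 < Real.sin θ := Real.sin_pos_of_pos_of_lt_pi hθ.1 hθ.2
  refine EReal.ge_of_forall_gt_iff_ge.1 fun a ha => ?_
  have h1 := frequently_of_lt_ind (oe_sub_lt ha)
  refine le_ind_of_frequently ((h1.and_eventually (eventually_gt_atTop 0)).mono ?_)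
  rintro r ⟨hr, hr0⟩
  have h2 := mono hf D (x := r * Real.cos θ) (y₁ := r * Real.sin θ) (y₂ := r * Real.sin θ)
    (abs_of_pos (mul_pos hr0 hsin)).le
  rw [← oe_ray_upper, ← oe_ray_lower] at h2
  rw [Real.rpow_one] at hr ⊢
  have h3 := (mul_le_mul_of_nonneg_right hr.le (Real.exp_pos (D.c * (r * Real.sin θ))).le).trans h2
  rw [Real.exp_neg, ← div_eq_mul_inv, le_div_iff₀ (Real.exp_pos _), ← Real.exp_add,
    ← Real.exp_add] at h3
  refine le_trans (le_of_eq ?_) h3
  congr 1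
  ring

theorem half_one (hf : InClass 1 f) (D : OD f) :
    ind 1 f (π / 2) + ((2 * D.c : ℝ) : EReal) = ind 1 f (-(π / 2)) := by
  have hpi := Real.pi_pos
  have hθ : π / 2 ∈ Ioo 0 π := ⟨by linarith, by linarith⟩
  refine le_antisymm ?_ ?_
  · have h1 := le_one hf D hθ
    rwa [Real.sin_pi_div_two, mul_one] at h1
  refine EReal.ge_of_forall_gt_iff_ge.1 fun a₀ ha₀ => oe_le_add ?_
  refine EReal.ge_of_forall_gt_iff_ge.1 fun b hb => le_ind_of_frequently ?_
  have hb' : b < a₀ - 2 * D.c := by exact_mod_cast hb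
  set a : ℝ := a₀ - D.c with ha
  set ε : ℝ := min 1 ((a₀ - 2 * D.c - b) / (|a| + 1)) with hε
  have ha1 : 0 < |a| + 1 := by positivity
  have hε0 : 0 < ε := lt_min one_pos (div_pos (by linarith) ha1)
  have hε1 : ε ≤ 1 := min_le_left _ _
  have hε2 : ε * (|a| + 1) ≤ a₀ - 2 * D.c - b := by
    rw [← le_div_iff₀ ha1]
    exact min_le_right _ _
  rw [frequently_atTop]
  intro N
  obtain ⟨r, hr, ⟨s, hs, hs0, hs1⟩, hrN⟩ := ((frequently_of_lt_ind ha₀).and_eventually
    ((oe_select hf D hθ hε0 hε1).and (eventually_ge_atTop (max N 1)))).exists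
  have hr0 : 0 < r := lt_of_lt_of_le one_pos ((le_max_right _ _).trans hrN)
  have hs2 : 0 < s := lt_of_lt_of_le hr0 hs.1
  refine ⟨s, ((le_max_left _ _).trans hrN).trans hs.1, ?_⟩
  rw [Real.rpow_one] at hr ⊢
  have h2 := mono hf D (x := 0) (y₁ := -r) (y₂ := s) (by rw [abs_neg, abs_of_pos hr0]; exact hs.1)
  have e1 : ((0 : ℝ) : ℂ) + ((-r : ℝ) : ℂ) * I = ray r (-(π / 2)) := by
    rw [oe_ray_neg_half]; push_cast; ring
  have e2 : ((0 : ℝ) : ℂ) - (s : ℂ) * I = ray s (-(π / 2)) := by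
    rw [oe_ray_neg_half]; push_cast; ring
  rw [e1, e2] at h2
  have h3 := (mul_le_mul_of_nonneg_right hr.le (Real.exp_pos (D.c * -r)).le).trans h2
  rw [Real.exp_neg, ← div_eq_mul_inv, le_div_iff₀ (Real.exp_pos _), ← Real.exp_add,
    ← Real.exp_add] at h3
  have hpos : 0 < ‖f (ray s (-(π / 2)))‖ := lt_of_lt_of_le (Real.exp_pos _) h3
  have h4 := (Real.le_log_iff_exp_le hpos).2 h3
  rw [Real.sin_pi_div_two, mul_one] at hs1
  rw [← Real.le_log_iff_exp_le (norm_pos_iff.2 hs0)]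
  have h5 : a * s - |a| * (s - r) ≤ a * r := by
    have h6 : a * (s - r) ≤ |a| * (s - r) :=
      mul_le_mul_of_nonneg_right (le_abs_self a) (by linarith [hs.1])
    linarith
  have h6 : s - r ≤ ε * s := by
    have h7 := hs.2
    have h8 : ε * r ≤ ε * s := mul_le_mul_of_nonneg_left hs.1 hε0.le
    linarith
  have h7 : |a| * (s - r) ≤ |a| * (ε * s) := mul_le_mul_of_nonneg_left h6 (abs_nonneg a)
  have h8 : ε * r ≤ ε * s := mul_le_mul_of_nonneg_left hs.1 hε0.le
  have h9 : ε * (|a| + 1) * s ≤ (a₀ - 2 * D.c - b) * s := mul_le_mul_of_nonneg_right hε2 hs2.le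
  have h10 : a * r = a₀ * r - D.c * r := by rw [ha]; ring
  have h11 : a * s = a₀ * s - D.c * s := by rw [ha]; ring
  nlinarith

theorem ge_one (hf : InClass 1 f) (D : OD f) : (D.c : EReal) ≤ ind 1 f (-(π / 2)) := by
  refine EReal.ge_of_forall_gt_iff_ge.1 fun a ha => le_ind_of_frequently ?_
  have ha' : a < D.c := by exact_mod_cast ha
  have hK : 0 < ‖f (ray 1 (-(π / 2)))‖ * Real.exp (-D.c) := by
    refine mul_pos (norm_pos_iff.2 (hf.zero_free _ ?_)) (Real.exp_pos _)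
    rw [ray_im]
    simp
  set K : ℝ := ‖f (ray 1 (-(π / 2)))‖ * Real.exp (-D.c) with hKd
  have hlim : Tendsto (fun r : ℝ => K * Real.exp ((D.c - a) * r)) atTop atTop :=
    (Real.tendsto_exp_atTop.comp (tendsto_id.const_mul_atTop (by linarith))).const_mul_atTop hK
  refine Eventually.frequently ?_
  filter_upwards [hlim.eventually_ge_atTop 1, eventually_ge_atTop 1] with s hs hs1
  have h2 := mono hf D (x := 0) (y₁ := -1) (y₂ := s) (by rw [abs_neg, abs_one]; exact hs1)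
  have e1 : ((0 : ℝ) : ℂ) + ((-1 : ℝ) : ℂ) * I = ray 1 (-(π / 2)) := by
    rw [oe_ray_neg_half]; push_cast; ring
  have e2 : ((0 : ℝ) : ℂ) - (s : ℂ) * I = ray s (-(π / 2)) := by
    rw [oe_ray_neg_half]; push_cast; ring
  rw [e1, e2, mul_neg_one, ← hKd, Real.exp_neg, ← div_eq_mul_inv,
    le_div_iff₀ (Real.exp_pos _)] at h2
  rw [Real.rpow_one]
  refine le_trans ?_ h2
  have h3 : Real.exp (D.c * s) = Real.exp ((D.c - a) * s) * Real.exp (a * s) := by
    rw [← Real.exp_add]; congr 1; ring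
  rw [h3, ← mul_assoc]
  exact le_mul_of_one_le_left (Real.exp_pos _).le hs

/-- points near a ray in polar coordinates -/
lemma oe_near (θ : ℝ) {η : ℝ} (hη : 0 < η) : ∃ δ : ℝ, 0 < δ ∧ ∀ r : ℝ, 0 < r → ∀ z : ℂ,
    ‖z - ray r θ‖ ≤ δ * r → ∃ t : ℝ, |t - θ| ≤ η ∧ ray ‖z‖ t = z := by
  have h1 : ContinuousAt Complex.arg 1 :=
    Complex.continuousAt_arg (by simp [Complex.slitPlane])
  have h2 : ∀ᶠ u in 𝓝 (1 : ℂ), |u.arg| < η := by
    have h3 : ContinuousAt (fun u : ℂ => |u.arg|) 1 := h1.abs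
    refine h3.eventually_lt continuousAt_const ?_
    rw [Complex.arg_one, abs_zero]
    exact hη
  obtain ⟨δ₁, hδ₁, hδ₁'⟩ := Metric.eventually_nhds_iff.1 h2
  refine ⟨δ₁ / 2, by positivity, fun r hr z hz => ?_⟩
  refine ⟨θ + (z * Complex.exp (-(θ : ℂ) * I)).arg, ?_, ray_norm_arg z θ⟩
  rw [add_sub_cancel_left]
  have hexp : ‖Complex.exp (-(θ : ℂ) * I)‖ = 1 := by
    have : (-(θ : ℂ) * I) = ((-θ : ℝ) : ℂ) * I := by push_cast; ring
    rw [this, Complex.norm_exp_ofReal_mul_I]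
  set w := z * Complex.exp (-(θ : ℂ) * I) with hw
  have hwr : ‖w - (r : ℂ)‖ ≤ δ₁ / 2 * r := by
    have e1 : w - (r : ℂ) = (z - ray r θ) * Complex.exp (-(θ : ℂ) * I) := by
      rw [sub_mul, ray, mul_assoc, ← Complex.exp_add]
      have : (θ : ℂ) * I + -(θ : ℂ) * I = 0 := by ring
      rw [this, Complex.exp_zero, mul_one, hw]
    rw [e1, norm_mul, hexp, mul_one]
    exact hz
  set u : ℂ := ((r⁻¹ : ℝ) : ℂ) * w with hu
  have hrc : (r : ℂ) ≠ 0 := by exact_mod_cast hr.ne'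
  have hu1 : dist u 1 < δ₁ := by
    have e1 : u - 1 = ((r⁻¹ : ℝ) : ℂ) * (w - (r : ℂ)) := by
      rw [hu, mul_sub]
      congr 1
      push_cast
      rw [inv_mul_cancel₀ hrc]
    rw [dist_eq_norm, e1, norm_mul, Complex.norm_real, Real.norm_of_nonneg (inv_pos.2 hr).le]
    calc r⁻¹ * ‖w - (r : ℂ)‖ ≤ r⁻¹ * (δ₁ / 2 * r) :=
          mul_le_mul_of_nonneg_left hwr (inv_pos.2 hr).le
      _ = δ₁ / 2 := by field_simp
      _ < δ₁ := by linarith
  have harg : u.arg = w.arg := by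
    rw [hu]
    exact Complex.arg_real_mul w (inv_pos.2 hr)
  rw [← harg]
  exact (hδ₁' hu1).le

/-- the upper bound on small circles around the points of the ray -/
lemma oe_upper (hf : InClass 1 f) {θ A κ : ℝ} (hκ : 0 < κ)
    (h : {t | ind 1 f t ≠ ⊤} ∈ 𝓝 θ) (hA : ind 1 f θ < A) : ∃ δ₀ : ℝ, 0 < δ₀ ∧
      ∀ δ ∈ Ioo 0 δ₀, ∀ᶠ r : ℝ in atTop, ∀ z : ℂ, ‖z - ray r θ‖ ≤ δ * r →
        ‖f z‖ ≤ Real.exp ((A + κ) * r) := by
  have hT := condT_ind one_pos hf
  have h1 := condT_usc one_pos hT h hA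
  obtain ⟨η₁, hη₁, hη₁'⟩ := Metric.eventually_nhds_iff.1 h1
  set M : ℝ := |A| + |A + κ / 2| + 1 with hM
  have hM0 : 0 < M := by positivity
  set η : ℝ := min (η₁ / 2) (min (1 / 2) (κ / (4 * M))) with hη
  have hη0 : 0 < η := by rw [hη]; positivity
  have hηa : η < η₁ := lt_of_le_of_lt (min_le_left _ _) (by linarith)
  have hηb : η ≤ 1 / 2 := (min_le_right _ _).trans (min_le_left _ _)
  have hηc : M * η ≤ κ / 4 := by
    have h2 : η ≤ κ / (4 * M) := (min_le_right _ _).trans (min_le_right _ _)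
    calc M * η ≤ M * (κ / (4 * M)) := mul_le_mul_of_nonneg_left h2 hM0.le
      _ = κ / 4 := by field_simp
  have hpi := Real.pi_gt_three
  have hga : ind 1 f (θ - η) < (A : EReal) := hη₁' (by
    rw [Real.dist_eq, sub_sub_cancel_left, abs_neg, abs_of_pos hη0]; exact hηa)
  have hgb : ind 1 f (θ + η) < (A : EReal) := hη₁' (by
    rw [Real.dist_eq, add_sub_cancel_left, abs_of_pos hη0]; exact hηa)
  have hab : θ - η < θ + η := by linarith
  have hba : θ + η - (θ - η) = 2 * η := by ring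
  obtain ⟨C, hC0, hC⟩ := sector_bound (σ := 3 / 2) hf.entire one_pos (by norm_num) hab
    (by rw [hba]; linarith) (by rw [hba]; linarith)
    (hf.order.eventually (by norm_num)) ((eventually_of_ind_lt hga).mono fun _ h => h.le)
    ((eventually_of_ind_lt hgb).mono fun _ h => h.le)
  have hC' : ∀ s : ℝ, 0 < s → ∀ t : ℝ, |t - θ| ≤ η → ‖f (ray s t)‖ ≤
      C * Real.exp ((A + κ / 2) * s) := by
    intro s hs t ht
    rw [abs_le] at ht
    refine (hC s hs t ⟨by linarith, by linarith⟩).trans ?_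
    refine mul_le_mul_of_nonneg_left (Real.exp_le_exp.2 ?_) hC0
    rw [Real.rpow_one]
    refine mul_le_mul_of_nonneg_right ?_ hs.le
    have h4 := unif_sin_aux (A := A) (x := 1 * (θ + η - t)) (y := 1 * (t - (θ - η)))
      (by linarith) (by linarith) (by linarith) (by linarith)
    have e0 : 1 * (θ + η - t) + 1 * (t - (θ - η)) = 1 * (θ + η - (θ - η)) := by ring
    rw [e0] at h4
    refine h4.trans ?_
    rw [one_mul, hba]
    have h5 : |A| * η ≤ M * η := by
      refine mul_le_mul_of_nonneg_right ?_ hη0.le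
      rw [hM]
      have := abs_nonneg (A + κ / 2)
      linarith
    linarith
  obtain ⟨δ₁, hδ₁, hδ₁'⟩ := oe_near θ hη0
  refine ⟨min δ₁ (min (1 / 2) (κ / (4 * M))), by positivity, fun δ hδ => ?_⟩
  have hδa : δ ≤ δ₁ := hδ.2.le.trans (min_le_left _ _)
  have hδb : δ ≤ 1 / 2 := hδ.2.le.trans ((min_le_right _ _).trans (min_le_left _ _))
  have hδc : M * δ ≤ κ / 4 := by
    have h2 : δ ≤ κ / (4 * M) := hδ.2.le.trans ((min_le_right _ _).trans (min_le_right _ _))
    calc M * δ ≤ M * (κ / (4 * M)) := mul_le_mul_of_nonneg_left h2 hM0.le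
      _ = κ / 4 := by field_simp
  have hlim : Tendsto (fun r : ℝ => Real.exp (κ / 4 * r)) atTop atTop :=
    Real.tendsto_exp_atTop.comp (tendsto_id.const_mul_atTop (by linarith))
  filter_upwards [hlim.eventually_ge_atTop C, eventually_gt_atTop 0] with r hr hr0 z hz
  obtain ⟨t, ht1, ht2⟩ := hδ₁' r hr0 z (hz.trans (mul_le_mul_of_nonneg_right hδa hr0.le))
  have hzr : |‖z‖ - r| ≤ δ * r := by
    have h5 := abs_norm_sub_norm_le z (ray r θ)
    rw [norm_ray hr0.le] at h5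
    exact h5.trans hz
  have hz0 : 0 < ‖z‖ := by
    have h5 := (abs_le.1 hzr).1
    have h6 : δ * r ≤ 1 / 2 * r := mul_le_mul_of_nonneg_right hδb hr0.le
    linarith
  have h6 := hC' ‖z‖ hz0 t ht1
  rw [ht2] at h6
  refine h6.trans ?_
  calc C * Real.exp ((A + κ / 2) * ‖z‖) ≤ Real.exp (κ / 4 * r) *
        Real.exp ((A + κ / 2) * r + κ / 4 * r) := by
        refine mul_le_mul hr (Real.exp_le_exp.2 ?_) (Real.exp_pos _).le (Real.exp_pos _).le
        have h7 : (A + κ / 2) * (‖z‖ - r) ≤ |A + κ / 2| * |‖z‖ - r| := by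
          rw [← abs_mul]; exact le_abs_self _
        have h8 : |A + κ / 2| * |‖z‖ - r| ≤ M * (δ * r) := by
          refine mul_le_mul ?_ hzr (abs_nonneg _) hM0.le
          rw [hM]
          have := abs_nonneg A
          linarith
        have h9 : M * (δ * r) ≤ κ / 4 * r := by
          rw [← mul_assoc]
          exact mul_le_mul_of_nonneg_right hδc hr0.le
        linarith
    _ = Real.exp ((A + κ) * r) := by
        rw [← Real.exp_add]
        congr 1
        ring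

/-- the mean value property in the lower half-plane -/
lemma oe_lower (hf : InClass 1 f) {θ δ r : ℝ} (hδ : 0 ≤ δ) (hδ2 : δ < Real.sin θ) (hr : 0 < r) :
    Real.circleAverage (fun z => Real.log ‖f z‖) (ray r (-θ)) (δ * r) =
      Real.log ‖f (ray r (-θ))‖ := by
  have han : AnalyticOnNhd ℂ f univ := fun z _ => hf.entire.analyticAt z
  refine AnalyticOnNhd.circleAverage_log_norm_of_ne_zero (han.mono (subset_univ _)) ?_
  intro u hu
  rw [abs_of_nonneg (mul_nonneg hδ hr.le), Metric.mem_closedBall, dist_eq_norm] at hu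
  refine hf.zero_free u ?_
  have h1 := (Complex.abs_im_le_norm (u - ray r (-θ))).trans hu
  rw [Complex.sub_im, ray_im, Real.sin_neg] at h1
  have h2 := (abs_le.1 h1).2
  have h3 : δ * r < Real.sin θ * r := mul_lt_mul_of_pos_right hδ2 hr
  linarith

theorem eq_one (hf : InClass 1 f) (D : OD f) {θ : ℝ} (hθ : θ ∈ Ioo 0 π)
    (h : {t | ind 1 f t ≠ ⊤} ∈ 𝓝 θ) :
    ind 1 f θ + ((2 * D.c * Real.sin θ : ℝ) : EReal) = ind 1 f (-θ) := by
  refine le_antisymm (le_one hf D hθ) ?_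
  by_contra hcon
  rw [not_le] at hcon
  have hsin : 0 < Real.sin θ := Real.sin_pos_of_pos_of_lt_pi hθ.1 hθ.2
  obtain ⟨b, hb1, hb2⟩ := EReal.exists_between_coe_real hcon
  obtain ⟨b', hb'1, hb'2⟩ := EReal.exists_between_coe_real hb2
  have hbb : b < b' := by exact_mod_cast hb'1
  have hA : ind 1 f θ < ((b - 2 * D.c * Real.sin θ : ℝ) : EReal) := by
    by_contra hcon2
    rw [not_lt] at hcon2
    exact absurd hb1 (not_lt.2 (oe_le_add hcon2))
  set κ : ℝ := (b' - b) / 2 with hκ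
  have hκ0 : 0 < κ := by rw [hκ]; linarith
  obtain ⟨δ₀, hδ₀, hup⟩ := oe_upper hf hκ0 h hA
  set δ : ℝ := min (δ₀ / 2) (min (1 / 2) (Real.sin θ / 2)) with hδ
  have hδ0 : 0 < δ := by rw [hδ]; positivity
  have hδa : δ < δ₀ := lt_of_le_of_lt (min_le_left _ _) (by linarith)
  have hδb : δ < 1 := lt_of_le_of_lt ((min_le_right _ _).trans (min_le_left _ _)) (by norm_num)
  have hδc : δ < Real.sin θ :=
    lt_of_le_of_lt ((min_le_right _ _).trans (min_le_right _ _)) (by linarith)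
  obtain ⟨r, hr1, hr2, hr3, hr0⟩ := ((frequently_of_lt_ind hb'2).and_eventually
    ((hup δ ⟨hδ0, hδa⟩).and ((circ_avg hf D hθ (δ := δ) ⟨hδ0, hδb⟩ (ε := κ / 2)
      (by linarith)).and (eventually_gt_atTop 0)))).exists
  have hne : f (-I) ≠ 0 := hf.zero_free (-I) (by simp)
  have h1 := circleAverage_log_le hf.entire hne (c := ray r θ) (R := δ * r)
    (A := (b - 2 * D.c * Real.sin θ + κ) * r) (by positivity) fun z hz => hr2 z (by
      rw [mem_sphere_iff_norm] at hz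
      exact hz.le)
  rw [oe_lower hf hδ0.le hδc hr0] at hr3
  rw [Real.rpow_one] at hr1
  have hpos : 0 < ‖f (ray r (-θ))‖ := lt_of_le_of_lt (Real.exp_pos _).le hr1
  have h2 := (Real.lt_log_iff_exp_lt hpos).2 hr1
  have h3 : 0 < κ * r := mul_pos hκ0 hr0
  have h4 : b' * r - b * r = 2 * κ * r := by rw [hκ]; ring
  nlinarith

end HBOne
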