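import Pool.Agent.HBInf.SlowPath

/-!
# Slowly varying paths with long plateaus

`slow_path2`: apply the construction of `Pool.Agent.HBInf.SlowPath` (its lemmas `slp_*` are public) to the sequence
`q' i = q (i / 16)` in which every point is repeated 16 times. The path is constant `= q j` on
`[slp_T (16 j) + slp_w (16 j), slp_T (16 j + 16)]` (`slp_val` with equal consecutive points), an interval of length
`≥ 15 * 5` (`slp_T_succ`, `slp_w_pos`; `slp_w ≥ 1`). Let `T j` be a half-integer near its middle. Between two consecutive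
centres the path moves on the segment from `q j` to `q (j+1)`, before `T 0` from `0` to `q 0`.
-/

namespace HBOne

open HBInd HBInf Filter Topology Set

/-- every point repeated 16 times -/
def pth_q {m : ℕ} (q : ℕ → Fin m → ℝ) (i : ℕ) : Fin m → ℝ := q (i / 16)

section
variable {m : ℕ} (q : ℕ → Fin m → ℝ)

lemma pth_w_ge (j : ℕ) : 1 ≤ slp_w (pth_q q) j := by
  have h1 : (1 : ℝ) ≤ 4 ^ j := one_le_pow₀ (by norm_num)
  have h2 : 1 ≤ slp_D (pth_q q) j := by
    have : 0 ≤ ∑ i ∈ Finset.range (j + 1), ∑ l, |pth_q q i l| :=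
      Finset.sum_nonneg fun i _ => Finset.sum_nonneg fun l _ => abs_nonneg _
    unfold slp_D
    linarith
  unfold slp_w
  nlinarith

lemma pth_T_add (j k : ℕ) : slp_T (pth_q q) j + 5 * k ≤ slp_T (pth_q q) (j + k) := by
  induction k with
  | zero => simp
  | succ k ih =>
    have h1 := slp_T_succ (pth_q q) (j + k)
    have h2 := pth_w_ge q (j + k)
    rw [← add_assoc, h1]
    push_cast
    linarith

lemma pth_plateau {t : ℝ} {j : ℕ} (h1 : slp_T (pth_q q) (16 * j + 1) ≤ t)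
    (h2 : t ≤ slp_T (pth_q q) (16 * j + 16)) (l : Fin m) : slp_Q (pth_q q) t l = q j l := by
  have hex : ∃ k, 16 * j ≤ k ∧ k ≤ 16 * j + 14 ∧ slp_T (pth_q q) (k + 1) ≤ t ∧
      t ≤ slp_T (pth_q q) (k + 1 + 1) := by
    rcases eq_or_lt_of_le h2 with h3 | h3
    · refine ⟨16 * j + 14, by omega, le_rfl, ?_, h2⟩
      rw [h3]
      exact slp_T_mono _ (by omega)
    · have h4 := slp_T_ge (pth_q q) (16 * j + 1)
      have h5 : (0 : ℝ) ≤ ((16 * j + 1 : ℕ) : ℝ) := Nat.cast_nonneg _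
      obtain ⟨i, hi1, hi2⟩ := slp_exists (pth_q q) (show 1 ≤ t by linarith)
      have h6 : 16 * j + 1 ≤ i := by
        by_contra hcon
        have h7 : i + 1 ≤ 16 * j + 1 := by omega
        have := slp_T_mono (pth_q q) h7
        linarith
      have h8 : i ≤ 16 * j + 15 := by
        by_contra hcon
        have h7 : 16 * j + 16 ≤ i := by omega
        have := slp_T_mono (pth_q q) h7
        linarith
      obtain ⟨k, rfl⟩ : ∃ k, i = k + 1 := ⟨i - 1, by omega⟩
      exact ⟨k, by omega, by omega, hi1, hi2.le⟩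
  obtain ⟨k, hk1, hk2, hk3, hk4⟩ := hex
  rw [slp_val (pth_q q) hk3 hk4 l]
  have e1 : k / 16 = j := by omega
  have e2 : (k + 1) / 16 = j := by omega
  simp only [slp_q', pth_q, e1, e2]
  ring

end

theorem slow_path2 {m : ℕ} (q : ℕ → Fin m → ℝ) : ∃ (Q : ℝ → Fin m → ℝ) (T : ℕ → ℝ),
    (∀ l, SlowFn fun t => Q t l) ∧ (∀ t ≤ 1, ∀ l, Q t l = 0) ∧
    (∃ C : ℝ, ∀ t l, |Q t l| ≤ C * (1 + |t|)) ∧
    (∀ ε : ℝ, 0 < ε → ∀ᶠ t : ℝ in atTop, ∀ l, |Q t l| ≤ ε * t) ∧
    (∀ j, ∃ n : ℕ, T j = n + 1 / 2) ∧ (∀ j : ℕ, (j : ℝ) + 10 ≤ T j) ∧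
    (∀ j, T j + 20 ≤ T (j + 1)) ∧
    (∀ j t, |t - T j| ≤ 8 → ∀ l, Q t l = q j l) ∧
    (∀ j t, T j ≤ t → t ≤ T (j + 1) → ∃ s ∈ Icc (0 : ℝ) 1,
      ∀ l, Q t l = (1 - s) * q j l + s * q (j + 1) l) ∧
    ∀ t ≤ T 0, ∃ s ∈ Icc (0 : ℝ) 1, ∀ l, Q t l = s * q 0 l := by
  have hA : ∀ j, slp_T (pth_q q) (16 * j + 1) + 75 ≤ slp_T (pth_q q) (16 * j + 16) := by
    intro j
    have := pth_T_add q (16 * j + 1) 15
    push_cast at this
    have e : 16 * j + 1 + 15 = 16 * j + 16 := by omega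
    rw [e] at this
    linarith
  have hB : ∀ j, slp_T (pth_q q) (16 * j + 16) ≤ slp_T (pth_q q) (16 * (j + 1) + 1) := fun j =>
    slp_T_mono _ (by omega)
  have hT1 : ∀ j, 0 ≤ slp_T (pth_q q) (16 * j + 1) := fun j => by
    have h4 := slp_T_ge (pth_q q) (16 * j + 1)
    have h5 : (0 : ℝ) ≤ ((16 * j + 1 : ℕ) : ℝ) := Nat.cast_nonneg _
    linarith
  set T : ℕ → ℝ := fun j => ((⌈slp_T (pth_q q) (16 * j + 1)⌉₊ + 20 : ℕ) : ℝ) + 1 / 2 with hTdef
  have hlo : ∀ j, slp_T (pth_q q) (16 * j + 1) + 20 ≤ T j := by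
    intro j
    have h1 := Nat.le_ceil (slp_T (pth_q q) (16 * j + 1))
    simp only [hTdef]
    push_cast
    linarith
  have hhi : ∀ j, T j ≤ slp_T (pth_q q) (16 * j + 1) + 22 := by
    intro j
    have h1 := (Nat.ceil_lt_add_one (hT1 j)).le
    simp only [hTdef]
    push_cast
    linarith
  have hpl : ∀ j t, slp_T (pth_q q) (16 * j + 1) ≤ t → t ≤ slp_T (pth_q q) (16 * j + 16) →
      ∀ l, slp_Q (pth_q q) t l = q j l := fun j t h1 h2 l => pth_plateau q h1 h2 l
  refine ⟨slp_Q (pth_q q), T, slp_slow (pth_q q), fun t ht l => slp_zero (pth_q q) ht l,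
    ⟨4 / 3, fun t l => ?_⟩, fun ε hε => slp_growth (pth_q q) hε, fun j => ⟨_, rfl⟩, fun j => ?_,
    fun j => ?_, fun j t ht l => ?_, fun j t h1 h2 => ?_, fun t ht => ?_⟩
  · have h := slp_lip (pth_q q) t 0 l
    rw [slp_zero (pth_q q) (show (0 : ℝ) ≤ 1 from zero_le_one), sub_zero, sub_zero] at h
    linarith
  · have h1 := hlo j
    have h2 := slp_T_ge (pth_q q) (16 * j + 1)
    push_cast at h2
    have h3 : (0 : ℝ) ≤ (j : ℝ) := Nat.cast_nonneg _
    linarith
  · have h1 := hlo (j + 1)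
    have h2 := hhi j
    have h3 := hA j
    have h4 := hB j
    linarith
  · have h1 := hlo j
    have h2 := hhi j
    have h3 := hA j
    have h5 := abs_le.1 ht
    exact hpl j t (by linarith [h5.1]) (by linarith [h5.2]) l
  · have g1 := hlo j
    have g2 := hhi (j + 1)
    have g3 := hA (j + 1)
    rcases le_or_gt t (slp_T (pth_q q) (16 * j + 16)) with h3 | h3
    · refine ⟨0, ⟨le_rfl, zero_le_one⟩, fun l => ?_⟩
      rw [hpl j t (by linarith) h3 l]
      ring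
    rcases le_or_gt t (slp_T (pth_q q) (16 * (j + 1) + 1)) with h4 | h4
    · have e : 16 * (j + 1) + 1 = 16 * j + 15 + 1 + 1 := by omega
      rw [e] at h4
      refine ⟨ramp (slp_T (pth_q q) (16 * j + 15 + 1)) (slp_w (pth_q q) (16 * j + 15 + 1)) t,
        ⟨ramp_nonneg _ _ _, ramp_le_one _ _ _⟩, fun l => ?_⟩
      rw [slp_val (pth_q q) (j := 16 * j + 15 + 1) h3.le h4 l]
      have e1 : (16 * j + 15) / 16 = j := by omega
      have e2 : (16 * j + 15 + 1) / 16 = j + 1 := by omega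
      simp only [slp_q', pth_q, e1, e2]
      ring
    · refine ⟨1, ⟨zero_le_one, le_rfl⟩, fun l => ?_⟩
      rw [hpl (j + 1) t h4.le (by linarith) l]
      ring
  · have g2 := hhi 0
    have g3 := hA 0
    simp only [Nat.mul_zero, Nat.zero_add] at g2 g3
    rcases le_or_gt t 1 with h3 | h3
    · refine ⟨0, ⟨le_rfl, zero_le_one⟩, fun l => ?_⟩
      rw [slp_zero (pth_q q) h3 l]
      ring
    rcases le_or_gt t (slp_T (pth_q q) 1) with h4 | h4
    · refine ⟨ramp (slp_T (pth_q q) 0) (slp_w (pth_q q) 0) t,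
        ⟨ramp_nonneg _ _ _, ramp_le_one _ _ _⟩, fun l => ?_⟩
      rw [slp_val (pth_q q) (j := 0) (by rw [slp_T_zero]; exact h3.le) h4 l]
      simp [slp_q', pth_q]
    · refine ⟨1, ⟨zero_le_one, le_rfl⟩, fun l => ?_⟩
      rw [hpl 0 t (by simpa using h4.le) (by simp only [Nat.mul_zero, Nat.zero_add]; linarith) l]
      ring

end HBOne
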