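import Pool.Agent.HBOne.OneBase
import Pool.Agent.HBOne.OnePath
import Pool.Agent.HBInf.SlowAsym

/-!
# Indicators with slowly varying parameters, order one

`ind_pot`: `≤`: as in `ind_realize` (`HBInf.IndReal`). `≥`: for real `g < limsup_j V (T j)`: for infinitely many `j`:
`V (T j) > g`; `T j` is a half-integer; `pot ≥ V - ε`; lower bound of `one_base` (`|T j - n| ≥ 1/2`).
`one_real`: `slow_path2` with `q j = ![b j, s j]`, `r τ = Q (τ/2) 1 / VV 0 (1/2) π` (`VV_pi_zero`), `≥ 0` as all `s j ≥ 0`. `asym_q` with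
`q τ = Q (τ/2) 1` (`SlowFn`, `ω (τ/2)`) and `vv_half`: `pot r b t θ = b t cos θ + s t |sin θ| + o(1)` uniformly in `θ`, with
`b t = Q t 0`, `s t = Q t 1`. On `[T j, T (j+1)]` the main term is a convex combination of the values
`v j = b j cos θ + s j |sin θ|` and `v (j+1)`. So the `limsup` over `t` is `≤ limsup v`, and the `v j` are attained at `T j`.
-/

namespace HBOne

open HBInd HBInf Complex Filter Topology Set MeasureTheory
open scoped Real ComplexConjugate

/-- every large point is between two consecutive centres -/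
lemma rea_between {T : ℕ → ℝ} (hT2 : ∀ j : ℕ, (j : ℝ) ≤ T j) (J : ℕ) {t : ℝ} (ht : T J ≤ t) :
    ∃ j, J ≤ j ∧ t ∈ Icc (T j) (T (j + 1)) := by
  classical
  have hex : ∃ k, J < k ∧ t < T k := by
    obtain ⟨k, hk⟩ := exists_nat_gt t
    refine ⟨max k (J + 1), lt_of_lt_of_le (Nat.lt_succ_self J) (le_max_right _ _), ?_⟩
    refine lt_of_lt_of_le (lt_of_lt_of_le hk ?_) (hT2 _)
    exact_mod_cast le_max_left k (J + 1)
  obtain ⟨h1, h2⟩ := Nat.find_spec hex
  obtain ⟨k, hk⟩ : ∃ k, Nat.find hex = k + 1 := ⟨Nat.find hex - 1, by omega⟩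
  rw [hk] at h1 h2
  refine ⟨k, by omega, ?_, h2.le⟩
  rcases Nat.lt_or_ge J k with h | h
  · by_contra hcon
    rw [not_le] at hcon
    have := Nat.find_min' hex ⟨h, hcon⟩
    omega
  · have : k = J := by omega
    rw [this]
    exact ht

theorem ind_pot {f : ℂ → ℂ} {P V : ℝ → ℝ} {θ : ℝ} {T : ℕ → ℝ}
    (hT1 : ∀ j, ∃ n : ℕ, T j = n + 1 / 2) (hT2 : ∀ j : ℕ, (j : ℝ) ≤ T j)
    (hU : ∀ ε : ℝ, 0 < ε → ∀ᶠ t : ℝ in atTop, ‖f (ray (Real.exp t) θ)‖ ≤
        Real.exp (Real.exp t * (P t + ε)))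
    (hL : ∀ ε : ℝ, 0 < ε → ε ≤ 1 / 8 → ∀ᶠ t : ℝ in atTop, (∀ n : ℤ, 1 / 4 ≤ |t - n|) →
        ∃ t' ∈ Icc t (t + ε),
          Real.exp (Real.exp t' * (P t - ε)) ≤ ‖f (ray (Real.exp t') θ)‖)
    (hPV : ∀ ε : ℝ, 0 < ε → ∀ᶠ t : ℝ in atTop, |P t - V t| ≤ ε)
    (hV : ∀ j, ∀ t ∈ Icc (T j) (T (j + 1)), V t ≤ max (V (T j)) (V (T (j + 1)))) :
    ind 1 f θ = limsup (fun j => ((V (T j) : ℝ) : EReal)) atTop := by
  refine le_antisymm ?_ ?_
  · rw [← EReal.le_of_forall_lt_iff_le]
    intro g hg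
    obtain ⟨g', hg1, hg2⟩ := EReal.lt_iff_exists_real_btwn.1 hg
    have hg3 : g' < g := EReal.coe_lt_coe_iff.1 hg2
    have h3 := eventually_lt_of_limsup_lt hg1
    obtain ⟨J, hJ⟩ := eventually_atTop.1 h3
    have h4 := (hU ((g - g') / 2) (by linarith)).and
      ((hPV ((g - g') / 2) (by linarith)).and (eventually_ge_atTop (T J)))
    apply ind_le_of_eventually
    filter_upwards [Real.tendsto_log_atTop.eventually h4, eventually_gt_atTop 0] with x hx hx0
    obtain ⟨hx1, hx2, hx3⟩ := hx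
    rw [Real.exp_log hx0] at hx1
    refine hx1.trans (Real.exp_le_exp.2 ?_)
    rw [Real.rpow_one, mul_comm]
    refine mul_le_mul_of_nonneg_right ?_ hx0.le
    obtain ⟨j, hj, hj2⟩ := rea_between hT2 J hx3
    have h6 : V (Real.log x) < g' := by
      refine lt_of_le_of_lt (hV j _ hj2) (max_lt ?_ ?_)
      · exact EReal.coe_lt_coe_iff.1 (hJ j hj)
      · exact EReal.coe_lt_coe_iff.1 (hJ (j + 1) (by omega))
    have h7 := (abs_le.1 hx2).2
    linarith
  · rw [← EReal.ge_of_forall_gt_iff_ge]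
    intro g hg
    obtain ⟨g', hg1, hg2⟩ := EReal.lt_iff_exists_real_btwn.1 hg
    have hg3 : g < g' := EReal.coe_lt_coe_iff.1 hg1
    have h3 := frequently_lt_of_lt_limsup (h := hg2)
    set ε : ℝ := min (1 / 8) ((g' - g) / 2) with hε
    have hε0 : 0 < ε := lt_min (by norm_num) (by linarith)
    have hε1 : ε ≤ 1 / 8 := min_le_left _ _
    have hε2 : ε ≤ (g' - g) / 2 := min_le_right _ _
    have hTt : Tendsto T atTop atTop := tendsto_atTop_mono hT2 tendsto_natCast_atTop_atTop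
    have h4 := h3.and_eventually ((hTt.eventually (hL ε hε0 hε1)).and
      (hTt.eventually (hPV ε hε0)))
    apply le_ind_of_frequently
    rw [frequently_atTop] at h4 ⊢
    intro X
    obtain ⟨N, hN⟩ := exists_nat_gt (Real.log (max X 1))
    obtain ⟨j, hj, hj1, hj2, hj3⟩ := h4 N
    have hhalf : ∀ n : ℤ, 1 / 4 ≤ |T j - n| := by
      intro n
      obtain ⟨k, hk⟩ := hT1 j
      rw [hk]
      rcases le_or_gt n (k : ℤ) with h | h
      · have h' : (n : ℝ) ≤ k := by exact_mod_cast h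
        rw [abs_of_nonneg (by linarith)]
        linarith
      · have h' : (k : ℝ) + 1 ≤ n := by exact_mod_cast h
        rw [abs_of_nonpos (by linarith)]
        linarith
    obtain ⟨t', ht', h5⟩ := hj2 hhalf
    have h6 : g' < V (T j) := EReal.coe_lt_coe_iff.1 hj1
    refine ⟨Real.exp t', ?_, ?_⟩
    · have h7 : max X 1 ≤ Real.exp t' := by
        rw [← Real.log_le_iff_le_exp (by positivity)]
        have h8 : (N : ℝ) ≤ j := by exact_mod_cast hj
        exact (hN.le.trans (h8.trans (hT2 j))).trans ht'.1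
      exact (le_max_left _ _).trans h7
    · refine le_trans (Real.exp_le_exp.2 ?_) h5
      rw [Real.rpow_one, mul_comm]
      refine mul_le_mul_of_nonneg_left ?_ (Real.exp_nonneg _)
      have h7 := (abs_le.1 hj3).1
      linarith

theorem one_real {b s : ℕ → ℝ} (hs : ∀ j, 0 ≤ s j) :
    ∃ f : ℂ → ℂ, Pre 1 f ∧ ∀ θ, ind 1 f θ =
      limsup (fun j => ((b j * Real.cos θ + s j * |Real.sin θ| : ℝ) : EReal)) atTop := by
  obtain ⟨Q, T, hslow, hzero, ⟨C, hC⟩, -, hT1, hT2, -, hplat, hseg, hini⟩ :=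
    slow_path2 (fun j => ![b j, s j])
  have hV0 : 0 < VV 0 (1 / 2) π := VV_pi_zero (by norm_num) (by norm_num)
  set V0 : ℝ := VV 0 (1 / 2) π with hV0def
  have hT2' : ∀ j : ℕ, (j : ℝ) ≤ T j := fun j => by linarith [hT2 j]
  -- the second component is nonnegative
  have hQ1 : ∀ t, 0 ≤ Q t 1 := by
    intro t
    rcases le_total t (T 0) with h | h
    · obtain ⟨σ, hσ, hσ2⟩ := hini t h
      rw [hσ2 1]
      exact mul_nonneg hσ.1 (hs 0)
    · obtain ⟨j, -, hj⟩ := rea_between hT2' 0 h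
      obtain ⟨σ, hσ, hσ2⟩ := hseg j t hj.1 hj.2
      rw [hσ2 1]
      exact add_nonneg (mul_nonneg (by linarith [hσ.2]) (hs j)) (mul_nonneg hσ.1 (hs (j + 1)))
  have hC0 : 0 ≤ C := by
    have h1 := hC 0 1
    have h2 := abs_nonneg (Q 0 1)
    rw [abs_zero] at h1
    linarith
  set r : ℝ → ℝ := fun τ => Q (τ / 2) 1 / V0 with hr
  have hrs : SlowFn r := by
    obtain ⟨hc, ω, hω, hb⟩ := hslow 1
    refine ⟨(hc.comp (continuous_id.div_const 2)).div_const V0, fun t => ω (t / 2) / V0, ?_, ?_⟩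
    · have h1 : Tendsto (fun t : ℝ => t / 2) atTop atTop := tendsto_id.atTop_div_const (by norm_num)
      have h2 := (hω.comp h1).div_const V0
      rw [zero_div] at h2
      exact h2
    · intro t u ht
      have h1 := hb (t / 2) (u / 2) (by linarith)
      have h0 := hb (t / 2) 0 (by linarith)
      have hω0 : 0 ≤ ω (t / 2) := by simpa using h0
      have e1 : r (t - u) - r t = (Q (t / 2 - u / 2) 1 - Q (t / 2) 1) / V0 := by
        simp only [hr]
        rw [sub_div t u 2, sub_div]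
      rw [e1, abs_div, abs_of_pos hV0, div_mul_eq_mul_div]
      refine div_le_div_of_nonneg_right (h1.trans (mul_le_mul_of_nonneg_left ?_ hω0)) hV0.le
      have hu := abs_nonneg u
      have h3 : |u / 2| ≤ |u| := by
        rw [abs_div, abs_of_pos (by norm_num : (0 : ℝ) < 2)]
        linarith
      exact pow_le_pow_left₀ (by positivity) (by linarith) 2
  have hdens : DensPos r (C / V0) := by
    refine ⟨hrs.1, fun t => div_nonneg (hQ1 _) hV0.le, fun t ht => ?_, fun t => ?_⟩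
    · simp only [hr]
      rw [hzero (t / 2) (by linarith) 1, zero_div]
    · simp only [hr]
      rw [div_mul_eq_mul_div]
      refine div_le_div_of_nonneg_right ?_ hV0.le
      refine (le_abs_self _).trans ((hC (t / 2) 1).trans (mul_le_mul_of_nonneg_left ?_ hC0))
      have hu := abs_nonneg t
      have h3 : |t / 2| ≤ |t| := by
        rw [abs_div, abs_of_pos (by norm_num : (0 : ℝ) < 2)]
        linarith
      nlinarith
  obtain ⟨f, hpre, -, -, hU, hL⟩ := one_base hdens (hslow 0)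
  refine ⟨f, hpre, fun θ => ?_⟩
  set V : ℝ → ℝ := fun t => Q t 0 * Real.cos θ + Q t 1 * |Real.sin θ| with hVdef
  have hQT : ∀ j l, Q (T j) l = (![b j, s j] : Fin 2 → ℝ) l := fun j l =>
    hplat j (T j) (by rw [sub_self, abs_zero]; norm_num) l
  have hVT : ∀ j, V (T j) = b j * Real.cos θ + s j * |Real.sin θ| := by
    intro j
    simp only [hVdef]
    rw [hQT j 0, hQT j 1]
    rfl
  have key := ind_pot (f := f) (P := fun t => pot r (fun t => Q t 0) t θ) (V := V) (θ := θ)
    (T := T) hT1 hT2' (fun ε hε => (hU ε hε).mono fun t ht => ht θ)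
    (fun ε hε hε1 => (hL ε hε hε1).mono fun t ht hn => ht hn θ) ?_ ?_
  · rw [key]
    congr 1
    funext j
    rw [hVT j]
  · intro ε hε
    have h1 := asym_q (p := 0) (ρ := 1 / 2) (by norm_num) (by norm_num) (by norm_num) hrs hε
    have h2 : Tendsto (fun t : ℝ => 2 * t) atTop atTop :=
      tendsto_id.const_mul_atTop (by norm_num)
    filter_upwards [h2.eventually h1] with t ht
    obtain ⟨-, h3⟩ := ht (2 * θ)
    have e1 : pot r (fun t => Q t 0) t θ - V t =
        (∫ u, kn 0 (1 / 2) u (2 * θ) * r (2 * t - u)) - r (2 * t) * VV 0 (1 / 2) (2 * θ) := by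
      rw [vv_half, ← hV0def]
      simp only [pot, hVdef, hr]
      have e2 : 2 * t / 2 = t := by ring
      rw [e2]
      field_simp
      ring
    rw [e1]
    exact h3
  · intro j t ht
    obtain ⟨σ, hσ, hσ2⟩ := hseg j t ht.1 ht.2
    have e1 : V t = (1 - σ) * V (T j) + σ * V (T (j + 1)) := by
      simp only [hVdef]
      rw [hσ2 0, hσ2 1, hQT j 0, hQT j 1, hQT (j + 1) 0, hQT (j + 1) 1]
      ring
    rw [e1]
    have h1 := le_max_left (V (T j)) (V (T (j + 1)))
    have h2 := le_max_right (V (T j)) (V (T (j + 1)))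
    have h3 := mul_le_mul_of_nonneg_left h1 (by linarith [hσ.2] : 0 ≤ 1 - σ)
    have h4 := mul_le_mul_of_nonneg_left h2 hσ.1
    linarith

end HBOne
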