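import Pool.Agent.HBOne.ExoPot
import Pool.Agent.HBOne.OnePath
import Pool.Agent.HBOne.KillProd
import Pool.Agent.HBOne.OneReal

/-!
# Different values on the two sides of a sector

Parameters: `oex_par`: `exo_par` for larger sequences, so that
`(j + 1) * (exp (3 lam j) * (1 + C j + |A j|)) ≤ N j`, `C j = M j - A j`, `e = π/2 - d`.
Stages of the path (`slow_path2`, `m = 2`, `q = (b, s)`): `q (2j) = (β j, σ j)`, `q (2j+1) = (-N j tan d + A j / cos d, N j)`;
`T' i` the centres, `T j = T' (2j+1)`. The value at `θ` (`|θ| ≤ π`) of the stage `2j+1` is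
`E_j θ = N j sin (|θ| - d) / cos d + A j cos θ / cos d`. `f = f₀ E`, `f₀` from `one_base` with `exoR`, `E` from `kill_prod` with the
centres `T j` and `m j = ⌈e^{T j} e C j / (log (lam j)/4 - log 2)⌉₊` (`p2`, `T j ≥ j`: summable).
`P t θ = pot`, by `exo_pot`: `= main t θ (+ C j pkT) + o(1)`, `main` = convex combinations of consecutive stage values.

* `|θ| < d`. Upper: if `|t - T j| ≤ 3`: `P ≤ -N j sin (d - |θ|)/cos d + |A j|/cos d + C j e^{3 λ} + 1 → -∞`, otherwise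
  `main ≤ max` of consecutive stages: `limsup P ≤ limsup (β j cos θ + σ j |sin θ|)` (`E_j θ → -∞`). `E`: upper bound.
  Lower: at `t = T' (2j)` (half-integer, `|t - T i| ≥ 20`), `E ≥ e^{-ε e^t}` on the whole interval `[t, t + ε]` (`θ - d` is not in
  `2πℤ`).
* `θ = d`: `E_j d = A j`. `|pkT| ≤ e^{-λ y²}` at `|θ| = d` (`(|θ| - π/2)² = e²`). Upper: if `|t - T j| ≤ 3`, `y = t - T j`, `w = (lam j)^{-1/4}`
  (`2 w < 1` by `l2`): if `|y| ≥ w` then `C j |pkT| ≤ C j e^{-√lam}` (`p1`), so `P ≤ A j + ε`; if `|y| < w` then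
  `‖E‖ ≤ (2|y|)^{m j} e^{ε e^t} ≤ (2w)^{m j} e^{εe^t} ≤ exp (- C j e^t + ε e^t)` as
  `m j log (1/(2w)) ≥ e^{T j} e C j ≥ C j e^t` for `t ≤ T j + 1`, and `P ≤ A j + C j + ε`: the total is `≤ A j + 2 ε`. Otherwise
  (`|t - T j| ≥ 3` for all `j`) `main ≤` max of consecutive stage values. Lower: at `t = T' (2j)` the value `β j cos d + σ j sin d`, at
  `t = T j + 4` the value `A j` (`E` bounded below there: `|t' - T i| ≥ 1/4`).
* `θ = -d`: upper: `P ≤ A j + C j + ε = M j + ε` near `T j`; `A j ≤ M j`. Lower: at `t = T j + 1/(2 lam j)`: `pkT = e^{-1/(4 lam)}`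
  (`cos 0 = 1`), so `P ≥ A j + C j e^{-1/(4 lam)} - ε ≥ M j - 2ε` (`p3`); `-d - d` is not in `2πℤ`: `E ≥ e^{-εe^t}`; and at `T' (2j)`.
* `d < |θ| ≤ π`: at `t = T j + 4`: `P ≥ N j sin (|θ| - d)/cos d - |A j|/cos d - 1 → ∞` (`sin (|θ| - d) > 0`), `E ≥ e^{-εe^t}`.
-/

namespace HBOne

open HBInd HBInf Complex Filter Topology Set MeasureTheory
open scoped Real ComplexConjugate

/-! ### parameters -/

lemma oex_par (K : ℝ) {A M : ℕ → ℝ} (h : ∀ j, A j ≤ M j) :
    ∃ lam N : ℕ → ℝ, ExoPar K A M lam N ∧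
      ∀ j : ℕ, ((j : ℝ) + 1) * (Real.exp (3 * lam j) * (1 + (M j - A j) + |A j|)) ≤ N j := by
  obtain ⟨lam, N, hp⟩ := exo_par (|K| + 1)
    (A := fun j : ℕ => -(((j : ℝ) + 1) * (1 + |A j|)))
    (M := fun j : ℕ => -(((j : ℝ) + 1) * (1 + |A j|)) + ((j : ℝ) + 1) * (1 + (M j - A j)))
    (fun j => by
      have h1 : (0 : ℝ) ≤ ((j : ℝ) + 1) * (1 + (M j - A j)) := by
        have := h j
        have : (0 : ℝ) ≤ j := Nat.cast_nonneg j
        exact mul_nonneg (by linarith) (by linarith [h j])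
      linarith)
  have hC : ∀ j : ℕ, M j - A j ≤ (-(((j : ℝ) + 1) * (1 + |A j|)) +
      ((j : ℝ) + 1) * (1 + (M j - A j))) - -(((j : ℝ) + 1) * (1 + |A j|)) := by
    intro j
    have h1 := h j
    have h2 : (0 : ℝ) ≤ j := Nat.cast_nonneg j
    nlinarith [mul_nonneg h2 (by linarith : (0 : ℝ) ≤ 1 + (M j - A j))]
  have hA : ∀ j : ℕ, |(-(((j : ℝ) + 1) * (1 + |A j|)))| = ((j : ℝ) + 1) * (1 + |A j|) := by
    intro j
    rw [abs_neg, abs_of_nonneg]
    have h2 : (0 : ℝ) ≤ j := Nat.cast_nonneg j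
    positivity
  have hp5 : ∀ j : ℕ, (j : ℝ) + 1 + (|K| + 1) * Real.exp (4 * lam j) *
      (((j : ℝ) + 1) * (1 + (M j - A j) + |A j|)) ≤ N j := by
    intro j
    have h0 := h j
    refine le_trans ?_ (hp.p5 j)
    have h1 : 0 ≤ (|K| + 1) * Real.exp (4 * lam j) := by positivity
    have h2 : (0 : ℝ) ≤ j := Nat.cast_nonneg j
    have h3 := hA j
    rw [h3]
    have h4 := abs_nonneg (A j)
    have h5 : ((j : ℝ) + 1) * (1 + (M j - A j) + |A j|) ≤ 1 + (-(((j : ℝ) + 1) * (1 + |A j|)) +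
        ((j : ℝ) + 1) * (1 + (M j - A j)) - -(((j : ℝ) + 1) * (1 + |A j|))) +
        ((j : ℝ) + 1) * (1 + |A j|) := by
      nlinarith
    nlinarith [mul_le_mul_of_nonneg_left h5 h1]
  refine ⟨lam, N, ⟨hp.l1, hp.l2, fun j => ?_, fun j => ?_, fun j => ?_, fun j => ?_,
    fun j => ?_⟩, fun j => ?_⟩
  · exact (mul_le_mul_of_nonneg_right (hC j) (Real.exp_pos _).le).trans (hp.p1 j)
  · refine le_trans ?_ (hp.p2 j)
    have hl := hp.l2 j
    exact div_le_div_of_nonneg_right (mul_le_mul_of_nonneg_left (hC j) (Real.exp_pos 1).le)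
      (by linarith)
  · refine (mul_le_mul_of_nonneg_right (hC j) ?_).trans (hp.p3 j)
    have h1 : (0 : ℝ) < lam j := by linarith [hp.l1 j]
    have h2 : Real.exp (-(1 / (4 * lam j))) ≤ 1 := Real.exp_le_one_iff.2 (by
      have : 0 < 1 / (4 * lam j) := by positivity
      linarith)
    linarith
  · exact (mul_le_mul_of_nonneg_right (hC j) (Real.exp_pos _).le).trans (hp.p4 j)
  · refine le_trans ?_ (hp5 j)
    have h0 := h j
    have h2 : (0 : ℝ) ≤ j := Nat.cast_nonneg j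
    have h4 := abs_nonneg (A j)
    have h5 : K * Real.exp (4 * lam j) ≤ (|K| + 1) * Real.exp (4 * lam j) :=
      mul_le_mul_of_nonneg_right (by linarith [le_abs_self K]) (Real.exp_pos _).le
    have h6 : (0 : ℝ) ≤ 1 + (M j - A j) + |A j| := by linarith
    have h7 : 0 ≤ (|K| + 1) * Real.exp (4 * lam j) := by positivity
    have h8 : K * Real.exp (4 * lam j) * (1 + (M j - A j) + |A j|) ≤
        (|K| + 1) * Real.exp (4 * lam j) * (((j : ℝ) + 1) * (1 + (M j - A j) + |A j|)) := by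
      calc _ ≤ (|K| + 1) * Real.exp (4 * lam j) * (1 + (M j - A j) + |A j|) :=
            mul_le_mul_of_nonneg_right h5 h6
        _ ≤ _ := by
            refine mul_le_mul_of_nonneg_left ?_ h7
            nlinarith
    linarith
  · refine le_trans ?_ (hp5 j)
    have h0 := h j
    have h2 : (0 : ℝ) ≤ j := Nat.cast_nonneg j
    have h4 := abs_nonneg (A j)
    have h6 : (0 : ℝ) ≤ ((j : ℝ) + 1) * (1 + (M j - A j) + |A j|) :=
      mul_nonneg (by linarith) (by linarith)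
    have h8 : Real.exp (3 * lam j) ≤ (|K| + 1) * Real.exp (4 * lam j) := by
      have h9 : Real.exp (3 * lam j) ≤ Real.exp (4 * lam j) :=
        Real.exp_le_exp.2 (by linarith [hp.l1 j])
      nlinarith [abs_nonneg K, Real.exp_pos (4 * lam j)]
    have h10 := mul_le_mul_of_nonneg_right h8 h6
    nlinarith

/-! ### the two bounds for the indicator -/

lemma oex_up {f₀ E : ℂ → ℂ} {θ : ℝ} {P : ℝ → ℝ} {L : EReal}
    (hU : ∀ ε : ℝ, 0 < ε → ∀ᶠ t : ℝ in atTop, ‖f₀ (ray (Real.exp t) θ)‖ ≤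
      Real.exp (Real.exp t * (P t + ε)))
    (hE : ∀ g : ℝ, L < g → ∀ ε : ℝ, 0 < ε → ∀ᶠ t : ℝ in atTop, ∃ c : ℝ,
      ‖E (ray (Real.exp t) θ)‖ ≤ Real.exp (Real.exp t * (c + ε)) ∧ P t + c ≤ g + ε) :
    ind 1 (fun z => f₀ z * E z) θ ≤ L := by
  rw [← EReal.le_of_forall_lt_iff_le]
  intro g hg
  obtain ⟨g', hg1, hg2⟩ := EReal.lt_iff_exists_real_btwn.1 hg
  have hg3 : g' < g := EReal.coe_lt_coe_iff.1 hg2
  have hε : 0 < (g - g') / 3 := by linarith
  apply ind_le_of_eventually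
  filter_upwards [Real.tendsto_log_atTop.eventually ((hU _ hε).and (hE g' hg1 _ hε)),
    eventually_gt_atTop 0] with x hx hx0
  obtain ⟨h1, c, h2, h3⟩ := hx
  rw [Real.exp_log hx0] at h1 h2
  rw [norm_mul, Real.rpow_one]
  calc ‖f₀ (ray x θ)‖ * ‖E (ray x θ)‖
      ≤ Real.exp (x * (P (Real.log x) + (g - g') / 3)) * Real.exp (x * (c + (g - g') / 3)) :=
        mul_le_mul h1 h2 (norm_nonneg _) (Real.exp_pos _).le
    _ = Real.exp (x * (P (Real.log x) + c + 2 * ((g - g') / 3))) := by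
        rw [← Real.exp_add]
        congr 1
        ring
    _ ≤ Real.exp (g * x) := by
        apply Real.exp_le_exp.2
        rw [mul_comm g x]
        exact mul_le_mul_of_nonneg_left (by linarith) hx0.le

lemma oex_low {f₀ E : ℂ → ℂ} {θ : ℝ} {P : ℝ → ℝ} {u τ : ℕ → ℝ}
    (hτ : ∀ j : ℕ, (j : ℝ) ≤ τ j) (hτn : ∀ j, ∀ n : ℤ, 1 / 4 ≤ |τ j - n|)
    (hL : ∀ ε : ℝ, 0 < ε → ε ≤ 1 / 8 → ∀ᶠ t : ℝ in atTop, (∀ n : ℤ, 1 / 4 ≤ |t - n|) →
      ∃ t' ∈ Icc t (t + ε),
        Real.exp (Real.exp t' * (P t - ε)) ≤ ‖f₀ (ray (Real.exp t') θ)‖)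
    (hE : ∀ ε : ℝ, 0 < ε → ∀ᶠ j in atTop, ∀ t' ∈ Icc (τ j) (τ j + 1 / 8),
      Real.exp (-(ε * Real.exp t')) ≤ ‖E (ray (Real.exp t') θ)‖)
    (hP : ∀ ε : ℝ, 0 < ε → ∀ᶠ j in atTop, u j - ε ≤ P (τ j)) :
    limsup (fun j => ((u j : ℝ) : EReal)) atTop ≤ ind 1 (fun z => f₀ z * E z) θ := by
  rw [← EReal.ge_of_forall_gt_iff_ge]
  intro g hg
  obtain ⟨g', hg1, hg2⟩ := EReal.lt_iff_exists_real_btwn.1 hg
  have hg3 : g < g' := EReal.coe_lt_coe_iff.1 hg1
  obtain ⟨ε, hε, hε1, hε2⟩ : ∃ ε : ℝ, 0 < ε ∧ ε ≤ 1 / 8 ∧ ε ≤ (g' - g) / 3 :=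
    ⟨min (1 / 8) ((g' - g) / 3), lt_min (by norm_num) (by linarith), min_le_left _ _,
      min_le_right _ _⟩
  have hτt : Tendsto τ atTop atTop := tendsto_atTop_mono hτ tendsto_natCast_atTop_atTop
  have h1 := frequently_lt_of_lt_limsup (h := hg2)
  have h2 := (h1.and_eventually (hτt.eventually (hL ε hε hε1))).and_eventually
    ((hE ε hε).and (hP ε hε))
  apply le_ind_of_frequently
  rw [frequently_atTop] at h2 ⊢
  intro X
  obtain ⟨j, hj, ⟨hj1, hj2⟩, hj3, hj4⟩ := h2 ⌈Real.log (max X 1)⌉₊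
  obtain ⟨t', ht', h5⟩ := hj2 (hτn j)
  have h6 := hj3 t' ⟨ht'.1, by linarith [ht'.2]⟩
  have h7 : g' < u j := EReal.coe_lt_coe_iff.1 hj1
  refine ⟨Real.exp t', ?_, ?_⟩
  · have h8 : max X 1 ≤ Real.exp t' := by
      rw [← Real.log_le_iff_le_exp (by positivity)]
      have h9 : Real.log (max X 1) ≤ (j : ℝ) :=
        (Nat.le_ceil _).trans (Nat.cast_le.2 hj)
      exact h9.trans ((hτ j).trans ht'.1)
    exact (le_max_left _ _).trans h8
  · rw [norm_mul, Real.rpow_one]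
    calc Real.exp (g * Real.exp t')
        ≤ Real.exp (Real.exp t' * (P (τ j) - ε)) * Real.exp (-(ε * Real.exp t')) := by
          rw [← Real.exp_add]
          apply Real.exp_le_exp.2
          have h10 : g ≤ P (τ j) - 2 * ε := by linarith
          have h11 := mul_le_mul_of_nonneg_right h10 (Real.exp_pos t').le
          nlinarith
      _ ≤ _ := mul_le_mul h5 h6 (Real.exp_pos _).le (norm_nonneg _)

/-! ### elementary facts -/

lemma oex_parity {p : ℕ → Prop} (h0 : ∀ᶠ j in atTop, p (2 * j))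
    (h1 : ∀ᶠ j in atTop, p (2 * j + 1)) : ∀ᶠ i in atTop, p i := by
  obtain ⟨a, ha⟩ := eventually_atTop.1 h0
  obtain ⟨b, hb⟩ := eventually_atTop.1 h1
  refine eventually_atTop.2 ⟨2 * max a b + 1, fun i hi => ?_⟩
  have h2 : a ≤ max a b := le_max_left _ _
  have h3 : b ≤ max a b := le_max_right _ _
  obtain ⟨k, hk | hk⟩ := Nat.even_or_odd' i
  · rw [hk]
    exact ha k (by omega)
  · rw [hk]
    exact hb k (by omega)

/-- location of a large number between two consecutive centres -/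
lemma oex_locate {T : ℕ → ℝ} (hT : ∀ j : ℕ, (j : ℝ) ≤ T j) {p : ℕ → Prop}
    (hp : ∀ᶠ i in atTop, p i) :
    ∀ᶠ t : ℝ in atTop, ∃ i, T i ≤ t ∧ t ≤ T (i + 1) ∧ p i ∧ p (i + 1) := by
  obtain ⟨a, ha⟩ := eventually_atTop.1 hp
  refine (eventually_ge_atTop (T a)).mono fun t ht => ?_
  have hex : ∃ i, t ≤ T (a + i + 1) := by
    refine ⟨⌈t⌉₊, ?_⟩
    have h1 := hT (a + ⌈t⌉₊ + 1)
    have h2 := Nat.le_ceil t
    push_cast at h1
    have h3 : (0 : ℝ) ≤ a := Nat.cast_nonneg a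
    linarith
  classical
  obtain ⟨i, hi⟩ : ∃ i, Nat.find hex = i := ⟨_, rfl⟩
  have hi1 := Nat.find_spec hex
  rw [hi] at hi1
  refine ⟨a + i, ?_, hi1, ha _ (by omega), ha _ (by omega)⟩
  rcases Nat.eq_zero_or_pos i with h0 | h0
  · rw [h0]
    exact ht
  · have h2 := Nat.find_min hex (m := i - 1) (by omega)
    rw [not_le] at h2
    have h3 : a + (i - 1) + 1 = a + i := by omega
    rw [h3] at h2
    exact h2.le

lemma oex_near {T : ℕ → ℝ} (hT : Monotone T) {p : ℕ → Prop}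
    (hp : ∀ᶠ i in atTop, p i) : ∀ᶠ t : ℝ in atTop, ∀ j, |t - T j| ≤ 3 → p j := by
  obtain ⟨a, ha⟩ := eventually_atTop.1 hp
  refine (eventually_gt_atTop (T a + 3)).mono fun t ht j hj => ha j ?_
  by_contra hcon
  rw [not_le] at hcon
  have h1 := hT hcon.le
  have h2 := (abs_le.1 hj).2
  linarith

lemma oex_pow_half {ε : ℝ} (hε : 0 < ε) : ∀ᶠ j : ℕ in atTop, (1 / 2 : ℝ) ^ j ≤ ε := by
  have h := tendsto_pow_atTop_nhds_zero_of_lt_one (r := (1 / 2 : ℝ)) (by norm_num) (by norm_num)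
  exact (h.eventually (gt_mem_nhds hε)).mono fun j hj => hj.le

lemma oex_half {n : ℕ} {x y : ℝ} (hx : x = n + 1 / 2) (hy : |y| ≤ 1 / 4) (k : ℤ) :
    1 / 4 ≤ |x + y - k| := by
  have h1 : 1 / 2 ≤ |x - k| := by
    rw [hx]
    rcases le_or_gt k (n : ℤ) with h | h
    · have h2 : (k : ℝ) ≤ n := by exact_mod_cast h
      rw [abs_of_nonneg (by linarith)]
      linarith
    · have h2 : ((n : ℤ) : ℝ) + 1 ≤ k := by exact_mod_cast h
      have h3 : (n : ℝ) + 1 ≤ k := by exact_mod_cast h2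
      rw [abs_of_nonpos (by linarith)]
      linarith
  have h2 : |x - k| ≤ |x + y - k| + |y| := by
    have h3 := abs_sub (x + y - k) y
    have h4 : x + y - k - y = x - k := by ring
    rwa [h4] at h3
  linarith

lemma oex_pkT_le {lam e y θ : ℝ} (hl : 1 ≤ lam) (hθ : |θ| ≤ π) :
    |pkT lam e y θ| ≤ Real.exp (3 * lam) := by
  unfold pkT
  rw [abs_mul, abs_of_pos (Real.exp_pos _)]
  have h1 : |Real.cos ((|θ| - π / 2) * (1 - 2 * lam * y))| ≤ 1 := Real.abs_cos_le_one _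
  have h2 : (|θ| - π / 2) ^ 2 ≤ 3 := by
    have h3 : |(|θ| - π / 2)| ≤ π / 2 := by
      rw [abs_le]
      constructor <;> linarith [abs_nonneg θ]
    have h4 : π / 2 ≤ 1.6 := by linarith [Real.pi_lt_d2]
    have h5 : (|θ| - π / 2) ^ 2 ≤ (π / 2) ^ 2 := sq_le_sq.2 (by
      rwa [abs_of_pos (by positivity : 0 < π / 2)])
    nlinarith [Real.pi_pos]
  calc _ ≤ 1 * Real.exp (3 * lam) := by
        refine mul_le_mul h1 (Real.exp_le_exp.2 ?_) (Real.exp_pos _).le zero_le_one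
        nlinarith [sq_nonneg y, sq_nonneg e]
    _ = _ := one_mul _

lemma oex_pkT_d {lam y θ d : ℝ} (hθ : |θ| = d) :
    |pkT lam (π / 2 - d) y θ| ≤ Real.exp (-(lam * y ^ 2)) := by
  unfold pkT
  rw [abs_mul, abs_of_pos (Real.exp_pos _), hθ]
  have h1 : |Real.cos ((d - π / 2) * (1 - 2 * lam * y))| ≤ 1 := Real.abs_cos_le_one _
  have h2 : -(lam * (y ^ 2 - (d - π / 2) ^ 2 + (π / 2 - d) ^ 2)) = -(lam * y ^ 2) := by ring
  rw [h2]
  calc _ ≤ 1 * Real.exp (-(lam * y ^ 2)) := mul_le_mul_of_nonneg_right h1 (Real.exp_pos _).le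
    _ = _ := one_mul _

/-! ### the stages of the path -/

/-- the stages of the path -/
noncomputable def oex_q (d : ℝ) (β σ A N : ℕ → ℝ) (i : ℕ) : Fin 2 → ℝ :=
  if i % 2 = 0 then ![β (i / 2), σ (i / 2)]
  else ![(A (i / 2) - N (i / 2) * Real.sin d) / Real.cos d, N (i / 2)]

/-- the value of the stage `i` -/
noncomputable def oex_v (d : ℝ) (β σ A N : ℕ → ℝ) (i : ℕ) (θ : ℝ) : ℝ :=
  oex_q d β σ A N i 0 * Real.cos θ + oex_q d β σ A N i 1 * |Real.sin θ|

lemma oex_q_even (d : ℝ) (β σ A N : ℕ → ℝ) (j : ℕ) :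
    oex_q d β σ A N (2 * j) = ![β j, σ j] := by
  have h1 : 2 * j % 2 = 0 := by omega
  have h2 : 2 * j / 2 = j := by omega
  rw [oex_q, if_pos h1, h2]

lemma oex_q_odd (d : ℝ) (β σ A N : ℕ → ℝ) (j : ℕ) :
    oex_q d β σ A N (2 * j + 1) = ![(A j - N j * Real.sin d) / Real.cos d, N j] := by
  have h1 : ¬ (2 * j + 1) % 2 = 0 := by omega
  have h2 : (2 * j + 1) / 2 = j := by omega
  rw [oex_q, if_neg h1, h2]

lemma oex_v_even (d : ℝ) (β σ A N : ℕ → ℝ) (j : ℕ) (θ : ℝ) :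
    oex_v d β σ A N (2 * j) θ = β j * Real.cos θ + σ j * |Real.sin θ| := by
  rw [oex_v, oex_q_even]
  simp

lemma oex_v_odd {d : ℝ} (hcd : 0 < Real.cos d) (β σ A N : ℕ → ℝ) (j : ℕ) {θ : ℝ}
    (hθ : |θ| ≤ π) :
    oex_v d β σ A N (2 * j + 1) θ = (N j * Real.sin (|θ| - d) + A j * Real.cos θ) / Real.cos d := by
  rw [oex_v, oex_q_odd, Real.abs_sin_eq_sin_abs_of_abs_le_pi hθ, Real.sin_sub, Real.cos_abs]
  simp only [Matrix.cons_val_zero, Matrix.cons_val_one]
  field_simp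
  ring

/-! ### the construction -/

/-- the data of the construction -/
structure Oex (d : ℝ) (β σ A M lam N : ℕ → ℝ) (Q : ℝ → Fin 2 → ℝ) (T : ℕ → ℝ)
    (P : ℝ → ℝ → ℝ) (m : ℕ → ℕ) (f₀ E : ℂ → ℂ) : Prop where
  hd : d ∈ Ioo 0 (π / 2)
  hAM : ∀ j, A j ≤ M j
  hp : ExoPar (8 * VV 0 (1 / 2) π) A M lam N
  hN : ∀ j : ℕ, ((j : ℝ) + 1) * (Real.exp (3 * lam j) * (1 + (M j - A j) + |A j|)) ≤ N j
  hTn : ∀ j, ∃ n : ℕ, T j = n + 1 / 2
  hT10 : ∀ j : ℕ, (j : ℝ) + 10 ≤ T j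
  hstep : ∀ j, T j + 20 ≤ T (j + 1)
  hplat : ∀ j t, |t - T j| ≤ 8 → ∀ l, Q t l = oex_q d β σ A N j l
  hseg : ∀ j t, T j ≤ t → t ≤ T (j + 1) → ∃ s ∈ Icc (0 : ℝ) 1,
      ∀ l, Q t l = (1 - s) * oex_q d β σ A N j l + s * oex_q d β σ A N (j + 1) l
  hfU : ∀ ε : ℝ, 0 < ε → ∀ᶠ t : ℝ in atTop, ∀ θ : ℝ, ‖f₀ (ray (Real.exp t) θ)‖ ≤
        Real.exp (Real.exp t * (P t θ + ε))
  hfL : ∀ ε : ℝ, 0 < ε → ε ≤ 1 / 8 → ∀ᶠ t : ℝ in atTop, (∀ n : ℤ, 1 / 4 ≤ |t - n|) → ∀ θ : ℝ,
        ∃ t' ∈ Icc t (t + ε),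
          Real.exp (Real.exp t' * (P t θ - ε)) ≤ ‖f₀ (ray (Real.exp t') θ)‖
  hpot : ∀ ε : ℝ, 0 < ε → ∀ᶠ t : ℝ in atTop, ∀ θ : ℝ, |θ| ≤ π →
      ((∀ j, 3 ≤ |t - T (2 * j + 1)|) → |P t θ -
        (Q t 0 * Real.cos θ + Q t 1 * |Real.sin θ|)| ≤ ε) ∧
      ∀ j, |t - T (2 * j + 1)| ≤ 3 → |P t θ -
        (Q t 0 * Real.cos θ + Q t 1 * |Real.sin θ| +
          (M j - A j) * pkT (lam j) (π / 2 - d) (t - T (2 * j + 1)) θ)| ≤ ε
  hm : ∀ j, Real.exp (T (2 * j + 1)) *
      (Real.exp 1 * (M j - A j) / (Real.log (lam j) / 4 - Real.log 2)) ≤ m j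
  hEU : ∀ ε : ℝ, 0 < ε → ∀ᶠ t : ℝ in atTop, ∀ θ : ℝ, ‖E (ray (Real.exp t) θ)‖ ≤
        Real.exp (ε * Real.exp t)
  hEL : ∀ θ : ℝ, (∀ n : ℤ, θ - d ≠ n * (2 * π)) → ∀ ε : ℝ, 0 < ε → ∀ᶠ t : ℝ in atTop,
        Real.exp (-(ε * Real.exp t)) ≤ ‖E (ray (Real.exp t) θ)‖
  hEd : ∀ ε : ℝ, 0 < ε → ∀ᶠ t : ℝ in atTop, (∀ j, 1 / 4 ≤ |t - T (2 * j + 1)|) →
        Real.exp (-(ε * Real.exp t)) ≤ ‖E (ray (Real.exp t) d)‖
  hEk : ∀ ε : ℝ, 0 < ε → ∀ᶠ t : ℝ in atTop, ∀ j, |t - T (2 * j + 1)| ≤ 1 / 2 →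
        ‖E (ray (Real.exp t) d)‖ ≤ (2 * |t - T (2 * j + 1)|) ^ m j * Real.exp (ε * Real.exp t)

section

variable {d : ℝ} {β σ A M lam N : ℕ → ℝ} {Q : ℝ → Fin 2 → ℝ} {T : ℕ → ℝ} {P : ℝ → ℝ → ℝ}
  {m : ℕ → ℕ} {f₀ E : ℂ → ℂ}

lemma Oex.cos_pos (h : Oex d β σ A M lam N Q T P m f₀ E) : 0 < Real.cos d :=
  Real.cos_pos_of_mem_Ioo ⟨by linarith [h.hd.1, Real.pi_pos], h.hd.2⟩

lemma Oex.mono (h : Oex d β σ A M lam N Q T P m f₀ E) : Monotone T :=
  monotone_nat_of_le_succ fun j => by linarith [h.hstep j]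

lemma Oex.gap (h : Oex d β σ A M lam N Q T P m f₀ E) {i j : ℕ} (hij : i ≠ j) :
    20 ≤ |T i - T j| := by
  rcases lt_or_gt_of_ne hij with h1 | h1
  · have h2 := h.mono (Nat.succ_le_of_lt h1)
    have h3 := h.hstep i
    rw [Nat.succ_eq_add_one] at h2
    rw [abs_sub_comm]
    exact le_trans (by linarith) (le_abs_self _)
  · have h2 := h.mono (Nat.succ_le_of_lt h1)
    have h3 := h.hstep j
    rw [Nat.succ_eq_add_one] at h2
    exact le_trans (by linarith) (le_abs_self _)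

lemma Oex.le_T (h : Oex d β σ A M lam N Q T P m f₀ E) (j : ℕ) : (j : ℝ) ≤ T j := by
  linarith [h.hT10 j]

lemma Oex.C_nonneg (h : Oex d β σ A M lam N Q T P m f₀ E) (j : ℕ) : 0 ≤ M j - A j := by
  linarith [h.hAM j]

lemma Oex.lam_one (h : Oex d β σ A M lam N Q T P m f₀ E) (j : ℕ) : 1 ≤ lam j := h.hp.l1 j

lemma Oex.N_nonneg (h : Oex d β σ A M lam N Q T P m f₀ E) (j : ℕ) : 0 ≤ N j := by
  refine le_trans ?_ (h.hN j)
  have h1 := h.C_nonneg j
  have h2 := abs_nonneg (A j)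
  have h3 : (0 : ℝ) ≤ j := Nat.cast_nonneg j
  exact mul_nonneg (by linarith) (mul_nonneg (Real.exp_pos _).le (by linarith))

/-- the main term on the plateau `i` -/
lemma Oex.main_eq (h : Oex d β σ A M lam N Q T P m f₀ E) {i : ℕ} {t : ℝ}
    (ht : |t - T i| ≤ 8) (θ : ℝ) :
    Q t 0 * Real.cos θ + Q t 1 * |Real.sin θ| = oex_v d β σ A N i θ := by
  rw [oex_v, h.hplat i t ht, h.hplat i t ht]

lemma Oex.main_le (h : Oex d β σ A M lam N Q T P m f₀ E) {θ g : ℝ}
    (hv : ∀ᶠ i in atTop, oex_v d β σ A N i θ ≤ g) :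
    ∀ᶠ t : ℝ in atTop, Q t 0 * Real.cos θ + Q t 1 * |Real.sin θ| ≤ g := by
  filter_upwards [oex_locate h.le_T hv] with t ht
  obtain ⟨i, h1, h2, h3, h4⟩ := ht
  obtain ⟨s, hs, h5⟩ := h.hseg i t h1 h2
  rw [h5 0, h5 1]
  rw [oex_v] at h3 h4
  have h6 := mul_le_mul_of_nonneg_left h3 (by linarith [hs.2] : 0 ≤ 1 - s)
  have h7 := mul_le_mul_of_nonneg_left h4 hs.1
  nlinarith

/-- general upper bound -/
lemma Oex.upper (h : Oex d β σ A M lam N Q T P m f₀ E) {θ : ℝ} (hθ : |θ| ≤ π) {L : EReal}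
    (hv : ∀ g : ℝ, L < g → ∀ᶠ i in atTop, oex_v d β σ A N i θ ≤ g)
    (hk : ∀ g : ℝ, L < g → ∀ ε : ℝ, 0 < ε → ∀ᶠ t : ℝ in atTop, ∀ j, |t - T (2 * j + 1)| ≤ 3 →
      ∃ c : ℝ, ‖E (ray (Real.exp t) θ)‖ ≤ Real.exp (Real.exp t * (c + ε)) ∧
        oex_v d β σ A N (2 * j + 1) θ +
          (M j - A j) * pkT (lam j) (π / 2 - d) (t - T (2 * j + 1)) θ + c ≤ g + ε) :
    ind 1 (fun z => f₀ z * E z) θ ≤ L := by
  refine oex_up (P := fun t => P t θ) (fun ε hε => (h.hfU ε hε).mono fun t ht => ht θ)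
    fun g hg ε hε => ?_
  filter_upwards [h.main_le (hv g hg), hk g hg (ε / 2) (by linarith),
    h.hpot (ε / 2) (by linarith), h.hEU (ε / 2) (by linarith)] with t h1 h2 h3 h4
  by_cases hj : ∃ j, |t - T (2 * j + 1)| ≤ 3
  · obtain ⟨j, hj⟩ := hj
    obtain ⟨c, hc1, hc2⟩ := h2 j hj
    have h5 := (abs_le.1 ((h3 θ hθ).2 j hj)).2
    rw [h.main_eq (hj.trans (by norm_num)) θ] at h5
    refine ⟨c, hc1.trans (Real.exp_le_exp.2 ?_), by linarith⟩
    exact mul_le_mul_of_nonneg_left (by linarith) (Real.exp_pos t).le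
  · push Not at hj
    have h5 := (abs_le.1 ((h3 θ hθ).1 fun j => (hj j).le)).2
    refine ⟨0, (h4 θ).trans (Real.exp_le_exp.2 ?_), by linarith⟩
    rw [zero_add, mul_comm]
    exact mul_le_mul_of_nonneg_left (by linarith) (Real.exp_pos t).le

lemma oex_ne_int {θ : ℝ} (hd : d ∈ Ioo 0 (π / 2)) (hθ : |θ| ≤ π) (hne : θ ≠ d) (n : ℤ) :
    θ - d ≠ n * (2 * π) := by
  intro h1
  have h2 := abs_le.1 hθ
  have h3 : -(2 * π) < θ - d := by linarith [hd.2, Real.pi_pos]
  have h4 : θ - d < 2 * π := by linarith [hd.1, Real.pi_pos]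
  rw [h1] at h3 h4
  have h5 : (-1 : ℝ) < n := by nlinarith [Real.pi_pos]
  have h6 : (n : ℝ) < 1 := by nlinarith [Real.pi_pos]
  have h7 : (-1 : ℤ) < n := by exact_mod_cast h5
  have h8 : n < (1 : ℤ) := by exact_mod_cast h6
  have h9 : n = 0 := by omega
  rw [h9] at h1
  apply hne
  have h10 : θ - d = 0 := by rw [h1]; simp
  linarith

/-- lower bound of `E` away from the centres -/
lemma Oex.E_low (h : Oex d β σ A M lam N Q T P m f₀ E) {θ : ℝ} (hθ : |θ| ≤ π) {ε : ℝ}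
    (hε : 0 < ε) : ∀ᶠ t : ℝ in atTop, (∀ j, 1 / 4 ≤ |t - T (2 * j + 1)|) →
      Real.exp (-(ε * Real.exp t)) ≤ ‖E (ray (Real.exp t) θ)‖ := by
  rcases eq_or_ne θ d with h1 | h1
  · rw [h1]
    exact h.hEd ε hε
  · exact (h.hEL θ (oex_ne_int h.hd hθ h1) ε hε).mono fun t ht _ => ht

/-- general lower bound at the points `τ j` -/
lemma Oex.lower (h : Oex d β σ A M lam N Q T P m f₀ E) {θ : ℝ} (hθ : |θ| ≤ π) {u τ : ℕ → ℝ}
    (hτ : ∀ j : ℕ, (j : ℝ) ≤ τ j) (hτn : ∀ j, ∀ n : ℤ, 1 / 4 ≤ |τ j - n|)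
    (hE : ∀ j, ∀ t' ∈ Icc (τ j) (τ j + 1 / 8), θ = d → ∀ i, 1 / 4 ≤ |t' - T (2 * i + 1)|)
    (hP : ∀ ε : ℝ, 0 < ε → ∀ᶠ j in atTop, u j - ε ≤ P (τ j) θ) :
    limsup (fun j => ((u j : ℝ) : EReal)) atTop ≤ ind 1 (fun z => f₀ z * E z) θ := by
  have hτt : Tendsto τ atTop atTop := tendsto_atTop_mono hτ tendsto_natCast_atTop_atTop
  refine oex_low (P := fun t => P t θ) hτ hτn
    (fun ε hε hε1 => (h.hfL ε hε hε1).mono fun t ht hn => ht hn θ) (fun ε hε => ?_) hP
  rcases eq_or_ne θ d with h1 | h1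
  · obtain ⟨X, hX⟩ := eventually_atTop.1 (h.hEd ε hε)
    filter_upwards [hτt.eventually_ge_atTop X] with j hj t' ht'
    rw [h1]
    exact hX t' (hj.trans ht'.1) (hE j t' ht' h1)
  · obtain ⟨X, hX⟩ := eventually_atTop.1 (h.hEL θ (oex_ne_int h.hd hθ h1) ε hε)
    filter_upwards [hτt.eventually_ge_atTop X] with j hj t' ht'
    exact hX t' (hj.trans ht'.1)

lemma Oex.lower_even (h : Oex d β σ A M lam N Q T P m f₀ E) {θ : ℝ} (hθ : |θ| ≤ π) :
    limsup (fun j => ((β j * Real.cos θ + σ j * |Real.sin θ| : ℝ) : EReal)) atTop ≤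
      ind 1 (fun z => f₀ z * E z) θ := by
  have hle : ∀ j : ℕ, (j : ℝ) ≤ T (2 * j) := by
    intro j
    have h1 := h.hT10 (2 * j)
    push_cast at h1
    have h3 : (0 : ℝ) ≤ j := Nat.cast_nonneg j
    linarith
  have hgap : ∀ j i : ℕ, 20 ≤ |T (2 * j) - T (2 * i + 1)| := fun j i => h.gap (by omega)
  have hτt : Tendsto (fun j => T (2 * j)) atTop atTop :=
    tendsto_atTop_mono hle tendsto_natCast_atTop_atTop
  refine h.lower hθ (τ := fun j => T (2 * j)) hle (fun j n => ?_) (fun j t' ht' _ i => ?_)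
    fun ε hε => ?_
  · obtain ⟨k, hk⟩ := h.hTn (2 * j)
    have h1 := oex_half hk (y := 0) (by norm_num) n
    rwa [add_zero] at h1
  · have h1 := hgap j i
    have h2 := abs_sub_abs_le_abs_sub (T (2 * j) - T (2 * i + 1)) (T (2 * j) - t')
    have h3 : T (2 * j) - T (2 * i + 1) - (T (2 * j) - t') = t' - T (2 * i + 1) := by ring
    have h4 : |T (2 * j) - t'| ≤ 1 / 8 := by
      rw [abs_le]
      constructor <;> linarith [ht'.1, ht'.2]
    rw [h3] at h2
    linarith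
  · filter_upwards [hτt.eventually (h.hpot ε hε)] with j hj
    have h1 := (hj θ hθ).1 fun i => le_trans (by norm_num) (hgap j i)
    rw [h.main_eq (i := 2 * j) (by rw [sub_self, abs_zero]; norm_num) θ, oex_v_even] at h1
    linarith [(abs_le.1 h1).1]

lemma Oex.lower_odd (h : Oex d β σ A M lam N Q T P m f₀ E) {θ : ℝ} (hθ : |θ| ≤ π) :
    limsup (fun j => ((oex_v d β σ A N (2 * j + 1) θ : ℝ) : EReal)) atTop ≤
      ind 1 (fun z => f₀ z * E z) θ := by
  have hle : ∀ j : ℕ, (j : ℝ) ≤ T (2 * j + 1) + 4 := by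
    intro j
    have h1 := h.hT10 (2 * j + 1)
    push_cast at h1
    have h3 : (0 : ℝ) ≤ j := Nat.cast_nonneg j
    linarith
  have hgap : ∀ j i : ℕ, 4 ≤ |T (2 * j + 1) + 4 - T (2 * i + 1)| := by
    intro j i
    rcases eq_or_ne i j with h1 | h1
    · rw [h1]
      have h2 : T (2 * j + 1) + 4 - T (2 * j + 1) = 4 := by ring
      rw [h2]
      norm_num
    · have h2 := h.gap (i := 2 * j + 1) (j := 2 * i + 1) (by omega)
      have h3 := abs_sub_abs_le_abs_sub (T (2 * j + 1) - T (2 * i + 1)) (-4)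
      have h4 : T (2 * j + 1) - T (2 * i + 1) - -4 = T (2 * j + 1) + 4 - T (2 * i + 1) := by
        ring
      rw [h4] at h3
      have h5 : |(-4 : ℝ)| = 4 := by norm_num
      linarith
  have hτt : Tendsto (fun j => T (2 * j + 1) + 4) atTop atTop :=
    tendsto_atTop_mono hle tendsto_natCast_atTop_atTop
  refine h.lower hθ (τ := fun j => T (2 * j + 1) + 4) hle (fun j n => ?_)
    (fun j t' ht' _ i => ?_) fun ε hε => ?_
  · obtain ⟨k, hk⟩ := h.hTn (2 * j + 1)
    have h1 : T (2 * j + 1) + 4 = ((k + 4 : ℕ) : ℝ) + 1 / 2 := by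
      rw [hk]
      push_cast
      ring
    have h2 := oex_half h1 (y := 0) (by norm_num) n
    rwa [add_zero] at h2
  · have h1 := hgap j i
    have h2 := abs_sub_abs_le_abs_sub (T (2 * j + 1) + 4 - T (2 * i + 1))
      (T (2 * j + 1) + 4 - t')
    have h3 : T (2 * j + 1) + 4 - T (2 * i + 1) - (T (2 * j + 1) + 4 - t') =
        t' - T (2 * i + 1) := by ring
    have h4 : |T (2 * j + 1) + 4 - t'| ≤ 1 / 8 := by
      rw [abs_le]
      constructor <;> linarith [ht'.1, ht'.2]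
    rw [h3] at h2
    linarith
  · filter_upwards [hτt.eventually (h.hpot ε hε)] with j hj
    have h1 := (hj θ hθ).1 fun i => le_trans (by norm_num) (hgap j i)
    have h2 : T (2 * j + 1) + 4 - T (2 * j + 1) = 4 := by ring
    rw [h.main_eq (i := 2 * j + 1) (by rw [h2]; norm_num) θ] at h1
    linarith [(abs_le.1 h1).1]

lemma Oex.lower_peak (h : Oex d β σ A M lam N Q T P m f₀ E) :
    limsup (fun j => ((M j : ℝ) : EReal)) atTop ≤ ind 1 (fun z => f₀ z * E z) (-d) := by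
  have hlam : ∀ j, 2 ≤ lam j := by
    intro j
    have h1 := h.hp.l2 j
    have h2 : Real.log (lam j) ≤ lam j - 1 := Real.log_le_sub_one_of_pos (by linarith [h.lam_one j])
    have h3 : 0 < Real.log 2 := Real.log_pos (by norm_num)
    linarith
  have hy : ∀ j, 0 < 1 / (2 * lam j) ∧ 1 / (2 * lam j) ≤ 1 / 4 := by
    intro j
    have h1 := hlam j
    refine ⟨by positivity, ?_⟩
    exact one_div_le_one_div_of_le (by norm_num) (by linarith)
  have hdπ : |(-d)| ≤ π := by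
    rw [abs_neg, abs_of_pos h.hd.1]
    linarith [h.hd.2, Real.pi_pos]
  have hle : ∀ j : ℕ, (j : ℝ) ≤ T (2 * j + 1) + 1 / (2 * lam j) := by
    intro j
    have h1 := h.hT10 (2 * j + 1)
    push_cast at h1
    have h3 : (0 : ℝ) ≤ j := Nat.cast_nonneg j
    linarith [(hy j).1]
  have hτt : Tendsto (fun j => T (2 * j + 1) + 1 / (2 * lam j)) atTop atTop :=
    tendsto_atTop_mono hle tendsto_natCast_atTop_atTop
  refine h.lower hdπ (τ := fun j => T (2 * j + 1) + 1 / (2 * lam j)) hle (fun j n => ?_)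
    (fun j t' ht' hdd => ?_) fun ε hε => ?_
  · obtain ⟨k, hk⟩ := h.hTn (2 * j + 1)
    refine oex_half hk ?_ n
    rw [abs_of_pos (hy j).1]
    exact (hy j).2
  · linarith [h.hd.1]
  · filter_upwards [hτt.eventually (h.hpot (ε / 2) (by linarith)),
      oex_pow_half (ε := ε / 2) (by linarith)] with j hj hj2
    have h2 : T (2 * j + 1) + 1 / (2 * lam j) - T (2 * j + 1) = 1 / (2 * lam j) := by ring
    have h3 : |T (2 * j + 1) + 1 / (2 * lam j) - T (2 * j + 1)| ≤ 1 / 4 := by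
      rw [h2, abs_of_pos (hy j).1]
      exact (hy j).2
    have h1 := (hj (-d) hdπ).2 j (h3.trans (by norm_num))
    rw [h.main_eq (i := 2 * j + 1) (h3.trans (by norm_num)) (-d), oex_v_odd h.cos_pos _ _ _ _ _ hdπ,
      h2] at h1
    have h4 : pkT (lam j) (π / 2 - d) (1 / (2 * lam j)) (-d) =
        Real.exp (-(1 / (4 * lam j))) := by
      have h5 : lam j ≠ 0 := by linarith [hlam j]
      unfold pkT
      rw [abs_neg, abs_of_pos h.hd.1]
      have h6 : 1 - 2 * lam j * (1 / (2 * lam j)) = 0 := by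
        field_simp
        ring
      rw [h6, mul_zero, Real.cos_zero, one_mul]
      congr 1
      field_simp
      ring
    rw [h4, abs_neg, abs_of_pos h.hd.1, sub_self, Real.sin_zero, mul_zero, zero_add, Real.cos_neg,
      mul_div_assoc, div_self h.cos_pos.ne', mul_one] at h1
    have h7 := h.hp.p3 j
    have h8 := (abs_le.1 h1).1
    nlinarith

/-! ### upper bounds -/

lemma Oex.big (h : Oex d β σ A M lam N Q T P m f₀ E) {δ : ℝ} (hδ : 0 < δ) (g : ℝ) :
    ∀ᶠ j in atTop, g + |A j| + (M j - A j) * Real.exp (3 * lam j) ≤ N j * δ ∧ 0 ≤ g + |A j| +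
      (M j - A j) * Real.exp (3 * lam j) ∨ g + |A j| + (M j - A j) * Real.exp (3 * lam j) ≤ 0 := by
  filter_upwards [(tendsto_natCast_atTop_atTop (R := ℝ)).eventually_ge_atTop ((|g| + 1) / δ)]
    with j hj
  rcases le_or_gt (g + |A j| + (M j - A j) * Real.exp (3 * lam j)) 0 with h1 | h1
  · exact Or.inr h1
  · refine Or.inl ⟨?_, h1.le⟩
    have hC := h.C_nonneg j
    have hA := abs_nonneg (A j)
    have h2 : |g| + 1 ≤ (j : ℝ) * δ := by rwa [div_le_iff₀ hδ] at hj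
    have h3 : 1 ≤ Real.exp (3 * lam j) := Real.one_le_exp (by linarith [h.lam_one j])
    have h4 : (0 : ℝ) ≤ Real.exp (3 * lam j) * (1 + (M j - A j) + |A j|) := by positivity
    calc g + |A j| + (M j - A j) * Real.exp (3 * lam j)
        ≤ (|g| + 1) * (Real.exp (3 * lam j) * (1 + (M j - A j) + |A j|)) := by
          have h5 : 1 ≤ |g| + 1 := by linarith [abs_nonneg g]
          have h6 : |g| ≤ |g| * Real.exp (3 * lam j) := by
            nlinarith [abs_nonneg g]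
          have h7 : |A j| ≤ Real.exp (3 * lam j) * |A j| := by nlinarith
          have h8 := le_abs_self g
          have h9 : 0 ≤ |g| * (Real.exp (3 * lam j) * ((M j - A j) + |A j|)) := by positivity
          nlinarith [Real.exp_pos (3 * lam j)]
      _ ≤ ((j : ℝ) + 1) * δ * (Real.exp (3 * lam j) * (1 + (M j - A j) + |A j|)) :=
          mul_le_mul_of_nonneg_right (by nlinarith) h4
      _ = ((j : ℝ) + 1) * (Real.exp (3 * lam j) * (1 + (M j - A j) + |A j|)) * δ := by ring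
      _ ≤ N j * δ := mul_le_mul_of_nonneg_right (h.hN j) hδ.le

/-- inside the sector the odd stages are very negative -/
lemma Oex.odd_bot (h : Oex d β σ A M lam N Q T P m f₀ E) {θ : ℝ} (hθ : |θ| < d) (g : ℝ) :
    ∀ᶠ j in atTop,
      oex_v d β σ A N (2 * j + 1) θ + (M j - A j) * Real.exp (3 * lam j) ≤ g := by
  have hd := h.hd
  have hδ : 0 < Real.sin (d - |θ|) :=
    Real.sin_pos_of_pos_of_lt_pi (by linarith) (by linarith [abs_nonneg θ, hd.2, Real.pi_pos])
  filter_upwards [h.big hδ |g|] with j hj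
  have hC := h.C_nonneg j
  have hA := abs_nonneg (A j)
  have hN := h.N_nonneg j
  have hθ' : |θ| ≤ π := by linarith [hd.2, Real.pi_pos]
  have hc := h.cos_pos
  have hc1 : Real.cos d ≤ 1 := Real.cos_le_one d
  rw [oex_v_odd h.cos_pos _ _ _ _ _ hθ']
  have h1 : Real.sin (|θ| - d) = -Real.sin (d - |θ|) := by
    rw [← Real.sin_neg]
    congr 1
    ring
  have h2 : 0 ≤ (M j - A j) * Real.exp (3 * lam j) := by positivity
  have h3 : A j * Real.cos θ ≤ |A j| := by
    have h4 : |A j * Real.cos θ| ≤ |A j| := by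
      rw [abs_mul]
      exact mul_le_of_le_one_right hA (Real.abs_cos_le_one θ)
    exact (le_abs_self _).trans h4
  have h5 : |g| + |A j| + (M j - A j) * Real.exp (3 * lam j) ≤ N j * Real.sin (d - |θ|) := by
    rcases hj with hj | hj
    · exact hj.1
    · have := abs_nonneg g
      have h6 : 0 ≤ N j * Real.sin (d - |θ|) := by positivity
      linarith
  rw [h1]
  have h7 : (N j * -Real.sin (d - |θ|) + A j * Real.cos θ) / Real.cos d ≤
      -(|g| + (M j - A j) * Real.exp (3 * lam j)) := by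
    rw [div_le_iff₀ hc]
    have h8 : (|g| + (M j - A j) * Real.exp (3 * lam j)) * Real.cos d ≤
        |g| + (M j - A j) * Real.exp (3 * lam j) :=
      mul_le_of_le_one_right (by have := abs_nonneg g; linarith) hc1
    linarith
  linarith [neg_abs_le g]

/-- outside the sector the odd stages are very positive -/
lemma Oex.odd_top (h : Oex d β σ A M lam N Q T P m f₀ E) {θ : ℝ} (hθ : d < |θ|) (hθπ : |θ| ≤ π)
    (g : ℝ) : ∀ᶠ j in atTop, g ≤ oex_v d β σ A N (2 * j + 1) θ := by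
  have hd := h.hd
  have hδ : 0 < Real.sin (|θ| - d) :=
    Real.sin_pos_of_pos_of_lt_pi (by linarith) (by linarith [hd.1])
  filter_upwards [h.big hδ |g|] with j hj
  have hC := h.C_nonneg j
  have hA := abs_nonneg (A j)
  have hN := h.N_nonneg j
  have hc := h.cos_pos
  have hc1 : Real.cos d ≤ 1 := Real.cos_le_one d
  rw [oex_v_odd h.cos_pos _ _ _ _ _ hθπ]
  have h2 : 0 ≤ (M j - A j) * Real.exp (3 * lam j) := by positivity
  have h3 : -|A j| ≤ A j * Real.cos θ := by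
    have h4 : |A j * Real.cos θ| ≤ |A j| := by
      rw [abs_mul]
      exact mul_le_of_le_one_right hA (Real.abs_cos_le_one θ)
    linarith [neg_abs_le (A j * Real.cos θ)]
  have h5 : |g| + |A j| + (M j - A j) * Real.exp (3 * lam j) ≤ N j * Real.sin (|θ| - d) := by
    rcases hj with hj | hj
    · exact hj.1
    · have := abs_nonneg g
      have h6 : 0 ≤ N j * Real.sin (|θ| - d) := by positivity
      linarith
  rw [le_div_iff₀ hc]
  have h8 : g * Real.cos d ≤ |g| :=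
    (mul_le_mul_of_nonneg_right (le_abs_self g) hc.le).trans
      (mul_le_of_le_one_right (abs_nonneg g) hc1)
  linarith

lemma oex_limsup_lt {u : ℕ → ℝ} {g : ℝ} (h : limsup (fun j => ((u j : ℝ) : EReal)) atTop < g) :
    ∀ᶠ j in atTop, u j ≤ g :=
  (eventually_lt_of_limsup_lt h).mono fun _ hj => (EReal.coe_lt_coe_iff.1 hj).le

lemma Oex.upper_in (h : Oex d β σ A M lam N Q T P m f₀ E) {θ : ℝ} (hθ : |θ| < d) :
    ind 1 (fun z => f₀ z * E z) θ ≤
      limsup (fun j => ((β j * Real.cos θ + σ j * |Real.sin θ| : ℝ) : EReal)) atTop := by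
  have hθ' : |θ| ≤ π := by linarith [h.hd.2, Real.pi_pos]
  refine h.upper hθ' (fun g hg => ?_) (fun g _ ε hε => ?_)
  · refine oex_parity ?_ ?_
    · refine (oex_limsup_lt hg).mono fun j hj => ?_
      rwa [oex_v_even]
    · refine (h.odd_bot hθ g).mono fun j hj => ?_
      have h1 : 0 ≤ (M j - A j) * Real.exp (3 * lam j) :=
        mul_nonneg (h.C_nonneg j) (Real.exp_pos _).le
      linarith
  · have hmono : Monotone fun j => T (2 * j + 1) := fun i j hij => h.mono (by omega)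
    filter_upwards [oex_near hmono (h.odd_bot hθ g), h.hEU ε hε] with t ht1 ht2 j hj
    refine ⟨0, ?_, ?_⟩
    · rw [zero_add, mul_comm]
      exact ht2 θ
    · have h1 := ht1 j hj
      have h2 : (M j - A j) * pkT (lam j) (π / 2 - d) (t - T (2 * j + 1)) θ ≤
          (M j - A j) * Real.exp (3 * lam j) :=
        mul_le_mul_of_nonneg_left
          ((le_abs_self _).trans (oex_pkT_le (h.lam_one j) hθ')) (h.C_nonneg j)
      linarith

lemma Oex.odd_d (h : Oex d β σ A M lam N Q T P m f₀ E) {θ : ℝ} (hθ : |θ| = d) (j : ℕ) :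
    oex_v d β σ A N (2 * j + 1) θ = A j := by
  rw [oex_v_odd h.cos_pos _ _ _ _ _ (by linarith [h.hd.2, Real.pi_pos]), hθ, sub_self,
    Real.sin_zero, mul_zero, zero_add, ← Real.cos_abs θ, hθ, mul_div_assoc,
    div_self h.cos_pos.ne', mul_one]

lemma Oex.even_d (h : Oex d β σ A M lam N Q T P m f₀ E) {θ : ℝ} (hθ : |θ| = d) (j : ℕ) :
    β j * Real.cos θ + σ j * |Real.sin θ| = β j * Real.cos d + σ j * Real.sin d := by
  rw [← Real.cos_abs θ, Real.abs_sin_eq_sin_abs_of_abs_le_pi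
    (by linarith [h.hd.2, Real.pi_pos]), hθ]

lemma Oex.upper_neg (h : Oex d β σ A M lam N Q T P m f₀ E) :
    ind 1 (fun z => f₀ z * E z) (-d) ≤ max
      (limsup (fun j => ((β j * Real.cos d + σ j * Real.sin d : ℝ) : EReal)) atTop)
      (limsup (fun j => ((M j : ℝ) : EReal)) atTop) := by
  have habs : |(-d)| = d := by rw [abs_neg, abs_of_pos h.hd.1]
  have hθ' : |(-d)| ≤ π := by linarith [h.hd.2, Real.pi_pos]
  refine h.upper hθ' (fun g hg => ?_) (fun g hg ε hε => ?_)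
  · refine oex_parity ?_ ?_
    · refine (oex_limsup_lt (lt_of_le_of_lt (le_max_left _ _) hg)).mono fun j hj => ?_
      rwa [oex_v_even, h.even_d habs]
    · refine (oex_limsup_lt (lt_of_le_of_lt (le_max_right _ _) hg)).mono fun j hj => ?_
      rw [h.odd_d habs]
      linarith [h.hAM j]
  · have hmono : Monotone fun j => T (2 * j + 1) := fun i j hij => h.mono (by omega)
    filter_upwards [oex_near hmono (oex_limsup_lt (lt_of_le_of_lt (le_max_right _ _) hg)),
      h.hEU ε hε] with t ht1 ht2 j hj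
    refine ⟨0, ?_, ?_⟩
    · rw [zero_add, mul_comm]
      exact ht2 (-d)
    · have h1 := ht1 j hj
      have h3 : pkT (lam j) (π / 2 - d) (t - T (2 * j + 1)) (-d) ≤ 1 := by
        refine (le_abs_self _).trans ((oex_pkT_d habs).trans (Real.exp_le_one_iff.2 ?_))
        have := h.lam_one j
        have h4 : 0 ≤ lam j * (t - T (2 * j + 1)) ^ 2 := by positivity
        linarith
      have h2 : (M j - A j) * pkT (lam j) (π / 2 - d) (t - T (2 * j + 1)) (-d) ≤ (M j - A j) * 1 :=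
        mul_le_mul_of_nonneg_left h3 (h.C_nonneg j)
      rw [h.odd_d habs]
      linarith

lemma oex_small {l y : ℝ} (hl : 1 ≤ l) (hy : ¬ √l ≤ l * y ^ 2) :
    2 * |y| ≤ Real.exp (-(Real.log l / 4 - Real.log 2)) := by
  rw [not_le] at hy
  have h0 : 0 < l := by linarith
  have h1 : √l = Real.exp (Real.log l / 2) := by
    rw [Real.exp_half, Real.exp_log h0]
  have h2 : l = Real.exp (Real.log l / 2) * Real.exp (Real.log l / 2) := by
    rw [← Real.exp_add, add_halves, Real.exp_log h0]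
  have h3 : 0 < Real.exp (Real.log l / 2) := Real.exp_pos _
  have h4 : Real.exp (Real.log l / 2) * y ^ 2 < 1 := by
    rw [h1] at hy
    have h5 : Real.exp (Real.log l / 2) * (Real.exp (Real.log l / 2) * y ^ 2) <
        Real.exp (Real.log l / 2) * 1 := by
      calc _ = l * y ^ 2 := by rw [← mul_assoc, ← h2]
        _ < _ := by rwa [mul_one]
    exact lt_of_mul_lt_mul_left h5 h3.le
  have h6 : (2 * |y|) ^ 2 ≤ Real.exp (-(Real.log l / 4 - Real.log 2)) ^ 2 := by
    have h7 : Real.exp (-(Real.log l / 4 - Real.log 2)) ^ 2 =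
        4 * (Real.exp (Real.log l / 2))⁻¹ := by
      rw [← Real.exp_nat_mul, ← Real.exp_neg]
      have h8 : ((2 : ℕ) : ℝ) * -(Real.log l / 4 - Real.log 2) =
          Real.log 2 + Real.log 2 + -(Real.log l / 2) := by
        push_cast
        ring
      rw [h8, Real.exp_add, Real.exp_add, Real.exp_log (by norm_num)]
      norm_num
    rw [h7, mul_pow, sq_abs]
    have h9 : y ^ 2 ≤ (Real.exp (Real.log l / 2))⁻¹ := by
      rw [← one_div, le_div_iff₀ h3]
      linarith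
    linarith
  exact le_of_sq_le_sq h6 (Real.exp_pos _).le

lemma Oex.upper_pos (h : Oex d β σ A M lam N Q T P m f₀ E) :
    ind 1 (fun z => f₀ z * E z) d ≤ max
      (limsup (fun j => ((β j * Real.cos d + σ j * Real.sin d : ℝ) : EReal)) atTop)
      (limsup (fun j => ((A j : ℝ) : EReal)) atTop) := by
  have habs : |d| = d := abs_of_pos h.hd.1
  have hθ' : |d| ≤ π := by linarith [h.hd.2, Real.pi_pos]
  refine h.upper hθ' (fun g hg => ?_) (fun g hg ε hε => ?_)
  · refine oex_parity ?_ ?_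
    · refine (oex_limsup_lt (lt_of_le_of_lt (le_max_left _ _) hg)).mono fun j hj => ?_
      rwa [oex_v_even, h.even_d habs]
    · refine (oex_limsup_lt (lt_of_le_of_lt (le_max_right _ _) hg)).mono fun j hj => ?_
      rwa [h.odd_d habs]
  · have hmono : Monotone fun j => T (2 * j + 1) := fun i j hij => h.mono (by omega)
    filter_upwards [oex_near hmono ((oex_limsup_lt (lt_of_le_of_lt (le_max_right _ _) hg)).and
      (oex_pow_half hε)), h.hEU ε hε, h.hEk ε hε] with t ht1 ht2 ht3 j hj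
    obtain ⟨h1, h1'⟩ := ht1 j hj
    have hC := h.C_nonneg j
    have hl := h.lam_one j
    have h3 := (le_abs_self _).trans (oex_pkT_d (lam := lam j) (y := t - T (2 * j + 1)) habs)
    rw [h.odd_d habs]
    by_cases hy : √(lam j) ≤ lam j * (t - T (2 * j + 1)) ^ 2
    · refine ⟨0, ?_, ?_⟩
      · rw [zero_add, mul_comm]
        exact ht2 d
      · have h4 : (M j - A j) * pkT (lam j) (π / 2 - d) (t - T (2 * j + 1)) d ≤ (1 / 2) ^ j := by
          refine le_trans ?_ (h.hp.p1 j)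
          exact mul_le_mul_of_nonneg_left
            (h3.trans (Real.exp_le_exp.2 (by linarith))) hC
        linarith
    · have h5 := oex_small hl hy
      have h6 := h.hp.l2 j
      have h7 : 2 * |t - T (2 * j + 1)| ≤ 1 :=
        h5.trans (Real.exp_le_one_iff.2 (by linarith))
      have h8 : |t - T (2 * j + 1)| ≤ 1 / 2 := by linarith
      refine ⟨-(M j - A j), (ht3 j h8).trans ?_, ?_⟩
      · have h9 : (2 * |t - T (2 * j + 1)|) ^ m j ≤ Real.exp (-((M j - A j) * Real.exp t)) := by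
          calc (2 * |t - T (2 * j + 1)|) ^ m j
              ≤ Real.exp (-(Real.log (lam j) / 4 - Real.log 2)) ^ m j :=
                pow_le_pow_left₀ (by positivity) h5 _
            _ = Real.exp (-((m j : ℝ) * (Real.log (lam j) / 4 - Real.log 2))) := by
                rw [← Real.exp_nat_mul]
                congr 1
                ring
            _ ≤ _ := by
                apply Real.exp_le_exp.2
                have h10 := h.hm j
                have h11 : Real.exp t ≤ Real.exp (T (2 * j + 1)) * Real.exp 1 := by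
                  rw [← Real.exp_add]
                  exact Real.exp_le_exp.2 (by linarith [(abs_le.1 h8).2])
                have h12 : Real.exp (T (2 * j + 1)) * Real.exp 1 * (M j - A j) ≤
                    (m j : ℝ) * (Real.log (lam j) / 4 - Real.log 2) := by
                  have h13 : 0 < Real.log (lam j) / 4 - Real.log 2 := by linarith
                  rw [← mul_div_assoc, div_le_iff₀ h13] at h10
                  linarith
                have h14 := mul_le_mul_of_nonneg_right h11 hC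
                linarith
        calc (2 * |t - T (2 * j + 1)|) ^ m j * Real.exp (ε * Real.exp t)
            ≤ Real.exp (-((M j - A j) * Real.exp t)) * Real.exp (ε * Real.exp t) :=
              mul_le_mul_of_nonneg_right h9 (Real.exp_pos _).le
          _ = Real.exp (Real.exp t * (-(M j - A j) + ε)) := by
              rw [← Real.exp_add]
              congr 1
              ring
      · have h9 : pkT (lam j) (π / 2 - d) (t - T (2 * j + 1)) d ≤ 1 := by
          refine h3.trans (Real.exp_le_one_iff.2 ?_)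
          have h4 : 0 ≤ lam j * (t - T (2 * j + 1)) ^ 2 := by positivity
          linarith
        have h10 := mul_le_mul_of_nonneg_left h9 hC
        linarith

end

theorem one_exotic {d : ℝ} (hd : d ∈ Ioo 0 (π / 2)) {β σ A M : ℕ → ℝ} (hσ : ∀ j, 0 ≤ σ j)
    (hAM : ∀ j, A j ≤ M j) : ∃ f : ℂ → ℂ, Pre 1 f ∧
      (∀ θ, |θ| < d → ind 1 f θ =
        limsup (fun j => ((β j * Real.cos θ + σ j * |Real.sin θ| : ℝ) : EReal)) atTop) ∧
      ind 1 f d = max
        (limsup (fun j => ((β j * Real.cos d + σ j * Real.sin d : ℝ) : EReal)) atTop)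
        (limsup (fun j => ((A j : ℝ) : EReal)) atTop) ∧
      ind 1 f (-d) = max
        (limsup (fun j => ((β j * Real.cos d + σ j * Real.sin d : ℝ) : EReal)) atTop)
        (limsup (fun j => ((M j : ℝ) : EReal)) atTop) ∧
      ∀ θ, d < |θ| → |θ| ≤ π → ind 1 f θ = ⊤ := by
  obtain ⟨lam, N, hp, hN⟩ := oex_par (8 * VV 0 (1 / 2) π) hAM
  obtain ⟨Q, T, hQs, hQ0, ⟨CQ, hQb⟩, -, hTn, hT10, hstep, hplat, hseg, hseg0⟩ :=
    slow_path2 (oex_q d β σ A N)
  have hNn : ∀ j, 0 ≤ N j := by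
    intro j
    refine le_trans ?_ (hN j)
    have h1 := hAM j
    have h2 := abs_nonneg (A j)
    have h3 : (0 : ℝ) ≤ j := Nat.cast_nonneg j
    exact mul_nonneg (by linarith) (mul_nonneg (Real.exp_pos _).le (by linarith))
  have hq1 : ∀ i, 0 ≤ oex_q d β σ A N i 1 := by
    intro i
    obtain ⟨k, hk | hk⟩ := Nat.even_or_odd' i
    · rw [hk, oex_q_even]
      exact hσ k
    · rw [hk, oex_q_odd]
      exact hNn k
  have hTj : ∀ j : ℕ, (j : ℝ) ≤ T j := fun j => by linarith [hT10 j]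
  have hQ1 : ∀ t, 0 ≤ Q t 1 := by
    intro t
    rcases le_or_gt t (T 0) with h1 | h1
    · obtain ⟨s, hs, h2⟩ := hseg0 t h1
      rw [h2 1]
      exact mul_nonneg hs.1 (hq1 0)
    · have hex : ∃ i, t ≤ T (i + 1) := by
        refine ⟨⌈t⌉₊, ?_⟩
        have h1 := hTj (⌈t⌉₊ + 1)
        have h2 := Nat.le_ceil t
        push_cast at h1
        linarith
      classical
      obtain ⟨i, hi⟩ : ∃ i, Nat.find hex = i := ⟨_, rfl⟩
      have hi1 := Nat.find_spec hex
      rw [hi] at hi1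
      have hi2 : T i ≤ t := by
        rcases Nat.eq_zero_or_pos i with h0 | h0
        · rw [h0]
          exact h1.le
        · have h2 := Nat.find_min hex (m := i - 1) (by omega)
          rw [not_le] at h2
          have h3 : i - 1 + 1 = i := by omega
          rw [h3] at h2
          exact h2.le
      obtain ⟨s, hs, h2⟩ := hseg i t hi2 hi1
      rw [h2 1]
      exact add_nonneg (mul_nonneg (by linarith [hs.2]) (hq1 _)) (mul_nonneg hs.1 (hq1 _))
  have hs : ExoSlow N (fun j => T (2 * j + 1)) (fun t => Q t 1) := by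
    refine ⟨hQs 1, hQ1, fun t ht => hQ0 t ht 1, ⟨CQ, fun t => (le_abs_self _).trans (hQb t 1)⟩,
      fun j => ?_, fun j => ?_, fun j t ht => ?_⟩
    · have h1 := hT10 (2 * j + 1)
      push_cast at h1
      have h3 : (0 : ℝ) ≤ j := Nat.cast_nonneg j
      linarith
    · have h1 := hstep (2 * j + 1)
      have h2 := hstep (2 * j + 1 + 1)
      have h3 : 2 * (j + 1) + 1 = 2 * j + 1 + 1 + 1 := by ring
      simp only [h3]
      linarith
    · have h1 := hplat (2 * j + 1) t ht 1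
      rw [oex_q_odd] at h1
      exact h1
  obtain ⟨B, hB⟩ := exo_dens hAM hp hs (π / 2 - d)
  obtain ⟨f₀, hf1, -, -, hfU, hfL⟩ := one_base hB (b := fun t => Q t 0) (hQs 0)
  have hLpos : ∀ j, 0 < Real.log (lam j) / 4 - Real.log 2 := fun j => by linarith [hp.l2 j]
  have hx0 : ∀ j, 0 ≤ Real.exp 1 * (M j - A j) / (Real.log (lam j) / 4 - Real.log 2) := fun j =>
    div_nonneg (mul_nonneg (Real.exp_pos 1).le (by linarith [hAM j])) (hLpos j).le
  obtain ⟨m, hm⟩ : ∃ m : ℕ → ℕ, ∀ j, m j = ⌈Real.exp (T (2 * j + 1)) *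
      (Real.exp 1 * (M j - A j) / (Real.log (lam j) / 4 - Real.log 2))⌉₊ := ⟨_, fun j => rfl⟩
  have hT2 : ∀ j : ℕ, (j : ℝ) ≤ T (2 * j + 1) := by
    intro j
    have h1 := hT10 (2 * j + 1)
    push_cast at h1
    have h3 : (0 : ℝ) ≤ j := Nat.cast_nonneg j
    linarith
  have hsum : Summable fun j => (m j : ℝ) * Real.exp (-T (2 * j + 1)) := by
    have h1 : Summable fun j : ℕ => (1 / 2 : ℝ) ^ j + Real.exp (-1) ^ j :=
      (summable_geometric_of_lt_one (by norm_num) (by norm_num)).add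
        (summable_geometric_of_lt_one (Real.exp_pos _).le (by
          have h2 := Real.exp_lt_exp.2 (by norm_num : (-1 : ℝ) < 0)
          rwa [Real.exp_zero] at h2))
    refine Summable.of_nonneg_of_le (fun j => by positivity) (fun j => ?_) h1
    have h2 : (m j : ℝ) ≤ Real.exp (T (2 * j + 1)) *
        (Real.exp 1 * (M j - A j) / (Real.log (lam j) / 4 - Real.log 2)) + 1 := by
      rw [hm j]
      exact (Nat.ceil_lt_add_one (mul_nonneg (Real.exp_pos _).le (hx0 j))).le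
    have h3 : Real.exp (-T (2 * j + 1)) ≤ Real.exp (-1) ^ j := by
      rw [← Real.exp_nat_mul]
      apply Real.exp_le_exp.2
      linarith [hT2 j]
    have h4 : Real.exp (T (2 * j + 1)) * Real.exp (-T (2 * j + 1)) = 1 := by
      rw [← Real.exp_add, add_neg_cancel, Real.exp_zero]
    calc (m j : ℝ) * Real.exp (-T (2 * j + 1))
        ≤ (Real.exp (T (2 * j + 1)) *
          (Real.exp 1 * (M j - A j) / (Real.log (lam j) / 4 - Real.log 2)) + 1) *
          Real.exp (-T (2 * j + 1)) := mul_le_mul_of_nonneg_right h2 (Real.exp_pos _).le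
      _ = (Real.exp (T (2 * j + 1)) * Real.exp (-T (2 * j + 1))) *
          (Real.exp 1 * (M j - A j) / (Real.log (lam j) / 4 - Real.log 2)) +
          Real.exp (-T (2 * j + 1)) := by ring
      _ = (Real.exp 1 * (M j - A j) / (Real.log (lam j) / 4 - Real.log 2)) +
          Real.exp (-T (2 * j + 1)) := by rw [h4, one_mul]
      _ ≤ _ := add_le_add (hp.p2 j) h3
  obtain ⟨E, hE1, hEU, hEL, hEd, hEk⟩ := kill_prod hd (T := fun j => T (2 * j + 1)) hT2 hsum
  have h : Oex d β σ A M lam N Q T (fun t θ => pot (exoR (fun t => Q t 1) (fun j => M j - A j) lam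
      (π / 2 - d) fun j => T (2 * j + 1)) (fun t => Q t 0) t θ) m f₀ E := by
    refine ⟨hd, hAM, hp, hN, hTn, hT10, hstep, hplat, hseg, hfU, hfL, fun ε hε => ?_,
      fun j => ?_, hEU, hEL, hEd, hEk⟩
    · exact exo_pot hAM hp hs (π / 2 - d) (fun t => Q t 0) hε
    · rw [hm j]
      exact Nat.le_ceil _
  have habs : |d| = d := abs_of_pos hd.1
  have habs' : |(-d)| = d := by rw [abs_neg, habs]
  have hdπ : d ≤ π := by linarith [hd.2, Real.pi_pos]
  refine ⟨fun z => f₀ z * E z, hf1.mul hE1, fun θ hθ => ?_, ?_, ?_, fun θ hθ hθπ => ?_⟩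
  · exact le_antisymm (h.upper_in hθ) (h.lower_even (hθ.le.trans hdπ))
  · refine le_antisymm h.upper_pos (max_le ?_ ?_)
    · have h1 := h.lower_even (θ := d) (habs.le.trans hdπ)
      simp only [h.even_d habs] at h1
      exact h1
    · have h1 := h.lower_odd (θ := d) (habs.le.trans hdπ)
      simp only [h.odd_d habs] at h1
      exact h1
  · refine le_antisymm h.upper_neg (max_le ?_ h.lower_peak)
    have h1 := h.lower_even (θ := -d) (habs'.le.trans hdπ)
    simp only [h.even_d habs'] at h1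
    exact h1
  · rw [EReal.eq_top_iff_forall_lt]
    intro y
    refine lt_of_lt_of_le (EReal.coe_lt_coe_iff.2 (lt_add_one y))
      (le_trans ?_ (h.lower_odd hθπ))
    refine le_limsup_of_frequently_le' (Eventually.frequently ?_)
    exact (h.odd_top hθ hθπ (y + 1)).mono fun j hj => EReal.coe_le_coe_iff.2 hj

end HBOne
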