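import Pool.Agent.HBOne.Defs

/-!
# Monotonicity in the vertical direction

`mono`: let `z = x + i y₁`, `z' = x - i y₂`, `|y₁| ≤ y₂`. If `f z = 0` it is trivial. If `y₂ = 0` then `y₁ = 0`. Otherwise `z'` is in
the open lower half-plane (so `z' ≠ 0`, `z' ≠ a i`), and if also `z ≠ 0`, apply `OD.rep` to both and `hasSum_le`: for every
`a` with `Im a ≥ 0`: `|z - a|² = (x - Re a)² + (y₁ - Im a)² ≤ (x - Re a)² + (y₂ + Im a)² = |z' - a|²`, so
`log |1 - z/a| ≤ log |1 - z'/a|` (`z ≠ a`), and `m log |z| ≤ m log |z'|`. If `z = 0`: limit of the points `z = x > 0`, `y₁ = 0`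
(continuity of both sides).

`bla`: for `Im z > 0`, `f z ≠ 0`: apply `OD.rep` to `z` and `conj z` and subtract; `|conj z - a| = |z - conj a|`.

`bla_nonneg`: all terms are `≥ 0` as `|z - conj a|² = |z - a|² + 4 Im z Im a`; or from `mono`.
-/

namespace HBOne

open HBInd HBInf Complex Filter Topology Set MeasureTheory
open scoped Real ComplexConjugate

variable {f : ℂ → ℂ}

private lemma onm_norm_le {z w : ℂ} (h1 : z.re = w.re) (h2 : |z.im| ≤ |w.im|) : ‖z‖ ≤ ‖w‖ := by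
  rw [← Real.sqrt_sq (norm_nonneg z), ← Real.sqrt_sq (norm_nonneg w)]
  apply Real.sqrt_le_sqrt
  rw [← Complex.normSq_eq_norm_sq, ← Complex.normSq_eq_norm_sq, Complex.normSq_apply,
    Complex.normSq_apply, h1]
  have := sq_le_sq.2 h2
  nlinarith

private lemma onm_div (z a : ℂ) (ha : a ≠ 0) : ‖1 - z / a‖ = ‖z - a‖ / ‖a‖ := by
  rw [← norm_div, ← norm_neg]
  congr 1
  field_simp
  ring

/-- the inequality away from the origin -/
private lemma onm_mono_aux (D : OD f) {x y₁ y₂ : ℝ} (h : |y₁| ≤ y₂)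
    (hz0 : ((x : ℂ) + (y₁ : ℂ) * I) ≠ 0) :
    ‖f ((x : ℂ) + (y₁ : ℂ) * I)‖ * Real.exp (D.c * y₁) ≤
      ‖f ((x : ℂ) - (y₂ : ℂ) * I)‖ * Real.exp (-(D.c * y₂)) := by
  by_cases hfz : f ((x : ℂ) + (y₁ : ℂ) * I) = 0
  · rw [hfz, norm_zero, zero_mul]
    positivity
  have hy2 : 0 ≤ y₂ := (abs_nonneg _).trans h
  rcases hy2.eq_or_lt with h0 | h0
  · have h1 : y₁ = 0 := by
      rw [← h0] at h
      exact abs_nonpos_iff.1 h
    subst h1
    rw [← h0]
    simp
  set z : ℂ := (x : ℂ) + (y₁ : ℂ) * I with hz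
  set z' : ℂ := (x : ℂ) - (y₂ : ℂ) * I with hz'
  have hzre : z.re = x := by simp [hz]
  have hzim : z.im = y₁ := by simp [hz]
  have hzre' : z'.re = x := by simp [hz']
  have hzim' : z'.im = -y₂ := by simp [hz']
  have hne' : z' ≠ 0 := by
    intro hcon
    rw [hcon] at hzim'
    simp at hzim'
    linarith
  have hna' : ∀ i, z' ≠ D.a i := by
    intro i hcon
    have := D.im i
    rw [← hcon, hzim'] at this
    linarith
  have hna : ∀ i, z ≠ D.a i := by
    intro i hcon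
    exact hfz (by rw [hcon]; exact D.zero i)
  obtain ⟨hf1, hs1⟩ := D.rep z hz0 hna
  obtain ⟨hf2, hs2⟩ := D.rep z' hne' hna'
  have hle : ∀ i, Real.log ‖1 - z / D.a i‖ + z.re * (1 / D.a i).re ≤
      Real.log ‖1 - z' / D.a i‖ + z'.re * (1 / D.a i).re := by
    intro i
    rw [hzre, hzre']
    have h1 : ‖1 - z / D.a i‖ ≤ ‖1 - z' / D.a i‖ := by
      rw [onm_div _ _ (D.ne i), onm_div _ _ (D.ne i)]
      apply div_le_div_of_nonneg_right _ (norm_nonneg _)
      apply onm_norm_le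
      · rw [sub_re, sub_re, hzre, hzre']
      · rw [sub_im, sub_im, hzim, hzim']
        have h2 := D.im i
        have h3 := abs_le.1 h
        have h4 : |(-y₂ - (D.a i).im)| = y₂ + (D.a i).im := by
          rw [abs_of_nonpos (by linarith)]
          ring
        rw [h4, abs_le]
        constructor <;> linarith [h3.1, h3.2]
    have h5 : 0 < ‖1 - z / D.a i‖ := by
      rw [onm_div _ _ (D.ne i)]
      apply div_pos
      · exact norm_pos_iff.2 (sub_ne_zero.2 (hna i))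
      · exact norm_pos_iff.2 (D.ne i)
    linarith [Real.log_le_log h5 h1]
  have h6 := hasSum_le hle hs1 hs2
  rw [hzre, hzre', hzim, hzim'] at h6
  have h7 : Real.log ‖z‖ ≤ Real.log ‖z'‖ := by
    apply Real.log_le_log (norm_pos_iff.2 hz0)
    apply onm_norm_le
    · rw [hzre, hzre']
    · rw [hzim, hzim', abs_neg, abs_of_pos h0]
      exact h
  have h8 : (D.m : ℝ) * Real.log ‖z‖ ≤ D.m * Real.log ‖z'‖ :=
    mul_le_mul_of_nonneg_left h7 (Nat.cast_nonneg _)
  have h9 : Real.log ‖f z‖ + D.c * y₁ ≤ Real.log ‖f z'‖ + -(D.c * y₂) := by linarith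
  have h10 := Real.exp_le_exp.2 h9
  rwa [Real.exp_add, Real.exp_add, Real.exp_log (norm_pos_iff.2 hf1),
    Real.exp_log (norm_pos_iff.2 hf2)] at h10

theorem mono (hf : InClass 1 f) (D : OD f) {x y₁ y₂ : ℝ} (h : |y₁| ≤ y₂) :
    ‖f ((x : ℂ) + (y₁ : ℂ) * I)‖ * Real.exp (D.c * y₁) ≤
      ‖f ((x : ℂ) - (y₂ : ℂ) * I)‖ * Real.exp (-(D.c * y₂)) := by
  by_cases hz0 : ((x : ℂ) + (y₁ : ℂ) * I) = 0
  · have hx : x = 0 := by
      have := congrArg Complex.re hz0
      simpa using this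
    have hy : y₁ = 0 := by
      have := congrArg Complex.im hz0
      simpa using this
    subst hx
    subst hy
    have hcont : Continuous f := hf.entire.continuous
    have h1 : Tendsto (fun t : ℝ => ‖f ((t : ℂ) + ((0 : ℝ) : ℂ) * I)‖ * Real.exp (D.c * 0)) (𝓝[≠] 0)
        (𝓝 (‖f (((0 : ℝ) : ℂ) + ((0 : ℝ) : ℂ) * I)‖ * Real.exp (D.c * 0))) := by
      apply Tendsto.mono_left _ nhdsWithin_le_nhds
      apply Continuous.tendsto (f := fun t : ℝ => ‖f ((t : ℂ) + ((0 : ℝ) : ℂ) * I)‖ * Real.exp (D.c * 0))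
      fun_prop
    have h2 : Tendsto (fun t : ℝ => ‖f ((t : ℂ) - (y₂ : ℂ) * I)‖ * Real.exp (-(D.c * y₂))) (𝓝[≠] 0)
        (𝓝 (‖f (((0 : ℝ) : ℂ) - (y₂ : ℂ) * I)‖ * Real.exp (-(D.c * y₂)))) := by
      apply Tendsto.mono_left _ nhdsWithin_le_nhds
      apply Continuous.tendsto (f := fun t : ℝ => ‖f ((t : ℂ) - (y₂ : ℂ) * I)‖ * Real.exp (-(D.c * y₂)))
      fun_prop
    refine le_of_tendsto_of_tendsto h1 h2 ?_
    filter_upwards [self_mem_nhdsWithin] with t ht
    apply onm_mono_aux D h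
    intro hcon
    apply ht
    have := congrArg Complex.re hcon
    simpa using this
  · exact onm_mono_aux D h hz0

private lemma onm_conj (z a : ℂ) : ‖conj z - a‖ = ‖z - conj a‖ := by
  rw [← Complex.norm_conj (conj z - a)]
  congr 1
  simp

theorem bla (hf : InClass 1 f) (D : OD f) {z : ℂ} (hz : 0 < z.im) (h0 : f z ≠ 0) :
    HasSum (fun i => Real.log (‖z - conj (D.a i)‖ / ‖z - D.a i‖))
      (Real.log ‖f (conj z)‖ - Real.log ‖f z‖ - 2 * D.c * z.im) := by
  have hz0 : z ≠ 0 := by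
    rintro rfl
    simp at hz
  have hna : ∀ i, z ≠ D.a i := by
    intro i hcon
    exact h0 (by rw [hcon]; exact D.zero i)
  have hcim : (conj z).im < 0 := by
    rw [Complex.conj_im]
    linarith
  have hz0' : conj z ≠ 0 := by
    intro hcon
    rw [hcon] at hcim
    simp at hcim
  have hna' : ∀ i, conj z ≠ D.a i := by
    intro i hcon
    have := D.im i
    rw [← hcon] at this
    linarith
  obtain ⟨hf1, hs1⟩ := D.rep z hz0 hna
  obtain ⟨hf2, hs2⟩ := D.rep (conj z) hz0' hna'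
  have h1 := hs2.sub hs1
  have h2 : (Real.log ‖f (conj z)‖ - D.m * Real.log ‖conj z‖ - D.A - D.b * (conj z).re +
      D.c * (conj z).im) - (Real.log ‖f z‖ - D.m * Real.log ‖z‖ - D.A - D.b * z.re + D.c * z.im) =
      Real.log ‖f (conj z)‖ - Real.log ‖f z‖ - 2 * D.c * z.im := by
    rw [Complex.norm_conj, Complex.conj_re, Complex.conj_im]
    ring
  rw [h2] at h1
  refine h1.congr_fun ?_
  intro i
  have ha : 0 < ‖D.a i‖ := norm_pos_iff.2 (D.ne i)
  have h3 : 0 < ‖z - D.a i‖ := norm_pos_iff.2 (sub_ne_zero.2 (hna i))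
  have h4 : 0 < ‖z - conj (D.a i)‖ := by
    rw [← onm_conj]
    exact norm_pos_iff.2 (sub_ne_zero.2 (hna' i))
  rw [onm_div _ _ (D.ne i), onm_div _ _ (D.ne i), onm_conj, Real.log_div h4.ne' ha.ne',
    Real.log_div h3.ne' ha.ne', Real.log_div h4.ne' h3.ne', Complex.conj_re]
  ring

theorem bla_nonneg (hf : InClass 1 f) (D : OD f) {z : ℂ} (hz : 0 < z.im) (h0 : f z ≠ 0) :
    0 ≤ Real.log ‖f (conj z)‖ - Real.log ‖f z‖ - 2 * D.c * z.im := by
  refine (bla hf D hz h0).nonneg ?_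
  intro i
  have hna : z ≠ D.a i := by
    intro hcon
    exact h0 (by rw [hcon]; exact D.zero i)
  have h3 : 0 < ‖z - D.a i‖ := norm_pos_iff.2 (sub_ne_zero.2 hna)
  apply Real.log_nonneg
  rw [one_le_div h3]
  apply onm_norm_le
  · simp
  · have h4 := D.im i
    rw [sub_im, sub_im, Complex.conj_im, sub_neg_eq_add, abs_of_nonneg (a := z.im + (D.a i).im) (by linarith),
      abs_le]
    constructor <;> linarith

end HBOne
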