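import Pool.Agent.HBOne.BlaRay

/-!
# Finiteness inside a sector, order one

Let `θ ∈ (0, π/2)`, `ind 1 f θ ≠ ⊤`, `|φ| < θ`, `c = D.c`. Put, for `x > 0`,
`V x = log ‖f (ray (x / cos θ) (-θ))‖ - c x tan θ` (continuous, no zeros in the lower half-plane), `U = max V 0`.

(1) `mono` with `y₂ = x tan θ`: for `|y| ≤ x tan θ`: `‖f (x + iy)‖ e^{c y} ≤ e^{V x}`.
(2) `V x = [log ‖f (ray s θ)‖ + c s sin θ] + [log ‖f (ray s (-θ))‖ - log ‖f (ray s θ)‖ - 2 c s sin θ]`, `s = x / cos θ`, off
    the zeros; the first bracket is `≤ C s` for large `s` (`ind 1 f θ ≠ ⊤`), so `U x ≤ C x + β s`, and `ray_avg` gives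
    `∫_R^{2R} U ≤ C' R²` for large `R` (substitution `x = s cos θ`; `R / cos θ` in place of `R`).
(3) Let `z₀ = ray r φ`, `x₀ = r cos φ`, and `κ ∈ (0, 1)` such that the disc `|z - z₀| ≤ κ r` is in the sector
    `|Im z| ≤ Re z tan θ`, `Re z ≥ κ r` (homogeneity: `κ` independent of `r`). If `f z₀ ≠ 0`: for every `s ∈ (0, κ r]`:
    `log ‖f z₀‖ + c Im z₀ ≤ (1/2π) ∫_0^{2π} (log ‖f‖ + c Im) (z₀ + s e^{iψ}) dψ ≤ (1/2π) ∫_0^{2π} U (x₀ + s cos ψ) dψ`
    (subharmonicity of `log ‖f‖`, e.g. Jensen in Mathlib or `circleAverage_log_le`). Multiply by `s` and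
    integrate over `[0, κ r]`: polar coordinates (`lintegral_comp_polarCoord_symm` or its complex version)
    `(κr)²/2 (log ‖f z₀‖ + c Im z₀) ≤ (1/2π) ∫_{disc} U (Re z) ≤ (1/2π) 2 κ r ∫_{x₀ - κr}^{x₀ + κr} U ≤ C'' r³`
    (the disc is in a square; the interval is covered by finitely many intervals `[R, 2R]`). So
    `log ‖f z₀‖ ≤ C''' r` for large `r`: `ind 1 f φ ≠ ⊤`.
-/

namespace HBOne

open HBInd HBInf Complex Filter Topology Set MeasureTheory
open scoped Real ComplexConjugate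

variable {f : ℂ → ℂ}

/-- subharmonicity of `log |g|` -/
private theorem thr_jensen {g : ℂ → ℂ} (hg : Differentiable ℂ g) {z₀ : ℂ} (h0 : g z₀ ≠ 0) {s : ℝ}
    (hs : 0 < s) : Real.log ‖g z₀‖ ≤ Real.circleAverage (fun z => Real.log ‖g z‖) z₀ s := by
  have hA : AnalyticOnNhd ℂ g (Metric.closedBall z₀ |s|) := fun z _ => hg.analyticAt z
  have h1 := hA.circleAverage_log_norm hs.ne' h0
  rw [h1]
  have h2 : 0 ≤ ∑ᶠ u, (MeromorphicOn.divisor g (Metric.closedBall z₀ |s|)) u *
      Real.log (s * ‖z₀ - u‖⁻¹) := by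
    apply finsum_nonneg
    intro u
    by_cases hu : u ∈ Metric.closedBall z₀ |s|
    · apply mul_nonneg
      · exact_mod_cast (MeromorphicOn.AnalyticOnNhd.divisor_nonneg hA) u
      · rcases eq_or_ne u z₀ with rfl | hne
        · simp
        · apply Real.log_nonneg
          have h3 : ‖z₀ - u‖ ≤ s := by
            rw [Metric.mem_closedBall, dist_comm, dist_eq_norm, abs_of_pos hs] at hu
            exact hu
          have h4 : 0 < ‖z₀ - u‖ := norm_pos_iff.2 (sub_ne_zero.2 hne.symm)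
          rw [← div_eq_mul_inv, le_div_iff₀ h4]
          linarith
    · rw [Function.locallyFinsuppWithin.apply_eq_zero_of_notMem _ hu]
      simp
  linarith

/-- the circle average as an integral over `(-π, π)`, upper bound -/
private theorem thr_circ {g : ℂ → ℂ} (hg : Differentiable ℂ g) {z₀ : ℂ} (h0 : g z₀ ≠ 0) {s : ℝ}
    (hs : 0 < s) {F : ℝ → ENNReal}
    (hF : ∀ ψ : ℝ, ENNReal.ofReal (Real.log ‖g (circleMap z₀ s ψ)‖) ≤ F (s * Real.cos ψ)) :
    ENNReal.ofReal (2 * π * Real.log ‖g z₀‖) ≤ ∫⁻ ψ in Ioo (-π) π, F (s * Real.cos ψ) := by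
  have h1 := thr_jensen hg h0 hs
  rw [Real.circleAverage_eq_integral_add (-π)] at h1
  have h2 : ∫ ψ in (0 : ℝ)..2 * π, Real.log ‖g (circleMap z₀ s (ψ + -π))‖ =
      ∫ ψ in (-π)..π, Real.log ‖g (circleMap z₀ s ψ)‖ := by
    rw [intervalIntegral.integral_comp_add_right (fun ψ => Real.log ‖g (circleMap z₀ s ψ)‖)]
    congr 1 <;> ring
  rw [h2, smul_eq_mul] at h1
  have h3 : 2 * π * Real.log ‖g z₀‖ ≤ ∫ ψ in (-π)..π, Real.log ‖g (circleMap z₀ s ψ)‖ := by
    have hp : (0 : ℝ) < 2 * π := by positivity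
    rw [inv_mul_eq_div, le_div_iff₀ hp] at h1
    linarith
  refine (ENNReal.ofReal_le_ofReal h3).trans ?_
  rw [intervalIntegral.integral_of_le (by linarith [Real.pi_pos]), integral_Ioc_eq_integral_Ioo]
  refine le_trans ?_ (lintegral_mono hF)
  by_cases hi : IntegrableOn (fun ψ => Real.log ‖g (circleMap z₀ s ψ)‖) (Ioo (-π) π)
  · have h4 : ∫ ψ in Ioo (-π) π, Real.log ‖g (circleMap z₀ s ψ)‖ ≤
        ∫ ψ in Ioo (-π) π, max (Real.log ‖g (circleMap z₀ s ψ)‖) 0 :=
      integral_mono hi hi.pos_part fun ψ => le_max_left _ _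
    refine (ENNReal.ofReal_le_ofReal h4).trans ?_
    rw [ofReal_integral_eq_lintegral_ofReal hi.pos_part
      (Eventually.of_forall fun ψ => le_max_right _ _)]
    refine lintegral_mono fun ψ => ?_
    simp only
    rw [ENNReal.ofReal_max, ENNReal.ofReal_zero, max_eq_left (by simp)]
  · rw [integral_undef hi]
    simp

/-- polar coordinates -/
private theorem thr_polar {F : ℝ → ENNReal} (hFm : Measurable F) {S L : ℝ} (hS : 0 < S)
    (h : ∀ s ∈ Ioo 0 S, ENNReal.ofReal (2 * π * L) ≤ ∫⁻ ψ in Ioo (-π) π, F (s * Real.cos ψ)) :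
    ENNReal.ofReal (π * L * S ^ 2) ≤ ENNReal.ofReal (2 * S) * ∫⁻ t in Icc (-S) S, F t := by
  -- the function on the plane
  set G : ℝ × ℝ → ENNReal := (Icc (-S) S ×ˢ Icc (-S) S).indicator fun p => F p.1 with hG
  have hGm : Measurable G :=
    (hFm.comp measurable_fst).indicator (measurableSet_Icc.prod measurableSet_Icc)
  have h1 : ∫⁻ p : ℝ × ℝ, G p = ENNReal.ofReal (2 * S) * ∫⁻ t in Icc (-S) S, F t := by
    have hF1 : Measurable fun p : ℝ × ℝ => F p.1 := hFm.comp measurable_fst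
    rw [hG, lintegral_indicator (measurableSet_Icc.prod measurableSet_Icc), Measure.volume_eq_prod,
      setLIntegral_prod _ hF1.aemeasurable]
    simp only [lintegral_const, Measure.restrict_apply MeasurableSet.univ, Set.univ_inter,
      Real.volume_Icc]
    rw [lintegral_mul_const _ hFm, mul_comm]
    congr 2
    ring
  rw [← h1, ← lintegral_comp_polarCoord_symm]
  have h2 : ∫⁻ p in Ioo 0 S ×ˢ Ioo (-π) π, ENNReal.ofReal p.1 • G (polarCoord.symm p) ≤
      ∫⁻ p in polarCoord.target, ENNReal.ofReal p.1 • G (polarCoord.symm p) := by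
    apply lintegral_mono_set
    rw [polarCoord_target]
    exact Set.prod_mono Ioo_subset_Ioi_self subset_rfl
  refine le_trans ?_ h2
  have hm : Measurable fun p : ℝ × ℝ => ENNReal.ofReal p.1 • G (polarCoord.symm p) :=
    (ENNReal.measurable_ofReal.comp measurable_fst).mul (hGm.comp continuous_polarCoord_symm.measurable)
  rw [Measure.volume_eq_prod, setLIntegral_prod _ hm.aemeasurable]
  have h3 : ∫⁻ s in Ioo 0 S, ENNReal.ofReal s * ENNReal.ofReal (2 * π * L) ≤
      ∫⁻ s in Ioo 0 S, ∫⁻ ψ in Ioo (-π) π, ENNReal.ofReal (s, ψ).1 • G (polarCoord.symm (s, ψ)) := by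
    apply setLIntegral_mono' measurableSet_Ioo
    intro s hs
    simp only [smul_eq_mul]
    rw [lintegral_const_mul']
    swap
    · exact ENNReal.ofReal_ne_top
    refine mul_le_mul_right ((h s hs).trans (lintegral_mono fun ψ => le_of_eq ?_)) _
    rw [polarCoord_symm_apply, hG, indicator_of_mem]
    constructor
    · have := Real.abs_cos_le_one ψ
      have h5 : |s * Real.cos ψ| ≤ S := by
        rw [abs_mul, abs_of_pos hs.1]
        nlinarith [hs.2, hs.1, abs_nonneg (Real.cos ψ)]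
      exact abs_le.1 h5
    · have := Real.abs_sin_le_one ψ
      have h5 : |s * Real.sin ψ| ≤ S := by
        rw [abs_mul, abs_of_pos hs.1]
        nlinarith [hs.2, hs.1, abs_nonneg (Real.sin ψ)]
      exact abs_le.1 h5
  refine le_trans ?_ h3
  rw [lintegral_mul_const _ ENNReal.measurable_ofReal]
  have h6 : ∫⁻ s in Ioo 0 S, ENNReal.ofReal s = ENNReal.ofReal (S ^ 2 / 2) := by
    rw [← ofReal_integral_eq_lintegral_ofReal]
    · rw [← integral_Ioc_eq_integral_Ioo, ← intervalIntegral.integral_of_le hS.le, integral_id]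
      congr 1
      ring
    · exact (continuous_id.integrableOn_Icc (a := 0) (b := S)).mono_set Ioo_subset_Icc_self
    · exact (ae_restrict_iff' measurableSet_Ioo).2 (Eventually.of_forall fun s hs => hs.1.le)
  rw [h6, ← ENNReal.ofReal_mul (by positivity)]
  apply ENNReal.ofReal_le_ofReal
  apply le_of_eq
  ring


private theorem thr_ray_cont (θ : ℝ) : Continuous fun s : ℝ => ray s θ := by
  unfold ray
  fun_prop

/-- averages over `[R, 2R]` of the positive part of `log |f| + c Im` on the lower ray, as a function of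
the real part -/
private theorem thr_avg (hf : InClass 1 f) (D : OD f) {θ : ℝ} (hθ : θ ∈ Ioo 0 (π / 2)) {C₀ : ℝ}
    (hC₀ : 0 < C₀) (h : ind 1 f θ < C₀) : ∃ K : ℝ, 0 < K ∧ ∀ᶠ R : ℝ in atTop,
      ∫⁻ x in Icc R (2 * R), ENNReal.ofReal
        (Real.log ‖f (ray (x / Real.cos θ) (-θ))‖ - D.c * (x * Real.tan θ)) ≤
          ENNReal.ofReal (K * R ^ 2) := by
  have hk : 0 < Real.cos θ := Real.cos_pos_of_mem_Ioo ⟨by linarith [hθ.1, Real.pi_pos], hθ.2⟩
  set k := Real.cos θ with hkdef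
  refine ⟨(1 + 2 * (C₀ + |D.c|)) / k, by positivity, ?_⟩
  have h1 := eventually_of_ind_lt h
  have h2 := ray_avg hf D (θ := θ) ⟨hθ.1, by linarith [hθ.2, Real.pi_pos]⟩ one_pos
  obtain ⟨R₁, hR₁⟩ := eventually_atTop.1 h1
  obtain ⟨R₂, hR₂⟩ := eventually_atTop.1 h2
  filter_upwards [eventually_ge_atTop (max R₁ R₂ * k), eventually_gt_atTop 0] with R hR hR0
  set R' := R / k with hR'
  have hR'0 : 0 < R' := div_pos hR0 hk
  have hRR : R = R' * k := by rw [hR']; field_simp
  have hge : max R₁ R₂ ≤ R' := by rw [hR', le_div_iff₀ hk]; exact hR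
  have h3 := hR₂ R' ((le_max_right _ _).trans hge)
  have h4 : ∀ s ∈ Icc R' (2 * R'), Real.log ‖f (ray s θ)‖ + D.c * (s * Real.sin θ) ≤
      (C₀ + |D.c|) * (2 * R') := by
    intro s hs
    have hs0 : 0 < s := hR'0.trans_le hs.1
    have h5 := hR₁ s ((le_max_left _ _).trans (hge.trans hs.1))
    rw [Real.rpow_one] at h5
    have h6 : Real.log ‖f (ray s θ)‖ ≤ C₀ * s := by
      rcases eq_or_ne (f (ray s θ)) 0 with h0 | h0
      · rw [h0, norm_zero, Real.log_zero]; positivity
      · exact ((Real.log_lt_iff_lt_exp (norm_pos_iff.2 h0)).2 h5).le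
    have h7 : D.c * (s * Real.sin θ) ≤ |D.c| * s := by
      have h8 : |D.c * (s * Real.sin θ)| ≤ |D.c| * s := by
        rw [abs_mul, abs_mul, abs_of_pos hs0]
        exact mul_le_mul_of_nonneg_left (by nlinarith [Real.abs_sin_le_one θ, abs_nonneg (Real.sin θ)])
          (abs_nonneg _)
      exact (le_abs_self _).trans h8
    calc _ ≤ (C₀ + |D.c|) * s := by nlinarith
      _ ≤ _ := mul_le_mul_of_nonneg_left hs.2 (by positivity)
  have himg : Icc R (2 * R) = (fun s : ℝ => s * k) '' Icc R' (2 * R') := by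
    rw [Set.image_mul_right_Icc (by linarith) hk.le, hRR]
    congr 1
    ring
  rw [himg, lintegral_image_eq_lintegral_abs_deriv_mul (f' := fun _ => k) measurableSet_Icc
    (fun s _ => (by simpa using ((hasDerivAt_id s).mul_const k).hasDerivWithinAt))
    (fun s _ t _ hst => mul_right_cancel₀ hk.ne' hst), lintegral_const_mul' _ _ ENNReal.ofReal_ne_top]
  have h9 : ∫⁻ s in Icc R' (2 * R'), ENNReal.ofReal
        (Real.log ‖f (ray (s * k / k) (-θ))‖ - D.c * (s * k * Real.tan θ)) ≤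
      ENNReal.ofReal (1 * R' ^ 2) + ENNReal.ofReal ((C₀ + |D.c|) * (2 * R')) * ENNReal.ofReal R' := by
    have h10 : ∫⁻ s in Icc R' (2 * R'), ENNReal.ofReal
        (Real.log ‖f (ray (s * k / k) (-θ))‖ - D.c * (s * k * Real.tan θ)) ≤
        ∫⁻ s in Icc R' (2 * R'), (ENNReal.ofReal
      (Real.log ‖f (ray s (-θ))‖ - Real.log ‖f (ray s θ)‖ - 2 * D.c * (s * Real.sin θ)) +
        ENNReal.ofReal ((C₀ + |D.c|) * (2 * R'))) := by
      apply setLIntegral_mono' measurableSet_Icc
      intro s hs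
      rw [mul_div_cancel_right₀ _ hk.ne', mul_assoc s k, mul_comm k, hkdef, Real.tan_mul_cos hk.ne']
      refine le_trans (ENNReal.ofReal_le_ofReal ?_) ENNReal.ofReal_add_le
      linarith [h4 s hs]
    refine h10.trans ?_
    rw [lintegral_add_right _ measurable_const, lintegral_const, Measure.restrict_apply MeasurableSet.univ,
      Set.univ_inter, Real.volume_Icc]
    refine add_le_add h3 (le_of_eq ?_)
    congr 2
    ring
  refine (mul_le_mul_right h9 _).trans ?_
  rw [abs_of_pos hk, ← ENNReal.ofReal_mul (by positivity), ← ENNReal.ofReal_add (by positivity) (by positivity),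
    ← ENNReal.ofReal_mul hk.le]
  apply ENNReal.ofReal_le_ofReal
  apply le_of_eq
  rw [hRR]
  field_simp

theorem three (hf : InClass 1 f) (D : OD f) {θ : ℝ} (hθ : θ ∈ Ioo 0 (π / 2))
    (h : ind 1 f θ ≠ ⊤) : ∀ φ ∈ Ioo (-θ) θ, ind 1 f φ ≠ ⊤ := by
  intro φ hφ
  have hkθ : 0 < Real.cos θ := Real.cos_pos_of_mem_Ioo ⟨by linarith [hθ.1, Real.pi_pos], hθ.2⟩
  -- a real upper bound
  obtain ⟨C₀, hC₀, hlt⟩ : ∃ C₀ : ℝ, 0 < C₀ ∧ ind 1 f θ < C₀ := by
    obtain ⟨C, hC1, hC2⟩ := EReal.exists_between_coe_real (lt_top_iff_ne_top.2 h)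
    exact ⟨max C 1, by positivity, hC1.trans_le (EReal.coe_le_coe_iff.2 (le_max_left _ _))⟩
  obtain ⟨K, hK, hKe⟩ := thr_avg hf D hθ hC₀ hlt
  have hcφ : 0 < Real.cos φ := Real.cos_pos_of_mem_Ioo
    ⟨by linarith [hφ.1, hθ.2], by linarith [hφ.2, hθ.2]⟩
  set T := Real.tan θ with hT
  have hT0 : 0 < T := Real.tan_pos_of_pos_of_lt_pi_div_two hθ.1 hθ.2
  -- `κ`
  have hgap : 0 < T * Real.cos φ - |Real.sin φ| := by
    have h1 : 0 < Real.sin (θ - φ) := Real.sin_pos_of_pos_of_lt_pi (by linarith [hφ.2])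
      (by linarith [hφ.1, hθ.2])
    have h2 : 0 < Real.sin (θ + φ) := Real.sin_pos_of_pos_of_lt_pi (by linarith [hφ.1])
      (by linarith [hφ.2, hθ.2])
    rw [Real.sin_sub] at h1
    rw [Real.sin_add] at h2
    have h3 : T * Real.cos φ = Real.sin θ * Real.cos φ / Real.cos θ := by
      rw [hT, Real.tan_eq_sin_div_cos]; ring
    rw [h3, sub_pos, lt_div_iff₀ hkθ]
    rcases abs_cases (Real.sin φ) with h4 | h4 <;> rw [h4.1] <;> nlinarith
  set κ := min ((T * Real.cos φ - |Real.sin φ|) / (1 + T)) (Real.cos φ / 3) with hκ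
  have hκ0 : 0 < κ := lt_min (div_pos hgap (by linarith)) (by linarith)
  have hκ1 : κ * (1 + T) ≤ T * Real.cos φ - |Real.sin φ| := by
    rw [← le_div_iff₀ (by linarith)]; exact min_le_left _ _
  have hκ2 : κ ≤ Real.cos φ / 3 := min_le_right _ _
  -- the functions
  set g : ℂ → ℂ := fun z => f z * Complex.exp (-(D.c * z * I)) with hg
  have hgd : Differentiable ℂ g := by
    apply hf.entire.mul
    fun_prop
  have hgn : ∀ z : ℂ, ‖g z‖ = ‖f z‖ * Real.exp (D.c * z.im) := by
    intro z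
    rw [hg]
    simp only [norm_mul, Complex.norm_exp]
    congr 2
    simp
  set W : ℝ → ℝ := fun x => Real.log ‖f (ray (x / Real.cos θ) (-θ))‖ - D.c * (x * T) with hW
  have hWm : Measurable W := by
    apply Measurable.sub
    · apply Real.measurable_log.comp
      exact (hf.entire.continuous.comp ((thr_ray_cont (-θ)).comp (continuous_id.div_const _))).norm.measurable
    · fun_prop
  -- the bound in the sector
  have hsec : ∀ x y : ℝ, 0 < x → |y| ≤ T * x →
      ENNReal.ofReal (Real.log ‖g ((x : ℂ) + (y : ℂ) * I)‖) ≤ ENNReal.ofReal (W x) := by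
    intro x y hx hy
    have hr : ray (x / Real.cos θ) (-θ) = (x : ℂ) - ((T * x : ℝ) : ℂ) * I := by
      apply Complex.ext
      · rw [ray_re, Real.cos_neg, div_mul_cancel₀ _ hkθ.ne']
        simp
      · rw [ray_im, Real.sin_neg]
        simp only [sub_im, ofReal_im, mul_im, ofReal_re, I_im, I_re, mul_one, mul_zero, add_zero, zero_sub]
        rw [hT, Real.tan_eq_sin_div_cos]
        ring
    have hm := mono hf D (x := x) hy
    rw [← hr] at hm
    have hne : f (ray (x / Real.cos θ) (-θ)) ≠ 0 := by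
      apply hf.zero_free
      rw [hr]
      simp only [sub_im, ofReal_im, mul_im, ofReal_re, I_im, I_re, mul_one, mul_zero, add_zero, zero_sub]
      have := mul_pos hT0 hx
      linarith
    have hnp := norm_pos_iff.2 hne
    have e1 : ‖g ((x : ℂ) + (y : ℂ) * I)‖ ≤ Real.exp (W x) := by
      rw [hgn]
      have e2 : ((x : ℂ) + (y : ℂ) * I).im = y := by simp
      rw [e2]
      refine hm.trans (le_of_eq ?_)
      rw [hW]
      simp only
      rw [Real.exp_sub, Real.exp_log hnp, Real.exp_neg]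
      rw [div_eq_mul_inv]
      congr 3
      ring
    rcases eq_or_ne (g ((x : ℂ) + (y : ℂ) * I)) 0 with h0 | h0
    · rw [h0, norm_zero, Real.log_zero, ENNReal.ofReal_zero]
      simp
    · apply ENNReal.ofReal_le_ofReal
      rwa [Real.log_le_iff_le_exp (norm_pos_iff.2 h0)]
  -- the estimate at one point
  set R₀ := fun r : ℝ => 2 / 3 * (r * Real.cos φ) with hR₀
  have hR₀t : Tendsto R₀ atTop atTop := by
    rw [hR₀]
    exact (tendsto_id.atTop_mul_const hcφ).const_mul_atTop (by norm_num)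
  set C₁ := 2 * K * (2 / 3 * Real.cos φ) ^ 2 / (π * κ) with hC₁
  have hC₁0 : 0 < C₁ := by positivity
  refine ne_top_of_le_ne_top (EReal.coe_ne_top (C₁ + |D.c|)) (ind_le_of_eventually ?_)
  filter_upwards [hR₀t.eventually hKe, eventually_gt_atTop 0] with r hr hr0
  rw [Real.rpow_one]
  rcases eq_or_ne (f (ray r φ)) 0 with h0 | h0
  · rw [h0, norm_zero]
    exact (Real.exp_pos _).le
  have hg0 : g (ray r φ) ≠ 0 := by
    rw [hg]
    exact mul_ne_zero h0 (Complex.exp_ne_zero _)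
  set x₀ := r * Real.cos φ with hx₀
  have hx₀0 : 0 < x₀ := mul_pos hr0 hcφ
  set S := κ * r with hS
  have hS0 : 0 < S := mul_pos hκ0 hr0
  have hSx : S ≤ x₀ / 3 := by
    rw [hS, hx₀]
    nlinarith
  have hcircle : ∀ s ∈ Ioo 0 S, ENNReal.ofReal (2 * π * Real.log ‖g (ray r φ)‖) ≤
      ∫⁻ ψ in Ioo (-π) π, (fun t => ENNReal.ofReal (W (x₀ + t))) (s * Real.cos ψ) := by
    intro s hs
    refine thr_circ (F := fun t => ENNReal.ofReal (W (x₀ + t))) hgd hg0 hs.1 fun ψ => ?_
    have e1 : circleMap (ray r φ) s ψ = ((x₀ + s * Real.cos ψ : ℝ) : ℂ) +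
        ((r * Real.sin φ + s * Real.sin ψ : ℝ) : ℂ) * I := by
      apply Complex.ext
      · simp only [circleMap, add_re, ray_re, mul_re, ofReal_re, ofReal_im, Complex.exp_ofReal_mul_I_re,
          zero_mul, sub_zero, I_re, mul_zero, I_im, mul_one, add_zero, hx₀]
      · simp only [circleMap, add_im, ray_im, mul_im, ofReal_re, ofReal_im, Complex.exp_ofReal_mul_I_im,
          zero_mul, add_zero, I_re, mul_zero, I_im, mul_one, zero_add]
    rw [e1]
    have hc1 := Real.abs_cos_le_one ψ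
    have hs1 := Real.abs_sin_le_one ψ
    have hc2 : |s * Real.cos ψ| ≤ S := by
      rw [abs_mul, abs_of_pos hs.1]
      nlinarith [hs.2, hs.1, abs_nonneg (Real.cos ψ)]
    have hs2 : |s * Real.sin ψ| ≤ S := by
      rw [abs_mul, abs_of_pos hs.1]
      nlinarith [hs.2, hs.1, abs_nonneg (Real.sin ψ)]
    have hlow := (abs_le.1 hc2).1
    apply hsec
    · linarith
    · refine (abs_add_le _ _).trans ?_
      rw [abs_mul, abs_of_pos hr0]
      have e3 : r * |Real.sin φ| + S ≤ T * (x₀ - S) := by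
        rw [hS, hx₀]
        nlinarith
      have e4 : T * (x₀ - S) ≤ T * (x₀ + s * Real.cos ψ) :=
        mul_le_mul_of_nonneg_left (by linarith) hT0.le
      linarith
  have hFm : Measurable fun t => ENNReal.ofReal (W (x₀ + t)) :=
    ENNReal.measurable_ofReal.comp (hWm.comp (measurable_const_add x₀))
  have hmain := thr_polar hFm hS0 hcircle
  have htrans : ∫⁻ t in Icc (-S) S, ENNReal.ofReal (W (x₀ + t)) ≤ ENNReal.ofReal (K * R₀ r ^ 2) := by
    have e1 : ∫⁻ t in Icc (-S) S, ENNReal.ofReal (W (x₀ + t)) =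
        ∫⁻ x in Icc (x₀ - S) (x₀ + S), ENNReal.ofReal (W x) := by
      have e2 := (measurePreserving_add_left (volume : Measure ℝ) x₀).setLIntegral_comp_preimage
        (s := Icc (x₀ - S) (x₀ + S)) measurableSet_Icc (ENNReal.measurable_ofReal.comp hWm)
      rw [← show (fun t => x₀ + t) ⁻¹' Icc (x₀ - S) (x₀ + S) = Icc (-S) S by
        ext t; simp [sub_eq_add_neg]]
      exact e2
    rw [e1]
    refine le_trans (lintegral_mono_set ?_) hr
    intro x hx
    rw [hR₀]
    simp only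
    constructor
    · linarith [hx.1]
    · linarith [hx.2]
  have hfin : ENNReal.ofReal (π * Real.log ‖g (ray r φ)‖ * S ^ 2) ≤
      ENNReal.ofReal (2 * S * (K * R₀ r ^ 2)) := by
    rw [ENNReal.ofReal_mul (by positivity : (0 : ℝ) ≤ 2 * S)]
    exact hmain.trans (mul_le_mul_right htrans _)
  have hfin2 : π * Real.log ‖g (ray r φ)‖ * S ^ 2 ≤ 2 * S * (K * R₀ r ^ 2) := by
    exact (ENNReal.ofReal_le_ofReal_iff (by positivity)).1 hfin
  have hlog : Real.log ‖g (ray r φ)‖ ≤ C₁ * r := by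
    have e1 : π * Real.log ‖g (ray r φ)‖ * S ^ 2 ≤ π * (C₁ * r) * S ^ 2 := by
      refine hfin2.trans (le_of_eq ?_)
      rw [hC₁, hS, hR₀]
      field_simp
    have e2 : 0 < S ^ 2 := by positivity
    have e3 := le_of_mul_le_mul_right e1 e2
    exact le_of_mul_le_mul_left e3 Real.pi_pos
  rw [hgn, Real.log_mul (norm_pos_iff.2 h0).ne' (Real.exp_pos _).ne', Real.log_exp, ray_im] at hlog
  rw [← Real.log_le_iff_le_exp (norm_pos_iff.2 h0)]
  have h7 : -(D.c * (r * Real.sin φ)) ≤ |D.c| * r := by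
    have h8 : |D.c * (r * Real.sin φ)| ≤ |D.c| * r := by
      rw [abs_mul, abs_mul, abs_of_pos hr0]
      exact mul_le_mul_of_nonneg_left (by nlinarith [Real.abs_sin_le_one φ, abs_nonneg (Real.sin φ)])
        (abs_nonneg _)
    exact (neg_le_abs _).trans h8
  nlinarith

end HBOne
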