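import Pool.Agent.HBOne.OneRep
import Pool.Agent.HBOne.OneEq
import Pool.Agent.HBOne.OneThree
import Pool.Agent.HBOne.OneMirror

/-!
# Necessity, order one

`left`: apply `three` to `mir f` and `π - θ`, `D' : OD (mir f)` from `exists_OD`; `ind 1 (mir f) φ = ind 1 f (π - φ)`.
-/

namespace HBOne

open HBInd HBInf Complex Filter Topology Set MeasureTheory
open scoped Real ComplexConjugate

theorem nec_order_one {f : ℂ → ℂ} (hf : InClass 1 f) :
    CondT 1 (ind 1 f) ∧ ∃ c : ℝ, 0 ≤ c ∧ CondOne c (ind 1 f) := by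
  obtain ⟨D⟩ := exists_OD hf
  refine ⟨condT_ind one_pos hf, D.c, c_nonneg hf D, ?_⟩
  refine ⟨fun θ hθ => le_one hf D hθ, half_one hf D, fun θ hθ h => eq_one hf D hθ h,
    fun θ hθ h => three hf D hθ h, ?_, ge_one hf D⟩
  intro θ hθ h t ht
  obtain ⟨D'⟩ := exists_OD (inClass_mir hf)
  have h1 := three (inClass_mir hf) D' (θ := π - θ) ⟨by linarith [hθ.2], by linarith [hθ.1]⟩
    (by rw [ind_mir]; simpa using h) (π - t) ⟨by linarith [ht.2], by linarith [ht.1]⟩
  rw [ind_mir] at h1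
  simpa using h1

end HBOne
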