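import Pool.Agent.HBOne.Defs
import Pool.Agent.HBInf.RepOne

/-!
# The zero data of a function of the class, order one

`exists_OD`. Model: `Pool.Agent.HBInf.RepOne` (use its lemmas `rp1_factor`, `rp1_im`, `rp1_sum`, stated for `1 < ρ`: a function of
order `1` satisfies their hypotheses only in the growth estimates; `rp1_im` holds for every `ρ`; for `rp1_factor` copy the
proof with growth `‖G z‖ ≤ exp (2 r^σ)` for every `σ > 1`, `HasOrder.eventually`). So `f z = z^m (c₀ G z)`, `G 0 = 1`, zeros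
`za G` of `G`, `∑ ‖a_i‖^{-σ'} < ∞` for `σ' > 1` (`count_zeros`; finitely many zeros with `‖a_i‖ < 1`),
`HasSum (KK 1 (z / a_i)) (log ‖G z‖ - Re (G' 0 z))` (`hasSum_KK_one` with `ρ = 3/2`, `K = 2`), `γ_i = -Im (1 / a_i) ≥ 0` summable
(`summable_im`, `rp1_im`; `γ_i = Im a_i / |a_i|²`, so `Im a_i ≥ 0`). Since
`KK 1 (z / a) = log |1 - z/a| + Re z Re (1/a) + Im z γ`, subtract `Im z ∑ γ_i`: `A = log |c₀|`, `b = Re (G' 0)`,
`c = Im (G' 0) - ∑ γ_i`. (Zeros of `f` other than `0` are the zeros of `G`.)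
-/

namespace HBOne

open HBInd HBInf Complex Filter Topology Set MeasureTheory
open scoped Real ComplexConjugate

/-- the normalisation, order one -/
theorem rep_factor {f : ℂ → ℂ} (hf : InClass 1 f) :
    ∃ (m : ℕ) (c : ℂ) (G : ℂ → ℂ), c ≠ 0 ∧ Differentiable ℂ G ∧ G 0 = 1 ∧
      (∀ z, f z = z ^ m * (c * G z)) ∧ ∀ σ : ℝ, 1 < σ → ∀ᶠ r : ℝ in atTop, ∀ z : ℂ, ‖z‖ ≤ r →
        ‖G z‖ ≤ Real.exp (2 * r ^ σ) := by
  have h0 : ∃ z, f z ≠ 0 := ⟨-I, hf.zero_free _ (by simp)⟩
  obtain ⟨F, hF, hF0, hp⟩ := exists_div_pow hf.entire h0 0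
  set m := analyticOrderNatAt f 0 with hm
  set c := F 0 with hc
  have hcn : 0 < ‖c‖ := norm_pos_iff.2 hF0
  set G : ℂ → ℂ := fun z => F z / c with hG
  have hGd : Differentiable ℂ G := hF.div_const c
  have hG0 : G 0 = 1 := div_self hF0
  have hfG : ∀ z, f z = z ^ m * (c * G z) := by
    intro z
    rw [hp z, sub_zero, hG]
    congr 1
    field_simp
  refine ⟨m, c, G, hF0, hGd, hG0, hfG, ?_⟩
  intro σ hσ
  have hσ0 : 0 < σ := by linarith
  have hb := hf.order.eventually hσ
  rw [← comap_norm_atTop, eventually_comap] at hb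
  have h1 : ∀ᶠ r : ℝ in atTop, Real.log (1 / ‖c‖) ≤ r ^ σ :=
    (tendsto_rpow_atTop hσ0).eventually_ge_atTop _
  filter_upwards [hb, h1, eventually_ge_atTop 1] with r hr h1 hr1 z hz
  apply norm_le_of_circle hGd _ hz
  intro w hw
  have hwn : 0 < ‖w‖ := by rw [hw]; linarith
  have h2 := hr w hw
  rw [hfG w, norm_mul, norm_pow, norm_mul, hw] at h2
  have h3 : 1 ≤ r ^ m := one_le_pow₀ hr1
  have h4 : ‖c‖ * ‖G w‖ ≤ Real.exp (r ^ σ) := by
    refine le_trans ?_ h2
    exact le_mul_of_one_le_left (by positivity) h3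
  have h5 : 1 / ‖c‖ ≤ Real.exp (r ^ σ) := by
    rw [← Real.log_le_iff_le_exp (by positivity)]
    exact h1
  have h6 : ‖G w‖ = 1 / ‖c‖ * (‖c‖ * ‖G w‖) := by field_simp
  rw [h6]
  calc 1 / ‖c‖ * (‖c‖ * ‖G w‖) ≤ Real.exp (r ^ σ) * Real.exp (r ^ σ) := by gcongr
    _ = Real.exp (2 * r ^ σ) := by rw [← Real.exp_add]; congr 1; ring

/-- summability over the zeros, the finitely many small ones included -/
theorem rep_summable {G : ℂ → ℂ} (hGd : Differentiable ℂ G) (hG0 : G 0 = 1)
    (hgr : ∀ σ : ℝ, 1 < σ → ∀ᶠ r : ℝ in atTop, ∀ z : ℂ, ‖z‖ ≤ r → ‖G z‖ ≤ Real.exp (2 * r ^ σ)) :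
    Summable fun i : ZI G => ‖1 / za G i‖ ^ (3 / 2 : ℝ) := by
  classical
  obtain ⟨I, hI, -⟩ := exists_finset hGd hG0 1
  obtain ⟨C, hC, hcount⟩ := count_zeros hGd hG0 (ρ := 5 / 4) (K := 2) (by norm_num) two_pos
    (hgr _ (by norm_num))
  have hι1 : ∀ i : {i // i ∉ I}, 1 ≤ ‖za G i‖ := by
    intro i
    have := i.2
    rw [hI] at this
    push Not at this
    exact this
  have hs := rp1_sum (a := fun i : {i // i ∉ I} => za G i) (σ := 5 / 4) (C := C) hC (by
    intro R hR J hJ
    have h3 := hcount R hR (J.map (Function.Embedding.subtype _)) (by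
      intro i hi
      rw [Finset.mem_map] at hi
      obtain ⟨j, hj, rfl⟩ := hi
      exact hJ j hj)
    rw [Finset.card_map] at h3
    exact h3) hι1 (σ' := 3 / 2) (by norm_num) (by norm_num)
  have hs' : Summable fun i : {i // i ∉ I} => ‖1 / za G i‖ ^ (3 / 2 : ℝ) := by
    refine hs.congr (fun i => ?_)
    have hn : 0 < ‖za G i‖ := by linarith [hι1 i]
    rw [norm_div, norm_one, one_div, Real.inv_rpow hn.le, ← Real.rpow_neg hn.le,
      Real.rpow_def_of_pos hn]
    congr 1
    ring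
  exact (Finset.summable_compl_iff I).1 hs'

/-- there are countably many zeros -/
theorem rep_countable {G : ℂ → ℂ} (hGd : Differentiable ℂ G) (hG0 : G 0 = 1) :
    Countable (ZI G) := by
  rw [← Set.countable_univ_iff]
  have h : (Set.univ : Set (ZI G)) ⊆ ⋃ n : ℕ, {i : ZI G | ‖za G i‖ < n} := by
    intro i _
    obtain ⟨n, hn⟩ := exists_nat_gt ‖za G i‖
    exact mem_iUnion.2 ⟨n, hn⟩
  refine (Set.countable_iUnion fun n => ?_).mono h
  obtain ⟨I, hI, -⟩ := exists_finset hGd hG0 n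
  refine (I.finite_toSet.subset ?_).countable
  intro i hi
  exact (hI i).2 hi

theorem exists_OD {f : ℂ → ℂ} (hf : InClass 1 f) : Nonempty (OD f) := by
  obtain ⟨m, c, G, hc, hGd, hG0, hfG, hgr⟩ := rep_factor hf
  have hγ := rp1_im hf hc hGd hG0 hfG
  have hsq := rep_summable hGd hG0 hgr
  have hcnt := rep_countable hGd hG0
  have hne : ∀ i, za G i ≠ 0 := za_ne_zero hG0
  have hzero : ∀ i, f (za G i) = 0 := by
    intro i
    rw [hfG, f_za G i, mul_zero, mul_zero]
  have him : ∀ i, 0 ≤ (za G i).im := by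
    intro i
    by_contra h
    push Not at h
    exact hf.zero_free _ h (hzero i)
  refine ⟨{ ι := ZI G
            cnt := hcnt
            a := za G
            m := m
            A := Real.log ‖c‖
            b := (deriv G 0).re
            c := (deriv G 0).im - ∑' i, -(1 / za G i).im
            ne := hne
            im := him
            zero := hzero
            sumIm := ?_
            sumSq := hsq
            rep := ?_ }⟩
  · refine hγ.congr (fun i => ?_)
    rw [rp1_gam_eq, Complex.normSq_eq_norm_sq]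
  · intro z hz0 hz
    have hGz : G z ≠ 0 := by
      intro e
      obtain ⟨i, hi⟩ := exists_za hGd ⟨0, by rw [hG0]; exact one_ne_zero⟩ e
      exact hz i hi.symm
    have hfz : f z ≠ 0 := by
      rw [hfG]
      exact mul_ne_zero (pow_ne_zero _ hz0) (mul_ne_zero hc hGz)
    refine ⟨hfz, ?_⟩
    have hs := hasSum_KK_one hGd hG0 (ρ := 3 / 2) (K := 2) (by norm_num) (by norm_num)
      two_pos (hgr _ (by norm_num)) hz0 hz
    have hs2 := hs.sub (hγ.hasSum.mul_left z.im)
    have elog : Real.log ‖f z‖ = m * Real.log ‖z‖ + Real.log ‖c‖ + Real.log ‖G z‖ := by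
      rw [hfG, norm_mul, norm_mul, norm_pow, Real.log_mul, Real.log_mul, Real.log_pow]
      · ring
      · exact norm_ne_zero_iff.2 hc
      · exact norm_ne_zero_iff.2 hGz
      · exact pow_ne_zero _ (norm_ne_zero_iff.2 hz0)
      · exact mul_ne_zero (norm_ne_zero_iff.2 hc) (norm_ne_zero_iff.2 hGz)
    have e1 : (fun i => Real.log ‖1 - z / za G i‖ + z.re * (1 / za G i).re) =
        fun i => KK 1 (z / za G i) - z.im * -(1 / za G i).im := by
      funext i
      unfold KK
      have e : z / za G i = z * (1 / za G i) := by ring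
      have e' : (z / za G i).re = z.re * (1 / za G i).re - z.im * (1 / za G i).im := by
        rw [e, Complex.mul_re]
      rw [e']
      push_cast
      ring
    have e2 : Real.log ‖f z‖ - m * Real.log ‖z‖ - Real.log ‖c‖ - (deriv G 0).re * z.re +
        ((deriv G 0).im - ∑' i, -(1 / za G i).im) * z.im =
        Real.log ‖G z‖ - (deriv G 0 * z).re - z.im * ∑' i, -(1 / za G i).im := by
      rw [elog, Complex.mul_re]
      ring
    rw [e1, e2]
    exact hs2

end HBOne
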