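import Pool.Agent.HBOne.StripCauchy
import Pool.Agent.HBInf.KnTools

/-!
# The potential of a Gaussian peak

`F w = -i exp (w/2 - λ ((w/2 - iπ/2)² + e²))`, `F' w = F w (1/2 - λ (w/2 - iπ/2))`. `F (σ + 2πi) = conj (F σ)`,
`F' (σ + 2πi) = conj (F' σ)` for real `σ`, `-(1/π) Im (F' σ) = e^{σ/2} pk λ e (σ/2) =: n σ`. `|F'| ≤ C e^{-|Re w|}` in the strip
(Gaussian). `strip_cauchy` for `G = F'`: `F' η = ∫ n σ Λ (η - σ) dσ` for `0 < Im η < 2π`.
For fixed `ψ ∈ (0, 2π)`: `v τ = ∫ ker (τ - σ) ψ n σ dσ` is differentiable with derivative `∫ Re Λ (τ - σ + iψ) n σ dσ =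
Re (F' (τ + iψ))` (`hasDerivAt_ker`, `abs_dker_le` in `HBInd.Kernel` if `sin ψ ≠ 0`; for `ψ = π` see below), so
`v τ - Re (F (τ + iψ))` is constant, and it tends to `0` as `τ → -∞` (dominated convergence). So
`∫ kn 0 (1/2) u ψ pk ((τ - u)/2) du = e^{-τ/2} v τ = e^{-τ/2} Re F (τ + iψ)` (substitution `σ = τ - u`). With `τ = 2t`, `ψ = 2|θ|`,
`x = |θ| - π/2`: `e^{-t} Re F = Re [-i e^{i|θ|} exp (-λ ((t + ix)² + e²))] = cos (x (1 - 2λt)) exp (-λ (t² - x² + e²))`. The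
remaining values `ψ = 0, π, 2π` by continuity in `ψ` of both sides (`kn` is continuous in `ψ` for `u ≠ 0`, dominated by
`Psi`), and `kn` is even in `ψ`. (Checked numerically.)

`abs_pk_le`: `|cos|, |sin| ≤ 1`, `π/2 + 1/2 ≤ 4`..., `e^{-λe²} ≤ 1`, `1 ≤ λ`.
-/

namespace HBOne

open HBInd HBInf Complex Filter Topology Set MeasureTheory
open scoped Real ComplexConjugate

/-- the density of the peak -/
noncomputable def pk (lam e x : ℝ) : ℝ :=
  1 / π * Real.exp (-(lam * (x ^ 2 - π ^ 2 / 4 + e ^ 2))) *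
    ((1 / 2 - lam * x) * Real.cos (π * lam * x) - π * lam / 2 * Real.sin (π * lam * x))

/-- the potential of the peak -/
noncomputable def pkT (lam e y θ : ℝ) : ℝ :=
  Real.cos ((|θ| - π / 2) * (1 - 2 * lam * y)) *
    Real.exp (-(lam * (y ^ 2 - (|θ| - π / 2) ^ 2 + e ^ 2)))

theorem continuous_pk (lam e : ℝ) : Continuous (pk lam e) := by
  unfold pk
  fun_prop

theorem abs_pk_le {lam : ℝ} (hl : 1 ≤ lam) (e x : ℝ) :
    |pk lam e x| ≤ 4 * lam * (1 + |x|) * Real.exp (-(lam * (x ^ 2 - π ^ 2 / 4))) := by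
  have hpi := Real.pi_gt_three
  have hp1 : 1 / π ≤ 1 := by
    rw [div_le_one Real.pi_pos]
    linarith
  have hp0 : 0 < 1 / π := by positivity
  have hE : Real.exp (-(lam * (x ^ 2 - π ^ 2 / 4 + e ^ 2))) ≤
      Real.exp (-(lam * (x ^ 2 - π ^ 2 / 4))) := by
    refine Real.exp_le_exp.2 ?_
    have : 0 ≤ lam * e ^ 2 := by positivity
    nlinarith
  have hB : |(1 / 2 - lam * x) * Real.cos (π * lam * x) - π * lam / 2 * Real.sin (π * lam * x)| ≤
      1 / 2 + lam * |x| + π * lam / 2 := by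
    have h1 : |(1 / 2 - lam * x) * Real.cos (π * lam * x)| ≤ 1 / 2 + lam * |x| := by
      rw [abs_mul]
      have h2 : |1 / 2 - lam * x| ≤ 1 / 2 + lam * |x| := by
        have h3 := abs_sub (1 / 2) (lam * x)
        rw [abs_mul, abs_of_pos (by norm_num : (0 : ℝ) < 1 / 2),
          abs_of_pos (by linarith : 0 < lam)] at h3
        exact h3
      calc |1 / 2 - lam * x| * |Real.cos (π * lam * x)| ≤ |1 / 2 - lam * x| * 1 :=
            mul_le_mul_of_nonneg_left (Real.abs_cos_le_one _) (abs_nonneg _)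
        _ ≤ _ := by linarith
    have h4 : |π * lam / 2 * Real.sin (π * lam * x)| ≤ π * lam / 2 := by
      rw [abs_mul, abs_of_pos (by positivity : 0 < π * lam / 2)]
      calc π * lam / 2 * |Real.sin (π * lam * x)| ≤ π * lam / 2 * 1 :=
            mul_le_mul_of_nonneg_left (Real.abs_sin_le_one _) (by positivity)
        _ = _ := mul_one _
    exact (abs_sub _ _).trans (add_le_add h1 h4)
  have hC : 1 / π * (1 / 2 + lam * |x| + π * lam / 2) ≤ 4 * lam * (1 + |x|) := by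
    have h1 : 1 / π * (1 / 2 + lam * |x| + π * lam / 2) =
        1 / π * (1 / 2 + lam * |x|) + lam / 2 := by
      field_simp
    rw [h1]
    have hx := abs_nonneg x
    have h2 : 1 / π * (1 / 2 + lam * |x|) ≤ 1 * (1 / 2 + lam * |x|) :=
      mul_le_mul_of_nonneg_right hp1 (by positivity)
    have h3 : 0 ≤ lam * |x| := by positivity
    nlinarith
  rw [pk, abs_mul, abs_mul, abs_of_pos hp0, Real.abs_exp]
  calc 1 / π * Real.exp (-(lam * (x ^ 2 - π ^ 2 / 4 + e ^ 2))) *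
        |(1 / 2 - lam * x) * Real.cos (π * lam * x) - π * lam / 2 * Real.sin (π * lam * x)| ≤
        1 / π * Real.exp (-(lam * (x ^ 2 - π ^ 2 / 4))) *
          (1 / 2 + lam * |x| + π * lam / 2) := by
        gcongr
    _ = (1 / π * (1 / 2 + lam * |x| + π * lam / 2)) *
          Real.exp (-(lam * (x ^ 2 - π ^ 2 / 4))) := by ring
    _ ≤ _ := mul_le_mul_of_nonneg_right hC (Real.exp_pos _).le

theorem abs_pk_bdd {lam : ℝ} (hl : 1 ≤ lam) (e x : ℝ) :
    |pk lam e x| ≤ 4 * lam * Real.exp (1 + lam * (π ^ 2 / 4)) := by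
  refine (abs_pk_le hl e x).trans ?_
  rw [mul_assoc (4 * lam)]
  refine mul_le_mul_of_nonneg_left ?_ (by linarith)
  have h1 : 1 + |x| ≤ Real.exp |x| := by
    have := Real.add_one_le_exp |x|
    linarith
  calc (1 + |x|) * Real.exp (-(lam * (x ^ 2 - π ^ 2 / 4))) ≤
        Real.exp |x| * Real.exp (-(lam * (x ^ 2 - π ^ 2 / 4))) :=
        mul_le_mul_of_nonneg_right h1 (Real.exp_pos _).le
    _ = Real.exp (|x| - lam * (x ^ 2 - π ^ 2 / 4)) := by
        rw [← Real.exp_add]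
        congr 1
    _ ≤ _ := by
        refine Real.exp_le_exp.2 ?_
        have h2 : x ^ 2 ≤ lam * x ^ 2 := by nlinarith [sq_nonneg x]
        have h3 : |x| ≤ 1 + x ^ 2 := by
          rw [← sq_abs x]
          nlinarith [sq_nonneg (|x| - 1 / 2)]
        linarith

/-! ### the function `F` -/

theorem re_line (a b : ℝ) : ((a : ℂ) + (b : ℂ) * I).re = a := by simp

theorem im_line (a b : ℝ) : ((a : ℂ) + (b : ℂ) * I).im = b := by simp

/-- `F` -/
noncomputable def pF (lam e : ℝ) (w : ℂ) : ℂ :=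
  -I * Complex.exp (w / 2 - lam * ((w / 2 - I * π / 2) ^ 2 + e ^ 2))

/-- `F'` -/
noncomputable def pG (lam e : ℝ) (w : ℂ) : ℂ :=
  pF lam e w * (1 / 2 - lam * (w / 2 - I * π / 2))

theorem pF_deriv (lam e : ℝ) (w : ℂ) : HasDerivAt (pF lam e) (pG lam e w) w := by
  have h1 : HasDerivAt (fun w : ℂ => w / 2) (1 / 2) w := (hasDerivAt_id w).div_const 2
  have h2 : HasDerivAt (fun w : ℂ => w / 2 - I * π / 2) (1 / 2) w := h1.sub_const _
  have h3 := ((h2.pow 2).add_const ((e : ℂ) ^ 2)).const_mul (lam : ℂ)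
  have h4 := ((h1.sub h3).cexp).const_mul (-I)
  refine h4.congr_deriv ?_
  rw [pG, pF]
  simp only [Pi.sub_apply, Pi.pow_apply, Nat.cast_ofNat, Nat.add_one_sub_one,
    pow_one]
  ring

theorem pG_diff (lam e : ℝ) : Differentiable ℂ (pG lam e) := by
  unfold pG pF
  fun_prop

theorem pF_norm (lam e : ℝ) (w : ℂ) : ‖pF lam e w‖ =
    Real.exp (w.re / 2 - lam * ((w.re / 2) ^ 2 - ((w.im - π) / 2) ^ 2 + e ^ 2)) := by
  rw [pF, norm_mul, norm_neg, Complex.norm_I, one_mul, Complex.norm_exp]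
  congr 1
  have h1 : w / 2 - I * π / 2 = ((w.re / 2 : ℝ) : ℂ) + (((w.im - π) / 2 : ℝ) : ℂ) * I := by
    apply Complex.ext
    · simp
    · simp
      ring
  have h2 : w / 2 - lam * ((w / 2 - I * π / 2) ^ 2 + e ^ 2) =
      ((w.re / 2 - lam * ((w.re / 2) ^ 2 - ((w.im - π) / 2) ^ 2 + e ^ 2) : ℝ) : ℂ) +
        ((w.im / 2 - lam * (2 * (w.re / 2) * ((w.im - π) / 2)) : ℝ) : ℂ) * I := by
    rw [h1]
    have h3 : w / 2 = ((w.re / 2 : ℝ) : ℂ) + ((w.im / 2 : ℝ) : ℂ) * I := by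
      apply Complex.ext <;> simp
    rw [h3]
    push_cast
    linear_combination (lam : ℂ) * (-(((w.im : ℂ) - π) / 2) ^ 2) * Complex.I_sq
  rw [h2, re_line]

theorem pF_norm_le {lam : ℝ} (hl : 1 ≤ lam) (e : ℝ) {w : ℂ} (h0 : 0 ≤ w.im) (h1 : w.im ≤ 2 * π) :
    ‖pF lam e w‖ ≤ Real.exp (w.re / 2 - (w.re / 2) ^ 2 + lam * (π ^ 2 / 4)) := by
  rw [pF_norm]
  refine Real.exp_le_exp.2 ?_
  have h2 : ((w.im - π) / 2) ^ 2 ≤ π ^ 2 / 4 := by nlinarith
  have h3 : lam * ((w.im - π) / 2) ^ 2 ≤ lam * (π ^ 2 / 4) :=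
    mul_le_mul_of_nonneg_left h2 (by linarith)
  have h4 : 0 ≤ lam * e ^ 2 := by positivity
  have h5 : (w.re / 2) ^ 2 ≤ lam * (w.re / 2) ^ 2 := by nlinarith [sq_nonneg (w.re / 2)]
  nlinarith

theorem pG_norm_le {lam : ℝ} (hl : 1 ≤ lam) (e : ℝ) {w : ℂ} (h0 : 0 ≤ w.im) (h1 : w.im ≤ 2 * π) :
    ‖pG lam e w‖ ≤ (1 / 2 + lam * π / 2 + lam) * Real.exp (4 + lam * (π ^ 2 / 4)) *
      Real.exp (-|w.re|) := by
  have h2 := pF_norm_le hl e h0 h1
  have h3 : ‖(1 / 2 - lam * (w / 2 - I * π / 2) : ℂ)‖ ≤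
      (1 / 2 + lam * π / 2 + lam) * Real.exp (|w.re| / 2) := by
    have h4 : ‖(w / 2 - I * π / 2 : ℂ)‖ ≤ |w.re| / 2 + π / 2 := by
      refine (Complex.norm_le_abs_re_add_abs_im _).trans ?_
      have e1 : (w / 2 - I * π / 2 : ℂ).re = w.re / 2 := by simp
      have e2 : (w / 2 - I * π / 2 : ℂ).im = (w.im - π) / 2 := by
        simp
        ring
      rw [e1, e2, abs_div, abs_of_pos (by norm_num : (0 : ℝ) < 2)]
      have : |(w.im - π) / 2| ≤ π / 2 := by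
        rw [abs_le]
        constructor <;> linarith
      linarith
    have h5 : ‖(1 / 2 - lam * (w / 2 - I * π / 2) : ℂ)‖ ≤ 1 / 2 + lam * (|w.re| / 2 + π / 2) := by
      refine (norm_sub_le _ _).trans ?_
      rw [norm_mul, Complex.norm_real, Real.norm_of_nonneg (by linarith : 0 ≤ lam)]
      refine add_le_add (by simp) (mul_le_mul_of_nonneg_left h4 (by linarith))
    refine h5.trans ?_
    have h6 : 1 + |w.re| / 2 ≤ Real.exp (|w.re| / 2) := by
      have := Real.add_one_le_exp (|w.re| / 2)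
      linarith
    have hx := abs_nonneg w.re
    have hpi := Real.pi_pos
    calc 1 / 2 + lam * (|w.re| / 2 + π / 2) ≤
          (1 / 2 + lam * π / 2 + lam) * (1 + |w.re| / 2) := by
          have : 0 ≤ (1 / 2 + lam * π / 2) * (|w.re| / 2) := by positivity
          nlinarith
      _ ≤ _ := mul_le_mul_of_nonneg_left h6 (by positivity)
  have hpi := Real.pi_pos
  rw [pG, norm_mul]
  calc ‖pF lam e w‖ * ‖(1 / 2 - lam * (w / 2 - I * π / 2) : ℂ)‖ ≤
        Real.exp (w.re / 2 - (w.re / 2) ^ 2 + lam * (π ^ 2 / 4)) *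
          ((1 / 2 + lam * π / 2 + lam) * Real.exp (|w.re| / 2)) :=
        mul_le_mul h2 h3 (norm_nonneg _) (Real.exp_pos _).le
    _ = (1 / 2 + lam * π / 2 + lam) *
          Real.exp (w.re / 2 - (w.re / 2) ^ 2 + lam * (π ^ 2 / 4) + |w.re| / 2) := by
        rw [Real.exp_add _ (|w.re| / 2)]
        ring
    _ ≤ (1 / 2 + lam * π / 2 + lam) * Real.exp (4 + lam * (π ^ 2 / 4) + -|w.re|) := by
        refine mul_le_mul_of_nonneg_left (Real.exp_le_exp.2 ?_) (by positivity)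
        have h7 := le_abs_self w.re
        have h8 : (w.re / 2) ^ 2 = |w.re| ^ 2 / 4 := by
          rw [sq_abs]
          ring
        rw [h8]
        nlinarith [sq_nonneg (|w.re| - 4)]
    _ = _ := by
        rw [Real.exp_add _ (-|w.re|)]
        ring

/-- the density in the variable `σ` -/
noncomputable def pn (lam e σ : ℝ) : ℝ := Real.exp (σ / 2) * pk lam e (σ / 2)

theorem pF_real (lam e σ : ℝ) : pF lam e σ =
    ((Real.exp (σ / 2 - lam * ((σ / 2) ^ 2 - π ^ 2 / 4 + e ^ 2)) : ℝ) : ℂ) *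
      (-I * Complex.exp ((π * lam * (σ / 2) : ℝ) * I)) := by
  have h1 : (σ : ℂ) / 2 - lam * (((σ : ℂ) / 2 - I * π / 2) ^ 2 + e ^ 2) =
      ((σ / 2 - lam * ((σ / 2) ^ 2 - π ^ 2 / 4 + e ^ 2) : ℝ) : ℂ) +
        ((π * lam * (σ / 2) : ℝ) : ℂ) * I := by
    push_cast
    linear_combination (-(lam : ℂ) * π ^ 2 / 4) * Complex.I_sq
  rw [pF, h1, Complex.exp_add, Complex.ofReal_exp]
  ring

theorem pG_real_im (lam e σ : ℝ) : (pG lam e σ).im = -(π * pn lam e σ) := by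
  rw [pG, pF_real, Complex.exp_mul_I, ← Complex.ofReal_cos, ← Complex.ofReal_sin]
  have h1 : Real.exp (σ / 2 - lam * ((σ / 2) ^ 2 - π ^ 2 / 4 + e ^ 2)) =
      Real.exp (σ / 2) * Real.exp (-(lam * ((σ / 2) ^ 2 - π ^ 2 / 4 + e ^ 2))) := by
    rw [← Real.exp_add]
    congr 1
  have h2 : (((Real.exp (σ / 2 - lam * ((σ / 2) ^ 2 - π ^ 2 / 4 + e ^ 2)) : ℝ) : ℂ) *
      (-I * (((Real.cos (π * lam * (σ / 2)) : ℝ) : ℂ) +
        ((Real.sin (π * lam * (σ / 2)) : ℝ) : ℂ) * I))) *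
      (1 / 2 - lam * ((σ : ℂ) / 2 - I * π / 2)) =
      ((Real.exp (σ / 2 - lam * ((σ / 2) ^ 2 - π ^ 2 / 4 + e ^ 2)) *
        (Real.sin (π * lam * (σ / 2)) * (1 / 2 - lam * (σ / 2)) +
          π * lam / 2 * Real.cos (π * lam * (σ / 2))) : ℝ) : ℂ) +
      ((-(Real.exp (σ / 2 - lam * ((σ / 2) ^ 2 - π ^ 2 / 4 + e ^ 2)) *
        ((1 / 2 - lam * (σ / 2)) * Real.cos (π * lam * (σ / 2)) -
          π * lam / 2 * Real.sin (π * lam * (σ / 2)))) : ℝ) : ℂ) * I := by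
    push_cast
    linear_combination
      (-(Complex.exp ((σ : ℂ) / 2 - lam * (((σ : ℂ) / 2) ^ 2 - π ^ 2 / 4 + e ^ 2))) *
        (Complex.sin (π * lam * ((σ : ℂ) / 2)) * (1 / 2 - lam * ((σ : ℂ) / 2)) +
          π * lam / 2 * Complex.cos (π * lam * ((σ : ℂ) / 2)) +
          π * lam / 2 * Complex.sin (π * lam * ((σ : ℂ) / 2)) * I)) * Complex.I_sq
  rw [h2, Complex.add_im, Complex.ofReal_im, Complex.mul_im, Complex.I_re, Complex.I_im,
    Complex.ofReal_re, Complex.ofReal_im, mul_one, mul_zero, add_zero, zero_add, h1, pn, pk]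
  have := Real.pi_ne_zero
  field_simp

theorem pG_conj (lam e σ : ℝ) : pG lam e (σ + 2 * π * I) = conj (pG lam e σ) := by
  have h1 : conj (pG lam e σ) = I * Complex.exp ((σ : ℂ) / 2 -
      lam * (((σ : ℂ) / 2 + I * π / 2) ^ 2 + e ^ 2)) *
      (1 / 2 - lam * ((σ : ℂ) / 2 + I * π / 2)) := by
    rw [pG, pF]
    simp only [map_mul, map_neg, Complex.conj_I, ← Complex.exp_conj, map_sub, map_add, map_pow,
      map_div₀, Complex.conj_ofReal, map_one, Complex.conj_ofNat, neg_neg]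
    have h2 : (σ : ℂ) / 2 - -I * π / 2 = (σ : ℂ) / 2 + I * π / 2 := by ring
    rw [h2]
  have h3 : ((σ : ℂ) + 2 * π * I) / 2 = (σ : ℂ) / 2 + π * I := by ring
  have h4 : (σ : ℂ) / 2 + π * I - I * π / 2 = (σ : ℂ) / 2 + I * π / 2 := by ring
  have h5 : (σ : ℂ) / 2 + π * I - lam * (((σ : ℂ) / 2 + I * π / 2) ^ 2 + e ^ 2) =
      (σ : ℂ) / 2 - lam * (((σ : ℂ) / 2 + I * π / 2) ^ 2 + e ^ 2) + π * I := by ring
  rw [h1, pG, pF, h3, h4, h5, Complex.exp_add, Complex.exp_pi_mul_I]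
  ring

theorem pG_diff_line (lam e σ : ℝ) :
    pG lam e σ - pG lam e (σ + 2 * π * I) = -(2 * π * I) * (pn lam e σ : ℂ) := by
  rw [pG_conj, Complex.sub_conj, pG_real_im]
  push_cast
  ring

theorem pn_le {lam : ℝ} (hl : 1 ≤ lam) (e : ℝ) : ∃ C : ℝ, 0 < C ∧ ∀ σ,
    |pn lam e σ| ≤ C * Real.exp (-1 * |σ|) := by
  have hpi := Real.pi_pos
  refine ⟨(1 / 2 + lam * π / 2 + lam) * Real.exp (4 + lam * (π ^ 2 / 4)), by positivity,
    fun σ => ?_⟩
  have h1 := pG_norm_le hl e (w := (σ : ℂ)) (by simp) (by simp; positivity)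
  rw [Complex.ofReal_re] at h1
  have h2 := Complex.abs_im_le_norm (pG lam e σ)
  rw [pG_real_im, abs_neg, abs_mul, abs_of_pos hpi] at h2
  have h3 : |pn lam e σ| ≤ π * |pn lam e σ| := by
    have := Real.pi_gt_three
    nlinarith [abs_nonneg (pn lam e σ)]
  rw [show -1 * |σ| = -|σ| by ring]
  linarith

theorem continuous_pn (lam e : ℝ) : Continuous (pn lam e) := by
  unfold pn
  have := continuous_pk lam e
  fun_prop

theorem pG_int {lam : ℝ} (hl : 1 ≤ lam) (e : ℝ) {η : ℂ} (h0 : 0 < η.im) (h1 : η.im < 2 * π) :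
    Integrable (fun σ : ℝ => (pn lam e σ : ℂ) * (1 / (1 - Complex.exp (-(η - σ))))) ∧
      ∫ σ : ℝ, (pn lam e σ : ℂ) * (1 / (1 - Complex.exp (-(η - σ)))) = pG lam e η := by
  obtain ⟨h2, h3⟩ := strip_cauchy (pG_diff lam e) (fun w a b => pG_norm_le hl e a b) h0 h1
  have hne : (-(2 * π * I) : ℂ) ≠ 0 := by
    simp [Real.pi_ne_zero]
  have h4 : (fun σ : ℝ => (pn lam e σ : ℂ) * (1 / (1 - Complex.exp (-(η - σ))))) =
      fun σ : ℝ => (-(2 * π * I) : ℂ)⁻¹ * ((pG lam e σ - pG lam e (σ + 2 * π * I)) *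
        (1 / (1 - Complex.exp (-(η - σ))))) := by
    funext σ
    rw [pG_diff_line]
    field_simp
  rw [h4]
  refine ⟨h2.const_mul _, ?_⟩
  rw [integral_const_mul, h3]
  field_simp

/-! ### the potential in the variable `σ` -/

theorem abs_ker_lin {ψ : ℝ} (hψ : Real.sin ψ ≠ 0) (u : ℝ) :
    |HBInd.ker u ψ| ≤ |Real.log (|Real.sin ψ|)| + 1 + max u 0 := by
  have hs : 0 < |Real.sin ψ| := abs_pos.2 hψ
  have he := Real.exp_pos u
  have h1 : |Real.sin ψ| ≤ ‖1 - Complex.exp ((u : ℂ) + (ψ : ℂ) * I)‖ := by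
    apply le_of_sq_le_sq _ (norm_nonneg _)
    rw [normSq_expw, sq_abs]
    nlinarith [Real.sin_sq_add_cos_sq ψ, sq_nonneg (Real.exp u - Real.cos ψ)]
  have h2 : ‖1 - Complex.exp ((u : ℂ) + (ψ : ℂ) * I)‖ ≤ 1 + Real.exp u := by
    have := norm_sub_le (1 : ℂ) (Complex.exp ((u : ℂ) + (ψ : ℂ) * I))
    rwa [norm_one, norm_expw] at this
  have h3 : 1 + Real.exp u ≤ Real.exp (1 + max u 0) := by
    have h4 : Real.exp u ≤ Real.exp (max u 0) := Real.exp_le_exp.2 (le_max_left _ _)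
    have h5 : 1 ≤ Real.exp (max u 0) := Real.one_le_exp (le_max_right _ _)
    have h6 : 2 ≤ Real.exp 1 := by
      have := Real.add_one_le_exp (1 : ℝ)
      linarith
    rw [Real.exp_add]
    nlinarith
  have h7 : Real.log |Real.sin ψ| ≤ HBInd.ker u ψ := Real.log_le_log hs h1
  have h8 : HBInd.ker u ψ ≤ 1 + max u 0 := by
    have h9 := Real.log_le_log (hs.trans_le h1) (h2.trans h3)
    rwa [Real.log_exp] at h9
  rw [abs_le]
  have h10 := neg_abs_le (Real.log (|Real.sin ψ|))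
  have h11 := abs_nonneg (Real.log (|Real.sin ψ|))
  have h12 := le_max_right u 0
  constructor <;> linarith

/-- the potential -/
noncomputable def pv (lam e ψ τ : ℝ) : ℝ := ∫ σ, HBInd.ker (τ - σ) ψ * pn lam e σ

theorem pv_bound {lam : ℝ} (hl : 1 ≤ lam) (e : ℝ) {ψ : ℝ} (hψ : Real.sin ψ ≠ 0) (T : ℝ) :
    ∃ B : ℝ → ℝ, Integrable B ∧ ∀ τ ≤ T, ∀ σ, ‖HBInd.ker (τ - σ) ψ * pn lam e σ‖ ≤ B σ := by
  obtain ⟨C, hC, hn⟩ := pn_le hl e
  set K := |Real.log (|Real.sin ψ|)| + 1 + |T| with hK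
  have hK1 : 1 ≤ K := by
    have := abs_nonneg T
    have := abs_nonneg (Real.log (|Real.sin ψ|))
    linarith
  refine ⟨fun σ => K * (1 + 1 / (1 / 2)) * C * Real.exp (-(1 / 2) * |σ|),
    (int_exp_abs (by norm_num)).const_mul _, fun τ hτ σ => ?_⟩
  rw [norm_mul, Real.norm_eq_abs, Real.norm_eq_abs]
  have h1 := abs_ker_lin hψ (τ - σ)
  have h2 : max (τ - σ) 0 ≤ |T| + |σ| := by
    refine max_le ?_ (by positivity)
    have := le_abs_self T
    have := neg_abs_le σ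
    linarith
  have h3 : |HBInd.ker (τ - σ) ψ| ≤ K * (1 + |σ|) := by
    have := abs_nonneg σ
    nlinarith
  have h4 := lin_le_exp (ε := 1 / 2) (by norm_num) (abs_nonneg σ)
  calc |HBInd.ker (τ - σ) ψ| * |pn lam e σ| ≤
        (K * ((1 + 1 / (1 / 2)) * Real.exp (1 / 2 * |σ|))) * (C * Real.exp (-1 * |σ|)) :=
        mul_le_mul (h3.trans (mul_le_mul_of_nonneg_left h4 (by linarith))) (hn σ)
          (abs_nonneg _) (by positivity)
    _ = K * (1 + 1 / (1 / 2)) * C * (Real.exp (1 / 2 * |σ|) * Real.exp (-1 * |σ|)) := by ring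
    _ = _ := by
        rw [← Real.exp_add]
        congr 2
        ring

theorem pv_meas (lam e : ℝ) {ψ : ℝ} (hψ : Real.sin ψ ≠ 0) (τ : ℝ) :
    AEStronglyMeasurable (fun σ => HBInd.ker (τ - σ) ψ * pn lam e σ) volume := by
  have h1 : Continuous fun u => HBInd.ker u ψ :=
    continuous_iff_continuousAt.2 fun u => (hasDerivAt_ker hψ u).continuousAt
  have h2 := continuous_pn lam e
  have h3 : Continuous fun σ => HBInd.ker (τ - σ) ψ * pn lam e σ :=
    (h1.comp (continuous_const.sub continuous_id)).mul h2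
  exact h3.aestronglyMeasurable

theorem pv_deriv {lam : ℝ} (hl : 1 ≤ lam) (e : ℝ) {ψ : ℝ} (hψ : Real.sin ψ ≠ 0) (h0 : 0 < ψ)
    (h1 : ψ < 2 * π) (τ : ℝ) :
    HasDerivAt (pv lam e ψ) (pG lam e ((τ : ℂ) + ψ * I)).re τ := by
  obtain ⟨C, hC, hn⟩ := pn_le hl e
  obtain ⟨B, hB, hBb⟩ := pv_bound hl e hψ τ
  have hs : 0 < |Real.sin ψ| := abs_pos.2 hψ
  have hd : HasDerivAt (pv lam e ψ) (∫ σ, dker (τ - σ) ψ * pn lam e σ) τ := by
    refine (hasDerivAt_integral_of_dominated_loc_of_deriv_le (s := univ)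
      (F := fun τ σ => HBInd.ker (τ - σ) ψ * pn lam e σ)
      (F' := fun τ σ => dker (τ - σ) ψ * pn lam e σ)
      (bound := fun σ => 1 / |Real.sin ψ| * C * Real.exp (-1 * |σ|))
      Filter.univ_mem (Filter.Eventually.of_forall fun τ => pv_meas lam e hψ τ)
      (hB.mono' (pv_meas lam e hψ τ) (Filter.Eventually.of_forall fun σ => hBb τ le_rfl σ))
      ?_ (Filter.Eventually.of_forall fun σ τ' _ => ?_) ((int_exp_abs (by norm_num)).const_mul _)
      (Filter.Eventually.of_forall fun σ τ' _ => ?_)).2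
    · have h2 : Continuous fun σ => dker (τ - σ) ψ * pn lam e σ :=
        ((continuous_dker hψ).comp (continuous_const.sub continuous_id)).mul (continuous_pn lam e)
      exact h2.aestronglyMeasurable
    · rw [norm_mul, Real.norm_eq_abs, Real.norm_eq_abs, mul_assoc]
      refine mul_le_mul ((abs_dker_le hψ _).trans ?_) (hn σ) (abs_nonneg _) (by positivity)
      exact div_le_div_of_nonneg_right (min_le_left _ _) hs.le
    · have h3 : HasDerivAt (fun τ : ℝ => τ - σ) 1 τ' := (hasDerivAt_id τ').sub_const σ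
      have h4 := ((hasDerivAt_ker hψ (τ' - σ)).comp τ' h3).mul_const (pn lam e σ)
      rw [mul_one] at h4
      exact h4
  obtain ⟨i1, i2⟩ := pG_int hl e (η := (τ : ℂ) + ψ * I) (by simpa using h0) (by simpa using h1)
  have h5 : ∫ σ, dker (τ - σ) ψ * pn lam e σ = (pG lam e ((τ : ℂ) + ψ * I)).re := by
    rw [← i2, ← Complex.reCLM_apply, ← ContinuousLinearMap.integral_comp_comm _ i1]
    refine integral_congr_ae (Filter.Eventually.of_forall fun σ => ?_)
    simp only [Complex.reCLM_apply]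
    rw [Complex.re_ofReal_mul, mul_comm]
    congr 1
    rw [dker]
    have h6 : ((τ - σ : ℝ) : ℂ) + ψ * I = (τ : ℂ) + ψ * I - σ := by
      push_cast
      ring
    rw [h6, Complex.exp_neg]
    congr 1
    have h7 := Complex.exp_ne_zero ((τ : ℂ) + ψ * I - σ)
    have h8 : 1 - (Complex.exp ((τ : ℂ) + ψ * I - σ))⁻¹ =
        (Complex.exp ((τ : ℂ) + ψ * I - σ) - 1) / Complex.exp ((τ : ℂ) + ψ * I - σ) := by
      field_simp
    rw [h8, one_div_div]
  rw [h5] at hd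
  exact hd

theorem pv_tendsto {lam : ℝ} (hl : 1 ≤ lam) (e : ℝ) {ψ : ℝ} (hψ : Real.sin ψ ≠ 0) :
    Tendsto (pv lam e ψ) atBot (𝓝 0) := by
  obtain ⟨B, hB, hBb⟩ := pv_bound hl e hψ 0
  have h1 : Tendsto (fun τ => ∫ σ, HBInd.ker (τ - σ) ψ * pn lam e σ) atBot (𝓝 (∫ _σ : ℝ, (0 : ℝ))) := by
    refine tendsto_integral_filter_of_dominated_convergence B
      (Filter.Eventually.of_forall fun τ => pv_meas lam e hψ τ) ?_ hB
      (Filter.Eventually.of_forall fun σ => ?_)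
    · filter_upwards [eventually_le_atBot 0] with τ hτ
      exact Filter.Eventually.of_forall fun σ => hBb τ hτ σ
    · have h2 : Tendsto (fun τ : ℝ => τ - σ) atBot atBot :=
        tendsto_atBot_add_const_right _ _ tendsto_id
      have h3 := ((tendsto_ker_atBot ψ).comp h2).mul_const (pn lam e σ)
      rwa [zero_mul] at h3
  rwa [integral_zero] at h1

theorem pF_tendsto {lam : ℝ} (hl : 1 ≤ lam) (e : ℝ) {ψ : ℝ} (h0 : 0 < ψ) (h1 : ψ < 2 * π) :
    Tendsto (fun τ : ℝ => (pF lam e ((τ : ℂ) + ψ * I)).re) atBot (𝓝 0) := by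
  have h2 : Tendsto (fun τ : ℝ => Real.exp (lam * (π ^ 2 / 4)) * Real.exp (τ / 2)) atBot (𝓝 0) := by
    have h3 := Real.tendsto_exp_atBot.comp
      (tendsto_id.atBot_div_const (show (0 : ℝ) < 2 by norm_num))
    have h4 := h3.const_mul (Real.exp (lam * (π ^ 2 / 4)))
    rw [mul_zero] at h4
    exact h4
  refine squeeze_zero_norm (fun τ => ?_) h2
  rw [Real.norm_eq_abs]
  refine (Complex.abs_re_le_norm _).trans
    ((pF_norm_le hl e (by simpa using h0.le) (by simpa using h1.le)).trans ?_)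
  rw [← Real.exp_add]
  refine Real.exp_le_exp.2 ?_
  simp only [Complex.add_re, Complex.ofReal_re, Complex.mul_re, Complex.I_re, mul_zero,
    Complex.ofReal_im, Complex.I_im, mul_one, sub_zero, add_zero]
  nlinarith [sq_nonneg (τ / 2)]

theorem pv_eq {lam : ℝ} (hl : 1 ≤ lam) (e : ℝ) {ψ : ℝ} (hψ : Real.sin ψ ≠ 0) (h0 : 0 < ψ)
    (h1 : ψ < 2 * π) (τ : ℝ) : pv lam e ψ τ = (pF lam e ((τ : ℂ) + ψ * I)).re := by
  have hF : ∀ τ : ℝ, HasDerivAt (fun τ : ℝ => (pF lam e ((τ : ℂ) + ψ * I)).re)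
      (pG lam e ((τ : ℂ) + ψ * I)).re τ := by
    intro τ
    have h2 : HasDerivAt (fun z : ℂ => pF lam e (z + ψ * I)) (pG lam e ((τ : ℂ) + ψ * I)) τ :=
      HasDerivAt.comp_add_const (τ : ℂ) (ψ * I) (pF_deriv lam e _)
    exact h2.real_of_complex
  have hd : ∀ τ : ℝ, HasDerivAt (fun τ : ℝ => pv lam e ψ τ - (pF lam e ((τ : ℂ) + ψ * I)).re)
      0 τ := by
    intro τ
    have := (pv_deriv hl e hψ h0 h1 τ).sub (hF τ)
    rw [sub_self] at this
    exact this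
  have hc : ∀ τ' : ℝ, pv lam e ψ τ' - (pF lam e ((τ' : ℂ) + ψ * I)).re =
      pv lam e ψ τ - (pF lam e ((τ : ℂ) + ψ * I)).re := fun τ' =>
    is_const_of_deriv_eq_zero (fun x => (hd x).differentiableAt) (fun x => (hd x).deriv) τ' τ
  have ht := (pv_tendsto hl e hψ).sub (pF_tendsto hl e h0 h1)
  have ht2 : Tendsto (fun τ' : ℝ => pv lam e ψ τ' - (pF lam e ((τ' : ℂ) + ψ * I)).re) atBot
      (𝓝 (pv lam e ψ τ - (pF lam e ((τ : ℂ) + ψ * I)).re)) :=
    tendsto_const_nhds.congr fun τ' => (hc τ').symm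
  have := tendsto_nhds_unique ht ht2
  linarith

/-! ### the statement -/

theorem kn_half (u ψ : ℝ) : kn 0 (1 / 2) u ψ = HBInd.ker u ψ * Real.exp (-(1 / 2) * u) := by
  rw [kn, kp_eq]
  simp

theorem peak_gen {lam : ℝ} (hl : 1 ≤ lam) (e t : ℝ) {θ : ℝ} (hθ : |θ| < π)
    (hs : Real.sin (2 * θ) ≠ 0) :
    ∫ u, kn 0 (1 / 2) u (2 * θ) * pk lam e ((2 * t - u) / 2) = pkT lam e t θ := by
  have hθ0 : θ ≠ 0 := by
    intro h
    rw [h, mul_zero, Real.sin_zero] at hs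
    exact hs rfl
  have hp : 0 < |θ| := abs_pos.2 hθ0
  have hs' : Real.sin (2 * |θ|) ≠ 0 := by
    rcases abs_cases θ with ⟨h, _⟩ | ⟨h, _⟩
    · rwa [h]
    · rw [h, mul_neg, Real.sin_neg]
      exact neg_ne_zero.2 hs
  have h1 : ∀ u, kn 0 (1 / 2) u (2 * θ) = kn 0 (1 / 2) u (2 * |θ|) := by
    intro u
    rcases abs_cases θ with ⟨h, _⟩ | ⟨h, _⟩
    · rw [h]
    · rw [h, mul_neg, kn_neg]
  have h2 : ∫ u, kn 0 (1 / 2) u (2 * θ) * pk lam e ((2 * t - u) / 2) =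
      ∫ σ, Real.exp (-t) * (HBInd.ker (2 * t - σ) (2 * |θ|) * pn lam e σ) := by
    rw [← integral_sub_left_eq_self
      (fun u => kn 0 (1 / 2) u (2 * θ) * pk lam e ((2 * t - u) / 2)) volume (2 * t)]
    refine integral_congr_ae (Filter.Eventually.of_forall fun σ => ?_)
    simp only
    rw [h1, kn_half, sub_sub_cancel, pn]
    have h3 : Real.exp (-(1 / 2) * (2 * t - σ)) = Real.exp (-t) * Real.exp (σ / 2) := by
      rw [← Real.exp_add]
      congr 1
      ring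
    rw [h3]
    ring
  rw [h2, integral_const_mul]
  have h4 := pv_eq hl e hs' (by linarith) (by linarith) (2 * t)
  rw [pv] at h4
  rw [h4, pF, pkT]
  set x := |θ| - π / 2 with hx
  have h5 : (((2 * t : ℝ) : ℂ) + ((2 * |θ| : ℝ) : ℂ) * I) / 2 -
      lam * (((((2 * t : ℝ) : ℂ) + ((2 * |θ| : ℝ) : ℂ) * I) / 2 - I * π / 2) ^ 2 + e ^ 2) =
      ((t - lam * (t ^ 2 - x ^ 2 + e ^ 2) : ℝ) : ℂ) +
        ((|θ| - 2 * lam * t * x : ℝ) : ℂ) * I := by
    rw [hx]
    push_cast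
    linear_combination (-(lam : ℂ) * ((|θ| : ℝ) - π / 2) ^ 2) * Complex.I_sq
  rw [h5, neg_mul, Complex.neg_re, Complex.I_mul_re, neg_neg, Complex.exp_im]
  rw [re_line, im_line]
  have h8 : Real.sin (|θ| - 2 * lam * t * x) = Real.cos (x * (1 - 2 * lam * t)) := by
    have h9 : |θ| - 2 * lam * t * x = x * (1 - 2 * lam * t) + π / 2 := by
      rw [hx]
      ring
    rw [h9, Real.sin_add_pi_div_two]
  rw [h8, ← mul_assoc, ← Real.exp_add, mul_comm]
  congr 2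
  ring

theorem kn_cont (u : ℝ) (hu : u ≠ 0) : Continuous fun θ : ℝ => kn 0 (1 / 2) u (2 * θ) := by
  have h1 : (fun θ : ℝ => kn 0 (1 / 2) u (2 * θ)) = fun θ : ℝ =>
      Real.log (1 - 2 * Real.exp u * Real.cos (2 * θ) + Real.exp u ^ 2) / 2 *
        Real.exp (-(1 / 2) * u) := by
    funext θ
    rw [kn_half, ker_eq]
  rw [h1]
  have h2 : ∀ θ : ℝ, 1 - 2 * Real.exp u * Real.cos (2 * θ) + Real.exp u ^ 2 ≠ 0 := by
    intro θ
    have h3 : Real.exp u ≠ 1 := by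
      intro h
      exact hu (Real.exp_eq_one_iff u |>.1 h)
    have h4 : 0 < (Real.exp u - 1) ^ 2 := by
      have : Real.exp u - 1 ≠ 0 := sub_ne_zero.2 h3
      positivity
    have h5 := Real.cos_le_one (2 * θ)
    have h6 := Real.exp_pos u
    nlinarith
  have h7 : Continuous fun θ : ℝ =>
      Real.log (1 - 2 * Real.exp u * Real.cos (2 * θ) + Real.exp u ^ 2) :=
    Continuous.log (by fun_prop) h2
  exact (h7.div_const 2).mul_const _

theorem peak_rep {lam : ℝ} (hl : 1 ≤ lam) (e t : ℝ) {θ : ℝ} (hθ : |θ| ≤ π) :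
    Integrable (fun u => kn 0 (1 / 2) u (2 * θ) * pk lam e ((2 * t - u) / 2)) ∧
      ∫ u, kn 0 (1 / 2) u (2 * θ) * pk lam e ((2 * t - u) / 2) = pkT lam e t θ := by
  set M := 4 * lam * Real.exp (1 + lam * (π ^ 2 / 4)) with hM
  have hPsi : Integrable (Psi 0 (1 / 2)) :=
    knt_integrable_Psi (by norm_num) (by norm_num) (by norm_num)
  have hmeas : ∀ θ : ℝ, AEStronglyMeasurable
      (fun u => kn 0 (1 / 2) u (2 * θ) * pk lam e ((2 * t - u) / 2)) volume := by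
    intro θ
    have h1 := knt_meas_kn 0 (1 / 2) (2 * θ)
    have h2 : Measurable fun u : ℝ => pk lam e ((2 * t - u) / 2) :=
      ((continuous_pk lam e).comp (by fun_prop)).measurable
    exact (h1.mul h2).aestronglyMeasurable
  have hbd : ∀ θ : ℝ, ∀ᵐ u : ℝ, ‖kn 0 (1 / 2) u (2 * θ) * pk lam e ((2 * t - u) / 2)‖ ≤
      Psi 0 (1 / 2) u * M := by
    intro θ
    filter_upwards [knt_ae_ne] with u hu
    rw [norm_mul, Real.norm_eq_abs, Real.norm_eq_abs]
    exact mul_le_mul (abs_kn_le (by norm_num) (1 / 2) hu _) (abs_pk_bdd hl e _) (abs_nonneg _)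
      (Psi_nonneg _ _ _)
  refine ⟨(hPsi.mul_const M).mono' (hmeas θ) (hbd θ), ?_⟩
  have hL : Continuous fun θ : ℝ =>
      ∫ u, kn 0 (1 / 2) u (2 * θ) * pk lam e ((2 * t - u) / 2) := by
    refine continuous_of_dominated hmeas hbd (hPsi.mul_const M) ?_
    filter_upwards [knt_ae_ne] with u hu
    exact (kn_cont u hu).mul_const _
  have hR : Continuous fun θ : ℝ => pkT lam e t θ := by
    unfold pkT
    fun_prop
  have hcl : IsClosed {θ : ℝ | ∫ u, kn 0 (1 / 2) u (2 * θ) * pk lam e ((2 * t - u) / 2) =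
      pkT lam e t θ} := isClosed_eq hL hR
  have hcount : ({θ : ℝ | Real.sin (2 * θ) = 0}).Countable := by
    have : {θ : ℝ | Real.sin (2 * θ) = 0} ⊆ range fun n : ℤ => (n : ℝ) * π / 2 := by
      intro x hx
      obtain ⟨n, hn⟩ := Real.sin_eq_zero_iff.1 hx
      exact ⟨n, by simp only; linarith⟩
    exact (countable_range _).mono this
  have hdense : Dense ({θ : ℝ | Real.sin (2 * θ) = 0})ᶜ := hcount.dense_compl ℝ
  have hsub : Ioo (-π) π ∩ ({θ : ℝ | Real.sin (2 * θ) = 0})ᶜ ⊆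
      {θ : ℝ | ∫ u, kn 0 (1 / 2) u (2 * θ) * pk lam e ((2 * t - u) / 2) =
        pkT lam e t θ} := by
    rintro x ⟨hx1, hx2⟩
    exact peak_gen hl e t (abs_lt.2 hx1) hx2
  have h3 : Ioo (-π) π ⊆ closure (Ioo (-π) π ∩ ({θ : ℝ | Real.sin (2 * θ) = 0})ᶜ) :=
    hdense.open_subset_closure_inter isOpen_Ioo
  have h4 := closure_minimal hsub hcl
  have h5 : closure (Ioo (-π) π) ⊆ {θ : ℝ | ∫ u, kn 0 (1 / 2) u (2 * θ) *
      pk lam e ((2 * t - u) / 2) = pkT lam e t θ} := closure_minimal (h3.trans h4) hcl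
  have hpi := Real.pi_pos
  rw [closure_Ioo (by linarith : -π ≠ π)] at h5
  exact h5 (abs_le.1 hθ)

end HBOne
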