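import Pool.Agent.HBInf.Realize

/-!
# Realisation of one density on the positive ray, `ρ = 1/2`

This is `HBInf.realize` with `p = 0`, `ρ = 1/2`, `ι = Unit`, `α = 0` (`dpot` is then the integral below), with two more
properties of the product: its zeros are on the positive ray, and it has real coefficients (product of `1 - z / x`,
`x > 0`). If `Pool.Agent.HBInf.Realize` contains `realize'` with these conclusions, use it; otherwise repeat its proof (or
apply it with the data exposed: every function of the class `exists_product_pt`).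
-/

namespace HBOne

open HBInd HBInf Complex Filter Topology Set MeasureTheory
open scoped Real ComplexConjugate

/-- the density `r` on the positive ray -/
def DensPos (r : ℝ → ℝ) (B : ℝ) : Prop :=
  Continuous r ∧ (∀ t, 0 ≤ r t) ∧ (∀ t ≤ 0, r t = 0) ∧ ∀ t, r t ≤ B * (1 + |t|) ^ 2

private lemma rps_kp_neg (p : ℕ) (u ψ : ℝ) : kp p u (-ψ) = kp p u ψ := by
  have h : Complex.exp ((u : ℂ) + ((-ψ : ℝ) : ℂ) * I) =
      conj (Complex.exp ((u : ℂ) + (ψ : ℂ) * I)) := by
    rw [← Complex.exp_conj]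
    congr 1
    simp
  rw [kp, kp, h, KK, KK, Complex.conj_re]
  have h2 : (1 : ℂ) - conj (Complex.exp ((u : ℂ) + (ψ : ℂ) * I)) =
      conj (1 - Complex.exp ((u : ℂ) + (ψ : ℂ) * I)) := by simp
  rw [h2, Complex.norm_conj]

theorem realize_pos {r : ℝ → ℝ} {B : ℝ} (h : DensPos r B) :
    ∃ φ : ℂ → ℂ, Pre (1 / 2) φ ∧
      (∀ t θ : ℝ, (∀ n : ℤ, θ ≠ n * (2 * π)) → φ (ray (Real.exp t) θ) ≠ 0) ∧
      (∀ t θ : ℝ, ‖φ (ray (Real.exp t) (-θ))‖ = ‖φ (ray (Real.exp t) θ)‖) ∧
      (∀ ε : ℝ, 0 < ε → ∀ᶠ t : ℝ in atTop, ∀ θ : ℝ, ‖φ (ray (Real.exp t) θ)‖ ≤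
        Real.exp (Real.exp (t / 2) * ((∫ u, kn 0 (1 / 2) u θ * r (t - u)) + ε))) ∧
      ∀ ε : ℝ, 0 < ε → ∀ᶠ t : ℝ in atTop, ∀ θ : ℝ, ∃ t' ∈ Icc t (t + ε),
        Real.exp (Real.exp (t' / 2) * ((∫ u, kn 0 (1 / 2) u θ * r (t - u)) - ε)) ≤
          ‖φ (ray (Real.exp t') θ)‖ := by
  obtain ⟨hc, hnn, hs, hb⟩ := h
  have hD : Dens 0 (fun _ : Unit => (0 : ℝ)) (fun _ => r) (fun _ => 0) (fun _ => B) :=
    { ang := fun _ => ⟨⟨le_refl _, Real.pi_pos.le⟩, fun h => absurd h (by norm_num)⟩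
      cont := fun _ => hc
      nn := fun _ => hnn
      supp := fun _ => hs
      S0 := fun _ => le_refl _
      bd := fun _ => hb
      sum := fun κ _ => (hasSum_fintype _).summable }
  have hdp : ∀ t θ : ℝ, dpot 0 (1 / 2) (fun _ : Unit => (0 : ℝ)) (fun _ => r) t θ =
      ∫ u, kn 0 (1 / 2) u θ * r (t - u) := by
    intro t θ
    rw [dpot, tsum_fintype]
    simp
  obtain ⟨f, hf, ⟨K, hK, τ, al, hal, hdat⟩, hup, hlo⟩ := realize_data (p := 0) (ρ := 1 / 2)
    (by norm_num) (by norm_num) (by norm_num) hD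
  have hal0 : ∀ k, al k = 0 := fun k => (hal k).elim fun _ h => h
  refine ⟨f, hf, ?_, ?_, ?_, ?_⟩
  · intro t θ hθ
    exact (hdat t θ fun k => Or.inr fun m => by rw [hal0, sub_zero]; exact hθ m).1
  · intro t θ
    by_cases hθ : ∀ n : ℤ, θ ≠ n * (2 * π)
    · have h1 := hdat t θ fun k => Or.inr fun m => by rw [hal0, sub_zero]; exact hθ m
      have h2 := hdat t (-θ) fun k => Or.inr fun m => by
        rw [hal0, sub_zero]
        intro h
        apply hθ (-m)
        push_cast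
        linarith
      have h3 : Real.log ‖f (ray (Real.exp t) (-θ))‖ = Real.log ‖f (ray (Real.exp t) θ)‖ := by
        refine h2.2.unique ?_
        refine h1.2.congr_fun fun k => ?_
        rw [hal0, sub_zero, sub_zero, rps_kp_neg]
      have h4 : 0 < ‖f (ray (Real.exp t) (-θ))‖ := norm_pos_iff.2 h2.1
      have h5 : 0 < ‖f (ray (Real.exp t) θ)‖ := norm_pos_iff.2 h1.1
      exact Real.log_injOn_pos h4 h5 h3
    · push Not at hθ
      obtain ⟨n, rfl⟩ := hθ
      congr 2
      rw [ray, ray]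
      congr 1
      have h1 : Complex.exp (((((n : ℝ) * (2 * π) : ℝ)) : ℂ) * I) = 1 := by
        rw [Complex.exp_eq_one_iff]
        exact ⟨n, by push_cast; ring⟩
      have h2 : Complex.exp (((-((n : ℝ) * (2 * π)) : ℝ) : ℂ) * I) = 1 := by
        rw [Complex.exp_eq_one_iff]
        exact ⟨-n, by push_cast; ring⟩
      rw [h1, h2]
  · intro ε hε
    filter_upwards [hup ε hε] with t ht
    intro θ
    have := ht θ
    rw [hdp] at this
    rwa [show t / 2 = 1 / 2 * t by ring]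
  · intro ε hε
    filter_upwards [hlo ε hε] with t ht
    intro θ
    obtain ⟨t', ht', h⟩ := ht θ
    refine ⟨t', ht', ?_⟩
    rw [hdp] at h
    rwa [show t' / 2 = 1 / 2 * t' by ring]

end HBOne
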