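import Mathlib

/-!
# The integral of `1 / sinh` on a horizontal line

For `0 < ψ < 2π`, `v = (s - iψ)/4`: `Im v ∈ (-π/2, 0)`, so `Im (tanh v) = sin (2 Im v) / (cosh (2 Re v) + cos (2 Im v)) < 0`,
and `Complex.log (tanh v)` is differentiable in `s` with derivative `1 / (2 sinh ((s - iψ)/2))`. As `s → ∞` it tends to
`0`, as `s → -∞`, `tanh v → -1` from the lower half-plane and the logarithm tends to `-iπ`. Integrable:
`|sinh ((s - iψ)/2)| ≥ sinh (|s|/2)` and `≥ c` (continuous, no zeros). FTC on the line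
(`integral_of_hasDerivAt_of_tendsto`).
-/

namespace HBOne

open Complex Filter Topology Set MeasureTheory
open scoped Real

/-- `w = e^{(s - iψ)/2}` -/
noncomputable def shw (ψ s : ℝ) : ℂ := Complex.exp (((s : ℂ) - (ψ : ℂ) * I) / 2)

theorem shw_norm (ψ s : ℝ) : ‖shw ψ s‖ = Real.exp (s / 2) := by
  rw [shw, Complex.norm_exp]
  congr 1
  simp

theorem shw_im (ψ s : ℝ) : (shw ψ s).im = -(Real.exp (s / 2) * Real.sin (ψ / 2)) := by
  rw [shw, Complex.exp_im]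
  have h1 : (((s : ℂ) - (ψ : ℂ) * I) / 2).re = s / 2 := by simp
  have h2 : (((s : ℂ) - (ψ : ℂ) * I) / 2).im = -(ψ / 2) := by
    simp
    ring
  rw [h1, h2, Real.sin_neg]
  ring

theorem sin_half_pos {ψ : ℝ} (h0 : 0 < ψ) (h1 : ψ < 2 * π) : 0 < Real.sin (ψ / 2) :=
  Real.sin_pos_of_pos_of_lt_pi (by linarith) (by linarith)

theorem shw_im_neg {ψ : ℝ} (h0 : 0 < ψ) (h1 : ψ < 2 * π) (s : ℝ) : (shw ψ s).im < 0 := by
  rw [shw_im]
  have := mul_pos (Real.exp_pos (s / 2)) (sin_half_pos h0 h1)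
  linarith

theorem shw_add_ne {ψ : ℝ} (h0 : 0 < ψ) (h1 : ψ < 2 * π) (s c : ℝ) : shw ψ s + c ≠ 0 := by
  intro h
  have := congrArg Complex.im h
  rw [Complex.add_im, Complex.ofReal_im, add_zero, Complex.zero_im] at this
  have h2 := shw_im_neg h0 h1 s
  linarith

/-- `(w - 1)/(w + 1)` -/
noncomputable def shq (ψ s : ℝ) : ℂ := (shw ψ s - 1) / (shw ψ s + 1)

theorem shq_im {ψ : ℝ} (h0 : 0 < ψ) (h1 : ψ < 2 * π) (s : ℝ) : (shq ψ s).im < 0 := by
  have h2 : shw ψ s + 1 ≠ 0 := by simpa using shw_add_ne h0 h1 s 1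
  have h3 : shq ψ s = 1 - 2 / (shw ψ s + 1) := by
    rw [shq]
    field_simp
    ring
  rw [h3, Complex.sub_im, Complex.one_im, zero_sub, Complex.div_im]
  have h4 : 0 < Complex.normSq (shw ψ s + 1) := Complex.normSq_pos.2 h2
  have h5 := shw_im_neg h0 h1 s
  simp only [Complex.add_im, Complex.one_im, add_zero, Complex.add_re, Complex.one_re,
    show ((2 : ℂ)).re = 2 from rfl, show ((2 : ℂ)).im = 0 from rfl, zero_mul, zero_div]
  rw [zero_sub, neg_neg]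
  exact div_neg_of_neg_of_pos (by linarith) h4

theorem shq_slit {ψ : ℝ} (h0 : 0 < ψ) (h1 : ψ < 2 * π) (s : ℝ) : shq ψ s ∈ Complex.slitPlane :=
  Or.inr (shq_im h0 h1 s).ne

theorem sinh_eq_shw (ψ s : ℝ) : Complex.sinh (((s : ℂ) - (ψ : ℂ) * I) / 2) =
    (shw ψ s - (shw ψ s)⁻¹) / 2 := by
  rw [Complex.sinh, shw, Complex.exp_neg]

theorem shw_ne (ψ s : ℝ) : shw ψ s ≠ 0 := Complex.exp_ne_zero _

theorem inv_sinh_eq {ψ : ℝ} (h0 : 0 < ψ) (h1 : ψ < 2 * π) (s : ℝ) :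
    1 / Complex.sinh (((s : ℂ) - (ψ : ℂ) * I) / 2) =
      2 * shw ψ s / ((shw ψ s - 1) * (shw ψ s + 1)) := by
  have h2 : shw ψ s + 1 ≠ 0 := by simpa using shw_add_ne h0 h1 s 1
  have h3 : shw ψ s - 1 ≠ 0 := by simpa [sub_eq_add_neg] using shw_add_ne h0 h1 s (-1)
  have h4 := shw_ne ψ s
  have h5 : shw ψ s ^ 2 - 1 ≠ 0 := by
    have : shw ψ s ^ 2 - 1 = (shw ψ s - 1) * (shw ψ s + 1) := by ring
    rw [this]
    exact mul_ne_zero h3 h2
  rw [sinh_eq_shw]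
  have h6 : (shw ψ s - (shw ψ s)⁻¹) / 2 = (shw ψ s ^ 2 - 1) / (2 * shw ψ s) := by
    field_simp
  rw [h6, one_div_div]
  congr 1
  ring

theorem shw_deriv (ψ s : ℝ) : HasDerivAt (fun s : ℝ => shw ψ s) (shw ψ s / 2) s := by
  have h1 : HasDerivAt (fun s : ℝ => ((s : ℂ) - (ψ : ℂ) * I) / 2) (1 / 2) s := by
    have := ((hasDerivAt_id s).ofReal_comp.sub_const ((ψ : ℂ) * I)).div_const 2
    simpa using this
  have h2 := h1.cexp
  rw [shw]
  convert! h2 using 1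
  ring

theorem shq_deriv {ψ : ℝ} (h0 : 0 < ψ) (h1 : ψ < 2 * π) (s : ℝ) :
    HasDerivAt (fun s : ℝ => 2 * Complex.log (shq ψ s))
      (1 / Complex.sinh (((s : ℂ) - (ψ : ℂ) * I) / 2)) s := by
  have h2 : shw ψ s + 1 ≠ 0 := by simpa using shw_add_ne h0 h1 s 1
  have h3 : shw ψ s - 1 ≠ 0 := by simpa [sub_eq_add_neg] using shw_add_ne h0 h1 s (-1)
  have d1 := ((shw_deriv ψ s).sub_const 1).div ((shw_deriv ψ s).add_const 1) h2
  have d2 := (d1.clog_real (shq_slit h0 h1 s)).const_mul 2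
  refine d2.congr_deriv ?_
  rw [inv_sinh_eq h0 h1]
  simp only [Pi.div_apply]
  field_simp
  ring

theorem shw_tendsto_bot (ψ : ℝ) : Tendsto (fun s => shw ψ s) atBot (𝓝 0) := by
  rw [tendsto_zero_iff_norm_tendsto_zero]
  have h : (fun s : ℝ => ‖shw ψ s‖) = fun s => Real.exp (s / 2) := by
    funext s
    exact shw_norm ψ s
  rw [h]
  exact Real.tendsto_exp_atBot.comp (tendsto_id.atBot_div_const (by norm_num))

theorem shw_tendsto_top (ψ : ℝ) : Tendsto (fun s => ‖shw ψ s‖) atTop atTop := by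
  have h : (fun s : ℝ => ‖shw ψ s‖) = fun s => Real.exp (s / 2) := by
    funext s
    exact shw_norm ψ s
  rw [h]
  exact Real.tendsto_exp_atTop.comp (tendsto_id.atTop_div_const (by norm_num))

theorem shq_top {ψ : ℝ} (h0 : 0 < ψ) (h1 : ψ < 2 * π) :
    Tendsto (fun s => 2 * Complex.log (shq ψ s)) atTop (𝓝 0) := by
  have h3 : ∀ s, shq ψ s = 1 - 2 / (shw ψ s + 1) := by
    intro s
    have h2 : shw ψ s + 1 ≠ 0 := by simpa using shw_add_ne h0 h1 s 1
    rw [shq]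
    field_simp
    ring
  have h4 : Tendsto (fun s => shw ψ s + 1) atTop (Bornology.cobounded ℂ) := by
    rw [← tendsto_norm_atTop_iff_cobounded]
    refine tendsto_atTop_mono (f := fun s => ‖shw ψ s‖ - 1) (fun s => ?_)
      (tendsto_atTop_add_const_right _ _ (shw_tendsto_top ψ))
    have := norm_sub_norm_le (shw ψ s) (-1)
    rw [norm_neg, norm_one, sub_neg_eq_add] at this
    exact this
  have h5 : Tendsto (fun s => shq ψ s) atTop (𝓝 1) := by
    have h6 : Tendsto (fun s => (shw ψ s + 1)⁻¹) atTop (𝓝 0) := tendsto_inv₀_cobounded.comp h4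
    have h7 := (h6.const_mul 2).const_sub 1
    rw [mul_zero, sub_zero] at h7
    refine h7.congr fun s => ?_
    rw [h3 s, div_eq_mul_inv]
  have h8 : Tendsto Complex.log (𝓝 1) (𝓝 0) := by
    have := (continuousAt_clog (x := 1) Complex.one_mem_slitPlane).tendsto
    rwa [Complex.log_one] at this
  have h9 := (h8.comp h5).const_mul 2
  rwa [mul_zero] at h9

theorem shq_bot {ψ : ℝ} (h0 : 0 < ψ) (h1 : ψ < 2 * π) :
    Tendsto (fun s => 2 * Complex.log (shq ψ s)) atBot (𝓝 (-(2 * π * I))) := by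
  have h5 : Tendsto (fun s => shq ψ s) atBot (𝓝 (-1)) := by
    have h6 := (((shw_tendsto_bot ψ).sub_const 1).div ((shw_tendsto_bot ψ).add_const 1)
      (by simp))
    have h7 : (0 - 1 : ℂ) / (0 + 1) = -1 := by norm_num
    rw [h7] at h6
    exact h6
  have h6 : Tendsto (fun s => shq ψ s) atBot (𝓝[{z : ℂ | z.im < 0}] (-1)) :=
    tendsto_nhdsWithin_iff.2 ⟨h5, Filter.Eventually.of_forall fun s => shq_im h0 h1 s⟩
  have h7 := Complex.tendsto_log_nhdsWithin_im_neg_of_re_neg_of_im_zero (z := -1) (by simp)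
    (by simp)
  have h8 := (h7.comp h6).const_mul 2
  have h9 : (2 : ℂ) * ((Real.log ‖(-1 : ℂ)‖ : ℂ) - π * I) = -(2 * π * I) := by
    rw [norm_neg, norm_one, Real.log_one]
    push_cast
    ring
  rw [h9] at h8
  exact h8

theorem sinh_norm_ge {ψ : ℝ} (s : ℝ) :
    |Real.sin (ψ / 2)| * Real.cosh (s / 2) ≤ ‖Complex.sinh (((s : ℂ) - (ψ : ℂ) * I) / 2)‖ := by
  have h1 : ((s : ℂ) - (ψ : ℂ) * I) / 2 = ((s / 2 : ℝ) : ℂ) + ((-(ψ / 2) : ℝ) : ℂ) * I := by
    push_cast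
    ring
  have h2 : Complex.sinh (((s : ℂ) - (ψ : ℂ) * I) / 2) =
      ((Real.sinh (s / 2) * Real.cos (ψ / 2) : ℝ) : ℂ) +
        ((-(Real.cosh (s / 2) * Real.sin (ψ / 2)) : ℝ) : ℂ) * I := by
    rw [h1, Complex.sinh_add, Complex.cosh_mul_I, Complex.sinh_mul_I, ← Complex.ofReal_sinh,
      ← Complex.ofReal_cosh, ← Complex.ofReal_cos, ← Complex.ofReal_sin, Real.cos_neg, Real.sin_neg]
    push_cast
    ring
  have h3 : ‖Complex.sinh (((s : ℂ) - (ψ : ℂ) * I) / 2)‖ ^ 2 =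
      (Real.sinh (s / 2) * Real.cos (ψ / 2)) ^ 2 + (Real.cosh (s / 2) * Real.sin (ψ / 2)) ^ 2 := by
    rw [h2, Complex.sq_norm, Complex.normSq_add_mul_I]
    ring
  have hc : 0 < Real.cosh (s / 2) := Real.cosh_pos _
  rw [← abs_of_pos hc, ← abs_mul, ← abs_norm (Complex.sinh _)]
  rw [← sq_le_sq, h3]
  nlinarith [sq_nonneg (Real.sinh (s / 2) * Real.cos (ψ / 2)), sq_abs (Real.cosh (s / 2))]

theorem int_exp_abs {c : ℝ} (hc : 0 < c) : Integrable fun u : ℝ => Real.exp (-c * |u|) := by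
  have hA : IntegrableOn (fun u : ℝ => Real.exp (-c * |u|)) (Iic 0) := by
    refine (integrableOn_exp_mul_Iic hc 0).congr_fun (fun u hu => ?_) measurableSet_Iic
    have hu : u ≤ 0 := hu
    simp only
    rw [abs_of_nonpos hu]
    congr 1
    ring
  have hB : IntegrableOn (fun u : ℝ => Real.exp (-c * |u|)) (Ioi 0) := by
    refine (integrableOn_exp_mul_Ioi (a := -c) (by linarith) 0).congr_fun (fun u hu => ?_)
      measurableSet_Ioi
    have hu : 0 < u := hu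
    simp only
    rw [abs_of_pos hu]
  rw [← integrableOn_univ, ← Iic_union_Ioi (a := (0 : ℝ))]
  exact hA.union hB

theorem cosh_ge (x : ℝ) : Real.exp |x| / 2 ≤ Real.cosh x := by
  rw [← Real.cosh_abs, Real.cosh_eq]
  have := Real.exp_pos (-|x|)
  linarith

theorem sinh_norm_ge' {ψ : ℝ} (s : ℝ) :
    |Real.sin (ψ / 2)| * (Real.exp (|s| / 2) / 2) ≤
      ‖Complex.sinh (((s : ℂ) - (ψ : ℂ) * I) / 2)‖ := by
  refine le_trans (mul_le_mul_of_nonneg_left ?_ (abs_nonneg _)) (sinh_norm_ge s)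
  have := cosh_ge (s / 2)
  rwa [abs_div, abs_of_pos (show (0 : ℝ) < 2 by norm_num)] at this

theorem inv_sinh_bound {ψ : ℝ} (h0 : 0 < ψ) (h1 : ψ < 2 * π) (s : ℝ) :
    ‖1 / Complex.sinh (((s : ℂ) - (ψ : ℂ) * I) / 2)‖ ≤
      2 / Real.sin (ψ / 2) * Real.exp (-(1 / 2) * |s|) := by
  have hs := sin_half_pos h0 h1
  have h2 := sinh_norm_ge' (ψ := ψ) s
  rw [abs_of_pos hs] at h2
  have hp : 0 < Real.sin (ψ / 2) * (Real.exp (|s| / 2) / 2) := by positivity
  rw [norm_div, norm_one]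
  refine (one_div_le_one_div_of_le hp h2).trans (le_of_eq ?_)
  have h3 : Real.exp (-(1 / 2) * |s|) = (Real.exp (|s| / 2))⁻¹ := by
    rw [← Real.exp_neg]
    congr 1
    ring
  rw [h3]
  field_simp

theorem sinh_int {ψ : ℝ} (h0 : 0 < ψ) (h1 : ψ < 2 * π) :
    Integrable (fun s : ℝ => 1 / Complex.sinh (((s : ℂ) - (ψ : ℂ) * I) / 2)) ∧
      ∫ s : ℝ, 1 / Complex.sinh (((s : ℂ) - (ψ : ℂ) * I) / 2) = 2 * π * I := by
  have hI : Integrable (fun s : ℝ => 1 / Complex.sinh (((s : ℂ) - (ψ : ℂ) * I) / 2)) := by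
    refine Integrable.mono' ((int_exp_abs (c := 1 / 2) (by norm_num)).const_mul
      (2 / Real.sin (ψ / 2))) ?_ (Filter.Eventually.of_forall fun s => inv_sinh_bound h0 h1 s)
    have hm : Measurable fun s : ℝ => 1 / Complex.sinh (((s : ℂ) - (ψ : ℂ) * I) / 2) := by
      have := Complex.measurable_sinh
      fun_prop
    exact hm.aestronglyMeasurable
  refine ⟨hI, ?_⟩
  rw [integral_of_hasDerivAt_of_tendsto (fun s => shq_deriv h0 h1 s) hI (shq_bot h0 h1)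
    (shq_top h0 h1)]
  ring

end HBOne
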