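import Pool.Agent.HBOne.SinhInt

/-!
# Cauchy's formula in a strip with a periodic kernel

Let `η = τ + iψ`, `0 < ψ < 2π`, `Λ ζ = 1 / (1 - e^{-ζ})`. `D w = G w - G η e^{(w - η)/2}` vanishes at `η`;
`H w = D w Λ (η - w)` extends to a holomorphic function in the strip `|Im (w - η)| < 2π` (`dslope`), which contains the
closed strip `0 ≤ Im w ≤ 2π`. Cauchy for the rectangle `[-R, R] × [0, 2π]`, `R → ∞` (the vertical sides tend to `0`):
`∫ (H σ - H (σ + 2πi)) dσ = 0`. `Λ` has the period `2πi`, `D (σ + 2πi) = G (σ + 2πi) + G η e^{(σ-η)/2}`, so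
`∫ (G σ - G (σ + 2πi)) Λ (η - σ) dσ = - G η ∫ dσ / sinh ((σ - η)/2) = - 2πi G η` (`sinh_int`, translation).
-/

namespace HBOne

open Complex Filter Topology Set MeasureTheory
open scoped Real

theorem one_sub_exp_eq (v : ℂ) :
    1 - Complex.exp v = -(2 * Complex.exp (v / 2) * Complex.sinh (v / 2)) := by
  rw [Complex.sinh]
  have h : Complex.exp v = Complex.exp (v / 2) * Complex.exp (v / 2) := by
    rw [← Complex.exp_add]
    congr 1
    ring
  have h2 : Complex.exp (v / 2) * Complex.exp (-(v / 2)) = 1 := by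
    rw [← Complex.exp_add]
    simp
  rw [h]
  linear_combination -h2

theorem neg_sub_eq_line (η : ℂ) (σ : ℝ) :
    -(η - (σ : ℂ)) = ((σ - η.re : ℝ) : ℂ) - (η.im : ℂ) * I := by
  apply Complex.ext <;> simp

theorem lam_norm_ge {η : ℂ} (h0 : 0 < η.im) (h1 : η.im < 2 * π) (σ : ℝ) :
    Real.sin (η.im / 2) ≤ ‖1 - Complex.exp (-(η - σ))‖ := by
  rw [one_sub_exp_eq, norm_neg, norm_mul, norm_mul, neg_sub_eq_line]
  have h2 := sinh_norm_ge' (ψ := η.im) (σ - η.re)
  have hs := sin_half_pos h0 h1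
  rw [abs_of_pos hs] at h2
  have h3 : ‖Complex.exp ((((σ - η.re : ℝ) : ℂ) - (η.im : ℂ) * I) / 2)‖ =
      Real.exp ((σ - η.re) / 2) := shw_norm η.im (σ - η.re)
  have h4 : 1 ≤ Real.exp ((σ - η.re) / 2) * Real.exp (|σ - η.re| / 2) := by
    rw [← Real.exp_add]
    refine Real.one_le_exp ?_
    have := neg_abs_le (σ - η.re)
    linarith
  rw [h3, Complex.norm_two]
  have h5 : 0 < Real.exp ((σ - η.re) / 2) := Real.exp_pos _
  calc Real.sin (η.im / 2) ≤ Real.sin (η.im / 2) *
        (Real.exp ((σ - η.re) / 2) * Real.exp (|σ - η.re| / 2)) := le_mul_of_one_le_right hs.le h4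
    _ = 2 * Real.exp ((σ - η.re) / 2) *
        (Real.sin (η.im / 2) * (Real.exp (|σ - η.re| / 2) / 2)) := by ring
    _ ≤ _ := mul_le_mul_of_nonneg_left h2 (by positivity)

theorem lam_ne {η : ℂ} (h0 : 0 < η.im) (h1 : η.im < 2 * π) (σ : ℝ) :
    1 - Complex.exp (-(η - σ)) ≠ 0 := by
  have h2 := lam_norm_ge h0 h1 σ
  have hs := sin_half_pos h0 h1
  exact norm_pos_iff.1 (by linarith)

/-- `(e^{w-η} - 1)/(w - η)` -/
noncomputable def scp (η : ℂ) : ℂ → ℂ := dslope (fun w => Complex.exp (w - η)) η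

theorem scp_of_ne {η w : ℂ} (h : w ≠ η) :
    scp η w = (Complex.exp (w - η) - 1) / (w - η) := by
  rw [scp, dslope_of_ne _ h, slope_def_field]
  simp

theorem scp_self (η : ℂ) : scp η η = 1 := by
  rw [scp, dslope_same]
  have h : HasDerivAt (fun w => Complex.exp (w - η)) (Complex.exp (η - η) * 1) η :=
    ((hasDerivAt_id η).sub_const η).cexp
  rw [h.deriv]
  simp

theorem scp_ne_zero {η w : ℂ} (h : |(w - η).im| < 2 * π) : scp η w ≠ 0 := by
  by_cases hw : w = η
  · rw [hw, scp_self]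
    exact one_ne_zero
  · rw [scp_of_ne hw]
    have h1 : w - η ≠ 0 := sub_ne_zero.2 hw
    refine div_ne_zero ?_ h1
    intro h2
    have h3 : Complex.exp (w - η) = 1 := sub_eq_zero.1 h2
    obtain ⟨n, hn⟩ := Complex.exp_eq_one_iff.1 h3
    have h4 : (w - η).im = n * (2 * π) := by
      rw [hn]
      simp
    have h5 : |(n : ℝ)| < 1 := by
      rw [h4, abs_mul, abs_of_pos (by positivity : (0 : ℝ) < 2 * π)] at h
      have hp : (0 : ℝ) < 2 * π := by positivity
      nlinarith [abs_nonneg (n : ℝ)]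
    have h6 : n = 0 := by
      have h7 : |n| < 1 := by exact_mod_cast h5
      exact Int.abs_lt_one_iff.1 h7
    rw [h6] at hn
    apply h1
    rw [hn]
    simp

theorem scp_diff (η : ℂ) : Differentiable ℂ (scp η) := by
  rw [← differentiableOn_univ, scp, Complex.differentiableOn_dslope Filter.univ_mem]
  fun_prop

/-- `G w - G η e^{(w - η)/2}` -/
noncomputable def scD (G : ℂ → ℂ) (η w : ℂ) : ℂ := G w - G η * Complex.exp ((w - η) / 2)

/-- the holomorphic extension of `D w Λ (η - w)` -/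
noncomputable def scH (G : ℂ → ℂ) (η w : ℂ) : ℂ := -(dslope (scD G η) η w) / scp η w

theorem scD_diff {G : ℂ → ℂ} (hG : Differentiable ℂ G) (η : ℂ) : Differentiable ℂ (scD G η) := by
  unfold scD
  fun_prop

theorem scH_of_ne (G : ℂ → ℂ) {η w : ℂ} (h : w ≠ η) :
    scH G η w = scD G η w / (1 - Complex.exp (w - η)) := by
  have h0 : scD G η η = 0 := by simp [scD]
  have h1 : w - η ≠ 0 := sub_ne_zero.2 h
  rw [scH, dslope_of_ne _ h, slope_def_field, scp_of_ne h, h0, sub_zero, ← neg_div,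
    div_div_div_cancel_right₀ h1, ← neg_sub 1 (Complex.exp (w - η)), neg_div_neg_eq]

theorem scH_diff {G : ℂ → ℂ} (hG : Differentiable ℂ G) (η : ℂ) :
    DifferentiableOn ℂ (scH G η) {w | |(w - η).im| < 2 * π} := by
  have h1 : Differentiable ℂ (dslope (scD G η) η) := by
    rw [← differentiableOn_univ, Complex.differentiableOn_dslope Filter.univ_mem]
    exact (scD_diff hG η).differentiableOn
  exact DifferentiableOn.div h1.neg.differentiableOn (scp_diff η).differentiableOn
    fun w hw => scp_ne_zero hw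

theorem vert_bound {u : ℝ} (h : 1 ≤ |u|) :
    1 / 2 ≤ |1 - Real.exp u| ∧ Real.exp (u / 2) ≤ 2 * Real.exp (-|u| / 2) * |1 - Real.exp u| := by
  rcases le_abs'.1 h with h1 | h1
  · have h2 : Real.exp u ≤ 1 / 2 := by
      have h3 : Real.exp u ≤ Real.exp (-1) := Real.exp_le_exp.2 h1
      have h4 : Real.exp (-1) < 1 / 2 := by
        have := Real.exp_neg_one_lt_d9
        linarith
      linarith
    rw [abs_of_nonneg (by linarith : 0 ≤ 1 - Real.exp u), abs_of_nonpos (by linarith : u ≤ 0),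
      neg_neg]
    refine ⟨by linarith, ?_⟩
    have h5 := Real.exp_pos (u / 2)
    nlinarith
  · have h2 : 2 ≤ Real.exp u := by
      have := Real.add_one_le_exp u
      linarith
    rw [abs_of_nonpos (by linarith : 1 - Real.exp u ≤ 0), abs_of_nonneg (by linarith : 0 ≤ u)]
    refine ⟨by linarith, ?_⟩
    have h3 : Real.exp (-u / 2) * Real.exp (u / 2) = 1 := by
      rw [← Real.exp_add]
      simp [← add_div]
    have h4 : Real.exp u = Real.exp (u / 2) * Real.exp (u / 2) := by
      rw [← Real.exp_add]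
      congr 1
      ring
    have h5 := Real.exp_pos (u / 2)
    have h6 := Real.exp_pos (-u / 2)
    rw [h4] at h2 ⊢
    nlinarith

theorem scH_bound {G : ℂ → ℂ} {C : ℝ}
    (hC : ∀ w : ℂ, 0 ≤ w.im → w.im ≤ 2 * π → ‖G w‖ ≤ C * Real.exp (-|w.re|)) {η w : ℂ}
    (hw0 : 0 ≤ w.im) (hw1 : w.im ≤ 2 * π) (hw : 1 ≤ |w.re - η.re|) :
    ‖scH G η w‖ ≤ 2 * C * Real.exp (-|w.re|) + 2 * ‖G η‖ * Real.exp (-|w.re - η.re| / 2) := by
  have hne : w ≠ η := by
    intro h
    rw [h, sub_self, abs_zero] at hw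
    linarith
  obtain ⟨h1, h2⟩ := vert_bound hw
  have h3 : |1 - Real.exp (w.re - η.re)| ≤ ‖1 - Complex.exp (w - η)‖ := by
    have h4 := abs_norm_sub_norm_le (1 : ℂ) (Complex.exp (w - η))
    rwa [norm_one, Complex.norm_exp, Complex.sub_re] at h4
  have h5 : ‖scD G η w‖ ≤ C * Real.exp (-|w.re|) + ‖G η‖ * Real.exp ((w.re - η.re) / 2) := by
    refine (norm_sub_le _ _).trans (add_le_add (hC w hw0 hw1) ?_)
    rw [norm_mul, Complex.norm_exp]
    refine mul_le_mul_of_nonneg_left (le_of_eq ?_) (norm_nonneg _)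
    congr 1
    simp
  rw [scH_of_ne G hne, norm_div]
  have hp : 0 < ‖1 - Complex.exp (w - η)‖ := by linarith
  rw [div_le_iff₀ hp]
  have hC0 : 0 ≤ C * Real.exp (-|w.re|) := (norm_nonneg _).trans (hC w hw0 hw1)
  have h6 : C * Real.exp (-|w.re|) ≤
      2 * C * Real.exp (-|w.re|) * ‖1 - Complex.exp (w - η)‖ := by
    have : 1 / 2 ≤ ‖1 - Complex.exp (w - η)‖ := h1.trans h3
    nlinarith
  have h7 : ‖G η‖ * Real.exp ((w.re - η.re) / 2) ≤
      2 * ‖G η‖ * Real.exp (-|w.re - η.re| / 2) * ‖1 - Complex.exp (w - η)‖ := by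
    calc ‖G η‖ * Real.exp ((w.re - η.re) / 2) ≤ ‖G η‖ *
          (2 * Real.exp (-|w.re - η.re| / 2) * |1 - Real.exp (w.re - η.re)|) :=
          mul_le_mul_of_nonneg_left h2 (norm_nonneg _)
      _ ≤ ‖G η‖ * (2 * Real.exp (-|w.re - η.re| / 2) * ‖1 - Complex.exp (w - η)‖) :=
          mul_le_mul_of_nonneg_left (mul_le_mul_of_nonneg_left h3 (by positivity)) (norm_nonneg _)
      _ = _ := by ring
  rw [add_mul]
  linarith

theorem side_tendsto {G : ℂ → ℂ} {C : ℝ}
    (hC : ∀ w : ℂ, 0 ≤ w.im → w.im ≤ 2 * π → ‖G w‖ ≤ C * Real.exp (-|w.re|)) (η : ℂ)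
    {l : Filter ℝ} {a : ℝ → ℝ} (ha : Tendsto (fun R => |a R|) l atTop) :
    Tendsto (fun R => ∫ y in (0 : ℝ)..2 * π, scH G η ((a R : ℂ) + y * I)) l (𝓝 0) := by
  have hb : Tendsto (fun R => |a R - η.re|) l atTop := by
    refine tendsto_atTop_mono (f := fun R => |a R| - |η.re|) (fun R => ?_)
      (tendsto_atTop_add_const_right _ _ ha)
    have := abs_sub_abs_le_abs_sub (a R) η.re
    exact this
  have hB : Tendsto (fun R => (2 * C * Real.exp (-|a R|) +
      2 * ‖G η‖ * Real.exp (-|a R - η.re| / 2)) * |2 * π - 0|) l (𝓝 0) := by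
    have h1 : Tendsto (fun R => Real.exp (-|a R|)) l (𝓝 0) :=
      Real.tendsto_exp_neg_atTop_nhds_zero.comp ha
    have h2 : Tendsto (fun R => Real.exp (-|a R - η.re| / 2)) l (𝓝 0) := by
      have h3 := Real.tendsto_exp_neg_atTop_nhds_zero.comp
        (hb.atTop_div_const (show (0 : ℝ) < 2 by norm_num))
      refine h3.congr fun R => ?_
      simp only [Function.comp]
      congr 1
      ring
    have h4 := ((h1.const_mul (2 * C)).add (h2.const_mul (2 * ‖G η‖))).mul_const |2 * π - 0|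
    simpa using h4
  refine squeeze_zero_norm' ?_ hB
  filter_upwards [hb.eventually_ge_atTop 1] with R hR
  refine intervalIntegral.norm_integral_le_of_norm_le_const fun y hy => ?_
  rw [uIoc_of_le (by positivity : (0 : ℝ) ≤ 2 * π)] at hy
  have h5 := scH_bound (G := G) (η := η) (w := (a R : ℂ) + y * I) hC (by simpa using hy.1.le)
    (by simpa using hy.2) (by simpa using hR)
  simpa using h5

theorem line_mem {η : ℂ} (h0 : 0 < η.im) (h1 : η.im < 2 * π) {w : ℂ} (hw0 : 0 ≤ w.im)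
    (hw1 : w.im ≤ 2 * π) : w ∈ {w : ℂ | |(w - η).im| < 2 * π} := by
  simp only [Set.mem_ofPred_eq, Complex.sub_im]
  rw [abs_lt]
  constructor <;> linarith

theorem line_cont {G : ℂ → ℂ} (hG : Differentiable ℂ G) {η : ℂ} (h0 : 0 < η.im)
    (h1 : η.im < 2 * π) {y : ℝ} (hy0 : 0 ≤ y) (hy1 : y ≤ 2 * π) :
    Continuous fun σ : ℝ => scH G η ((σ : ℂ) + y * I) := by
  have h2 := (scH_diff hG η).continuousOn
  exact h2.comp_continuous (by fun_prop)
    fun σ => line_mem h0 h1 (by simpa using hy0) (by simpa using hy1)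

theorem strip_diff {G : ℂ → ℂ} {η : ℂ} (h0 : 0 < η.im) (h1 : η.im < 2 * π) (σ : ℝ) :
    scH G η ((σ : ℂ) + (0 : ℝ) * I) - scH G η ((σ : ℂ) + (2 * π : ℝ) * I) =
      (G σ - G (σ + 2 * π * I)) * (1 / (1 - Complex.exp (-(η - σ)))) +
        G η * (1 / Complex.sinh ((((σ - η.re : ℝ) : ℂ) - (η.im : ℂ) * I) / 2)) := by
  have e0 : (σ : ℂ) + (0 : ℝ) * I = σ := by simp
  have e1 : (σ : ℂ) + (2 * π : ℝ) * I = σ + 2 * π * I := by
    push_cast
    ring
  have n0 : (σ : ℂ) ≠ η := by
    intro h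
    rw [← h] at h0
    simp at h0
  have n1 : (σ : ℂ) + 2 * π * I ≠ η := by
    intro h
    rw [← h] at h1
    simp at h1
  rw [e0, e1, scH_of_ne G n0, scH_of_ne G n1]
  have e2 : Complex.exp ((σ : ℂ) + 2 * π * I - η) = Complex.exp (-(η - σ)) := by
    have : (σ : ℂ) + 2 * π * I - η = -(η - σ) + 2 * π * I := by ring
    rw [this, Complex.exp_add, Complex.exp_two_pi_mul_I, mul_one]
  have e3 : Complex.exp ((σ : ℂ) - η) = Complex.exp (-(η - σ)) := by
    congr 1
    ring
  have e4 : Complex.exp (((σ : ℂ) + 2 * π * I - η) / 2) = -Complex.exp (-(η - σ) / 2) := by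
    have : ((σ : ℂ) + 2 * π * I - η) / 2 = -(η - σ) / 2 + π * I := by ring
    rw [this, Complex.exp_add, Complex.exp_pi_mul_I]
    ring
  have e5 : Complex.exp (((σ : ℂ) - η) / 2) = Complex.exp (-(η - σ) / 2) := by
    congr 1
    ring
  rw [scD, scD, e2, e3, e4, e5, ← neg_sub_eq_line]
  have hne := lam_ne h0 h1 σ
  have h3 := one_sub_exp_eq (-(η - σ))
  have hE := Complex.exp_ne_zero (-(η - (σ : ℂ)) / 2)
  have hS : Complex.sinh (-(η - (σ : ℂ)) / 2) ≠ 0 := by
    intro h
    rw [h3, h, mul_zero, neg_zero] at hne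
    exact hne rfl
  rw [h3]
  field_simp
  ring

theorem strip_cauchy {G : ℂ → ℂ} (hG : Differentiable ℂ G) {C : ℝ}
    (hC : ∀ w : ℂ, 0 ≤ w.im → w.im ≤ 2 * π → ‖G w‖ ≤ C * Real.exp (-|w.re|)) {η : ℂ}
    (h0 : 0 < η.im) (h1 : η.im < 2 * π) :
    Integrable (fun σ : ℝ => (G σ - G (σ + 2 * π * I)) * (1 / (1 - Complex.exp (-(η - σ))))) ∧
      ∫ σ : ℝ, (G σ - G (σ + 2 * π * I)) * (1 / (1 - Complex.exp (-(η - σ)))) =
        -(2 * π * I * G η) := by
  have hs := sin_half_pos h0 h1
  have hI : Integrable (fun σ : ℝ =>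
      (G σ - G (σ + 2 * π * I)) * (1 / (1 - Complex.exp (-(η - σ))))) := by
    refine Integrable.mono' ((int_exp_abs (c := 1) (by norm_num)).const_mul
      (2 * C * (1 / Real.sin (η.im / 2)))) ?_ (Filter.Eventually.of_forall fun σ => ?_)
    · have hc : Continuous fun σ : ℝ =>
          (G σ - G (σ + 2 * π * I)) * (1 / (1 - Complex.exp (-(η - σ)))) := by
        have hGc := hG.continuous
        refine Continuous.mul (by fun_prop) (Continuous.div continuous_const (by fun_prop)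
          fun σ => lam_ne h0 h1 σ)
      exact hc.aestronglyMeasurable
    · rw [norm_mul, norm_div, norm_one]
      have h2 : ‖G σ - G (σ + 2 * π * I)‖ ≤ 2 * C * Real.exp (-1 * |σ|) := by
        refine (norm_sub_le _ _).trans ?_
        have h3 := hC σ (by simp) (by simp; positivity)
        have h4 := hC (σ + 2 * π * I) (by simp; positivity) (by simp)
        simp only [Complex.ofReal_re] at h3
        have e : ((σ : ℂ) + 2 * π * I).re = σ := by simp
        rw [e] at h4
        rw [show -1 * |σ| = -|σ| by ring]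
        linarith
      have h5 : 1 / ‖1 - Complex.exp (-(η - σ))‖ ≤ 1 / Real.sin (η.im / 2) :=
        one_div_le_one_div_of_le hs (lam_norm_ge h0 h1 σ)
      calc ‖G σ - G (σ + 2 * π * I)‖ * (1 / ‖1 - Complex.exp (-(η - σ))‖) ≤
            (2 * C * Real.exp (-1 * |σ|)) * (1 / Real.sin (η.im / 2)) :=
            mul_le_mul h2 h5 (by positivity) ((norm_nonneg _).trans h2)
        _ = _ := by ring
  refine ⟨hI, ?_⟩
  obtain ⟨hJ, hJv⟩ := sinh_int h0 h1
  have hK : Integrable (fun σ : ℝ =>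
      1 / Complex.sinh ((((σ - η.re : ℝ) : ℂ) - (η.im : ℂ) * I) / 2)) :=
    hJ.comp_sub_right η.re
  have hKv : ∫ σ : ℝ, 1 / Complex.sinh ((((σ - η.re : ℝ) : ℂ) - (η.im : ℂ) * I) / 2) =
      2 * π * I := by
    rw [← hJv]
    exact integral_sub_right_eq_self
      (fun s : ℝ => 1 / Complex.sinh (((s : ℂ) - (η.im : ℂ) * I) / 2)) η.re
  have hsum := hI.add (hK.const_mul (G η))
  have hlim := intervalIntegral_tendsto_integral hsum tendsto_neg_atTop_atBot tendsto_id
  have hzero : Tendsto (fun R : ℝ => ∫ σ in (-R)..(id R),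
      ((fun σ : ℝ => (G σ - G (σ + 2 * π * I)) * (1 / (1 - Complex.exp (-(η - σ))))) +
        fun σ : ℝ => G η *
          (1 / Complex.sinh ((((σ - η.re : ℝ) : ℂ) - (η.im : ℂ) * I) / 2))) σ) atTop (𝓝 0) := by
    have s1 := side_tendsto (G := G) hC η (l := atTop) (a := fun R => R) tendsto_abs_atTop_atTop
    have s2 := side_tendsto (G := G) hC η (l := atTop) (a := fun R => -R)
      (by simpa using tendsto_abs_atTop_atTop)
    have s3 := ((s1.const_mul I).neg.add (s2.const_mul I))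
    simp only [mul_zero, neg_zero, add_zero] at s3
    refine s3.congr fun R => ?_
    have hrect := Complex.integral_boundary_rect_eq_zero_of_differentiableOn (scH G η)
      ((-R : ℝ) : ℂ) ((R : ℂ) + (2 * π : ℝ) * I) ((scH_diff hG η).mono ?_)
    · simp only [Complex.ofReal_re, Complex.ofReal_im, Complex.add_re, Complex.add_im,
        Complex.mul_re, Complex.mul_im, Complex.I_re, Complex.I_im, mul_zero, mul_one, sub_zero,
        zero_add, add_zero, smul_eq_mul] at hrect
      have hc0 := (line_cont hG h0 h1 le_rfl (by positivity)).intervalIntegrable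
        (μ := volume) (-R) R
      have hc1 := (line_cont hG h0 h1 (by positivity) le_rfl).intervalIntegrable
        (μ := volume) (-R) R
      have e1 : ∫ σ in (-R)..(id R),
          ((fun σ : ℝ => (G σ - G (σ + 2 * π * I)) * (1 / (1 - Complex.exp (-(η - σ))))) +
            fun σ : ℝ => G η *
              (1 / Complex.sinh ((((σ - η.re : ℝ) : ℂ) - (η.im : ℂ) * I) / 2))) σ =
          ∫ σ in (-R)..R, (scH G η ((σ : ℂ) + (0 : ℝ) * I) -
            scH G η ((σ : ℂ) + (2 * π : ℝ) * I)) := by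
        refine intervalIntegral.integral_congr fun σ _ => ?_
        simp only [Pi.add_apply]
        rw [strip_diff h0 h1 σ]
      rw [e1, intervalIntegral.integral_sub hc0 hc1]
      linear_combination -hrect
    · intro w hw
      rw [Complex.mem_reProdIm] at hw
      have h2 := hw.2
      simp only [Complex.ofReal_im, Complex.add_im, Complex.mul_im, Complex.ofReal_re,
        Complex.I_im, mul_one, Complex.I_re, mul_zero, zero_add, add_zero] at h2
      rw [uIcc_of_le (by positivity : (0 : ℝ) ≤ 2 * π)] at h2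
      exact line_mem h0 h1 h2.1 h2.2
  have huniq := tendsto_nhds_unique hlim hzero
  simp only [Pi.add_apply] at huniq
  rw [integral_add hI (hK.const_mul (G η)), integral_const_mul, hKv] at huniq
  linear_combination huniq

end HBOne
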